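import Pool.Agent.Work.MP_7d1693_pr.FX.Defs
import Pool.Agent.Work.MP_7d1693_pr.SAME
import Pool.Agent.Work.MP_7d1693_pr.PAT

/-! # Module WdType (S-M): the type of an `r`-partite word

`HasType (wd r s) lam` with `lam.sum = r` (or by the length of the word, `2 r = 2 lam.sum`) implies `lam = List.replicate r 1`: `wd r s = word b` with blocks `(a, sign)`; if the first block has `a ≥ 2` then `word b` starts with two equal letters, but `wd r s` starts with two different letters; so `a = 1`, remove the first two letters and use
induction on `r` (generalize `s` and drop the condition on the first sign: `word ((List.range (r+1)).map ...) = [s 0, !s 0] ++ word ((List.range r).map (fun j => (1, s (j+1))))`, `List.range_succ_eq_map`). `wd_congr`: `wd` depends on the values below `r` only. `wd_inj`: the signs are determined by the word. -/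

namespace Pool.Agent.Work.MP_7d1693_pr.FX

open Finset FM

private theorem wd_succ_aux (r : ℕ) (s : ℕ → Bool) :
    wd (r + 1) s = s 0 :: (!s 0) :: wd r (fun j => s (j + 1)) := by
  unfold wd
  rw [List.range_succ_eq_map]
  simp [word, List.map_map, Function.comp_def]

private theorem wd_zero_aux (s : ℕ → Bool) : wd 0 s = [] := by
  simp [wd, word]

private theorem wd_blocks (r : ℕ) : ∀ (s : ℕ → Bool) (b : List (ℕ × Bool)),
    (∀ x ∈ b, 0 < x.1) → wd r s = word b → b.map Prod.fst = List.replicate r 1 := by
  induction r with
  | zero =>
    intro s b hb h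
    rw [wd_zero_aux] at h
    cases b with
    | nil => simp
    | cons x l =>
      obtain ⟨a, t⟩ := x
      have ha : 0 < a := hb (a, t) (by simp)
      obtain ⟨a', rfl⟩ : ∃ a', a = a' + 1 := ⟨a - 1, by omega⟩
      simp [word, List.replicate_succ] at h
  | succ r ih =>
    intro s b hb h
    rw [wd_succ_aux] at h
    cases b with
    | nil => simp [word] at h
    | cons x l =>
      obtain ⟨a, t⟩ := x
      have ha : 0 < a := hb (a, t) (by simp)
      obtain ⟨a', rfl⟩ : ∃ a', a = a' + 1 := ⟨a - 1, by omega⟩
      cases a' with
      | zero =>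
        have h2 : s 0 :: (!s 0) :: wd r (fun j => s (j + 1)) = t :: (!t) :: word l := by
          simpa [word] using h
        have h3 : wd r (fun j => s (j + 1)) = word l := by
          injection h2 with h21 h22
          injection h22
        have h4 := ih (fun j => s (j + 1)) l (fun x hx => hb x (List.mem_cons_of_mem _ hx)) h3
        simp [List.replicate_succ, h4]
      | succ a'' =>
        exfalso
        have h2 : s 0 :: (!s 0) :: wd r (fun j => s (j + 1)) =
            t :: t :: (List.replicate a'' t ++ List.replicate (a'' + 2) (!t) ++ word l) := by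
          simpa [word, List.replicate_succ, List.append_assoc] using h
        injection h2 with h21 h22
        injection h22 with h23 h24
        rw [← h21] at h23
        cases hs : s 0 <;> simp [hs] at h23

theorem wd_type {r : ℕ} {s : ℕ → Bool} {lam : List ℕ} (h : HasType (wd r s) lam) :
    lam = List.replicate r 1 := by
  obtain ⟨b, hb1, hb2, -, hb4⟩ := h
  rw [← hb1]
  exact wd_blocks r s b hb2 hb4

theorem wd_hasType {r : ℕ} (hr : 1 ≤ r) {s : ℕ → Bool} (hs : s 0 = true) :
    HasType (wd r s) (List.replicate r 1) := by
  refine ⟨(List.range r).map fun j => (1, s j), ?_, ?_, ?_, rfl⟩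
  · rw [List.map_map]
    have : (Prod.fst ∘ fun j : ℕ => ((1 : ℕ), s j)) = fun _ => 1 := rfl
    rw [this]
    simp
  · intro x hx
    rw [List.mem_map] at hx
    obtain ⟨j, -, rfl⟩ := hx
    exact Nat.one_pos
  · obtain ⟨r', rfl⟩ : ∃ r', r = r' + 1 := ⟨r - 1, by omega⟩
    rw [List.range_succ_eq_map]
    simp [hs]

theorem wd_congr {r : ℕ} {s s' : ℕ → Bool} (h : ∀ i < r, s i = s' i) : wd r s = wd r s' := by
  unfold wd
  congr 1
  apply List.map_congr_left
  intro j hj
  rw [List.mem_range] at hj
  rw [h j hj]

theorem wd_inj {r : ℕ} {s s' : ℕ → Bool} (h : wd r s = wd r s') : ∀ i < r, s i = s' i := by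
  induction r generalizing s s' with
  | zero => intro i hi; omega
  | succ r ih =>
    rw [wd_succ_aux, wd_succ_aux] at h
    injection h with h1 h2
    injection h2 with h3 h4
    intro i hi
    cases i with
    | zero => exact h1
    | succ j => exact ih h4 j (by omega)

end Pool.Agent.Work.MP_7d1693_pr.FX
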