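import Pool.Agent.Work.MP_7d1693_pr.FX.Defs

/-! # Module Adm3 (S-M): the types for `r = 3` and `r = 2`

A list with sum `3` and positive entries is `[3]`, `[1,2]`, `[2,1]` or `[1,1,1]`. `HasType w lam`: `w = word b`, the first components of `b` are `lam`, the first sign is `true`: for each `lam` there are `2^(length - 1)` possibilities for `b`, evaluate `word` (`List.replicate`, `rfl`/`simp [word]`/`decide`). The same for `r = 2`: `[2]`, `[1,1]`. -/

namespace Pool.Agent.Work.MP_7d1693_pr.FX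

open Finset FM

private theorem ht111 (w : List Bool) : HasType w [1, 1, 1] ↔ ∃ i, w = W3 i := by
  constructor
  · rintro ⟨b, hb, -, hh, rfl⟩
    rcases b with _ | ⟨⟨a0, s0⟩, _ | ⟨⟨a1, s1⟩, _ | ⟨⟨a2, s2⟩, _ | ⟨x, b⟩⟩⟩⟩
    · simp at hb
    · simp at hb
    · simp at hb
    · simp only [List.map_cons, List.map_nil, List.cons.injEq, and_true] at hb
      obtain ⟨rfl, rfl, rfl⟩ := hb
      simp only [List.head?_cons, Option.map_some, Option.some.injEq] at hh
      subst hh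
      cases s1 <;> cases s2
      · exact ⟨3, rfl⟩
      · exact ⟨2, rfl⟩
      · exact ⟨1, rfl⟩
      · exact ⟨0, rfl⟩
    · simp at hb
  · rintro ⟨i, rfl⟩
    fin_cases i
    · exact ⟨[(1, true), (1, true), (1, true)], rfl, by simp, rfl, rfl⟩
    · exact ⟨[(1, true), (1, true), (1, false)], rfl, by simp, rfl, rfl⟩
    · exact ⟨[(1, true), (1, false), (1, true)], rfl, by simp, rfl, rfl⟩
    · exact ⟨[(1, true), (1, false), (1, false)], rfl, by simp, rfl, rfl⟩

private theorem ht12 (w : List Bool) : HasType w [1, 2] ↔ ∃ i, w = W12 i := by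
  constructor
  · rintro ⟨b, hb, -, hh, rfl⟩
    rcases b with _ | ⟨⟨a0, s0⟩, _ | ⟨⟨a1, s1⟩, _ | ⟨x, b⟩⟩⟩
    · simp at hb
    · simp at hb
    · simp only [List.map_cons, List.map_nil, List.cons.injEq, and_true] at hb
      obtain ⟨rfl, rfl⟩ := hb
      simp only [List.head?_cons, Option.map_some, Option.some.injEq] at hh
      subst hh
      cases s1
      · exact ⟨1, rfl⟩
      · exact ⟨0, rfl⟩
    · simp at hb
  · rintro ⟨i, rfl⟩
    fin_cases i
    · exact ⟨[(1, true), (2, true)], rfl, by simp, rfl, rfl⟩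
    · exact ⟨[(1, true), (2, false)], rfl, by simp, rfl, rfl⟩

private theorem ht21 (w : List Bool) : HasType w [2, 1] ↔ ∃ i, w = W21 i := by
  constructor
  · rintro ⟨b, hb, -, hh, rfl⟩
    rcases b with _ | ⟨⟨a0, s0⟩, _ | ⟨⟨a1, s1⟩, _ | ⟨x, b⟩⟩⟩
    · simp at hb
    · simp at hb
    · simp only [List.map_cons, List.map_nil, List.cons.injEq, and_true] at hb
      obtain ⟨rfl, rfl⟩ := hb
      simp only [List.head?_cons, Option.map_some, Option.some.injEq] at hh
      subst hh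
      cases s1
      · exact ⟨1, rfl⟩
      · exact ⟨0, rfl⟩
    · simp at hb
  · rintro ⟨i, rfl⟩
    fin_cases i
    · exact ⟨[(2, true), (1, true)], rfl, by simp, rfl, rfl⟩
    · exact ⟨[(2, true), (1, false)], rfl, by simp, rfl, rfl⟩

private theorem ht3 (w : List Bool) : HasType w [3] ↔ w = W30 := by
  constructor
  · rintro ⟨b, hb, -, hh, rfl⟩
    rcases b with _ | ⟨⟨a0, s0⟩, _ | ⟨x, b⟩⟩
    · simp at hb
    · simp only [List.map_cons, List.map_nil, List.cons.injEq, and_true] at hb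
      subst hb
      simp only [List.head?_cons, Option.map_some, Option.some.injEq] at hh
      subst hh
      rfl
    · simp at hb
  · rintro rfl
    exact ⟨[(3, true)], rfl, by simp, rfl, rfl⟩

private theorem ht11 (w : List Bool) : HasType w [1, 1] ↔
    w = [true, false, true, false] ∨ w = [true, false, false, true] := by
  constructor
  · rintro ⟨b, hb, -, hh, rfl⟩
    rcases b with _ | ⟨⟨a0, s0⟩, _ | ⟨⟨a1, s1⟩, _ | ⟨x, b⟩⟩⟩
    · simp at hb
    · simp at hb
    · simp only [List.map_cons, List.map_nil, List.cons.injEq, and_true] at hb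
      obtain ⟨rfl, rfl⟩ := hb
      simp only [List.head?_cons, Option.map_some, Option.some.injEq] at hh
      subst hh
      cases s1
      · exact Or.inr rfl
      · exact Or.inl rfl
    · simp at hb
  · rintro (rfl | rfl)
    · exact ⟨[(1, true), (1, true)], rfl, by simp, rfl, rfl⟩
    · exact ⟨[(1, true), (1, false)], rfl, by simp, rfl, rfl⟩

private theorem ht2 (w : List Bool) : HasType w [2] ↔ w = [true, true, false, false] := by
  constructor
  · rintro ⟨b, hb, -, hh, rfl⟩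
    rcases b with _ | ⟨⟨a0, s0⟩, _ | ⟨x, b⟩⟩
    · simp at hb
    · simp only [List.map_cons, List.map_nil, List.cons.injEq, and_true] at hb
      subst hb
      simp only [List.head?_cons, Option.map_some, Option.some.injEq] at hh
      subst hh
      rfl
    · simp at hb
  · rintro rfl
    exact ⟨[(2, true)], rfl, by simp, rfl, rfl⟩

private theorem ht_pos {w : List Bool} {lam : List ℕ} (h : HasType w lam) : ∀ a ∈ lam, 0 < a := by
  obtain ⟨b, hb, hpos, -, -⟩ := h
  intro a ha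
  rw [← hb] at ha
  obtain ⟨x, hx, rfl⟩ := List.mem_map.1 ha
  exact hpos x hx

private theorem comp3 {lam : List ℕ} (hs : lam.sum = 3) (hp : ∀ a ∈ lam, 0 < a) :
    lam = [1, 1, 1] ∨ lam = [1, 2] ∨ lam = [2, 1] ∨ lam = [3] := by
  rcases lam with _ | ⟨a, _ | ⟨b, _ | ⟨c, _ | ⟨d, l⟩⟩⟩⟩
  · simp at hs
  · simp only [List.sum_cons, List.sum_nil, add_zero] at hs
    subst hs
    simp
  · simp only [List.sum_cons, List.sum_nil, add_zero] at hs
    have h1 := hp a (by simp)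
    have h2 := hp b (by simp)
    have h3 : (a = 1 ∧ b = 2) ∨ (a = 2 ∧ b = 1) := by omega
    rcases h3 with ⟨rfl, rfl⟩ | ⟨rfl, rfl⟩ <;> simp
  · simp only [List.sum_cons, List.sum_nil, add_zero] at hs
    have h1 := hp a (by simp)
    have h2 := hp b (by simp)
    have h3 := hp c (by simp)
    have h4 : a = 1 ∧ b = 1 ∧ c = 1 := by omega
    obtain ⟨rfl, rfl, rfl⟩ := h4
    simp
  · simp only [List.sum_cons] at hs
    have h1 := hp a (by simp)
    have h2 := hp b (by simp)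
    have h3 := hp c (by simp)
    have h4 := hp d (by simp)
    omega

private theorem comp2 {lam : List ℕ} (hs : lam.sum = 2) (hp : ∀ a ∈ lam, 0 < a) :
    lam = [1, 1] ∨ lam = [2] := by
  rcases lam with _ | ⟨a, _ | ⟨b, _ | ⟨c, l⟩⟩⟩
  · simp at hs
  · simp only [List.sum_cons, List.sum_nil, add_zero] at hs
    subst hs
    simp
  · simp only [List.sum_cons, List.sum_nil, add_zero] at hs
    have h1 := hp a (by simp)
    have h2 := hp b (by simp)
    have h3 : a = 1 ∧ b = 1 := by omega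
    obtain ⟨rfl, rfl⟩ := h3
    simp
  · simp only [List.sum_cons] at hs
    have h1 := hp a (by simp)
    have h2 := hp b (by simp)
    have h3 := hp c (by simp)
    omega

theorem adm3 (P : Set (List Bool)) (lam : List ℕ) : Adm 3 P lam ↔
    (lam = [1, 1, 1] ∧ ∃ i, W3 i ∈ P) ∨ (lam = [1, 2] ∧ ∃ i, W12 i ∈ P) ∨
      (lam = [2, 1] ∧ ∃ i, W21 i ∈ P) ∨ (lam = [3] ∧ W30 ∈ P) := by
  constructor
  · rintro ⟨hs, w, hw, ht⟩
    rcases comp3 hs (ht_pos ht) with rfl | rfl | rfl | rfl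
    · obtain ⟨i, rfl⟩ := (ht111 w).1 ht
      exact Or.inl ⟨rfl, i, hw⟩
    · obtain ⟨i, rfl⟩ := (ht12 w).1 ht
      exact Or.inr (Or.inl ⟨rfl, i, hw⟩)
    · obtain ⟨i, rfl⟩ := (ht21 w).1 ht
      exact Or.inr (Or.inr (Or.inl ⟨rfl, i, hw⟩))
    · have := (ht3 w).1 ht
      subst this
      exact Or.inr (Or.inr (Or.inr ⟨rfl, hw⟩))
  · rintro (⟨rfl, i, hi⟩ | ⟨rfl, i, hi⟩ | ⟨rfl, i, hi⟩ | ⟨rfl, hi⟩)
    · exact ⟨rfl, _, hi, (ht111 _).2 ⟨i, rfl⟩⟩
    · exact ⟨rfl, _, hi, (ht12 _).2 ⟨i, rfl⟩⟩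
    · exact ⟨rfl, _, hi, (ht21 _).2 ⟨i, rfl⟩⟩
    · exact ⟨rfl, _, hi, (ht3 _).2 rfl⟩

theorem adm2 (P : Set (List Bool)) (lam : List ℕ) : Adm 2 P lam ↔
    (lam = [1, 1] ∧ ([true, false, true, false] ∈ P ∨ [true, false, false, true] ∈ P)) ∨
      (lam = [2] ∧ [true, true, false, false] ∈ P) := by
  constructor
  · rintro ⟨hs, w, hw, ht⟩
    rcases comp2 hs (ht_pos ht) with rfl | rfl
    · rcases (ht11 w).1 ht with rfl | rfl
      · exact Or.inl ⟨rfl, Or.inl hw⟩
      · exact Or.inl ⟨rfl, Or.inr hw⟩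
    · have := (ht2 w).1 ht
      subst this
      exact Or.inr ⟨rfl, hw⟩
  · rintro (⟨rfl, hi | hi⟩ | ⟨rfl, hi⟩)
    · exact ⟨rfl, _, hi, (ht11 _).2 (Or.inl rfl)⟩
    · exact ⟨rfl, _, hi, (ht11 _).2 (Or.inr rfl)⟩
    · exact ⟨rfl, _, hi, (ht2 _).2 rfl⟩

theorem thin3 {P : Set (List Bool)} (h1 : ∀ i j, W3 i ∈ P → W3 j ∈ P → i = j)
    (h2 : ∀ i j, W12 i ∈ P → W12 j ∈ P → i = j) (h3 : ∀ i j, W21 i ∈ P → W21 j ∈ P → i = j) :
    Thin 3 P := by
  intro lam hs w hw w' hw' ht ht'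
  rcases comp3 hs (ht_pos ht) with rfl | rfl | rfl | rfl
  · obtain ⟨i, rfl⟩ := (ht111 w).1 ht
    obtain ⟨j, rfl⟩ := (ht111 w').1 ht'
    rw [h1 i j hw hw']
  · obtain ⟨i, rfl⟩ := (ht12 w).1 ht
    obtain ⟨j, rfl⟩ := (ht12 w').1 ht'
    rw [h2 i j hw hw']
  · obtain ⟨i, rfl⟩ := (ht21 w).1 ht
    obtain ⟨j, rfl⟩ := (ht21 w').1 ht'
    rw [h3 i j hw hw']
  · rw [(ht3 w).1 ht, (ht3 w').1 ht']

theorem thin2 {P : Set (List Bool)}
    (h : ¬ ([true, false, true, false] ∈ P ∧ [true, false, false, true] ∈ P)) :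
    Thin 2 P := by
  intro lam hs w hw w' hw' ht ht'
  rcases comp2 hs (ht_pos ht) with rfl | rfl
  · rcases (ht11 w).1 ht with rfl | rfl
    · rcases (ht11 w').1 ht' with rfl | rfl
      · rfl
      · exact absurd ⟨hw, hw'⟩ h
    · rcases (ht11 w').1 ht' with rfl | rfl
      · exact absurd ⟨hw', hw⟩ h
      · rfl
  · rw [(ht2 w).1 ht, (ht2 w').1 ht']

end Pool.Agent.Work.MP_7d1693_pr.FX
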