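import Pool.Agent.Work.MP_7d1693_pr.FX.Defs
import Pool.Agent.Work.MP_7d1693_pr.FM.ETot
import Pool.Agent.Work.MP_7d1693_pr.FM.ChB
import Pool.Agent.Work.MP_7d1693_pr.FM.PhiReg

/-! # Module ZLog (M): bound for the generating function

`ClA r P B` is the disjoint union of the `Cl r P B k`, `k ≤ (Ebox r B).card` (`Finset.sum_fiberwise_of_maps_to` or a sigma decomposition), so `ZB = ∑ k ∈ range (N+1), (Cl r P B k).card X^k`. `card_Cl`: the cardinal is `ac k * chB B k`; `phi_pow`: `ac k = phi^k k^(rk)`,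
`chB_le`: `chB B k * k^(rk) ≤ (e^r vol)^k` for `k ≥ 1`. So the term is at most `(D k^(-p) e^r vol X)^k = (y k^(-p))^k` with `y = e^r D vol X`. Let `b k = (y^(1/p))^k / k!`; as `k! ≤ k^k`: `(y k^(-p))^k = ((y^(1/p))^k / k^k)^p ≤ (b k)^p` (also for `k = 0`, where the
term is `1` by `ac_zero` or directly: the only clique with `0` edges is `∅`). For `p ≥ 1` and nonnegative numbers `∑ (b k)^p ≤ (∑ b k)^p` (each `(b k)^p = (b k)^(p-1) b k ≤ S^(p-1) b k` with `S = ∑ b k`, if `S > 0`) and `∑ b k ≤ exp (y^(1/p))` (`Real.sum_le_exp_of_nonneg`). So `ZB ≤ exp (y^(1/p))^p`. -/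

namespace Pool.Agent.Work.MP_7d1693_pr.FX

open Finset FM

private theorem zb_eq (r : ℕ) (P : Set (List Bool)) (B : Box) (X : ℝ) :
    ZB r P B X = ∑ k ∈ range ((Ebox r B).card + 1), ((Cl r P B k).card : ℝ) * X ^ k := by
  classical
  unfold ZB
  have hmaps : ∀ K ∈ ClA r P B, K.card ∈ range ((Ebox r B).card + 1) := by
    intro K hK
    unfold ClA at hK
    rw [mem_filter, mem_powerset] at hK
    rw [mem_range]
    have := card_le_card hK.1
    omega
  rw [← Finset.sum_fiberwise_of_maps_to hmaps (fun K => X ^ K.card)]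
  refine Finset.sum_congr rfl (fun k _ => ?_)
  have hset : (ClA r P B).filter (fun K => K.card = k) = Cl r P B k := by
    unfold ClA Cl
    ext K
    simp only [mem_filter, mem_powerset, mem_powersetCard]
    tauto
  rw [hset]
  have hc : ∀ K ∈ Cl r P B k, X ^ K.card = X ^ k := by
    intro K hK
    unfold Cl at hK
    rw [mem_filter, mem_powersetCard] at hK
    rw [hK.1.2]
  rw [Finset.sum_congr rfl hc, Finset.sum_const, nsmul_eq_mul]

private theorem card_zero_le (r : ℕ) (P : Set (List Bool)) (B : Box) : (Cl r P B 0).card ≤ 1 := by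
  classical
  unfold Cl
  refine (card_filter_le _ _).trans ?_
  rw [powersetCard_zero, card_singleton]

private theorem sum_rpow_le (s : Finset ℕ) (b : ℕ → ℝ) (hb : ∀ k, 0 ≤ b k) {p : ℝ} (hp : 1 ≤ p) :
    ∑ k ∈ s, (b k) ^ p ≤ (∑ k ∈ s, b k) ^ p := by
  have hS0 : 0 ≤ ∑ k ∈ s, b k := Finset.sum_nonneg (fun k _ => hb k)
  have hterm : ∀ k ∈ s, (b k) ^ p ≤ b k * (∑ k ∈ s, b k) ^ (p - 1) := by
    intro k hk
    rcases eq_or_lt_of_le (hb k) with h0 | h0
    · rw [← h0, Real.zero_rpow (by linarith), zero_mul]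
    · have e : (b k) ^ p = b k * (b k) ^ (p - 1) := by
        rw [Real.rpow_sub_one h0.ne']
        field_simp
      rw [e]
      refine mul_le_mul_of_nonneg_left ?_ (hb k)
      refine Real.rpow_le_rpow (hb k) ?_ (by linarith)
      exact Finset.single_le_sum (f := b) (fun i _ => hb i) hk
  refine (Finset.sum_le_sum hterm).trans ?_
  rw [← Finset.sum_mul]
  rcases eq_or_lt_of_le hS0 with h0 | h0
  · rw [← h0, zero_mul, Real.zero_rpow (by linarith)]
  · rw [Real.rpow_sub_one h0.ne']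
    refine le_of_eq ?_
    field_simp

private theorem term_le {r : ℕ} (hr : 1 ≤ r) {P : Set (List Bool)} {c : ℕ} {B : Box}
    (hB : BOrd c B) (hC : Comp r (shape B)) {D p X : ℝ} (hD : 0 < D) (hp : 1 ≤ p) (hX : 0 < X)
    (h : ∀ k : ℕ, 1 ≤ k → phi r P (shape B) k ≤ D * (k : ℝ) ^ (-p)) (k : ℕ) :
    ((Cl r P B k).card : ℝ) * X ^ k ≤
      (((Real.exp r * D * volB B * X) ^ (1 / p)) ^ k / (k.factorial : ℝ)) ^ p := by
  have hy0 : 0 ≤ Real.exp r * D * volB B * X := by positivity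
  set y := Real.exp r * D * volB B * X with hy
  rcases Nat.eq_zero_or_pos k with rfl | hk
  · have h1 : ((Cl r P B 0).card : ℝ) ≤ 1 := by exact_mod_cast card_zero_le r P B
    rw [pow_zero, pow_zero, mul_one, Nat.factorial_zero, Nat.cast_one, div_one, Real.one_rpow]
    exact h1
  · have hkp : (0 : ℝ) < k := by exact_mod_cast hk
    have h1 : ((Cl r P B k).card : ℝ) = (ac r P (shape B) k : ℝ) * (chB B k : ℝ) := by
      exact_mod_cast card_Cl hr P hB hC.1 k
    have h2 : (ac r P (shape B) k : ℝ) = phi r P (shape B) k ^ k * (k : ℝ) ^ (r * k) :=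
      (phi_pow r P (shape B) hk).symm
    have h3 : (chB B k : ℝ) * (k : ℝ) ^ (r * k) ≤ (Real.exp r * volB B) ^ k := chB_le hC hk
    have h4 : phi r P (shape B) k ^ k ≤ (D * (k : ℝ) ^ (-p)) ^ k :=
      pow_le_pow_left₀ (phi_nonneg r P (shape B) k) (h k hk) k
    have h5 : ((Cl r P B k).card : ℝ) * X ^ k ≤ (y * (k : ℝ) ^ (-p)) ^ k := by
      rw [h1, h2]
      have hkr : (0 : ℝ) < (k : ℝ) ^ (-p) := Real.rpow_pos_of_pos hkp _
      calc phi r P (shape B) k ^ k * (k : ℝ) ^ (r * k) * (chB B k : ℝ) * X ^ k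
          = phi r P (shape B) k ^ k * ((chB B k : ℝ) * (k : ℝ) ^ (r * k)) * X ^ k := by ring
        _ ≤ (D * (k : ℝ) ^ (-p)) ^ k * (Real.exp r * volB B) ^ k * X ^ k := by
            refine mul_le_mul_of_nonneg_right ?_ (by positivity)
            exact mul_le_mul h4 h3 (by positivity) (by positivity)
        _ = (y * (k : ℝ) ^ (-p)) ^ k := by
            rw [← mul_pow, ← mul_pow, hy]
            congr 1
            ring
    refine h5.trans ?_
    have hf : (0 : ℝ) < (k.factorial : ℝ) := by exact_mod_cast k.factorial_pos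
    have hfk : (k.factorial : ℝ) ≤ (k : ℝ) ^ k := by exact_mod_cast Nat.factorial_le_pow k
    have hp0 : (0 : ℝ) < p := by linarith
    have e1 : (((y) ^ (1 / p)) ^ k / (k.factorial : ℝ)) ^ p = y ^ k / (k.factorial : ℝ) ^ p := by
      rw [Real.div_rpow (by positivity) hf.le, ← Real.rpow_natCast (y ^ (1 / p)) k,
        ← Real.rpow_mul hy0, ← Real.rpow_mul hy0]
      have e2 : 1 / p * (k : ℝ) * p = (k : ℝ) := by
        field_simp
      rw [e2, Real.rpow_natCast]
    rw [e1, mul_pow]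
    have e3 : ((k : ℝ) ^ (-p)) ^ k = 1 / ((k : ℝ) ^ k) ^ p := by
      rw [← Real.rpow_natCast ((k : ℝ) ^ (-p)) k, ← Real.rpow_mul hkp.le,
        ← Real.rpow_natCast (k : ℝ) k, ← Real.rpow_mul hkp.le, one_div, ← Real.rpow_neg hkp.le]
      congr 1
      ring
    rw [e3, mul_one_div]
    refine div_le_div_of_nonneg_left (by positivity) (Real.rpow_pos_of_pos hf _) ?_
    exact Real.rpow_le_rpow hf.le hfk hp0.le

theorem z_log {r : ℕ} (hr : 1 ≤ r) {P : Set (List Bool)} {c : ℕ} {B : Box} (hB : BOrd c B)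
    (hC : Comp r (shape B)) {D p X : ℝ} (hD : 0 < D) (hp : 1 ≤ p) (hX : 0 < X)
    (h : ∀ k : ℕ, 1 ≤ k → phi r P (shape B) k ≤ D * (k : ℝ) ^ (-p)) :
    ZB r P B X ≤ Real.exp (p * (Real.exp r * D * volB B * X) ^ (1 / p)) := by
  have hy0 : 0 ≤ Real.exp r * D * volB B * X := by positivity
  have hx0 : 0 ≤ (Real.exp r * D * volB B * X) ^ (1 / p) := Real.rpow_nonneg hy0 _
  have hp0 : (0 : ℝ) < p := by linarith
  rw [zb_eq]
  refine (Finset.sum_le_sum (fun k _ => term_le hr hB hC hD hp hX h k)).trans ?_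
  refine (sum_rpow_le _ _ (fun k => by positivity) hp).trans ?_
  have h1 := Real.sum_le_exp_of_nonneg hx0 ((Ebox r B).card + 1)
  refine (Real.rpow_le_rpow (Finset.sum_nonneg (fun k _ => by positivity)) h1 hp0.le).trans ?_
  rw [← Real.exp_mul, mul_comm]

end Pool.Agent.Work.MP_7d1693_pr.FX
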