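import Pool.Agent.Work.MP_7d1693_pr.FX.Defs
import Pool.Agent.Work.MP_7d1693_pr.FM.Dyad
import Pool.Agent.Work.MP_7d1693_pr.FM.SubBox
import Pool.Agent.Work.MP_7d1693_pr.FM.Vert

/-! # Module ZMul (M): splitting one part of the box

For `e ∈ Ebox r B`, `B = B1 ++ (s, lo, lo + 2^L) :: B2`, let `A` be the part of `e` in `[lo, lo + 2^L)`; it has `s ≥ 2` elements (`InB`), so `exists_spl` gives `(h, q)` with `IsSpl lo L A h q`; let `p` be the number of elements of `A` below `dmid lo L h q`: `0 < p < s`, and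
`e ∈ Ebox r (sub B1 s lo L B2 h q p)` (nothing of `e` is outside the box, `A` is contained in `[dlo, dhi)`; the counts in the intervals of `B1`, `B2` are unchanged). Choose such a triple `c(e) = (h, q, p)` for each `e`. The set of triples is
`T = (range L).sigma (fun h => range (2^h) ×ˢ Ico 1 s)` (or any encoding). The map `K ↦ (K.filter (fun e => c e = x))_{x ∈ T}` is injective on `ClA r P B` (the union is `K`), its components are in `ClA r P (sub ...)` (subfamilies of cliques are cliques), and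
`X ^ K.card = ∏ x ∈ T, X ^ (K.filter ...).card` (`Finset.card_eq_sum_card_fiberwise`, `Finset.prod_pow_eq_pow_sum`). `Finset.prod_sum` expands the product of the sums as a sum over `Finset.pi`; the left side is the sum over the image of an injective map, all terms are positive. -/

namespace Pool.Agent.Work.MP_7d1693_pr.FX

open Finset FM

private theorem zm_gen {α ι : Type*} [DecidableEq α] [DecidableEq ι] (T : Finset ι) (c : α → ι)
    (F : Finset (Finset α)) (G : ι → Finset (Finset α)) {X : ℝ} (hX : 0 < X)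
    (h1 : ∀ K ∈ F, ∀ e ∈ K, c e ∈ T)
    (h2 : ∀ K ∈ F, ∀ x ∈ T, K.filter (fun e => c e = x) ∈ G x) :
    ∑ K ∈ F, X ^ K.card ≤ ∏ x ∈ T, ∑ K ∈ G x, X ^ K.card := by
  classical
  rw [Finset.prod_sum]
  let φ : Finset α → (x : ι) → x ∈ T → Finset α := fun K x _ => K.filter (fun e => c e = x)
  have hinj : Set.InjOn φ (F : Set (Finset α)) := by
    intro K hK K' hK' h
    ext e
    constructor
    · intro he
      have h3 : φ K (c e) (h1 K hK e he) = φ K' (c e) (h1 K hK e he) := by rw [h]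
      have h4 : e ∈ φ K (c e) (h1 K hK e he) := Finset.mem_filter.2 ⟨he, rfl⟩
      rw [h3] at h4
      exact (Finset.mem_filter.1 h4).1
    · intro he
      have h3 : φ K (c e) (h1 K' hK' e he) = φ K' (c e) (h1 K' hK' e he) := by rw [h]
      have h4 : e ∈ φ K' (c e) (h1 K' hK' e he) := Finset.mem_filter.2 ⟨he, rfl⟩
      rw [← h3] at h4
      exact (Finset.mem_filter.1 h4).1
  calc ∑ K ∈ F, X ^ K.card = ∑ K ∈ F, ∏ x ∈ T.attach, X ^ (φ K x.1 x.2).card := by
        refine Finset.sum_congr rfl fun K hK => ?_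
        rw [Finset.prod_pow_eq_pow_sum]
        congr 1
        have h3 := Finset.sum_attach T (fun x => (K.filter (fun e => c e = x)).card)
        rw [show ∑ x ∈ T.attach, (φ K x.1 x.2).card =
          ∑ x ∈ T.attach, (K.filter (fun e => c e = x.1)).card from rfl, h3]
        exact Finset.card_eq_sum_card_fiberwise (h1 K hK)
    _ = ∑ p ∈ F.image φ, ∏ x ∈ T.attach, X ^ (p x.1 x.2).card :=
        (Finset.sum_image (f := fun p : (x : ι) → x ∈ T → Finset α =>
          ∏ x ∈ T.attach, X ^ (p x.1 x.2).card) hinj).symm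
    _ ≤ _ := by
        refine Finset.sum_le_sum_of_subset_of_nonneg ?_ (fun _ _ _ => by positivity)
        intro p hp
        obtain ⟨K, hK, rfl⟩ := Finset.mem_image.1 hp
        rw [Finset.mem_pi]
        intro x hx
        exact h2 K hK x hx

private theorem zm_vert {B : Box} {v : ℕ} : v ∈ vert B ↔ ∃ b ∈ B, b.2.1 ≤ v ∧ v < b.2.2 := by
  unfold vert
  rw [mem_biUnion]
  simp only [List.mem_toFinset, mem_Ico]

private theorem zm_dm {lo L h q : ℕ} (hh : h < L) (hq : q < 2 ^ h) :
    lo ≤ dlo lo L h q ∧ dlo lo L h q ≤ dmid lo L h q ∧ dmid lo L h q ≤ dhi lo L h q ∧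
      dhi lo L h q ≤ lo + 2 ^ L := by
  unfold dlo dmid dhi
  have e1 : 2 ^ (L - h) = 2 ^ (L - h - 1) + 2 ^ (L - h - 1) := by
    have h1 : L - h = (L - h - 1) + 1 := by omega
    conv_lhs => rw [h1, pow_succ]
    ring
  have e2 : (q + 1) * 2 ^ (L - h) ≤ 2 ^ L := by
    calc (q + 1) * 2 ^ (L - h) ≤ 2 ^ h * 2 ^ (L - h) := Nat.mul_le_mul_right _ hq
      _ = 2 ^ L := by
        rw [← pow_add]
        congr 1
        omega
  have e3 : (q + 1) * 2 ^ (L - h) = q * 2 ^ (L - h) + 2 ^ (L - h) := by ring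
  rw [e3] at e2
  generalize 2 ^ (L - h - 1) = x at *
  generalize 2 ^ (L - h) = y at *
  generalize q * y = z at *
  refine ⟨by omega, by omega, by omega, by omega⟩

private theorem zm_split {r : ℕ} {B1 B2 : Box} {s lo L : ℕ} (hs : 2 ≤ s) {e : Finset ℕ}
    (he : e ∈ Ebox r (B1 ++ (s, lo, lo + 2 ^ L) :: B2)) :
    ∃ h q p, h < L ∧ q < 2 ^ h ∧ 1 ≤ p ∧ p < s ∧ e ∈ Ebox r (sub B1 s lo L B2 h q p) := by
  classical
  unfold Ebox at he
  rw [mem_filter, mem_powersetCard] at he
  obtain ⟨⟨hv, hc⟩, hI⟩ := he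
  set A := e.filter (fun v => lo ≤ v ∧ v < lo + 2 ^ L) with hA
  have hAc : A.card = s := by
    have h1 := hI (s, lo, lo + 2 ^ L) (List.mem_append.2 (Or.inr List.mem_cons_self))
    rw [one_mul] at h1
    exact h1
  obtain ⟨h, q, h1, h2, h3, ⟨v0, hv0, hv0'⟩, ⟨w0, hw0, hw0'⟩⟩ :=
    exists_spl (lo := lo) (L := L) (A := A) (fun v hv => (mem_filter.1 hv).2) (by omega)
  obtain ⟨d1, d2, d3, d4⟩ := zm_dm (lo := lo) h1 h2
  refine ⟨h, q, (A.filter (fun v => v < dmid lo L h q)).card, h1, h2,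
    Finset.card_pos.2 ⟨v0, mem_filter.2 ⟨hv0, hv0'⟩⟩, ?_, ?_⟩
  · rw [← hAc]
    apply Finset.card_lt_card
    rw [Finset.ssubset_iff_of_subset (Finset.filter_subset _ _)]
    exact ⟨w0, hw0, fun h => absurd (Finset.mem_filter.1 h).2 (by omega)⟩
  · unfold Ebox
    rw [mem_filter, mem_powersetCard]
    refine ⟨⟨?_, hc⟩, ?_⟩
    · intro v hve
      obtain ⟨b, hb, hb1⟩ := zm_vert.1 (hv hve)
      rw [zm_vert]
      unfold sub
      rcases List.mem_append.1 hb with h5 | h5
      · exact ⟨b, List.mem_append.2 (Or.inl h5), hb1⟩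
      · rcases List.mem_cons.1 h5 with h6 | h6
        · have h7 : v ∈ A := by
            rw [hA, mem_filter]
            rw [h6] at hb1
            exact ⟨hve, hb1⟩
          have h8 := h3 v h7
          rcases lt_or_ge v (dmid lo L h q) with h9 | h9
          · exact ⟨_, List.mem_append.2 (Or.inr List.mem_cons_self), h8.1, h9⟩
          · exact ⟨_, List.mem_append.2 (Or.inr (List.mem_cons_of_mem _ List.mem_cons_self)),
              h9, h8.2⟩
        · exact ⟨b, List.mem_append.2 (Or.inr (List.mem_cons_of_mem _ (List.mem_cons_of_mem _ h6))),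
            hb1⟩
    · intro b' hb'
      unfold sub at hb'
      rcases List.mem_append.1 hb' with h5 | h5
      · exact hI b' (List.mem_append.2 (Or.inl h5))
      · rcases List.mem_cons.1 h5 with h6 | h6
        · rw [h6]
          change (e.filter (fun v => dlo lo L h q ≤ v ∧ v < dmid lo L h q)).card =
            1 * (A.filter (fun v => v < dmid lo L h q)).card
          rw [one_mul]
          congr 1
          ext v
          rw [hA]
          simp only [Finset.mem_filter]
          constructor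
          · rintro ⟨k1, k2, k3⟩
            exact ⟨⟨k1, by omega, by omega⟩, k3⟩
          · rintro ⟨⟨k1, k2, k3⟩, k4⟩
            exact ⟨k1, (h3 v (mem_filter.2 ⟨k1, k2, k3⟩)).1, k4⟩
        · rcases List.mem_cons.1 h6 with h7 | h7
          · rw [h7]
            change (e.filter (fun v => dmid lo L h q ≤ v ∧ v < dhi lo L h q)).card =
              1 * (s - (A.filter (fun v => v < dmid lo L h q)).card)
            rw [one_mul]
            have k5 : A.filter (fun v => ¬ v < dmid lo L h q) =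
                e.filter (fun v => dmid lo L h q ≤ v ∧ v < dhi lo L h q) := by
              ext v
              rw [hA]
              simp only [Finset.mem_filter]
              constructor
              · rintro ⟨⟨k1, k2, k3⟩, k4⟩
                exact ⟨k1, by omega, (h3 v (mem_filter.2 ⟨k1, k2, k3⟩)).2⟩
              · rintro ⟨k1, k2, k3⟩
                exact ⟨⟨k1, by omega, by omega⟩, by omega⟩
            rw [← k5]
            have k6 := Finset.card_filter_add_card_filter_not (s := A)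
              (fun v => v < dmid lo L h q)
            omega
          · exact hI b' (List.mem_append.2 (Or.inr (List.mem_cons_of_mem _ h7)))

private theorem zm_cl {r : ℕ} {P : Set (List Bool)} {B B' : Box} {K K' : Finset (Finset ℕ)}
    (hK : K ∈ ClA r P B) (hsub : K' ⊆ K) (hE : ∀ e ∈ K', e ∈ Ebox r B') : K' ∈ ClA r P B' := by
  classical
  unfold ClA at hK ⊢
  rw [mem_filter, mem_powerset] at hK ⊢
  obtain ⟨h1, ⟨h2, h3⟩, h4⟩ := hK
  exact ⟨fun e he => hE e he, ⟨fun e he => h2 e (hsub he),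
    fun e he f hf => h3 e (hsub he) f (hsub hf)⟩,
    fun e he f hf => h4 e (hsub he) f (hsub hf)⟩

theorem z_mul {r : ℕ} {P : Set (List Bool)} {B1 B2 : Box} {s lo L : ℕ} {X : ℝ} (hX : 0 < X)
    (hs : 2 ≤ s) (hB : BOrd 0 (B1 ++ (s, lo, lo + 2 ^ L) :: B2)) :
    ZB r P (B1 ++ (s, lo, lo + 2 ^ L) :: B2) X ≤
      ∏ h ∈ range L, ∏ q ∈ range (2 ^ h), ∏ p ∈ Ico 1 s, ZB r P (sub B1 s lo L B2 h q p) X := by
  classical
  have hch : ∀ e ∈ Ebox r (B1 ++ (s, lo, lo + 2 ^ L) :: B2), ∃ x : (_ : ℕ) × ℕ × ℕ,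
      x ∈ (range L).sigma (fun h => range (2 ^ h) ×ˢ Ico 1 s) ∧
        e ∈ Ebox r (sub B1 s lo L B2 x.1 x.2.1 x.2.2) := by
    intro e he
    obtain ⟨h, q, p, h1, h2, h3, h4, h5⟩ := zm_split hs he
    refine ⟨⟨h, q, p⟩, ?_, h5⟩
    rw [Finset.mem_sigma, Finset.mem_product]
    exact ⟨mem_range.2 h1, mem_range.2 h2, mem_Ico.2 ⟨h3, h4⟩⟩
  choose! c hc1 hc2 using hch
  have hprod : (∏ h ∈ range L, ∏ q ∈ range (2 ^ h), ∏ p ∈ Ico 1 s,
      ZB r P (sub B1 s lo L B2 h q p) X) =
      ∏ x ∈ (range L).sigma (fun h => range (2 ^ h) ×ˢ Ico 1 s),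
        ZB r P (sub B1 s lo L B2 x.1 x.2.1 x.2.2) X := by
    rw [Finset.prod_sigma]
    refine Finset.prod_congr rfl fun h _ => ?_
    rw [Finset.prod_product]
  rw [hprod]
  have hKE : ∀ K ∈ ClA r P (B1 ++ (s, lo, lo + 2 ^ L) :: B2), ∀ e ∈ K,
      e ∈ Ebox r (B1 ++ (s, lo, lo + 2 ^ L) :: B2) := by
    intro K hK e he
    unfold ClA at hK
    rw [mem_filter, mem_powerset] at hK
    exact hK.1 he
  unfold ZB
  refine zm_gen _ c _ (fun x => ClA r P (sub B1 s lo L B2 x.1 x.2.1 x.2.2)) hX ?_ ?_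
  · intro K hK e he
    exact hc1 e (hKE K hK e he)
  · intro K hK x _
    refine zm_cl hK (Finset.filter_subset _ _) ?_
    intro e he
    obtain ⟨he1, he2⟩ := mem_filter.1 he
    rw [← he2]
    exact hc2 e (hKE K hK e he1)

end Pool.Agent.Work.MP_7d1693_pr.FX
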