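import Pool.Agent.Work.MP_7d1693_pr.FX.Defs

/-! # Module ZSum (S): a coefficient of the generating function

`Cl r P B k` is contained in `ClA r P B` (its elements have cardinal `k`); all terms of the sum are nonnegative: restrict the sum to `Cl r P B k`. -/

namespace Pool.Agent.Work.MP_7d1693_pr.FX

open Finset FM

theorem z_sum {r : ℕ} {P : Set (List Bool)} {B : Box} {X : ℝ} (hX : 0 ≤ X) (k : ℕ) :
    ((Cl r P B k).card : ℝ) * X ^ k ≤ ZB r P B X := by
  classical
  have hsub : Cl r P B k ⊆ ClA r P B := by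
    intro K hK
    unfold Cl at hK
    unfold ClA
    rw [Finset.mem_filter, Finset.mem_powersetCard] at hK
    rw [Finset.mem_filter, Finset.mem_powerset]
    exact ⟨hK.1.1, hK.2⟩
  have hcard : ∀ K ∈ Cl r P B k, K.card = k := by
    intro K hK
    unfold Cl at hK
    rw [Finset.mem_filter, Finset.mem_powersetCard] at hK
    exact hK.1.2
  have h1 : ((Cl r P B k).card : ℝ) * X ^ k = ∑ K ∈ Cl r P B k, X ^ K.card := by
    rw [Finset.sum_congr rfl (fun K hK => by rw [hcard K hK]), Finset.sum_const, nsmul_eq_mul]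
  rw [h1]
  unfold ZB
  exact Finset.sum_le_sum_of_subset_of_nonneg hsub (fun K _ _ => pow_nonneg hX _)

end Pool.Agent.Work.MP_7d1693_pr.FX
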