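import Pool.Agent.Work.MP_7d1693_pr.FX.Defs
import Pool.Agent.Work.MP_7d1693_pr.FX.ZSum
import Pool.Agent.Work.MP_7d1693_pr.FX.ZMul
import Pool.Agent.Work.MP_7d1693_pr.FX.ZLog
import Pool.Agent.Work.MP_7d1693_pr.FM.ETot
import Pool.Agent.Work.MP_7d1693_pr.FM.ChB
import Pool.Agent.Work.MP_7d1693_pr.FM.SubBox
import Pool.Agent.Work.MP_7d1693_pr.FM.PhiReg

/-! # Module Trans (M): transfer of the exponent to a coarser shape

Let `D` be the largest of the constants of the hypotheses (`0 < q < s`). Let `k ≥ 1`, `N = 2^L` with `k r ≤ N ≤ 2 k r` (`L ≥ 1` as `k r ≥ s ≥ 2`), `lam = l1 ++ s :: l2`, `B = nBox N 0 lam = nBox N 0 l1 ++ (s, lo, lo + N) :: nBox N (lo + N) l2`, `lo = N * l1.length` (induction on `l1`). It is ordered, has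
shape `lam` (`FM/Link` has private proofs of these facts for `nBox`, copy them) and `volB B = N^r`. The box `sub B1 s lo L B2 h q p` has shape `l1 ++ p :: (s-p) :: l2` (`sub_ord` for the order, `sub_comp`) and volume `N^(r-s) (2^(L-h-1))^s = N^r 2^(-(h+1)s)`.
`z_mul`, `z_log`: `ZB B X ≤ exp (∑ h < L, 2^h (s-1) p (y 2^(-(h+1)s))^(1/p))` with `y = e^r D N^r X`; the exponent is at most `(s-1) p y^(1/p) ∑_h 2^(h (1 - s/p)) ≤ C1 (N^r X)^(1/p)` because `p < s` (geometric series with ratio `2^(1-s/p) < 1`). Take `X = k^p / N^r`: `ZB B X ≤ exp (C1 k)`.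
`z_sum`: `(Cl B k).card X^k ≤ exp (C1 k)`, `card_Cl`: `(Cl B k).card = ac k * chB B k`, `le_chB` (its hypothesis `k * b.1 ≤ N` holds as `b.1 ≤ r`): `N^(rk) ≤ chB B k (r^r k^r)^k`. So `ac k/k^(rk) ≤ (Cl B k).card r^(rk)/N^(rk) ≤ exp(C1 k) r^(rk) X^(-k) N^(-rk) = (exp C1 r^r k^(-p))^k`, and `phi^k = ac k/k^(rk)` (`phi_pow`).
Take `k`-th roots (`pow_le_pow_left` converse, `le_of_pow_le_pow_left`). -/

namespace Pool.Agent.Work.MP_7d1693_pr.FX

open Finset FM

private theorem nBox_ord (n : ℕ) (l : List ℕ) : ∀ c : ℕ, BOrd c (nBox n c l) := by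
  induction l with
  | nil => intro c; exact trivial
  | cons s l ih =>
    intro c
    exact ⟨le_rfl, Nat.le_add_right c n, ih (c + n)⟩

private theorem nBox_shape (n : ℕ) (l : List ℕ) : ∀ c : ℕ, shape (nBox n c l) = l := by
  induction l with
  | nil => intro c; rfl
  | cons s l ih =>
    intro c
    show s :: shape (nBox n (c + n) l) = s :: l
    rw [ih (c + n)]

private theorem nBox_vol (n : ℕ) (l : List ℕ) : ∀ c : ℕ, volB (nBox n c l) = n ^ l.sum := by
  induction l with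
  | nil => intro c; rfl
  | cons s l ih =>
    intro c
    have h : volB (nBox n c (s :: l)) = (c + n - c) ^ s * volB (nBox n (c + n) l) := by
      show (List.map _ (_ :: _)).prod = _
      rw [List.map_cons, List.prod_cons]
      rfl
    rw [h, ih (c + n), Nat.add_sub_cancel_left, List.sum_cons, pow_add]

private theorem nBox_lenN (n : ℕ) : ∀ (l : List ℕ) (c : ℕ), ∀ b ∈ nBox n c l,
    n ≤ b.2.2 - b.2.1 := by
  intro l
  induction l with
  | nil =>
    intro c b hb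
    simp [nBox] at hb
  | cons s l ih =>
    intro c b hb
    rw [nBox, List.mem_cons] at hb
    rcases hb with rfl | hb
    · simp
    · exact ih (c + n) b hb

private theorem nBox_split (n : ℕ) (l1 l2 : List ℕ) (s : ℕ) : ∀ c : ℕ,
    nBox n c (l1 ++ s :: l2) = nBox n c l1 ++
      (s, c + n * l1.length, c + n * l1.length + n) :: nBox n (c + n * l1.length + n) l2 := by
  induction l1 with
  | nil =>
    intro c
    simp [nBox]
  | cons a l1 ih =>
    intro c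
    have e : c + n + n * l1.length = c + n * (a :: l1).length := by
      rw [List.length_cons]
      ring
    rw [List.cons_append, nBox, ih (c + n), nBox, List.cons_append, e]

private theorem shape_sub' (B1 B2 : Box) (s lo L h q p : ℕ) :
    shape (sub B1 s lo L B2 h q p) = shape B1 ++ p :: (s - p) :: shape B2 := by
  simp [shape, sub]

/-- the volume of the split box -/
private theorem vol_sub {B1 B2 : Box} {s lo L h q p : ℕ} (hh : h < L) (hs : p < s) :
    volB (sub B1 s lo L B2 h q p) * 2 ^ ((h + 1) * s) =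
      volB (B1 ++ (s, lo, lo + 2 ^ L) :: B2) := by
  have e1 : dmid lo L h q - dlo lo L h q = 2 ^ (L - h - 1) := by
    unfold dmid dlo
    exact Nat.add_sub_cancel_left _ _
  have e2 : dhi lo L h q - dmid lo L h q = 2 ^ (L - h - 1) := by
    have h1 : L - h = (L - h - 1) + 1 := by omega
    have h2 : 2 ^ (L - h) = 2 ^ (L - h - 1) + 2 ^ (L - h - 1) := by
      conv_lhs => rw [h1, pow_succ]
      ring
    have h3 : dhi lo L h q = dmid lo L h q + 2 ^ (L - h - 1) := by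
      unfold dhi dmid
      rw [h2]
      ring
    rw [h3]
    exact Nat.add_sub_cancel_left _ _
  have e3 : lo + 2 ^ L - lo = 2 ^ L := Nat.add_sub_cancel_left _ _
  unfold volB sub
  simp only [List.map_append, List.map_cons, List.prod_append, List.prod_cons]
  rw [e1, e2, e3]
  have h4 : (2 ^ (L - h - 1)) ^ p * (2 ^ (L - h - 1)) ^ (s - p) * 2 ^ ((h + 1) * s) =
      (2 ^ L) ^ s := by
    rw [← pow_add, ← pow_mul, ← pow_mul, ← pow_add]
    congr 1
    have hps : p + (s - p) = s := by omega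
    rw [hps]
    obtain ⟨u, hu⟩ : ∃ u, L = u + (h + 1) := ⟨L - (h + 1), by omega⟩
    have hu' : L - h - 1 = u := by omega
    rw [hu', hu]
    ring
  rw [← h4]
  ring

/-- the geometric sum -/
private theorem geo (L : ℕ) {p : ℝ} {s : ℕ} (hp : 1 ≤ p) (hps : p < s) {y : ℝ} (hy : 0 ≤ y) :
    ∑ h ∈ range L, ∑ _q ∈ range (2 ^ h), ∑ _p ∈ Ico 1 s,
        p * (y / (2 : ℝ) ^ ((h + 1) * s)) ^ (1 / p) ≤
      (s : ℝ) * p * y ^ (1 / p) / (1 - (2 : ℝ) ^ (1 - (s : ℝ) / p)) := by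
  have hp0 : (0 : ℝ) < p := by linarith
  have hs0 : (0 : ℝ) < s := by linarith
  set ρ : ℝ := (2 : ℝ) ^ (1 - (s : ℝ) / p) with hρ
  have hρ0 : 0 < ρ := Real.rpow_pos_of_pos (by norm_num) _
  have hρ1 : ρ < 1 := by
    have h1 : 1 < (s : ℝ) / p := by rwa [one_lt_div hp0]
    exact Real.rpow_lt_one_of_one_lt_of_neg (by norm_num) (by linarith)
  have hterm : ∀ h ∈ range L, ∑ _q ∈ range (2 ^ h), ∑ _p ∈ Ico 1 s,
      p * (y / (2 : ℝ) ^ ((h + 1) * s)) ^ (1 / p) ≤ (s : ℝ) * p * y ^ (1 / p) * ρ ^ h := by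
    intro h _
    rw [Finset.sum_const, Finset.sum_const, card_range, Nat.card_Ico, nsmul_eq_mul, nsmul_eq_mul]
    have e1 : (y / (2 : ℝ) ^ ((h + 1) * s)) ^ (1 / p) =
        y ^ (1 / p) * (2 : ℝ) ^ (-(((h : ℝ) + 1) * s / p)) := by
      rw [Real.div_rpow hy (by positivity), ← Real.rpow_natCast (2 : ℝ) ((h + 1) * s),
        ← Real.rpow_mul (by norm_num), div_eq_mul_inv, ← Real.rpow_neg (by norm_num)]
      congr 2
      push_cast
      ring
    have e2 : ((2 ^ h : ℕ) : ℝ) * (2 : ℝ) ^ (-(((h : ℝ) + 1) * s / p)) ≤ ρ ^ h := by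
      have e3 : ρ ^ h = (2 : ℝ) ^ ((1 - (s : ℝ) / p) * h) := by
        rw [hρ, ← Real.rpow_natCast _ h, ← Real.rpow_mul (by norm_num)]
      have e4 : ((2 ^ h : ℕ) : ℝ) = (2 : ℝ) ^ (h : ℝ) := by
        rw [Real.rpow_natCast]
        push_cast
        rfl
      rw [e3, e4, ← Real.rpow_add (by norm_num)]
      refine Real.rpow_le_rpow_of_exponent_le (by norm_num) ?_
      have : 0 ≤ (s : ℝ) / p := by positivity
      have e5 : (h : ℝ) + -(((h : ℝ) + 1) * s / p) = (1 - (s : ℝ) / p) * h - s / p := by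
        field_simp
        ring
      rw [e5]
      linarith
    have hs1 : (((s - 1 : ℕ)) : ℝ) ≤ s := by exact_mod_cast Nat.sub_le s 1
    have hy' : 0 ≤ y ^ (1 / p) := Real.rpow_nonneg hy _
    rw [e1]
    calc ((2 ^ h : ℕ) : ℝ) * (((s - 1 : ℕ) : ℝ) *
          (p * (y ^ (1 / p) * (2 : ℝ) ^ (-(((h : ℝ) + 1) * s / p)))))
        = ((s - 1 : ℕ) : ℝ) * (p * y ^ (1 / p) *
            (((2 ^ h : ℕ) : ℝ) * (2 : ℝ) ^ (-(((h : ℝ) + 1) * s / p)))) := by ring
      _ ≤ (s : ℝ) * (p * y ^ (1 / p) * ρ ^ h) := by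
          refine mul_le_mul hs1 ?_ (by positivity) hs0.le
          exact mul_le_mul_of_nonneg_left e2 (by positivity)
      _ = (s : ℝ) * p * y ^ (1 / p) * ρ ^ h := by ring
  refine (Finset.sum_le_sum hterm).trans ?_
  rw [← Finset.mul_sum]
  have hg : ∑ h ∈ range L, ρ ^ h ≤ 1 / (1 - ρ) := by
    rw [geom_sum_eq hρ1.ne, le_div_iff₀ (by linarith)]
    have hne : ρ - 1 ≠ 0 := by linarith
    have : (ρ ^ L - 1) / (ρ - 1) * (1 - ρ) = 1 - ρ ^ L := by
      field_simp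
      ring
    rw [this]
    have := pow_pos hρ0 L
    linarith
  have hy' : 0 ≤ y ^ (1 / p) := Real.rpow_nonneg hy _
  calc (s : ℝ) * p * y ^ (1 / p) * ∑ h ∈ range L, ρ ^ h
      ≤ (s : ℝ) * p * y ^ (1 / p) * (1 / (1 - ρ)) :=
        mul_le_mul_of_nonneg_left hg (by positivity)
    _ = (s : ℝ) * p * y ^ (1 / p) / (1 - ρ) := by ring

theorem trans {r : ℕ} (hr : 1 ≤ r) {P : Set (List Bool)} {l1 l2 : List ℕ} {s : ℕ} (hs : 2 ≤ s)
    (hc : Comp r (l1 ++ s :: l2)) {p : ℝ} (hp : 1 ≤ p) (hps : p < s)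
    (h : ∀ q, 0 < q → q < s → Ub r P (l1 ++ q :: (s - q) :: l2) p) :
    Ub r P (l1 ++ s :: l2) p := by
  classical
  have hp0 : (0 : ℝ) < p := by linarith
  -- a common constant
  obtain ⟨D, hD, hDb⟩ : ∃ D : ℝ, 0 < D ∧ ∀ q, 0 < q → q < s → ∀ k : ℕ, 1 ≤ k →
      phi r P (l1 ++ q :: (s - q) :: l2) k ≤ D * (k : ℝ) ^ (-p) := by
    have hch : ∀ q : ℕ, ∃ C : ℝ, 0 < C ∧ (0 < q → q < s → ∀ k : ℕ, 1 ≤ k →
        phi r P (l1 ++ q :: (s - q) :: l2) k ≤ C * (k : ℝ) ^ (-p)) := by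
      intro q
      by_cases h1 : 0 < q ∧ q < s
      · obtain ⟨C, hC, hCb⟩ := h q h1.1 h1.2
        exact ⟨C, hC, fun _ _ => hCb⟩
      · exact ⟨1, one_pos, fun ha hb => absurd ⟨ha, hb⟩ h1⟩
    choose C hC hCb using hch
    refine ⟨∑ q ∈ range s, C q, Finset.sum_pos (fun q _ => hC q) ⟨0, by
      rw [mem_range]; omega⟩, ?_⟩
    intro q h0 hq k hk
    refine (hCb q h0 hq k hk).trans ?_
    refine mul_le_mul_of_nonneg_right ?_ (Real.rpow_nonneg (Nat.cast_nonneg _) _)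
    exact Finset.single_le_sum (f := C) (fun i _ => (hC i).le) (mem_range.mpr hq)
  set C1 : ℝ := (s : ℝ) * p * (Real.exp r * D) ^ (1 / p) / (1 - (2 : ℝ) ^ (1 - (s : ℝ) / p))
    with hC1
  have hr0 : (0 : ℝ) < r := by exact_mod_cast hr
  refine ⟨Real.exp C1 * (r : ℝ) ^ r, by positivity, ?_⟩
  intro k hk
  have hkp : (0 : ℝ) < k := by exact_mod_cast hk
  -- the box
  obtain ⟨L, hL⟩ : ∃ L : ℕ, L = k * r := ⟨_, rfl⟩
  have hkr : k * r ≤ 2 ^ L := by rw [hL]; exact Nat.lt_two_pow_self.le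
  obtain ⟨N, hN⟩ : ∃ N : ℕ, N = 2 ^ L := ⟨_, rfl⟩
  have hN0 : (0 : ℝ) < N := by rw [hN]; positivity
  set lam := l1 ++ s :: l2 with hlam
  have hsplit := nBox_split N l1 l2 s 0
  rw [← hlam] at hsplit
  set B1 := nBox N 0 l1 with hB1
  set lo := 0 + N * l1.length with hlo
  set B2 := nBox N (lo + N) l2 with hB2
  have hB : nBox N 0 lam = B1 ++ (s, lo, lo + 2 ^ L) :: B2 := by
    rw [hsplit, ← hN]
  have hord : BOrd 0 (B1 ++ (s, lo, lo + 2 ^ L) :: B2) := by
    rw [← hB]; exact nBox_ord N lam 0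
  have hsh : shape (B1 ++ (s, lo, lo + 2 ^ L) :: B2) = lam := by
    rw [← hB]; exact nBox_shape N lam 0
  have hvol : volB (B1 ++ (s, lo, lo + 2 ^ L) :: B2) = N ^ r := by
    rw [← hB, nBox_vol N lam 0, hc.1]
  have hcomp : Comp r (shape (B1 ++ (s, lo, lo + 2 ^ L) :: B2)) := by
    rw [hsh]; exact hc
  obtain ⟨X, hXd⟩ : ∃ X : ℝ, X = (k : ℝ) ^ p / (N : ℝ) ^ r := ⟨_, rfl⟩
  have hkpp : 0 < (k : ℝ) ^ p := Real.rpow_pos_of_pos hkp _
  have hX : 0 < X := by rw [hXd]; positivity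
  -- the generating function
  have hZ : ZB r P (B1 ++ (s, lo, lo + 2 ^ L) :: B2) X ≤ Real.exp (C1 * k) := by
    refine (z_mul hX hs hord).trans ?_
    have hy0 : 0 ≤ Real.exp r * D * (k : ℝ) ^ p := by positivity
    have hfac : ∀ h' ∈ range L, ∀ q ∈ range (2 ^ h'), ∀ p' ∈ Ico 1 s,
        ZB r P (sub B1 s lo L B2 h' q p') X ≤
          Real.exp (p * ((Real.exp r * D * (k : ℝ) ^ p) / (2 : ℝ) ^ ((h' + 1) * s)) ^ (1 / p)) := by
      intro h' hh' q hq p' hp'
      rw [mem_range] at hh' hq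
      rw [mem_Ico] at hp'
      have hso := sub_ord (c := 0) (p := p') hord hh' hq
      have hsc := sub_comp (r := r) (h := h') (q := q) (p := p') hcomp (by omega) hp'.2
      have hz := z_log hr (P := P) hso hsc (D := D) (p := p) (X := X) hD hp hX (by
        intro k' hk'
        rw [shape_sub', hB1, hB2, nBox_shape, nBox_shape]
        exact hDb p' (by omega) hp'.2 k' hk')
      refine hz.trans (le_of_eq ?_)
      have hv : ((volB (sub B1 s lo L B2 h' q p') : ℕ) : ℝ) = (N : ℝ) ^ r / (2 : ℝ) ^ ((h' + 1) * s) := by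
        rw [eq_div_iff (by positivity)]
        have := vol_sub (B1 := B1) (B2 := B2) (s := s) (lo := lo) (L := L) (h := h') (q := q)
          (p := p') hh' hp'.2
        rw [hvol] at this
        exact_mod_cast this
      rw [hv, hXd]
      congr 3
      field_simp
    have hprod : ∏ h' ∈ range L, ∏ q ∈ range (2 ^ h'), ∏ p' ∈ Ico 1 s,
        ZB r P (sub B1 s lo L B2 h' q p') X ≤
        ∏ h' ∈ range L, ∏ _q ∈ range (2 ^ h'), ∏ _p' ∈ Ico 1 s,
          Real.exp (p * ((Real.exp r * D * (k : ℝ) ^ p) / (2 : ℝ) ^ ((h' + 1) * s)) ^ (1 / p)) := by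
      have hnn : ∀ B : Box, 0 ≤ ZB r P B X := by
        intro B
        unfold ZB
        exact Finset.sum_nonneg (fun K _ => by positivity)
      refine Finset.prod_le_prod (fun i _ => Finset.prod_nonneg (fun j _ =>
        Finset.prod_nonneg (fun l _ => hnn _))) (fun i hi => ?_)
      refine Finset.prod_le_prod (fun j _ => Finset.prod_nonneg (fun l _ => hnn _))
        (fun j hj => ?_)
      exact Finset.prod_le_prod (fun l _ => hnn _) (fun l hl => hfac i hi j hj l hl)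
    refine hprod.trans ?_
    simp only [← Real.exp_sum]
    refine Real.exp_le_exp.mpr ?_
    refine (geo L hp hps hy0).trans (le_of_eq ?_)
    rw [hC1, Real.mul_rpow (by positivity) hkpp.le, ← Real.rpow_mul hkp.le,
      mul_one_div_cancel hp0.ne', Real.rpow_one]
    ring
  -- the number of cliques
  have hcard := z_sum (r := r) (P := P) (B := B1 ++ (s, lo, lo + 2 ^ L) :: B2) hX.le k
  have hcl : (((Cl r P (B1 ++ (s, lo, lo + 2 ^ L) :: B2) k).card : ℕ) : ℝ) =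
      (ac r P lam k : ℝ) * (chB (B1 ++ (s, lo, lo + 2 ^ L) :: B2) k : ℝ) := by
    have := card_Cl hr P hord hcomp.1 k
    rw [hsh] at this
    exact_mod_cast this
  have hch := le_chB hcomp hk (by
    intro b hb
    rw [← hB] at hb
    have h1 := nBox_lenN N lam 0 b hb
    have h2 : b.1 ≤ r := by
      have hb' : b.1 ∈ lam := by
        rw [← nBox_shape N lam 0]
        exact List.mem_map_of_mem hb
      rw [← hc.1]
      exact List.le_sum_of_mem hb'
    calc k * b.1 ≤ k * r := Nat.mul_le_mul_left _ h2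
      _ ≤ N := by rw [hN]; exact hkr
      _ ≤ _ := h1)
  rw [hvol] at hch
  set A : ℝ := (ac r P lam k : ℝ) with hA
  set H : ℝ := (chB (B1 ++ (s, lo, lo + 2 ^ L) :: B2) k : ℝ) with hH
  have hA0 : 0 ≤ A := Nat.cast_nonneg _
  rw [hcl] at hcard
  have hmain : A * H * X ^ k ≤ Real.exp (C1 * k) := hcard.trans hZ
  -- A * N^(rk) ≤ A H (r^r k^r)^k
  have h1 : A * ((N : ℝ) ^ r) ^ k ≤ A * H * ((r : ℝ) ^ r * (k : ℝ) ^ r) ^ k := by
    rw [mul_assoc]
    refine mul_le_mul_of_nonneg_left ?_ hA0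
    have := hch
    push_cast at this
    exact this
  have hXk : X ^ k * ((N : ℝ) ^ r) ^ k = ((k : ℝ) ^ p) ^ k := by
    rw [← mul_pow, hXd]
    congr 1
    field_simp
  have h2 : A * ((k : ℝ) ^ p) ^ k ≤ Real.exp (C1 * k) * ((r : ℝ) ^ r * (k : ℝ) ^ r) ^ k := by
    calc A * ((k : ℝ) ^ p) ^ k = (A * ((N : ℝ) ^ r) ^ k) * X ^ k := by rw [← hXk]; ring
      _ ≤ (A * H * ((r : ℝ) ^ r * (k : ℝ) ^ r) ^ k) * X ^ k :=
          mul_le_mul_of_nonneg_right h1 (by positivity)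
      _ = (A * H * X ^ k) * ((r : ℝ) ^ r * (k : ℝ) ^ r) ^ k := by ring
      _ ≤ Real.exp (C1 * k) * ((r : ℝ) ^ r * (k : ℝ) ^ r) ^ k :=
          mul_le_mul_of_nonneg_right hmain (by positivity)
  have hphi : phi r P lam k ^ k * (k : ℝ) ^ (r * k) = A := phi_pow r P lam hk
  have h3 : (phi r P lam k * (k : ℝ) ^ p) ^ k ≤ (Real.exp C1 * (r : ℝ) ^ r) ^ k := by
    have e1 : Real.exp (C1 * k) = Real.exp C1 ^ k := by
      rw [mul_comm, Real.exp_nat_mul]
    rw [e1, ← hphi, mul_pow ((r : ℝ) ^ r), pow_mul] at h2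
    have hkk : 0 < ((k : ℝ) ^ r) ^ k := by positivity
    have h4 : (phi r P lam k ^ k * ((k : ℝ) ^ p) ^ k) * ((k : ℝ) ^ r) ^ k ≤
        (Real.exp C1 ^ k * ((r : ℝ) ^ r) ^ k) * ((k : ℝ) ^ r) ^ k := by
      calc (phi r P lam k ^ k * ((k : ℝ) ^ p) ^ k) * ((k : ℝ) ^ r) ^ k
          = phi r P lam k ^ k * ((k : ℝ) ^ r) ^ k * ((k : ℝ) ^ p) ^ k := by ring
        _ ≤ Real.exp C1 ^ k * (((r : ℝ) ^ r) ^ k * ((k : ℝ) ^ r) ^ k) := h2
        _ = (Real.exp C1 ^ k * ((r : ℝ) ^ r) ^ k) * ((k : ℝ) ^ r) ^ k := by ring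
    have h5 := le_of_mul_le_mul_right h4 hkk
    rw [mul_pow, mul_pow]
    exact h5
  have h4 : phi r P lam k * (k : ℝ) ^ p ≤ Real.exp C1 * (r : ℝ) ^ r :=
    le_of_pow_le_pow_left₀ (by omega) (by positivity) h3
  rw [Real.rpow_neg hkp.le, ← div_eq_mul_inv, le_div_iff₀ hkpp]
  exact h4

end Pool.Agent.Work.MP_7d1693_pr.FX
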