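import Pool.Agent.Work.MP_7d1693_pr.FX.Defs
import Pool.Agent.Work.MP_7d1693_pr.FX.Trans

/-! # Module AllTrans (S): transfer to all shapes

Strong induction on `r - lam.length` (or on the number of missing parts): if all parts of `lam` are `1` then `lam = List.replicate r 1`. Otherwise `lam = l1 ++ s :: l2` with `s ≥ 2` (`List.append_of_mem`), `trans` with `p < 2 ≤ s`; the lists `l1 ++ q :: (s-q) :: l2` are
compositions of `r` with one more part (a composition of `r` has at most `r` parts). -/

namespace Pool.Agent.Work.MP_7d1693_pr.FX

open Finset FM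

private theorem length_le_sum (l : List ℕ) (h : ∀ a ∈ l, 0 < a) : l.length ≤ l.sum := by
  induction l with
  | nil => simp
  | cons a l ih =>
    have h1 : 0 < a := h a (by simp)
    have h2 : l.length ≤ l.sum := ih (fun b hb => h b (by simp [hb]))
    simp only [List.length_cons, List.sum_cons]
    omega

private theorem all_trans_aux {r : ℕ} (hr : 1 ≤ r) {P : Set (List Bool)} {p : ℝ} (hp : 1 ≤ p) (hp2 : p < 2)
    (h : Ub r P (List.replicate r 1) p) (m : ℕ) :
    ∀ lam : List ℕ, Comp r lam → r - lam.length = m → Ub r P lam p := by
  induction m using Nat.strong_induction_on with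
  | _ m ih =>
    intro lam hc hm
    by_cases h1 : ∀ a ∈ lam, a = 1
    · have h2 : lam = List.replicate lam.length 1 := List.eq_replicate_iff.mpr ⟨rfl, h1⟩
      have h3 : lam.sum = lam.length := by
        rw [h2]
        simp
      rw [hc.1] at h3
      rw [h2, ← h3]
      exact h
    · push Not at h1
      obtain ⟨s, hs, hs1⟩ := h1
      have hs0 := hc.2 s hs
      have hs2 : 2 ≤ s := by omega
      obtain ⟨l1, l2, rfl⟩ := List.append_of_mem hs
      refine trans hr hs2 hc hp (lt_of_lt_of_le hp2 (by exact_mod_cast hs2)) ?_
      intro q hq hqs
      have hc' : Comp r (l1 ++ q :: (s - q) :: l2) := by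
        refine ⟨?_, ?_⟩
        · have := hc.1
          simp only [List.sum_append, List.sum_cons] at this ⊢
          omega
        · intro a ha
          simp only [List.mem_append, List.mem_cons] at ha
          rcases ha with ha | ha | ha | ha
          · exact hc.2 a (by simp [ha])
          · omega
          · omega
          · exact hc.2 a (by simp [ha])
      have hlen := length_le_sum _ hc'.2
      rw [hc'.1] at hlen
      simp only [List.length_append, List.length_cons] at hlen hm
      refine ih (r - (l1 ++ q :: (s - q) :: l2).length) ?_ _ hc' rfl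
      simp only [List.length_append, List.length_cons]
      omega

theorem all_trans {r : ℕ} (hr : 1 ≤ r) {P : Set (List Bool)} {p : ℝ} (hp : 1 ≤ p) (hp2 : p < 2)
    (h : Ub r P (List.replicate r 1) p) {lam : List ℕ} (hc : Comp r lam) : Ub r P lam p :=
  all_trans_aux hr hp hp2 h _ lam hc rfl

end Pool.Agent.Work.MP_7d1693_pr.FX
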