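import Pool.Agent.Work.MP_7d1693_pr.FX.Defs

/-! # Module Anti (S): sets without strictly comparable points

Put `y i = x i` if `u i = true` and `y i = M - 1 - x i` otherwise. The map `x ↦ (y i - y 0 + M)_{i ≠ 0}` (natural numbers in `[1, 2M)`) is injective on `T`: if two different points have the same image then the differences `y i - y' i` do not depend on `i`, they are not zero, so one of the points is
strictly below the other in all coordinates `y`: excluded. Count the functions from `{i : Fin r // i ≠ 0}` (or `Fin (r-1)` through `Fin.succ` after `r = r' + 1`) to `Fin (2 M)`. (`T = ∅` or `M ≥ 1`.) -/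

namespace Pool.Agent.Work.MP_7d1693_pr.FX

open Finset FM

private theorem anti_key {r : ℕ} {M : ℕ} (u : Fin (r + 1) → Bool) (x y : Fin (r + 1) → ℕ)
    (hx : ∀ i, x i < M) (hy : ∀ i, y i < M)
    (h : ¬ ∀ i, (if u i = true then x i < y i else y i < x i))
    (he : ∀ i, (if u i = true then x i else M - 1 - x i) + M -
        (if u 0 = true then x 0 else M - 1 - x 0) =
      (if u i = true then y i else M - 1 - y i) + M -
        (if u 0 = true then y 0 else M - 1 - y 0)) :
    ¬ (if u 0 = true then x 0 else M - 1 - x 0) < (if u 0 = true then y 0 else M - 1 - y 0) := by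
  intro hlt
  apply h
  intro i
  have h1 := he i
  have h2 := hx i
  have h3 := hy i
  have h4 := hx 0
  have h5 := hy 0
  by_cases hi : u i = true
  · rw [if_pos hi] at h1 ⊢
    rw [if_pos hi] at h1
    by_cases h0 : u 0 = true
    · rw [if_pos h0, if_pos h0] at h1 hlt
      omega
    · rw [if_neg h0, if_neg h0] at h1 hlt
      omega
  · rw [if_neg hi] at h1 ⊢
    rw [if_neg hi] at h1
    by_cases h0 : u 0 = true
    · rw [if_pos h0, if_pos h0] at h1 hlt
      omega
    · rw [if_neg h0, if_neg h0] at h1 hlt
      omega

theorem anti {r : ℕ} (hr : 1 ≤ r) {M : ℕ} (u : Fin r → Bool) (T : Finset (Fin r → ℕ))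
    (hM : ∀ x ∈ T, ∀ i, x i < M)
    (h : ∀ x ∈ T, ∀ y ∈ T, ¬ ∀ i, (if u i = true then x i < y i else y i < x i)) :
    T.card ≤ (2 * M) ^ (r - 1) := by
  classical
  obtain ⟨s, rfl⟩ : ∃ s, r = s + 1 := ⟨r - 1, by omega⟩
  have hc : (Fintype.piFinset (fun _ : Fin s => Finset.range (2 * M))).card =
      (2 * M) ^ (s + 1 - 1) := by
    rw [Fintype.card_piFinset]
    simp
  rw [← hc]
  refine Finset.card_le_card_of_injOn
    (fun x (i : Fin s) => (if u i.succ = true then x i.succ else M - 1 - x i.succ) + M -
      (if u 0 = true then x 0 else M - 1 - x 0)) ?_ ?_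
  · intro x hx
    simp only [Finset.mem_coe, Fintype.mem_piFinset, Finset.mem_range]
    intro i
    have h1 := hM x hx i.succ
    have h2 := hM x hx 0
    split_ifs <;> omega
  · intro x hx y hy hxy
    have he : ∀ i : Fin (s + 1), (if u i = true then x i else M - 1 - x i) + M -
        (if u 0 = true then x 0 else M - 1 - x 0) =
      (if u i = true then y i else M - 1 - y i) + M -
        (if u 0 = true then y 0 else M - 1 - y 0) := by
      intro i
      refine Fin.cases ?_ (fun j => ?_) i
      · have h1 := hM x hx 0
        have h2 := hM y hy 0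
        split_ifs <;> omega
      · exact congrFun hxy j
    have h1 := anti_key u x y (hM x hx) (hM y hy) (h x hx y hy) he
    have h2 := anti_key u y x (hM y hy) (hM x hx) (h y hy x hx) (fun i => (he i).symm)
    have h3 := le_antisymm (not_lt.1 h2) (not_lt.1 h1)
    funext i
    have h4 := he i
    have h5 := hM x hx i
    have h6 := hM y hy i
    have h7 := hM x hx 0
    have h8 := hM y hy 0
    rw [h3] at h4
    by_cases hi : u i = true
    · rw [if_pos hi, if_pos hi] at h4
      by_cases h0 : u 0 = true
      · rw [if_pos h0] at h4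
        omega
      · rw [if_neg h0] at h4
        omega
    · rw [if_neg hi, if_neg hi] at h4
      by_cases h0 : u 0 = true
      · rw [if_pos h0] at h4
        omega
      · rw [if_neg h0] at h4
        omega

end Pool.Agent.Work.MP_7d1693_pr.FX
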