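import Pool.Agent.Work.MP_7d1693_pr.FX.Defs
import Pool.Agent.Work.MP_7d1693_pr.FX.Anti

/-! # Module AntiCnt (M): number of sets without strictly comparable points

For `i ≤ L` let `occ i K = K.image (fun x a => x a / 2^(L-i))`. It is a set of points with coordinates `< 2^i` without strictly comparable pairs (if `x a / D < y a / D` then `x a < y a`), so `anti`: `(occ i K).card ≤ (2 * 2^i)^(r-1)`. `occ 0 K ⊆ {0}`: at most `2` values. The points of
`occ (i+1) K` have their halves (`x a / 2`) in `occ i K`, and every point has `2^r` points with these halves, so for given `occ i K = O` there are at most `2^(2^r O.card)` possibilities for `occ (i+1) K`. By induction on `i` the number of values of `occ i` on `F` is at most `2 * 2^(2^r ∑_{i' < i} (2 * 2^i')^(r-1))`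
(`Finset.card_le_mul_card_image` or bound the image of `occ (i+1)` by a `biUnion` over the image of `occ i`). For given `occ j K = O` the set `K` is a `k`-subset of the set of the points whose `j`-cells are in `O`, which has at most `O.card (2^(L-j))^r` points. -/

namespace Pool.Agent.Work.MP_7d1693_pr.FX

open Finset FM

private def cells {r : ℕ} (D : ℕ) (O : Finset (Fin r → ℕ)) : Finset (Fin r → ℕ) :=
  (O ×ˢ (Finset.univ : Finset (Fin r → Fin D))).image (fun p a => D * p.1 a + (p.2 a : ℕ))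

private theorem cells_card {r : ℕ} (D : ℕ) (O : Finset (Fin r → ℕ)) :
    (cells D O).card ≤ O.card * D ^ r := by
  refine card_image_le.trans (le_of_eq ?_)
  rw [card_product, card_univ, Fintype.card_fun, Fintype.card_fin, Fintype.card_fin]

private theorem mem_cells {r D : ℕ} (hD : 0 < D) {O : Finset (Fin r → ℕ)} {x : Fin r → ℕ}
    (h : (fun a => x a / D) ∈ O) : x ∈ cells D O := by
  unfold cells
  rw [mem_image]
  refine ⟨(fun a => x a / D, fun a => ⟨x a % D, Nat.mod_lt _ hD⟩), ?_, ?_⟩
  · exact mem_product.2 ⟨h, mem_univ _⟩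
  · funext a
    exact Nat.div_add_mod (x a) D

private def occ {r : ℕ} (L i : ℕ) (K : Finset (Fin r → ℕ)) : Finset (Fin r → ℕ) :=
  K.image (fun x a => x a / 2 ^ (L - i))

private theorem occ_card {r : ℕ} (hr : 1 ≤ r) (u : Fin r → Bool) {L i : ℕ} (hi : i ≤ L)
    {K : Finset (Fin r → ℕ)} (h1 : ∀ x ∈ K, ∀ i, x i < 2 ^ L)
    (h2 : ∀ x ∈ K, ∀ y ∈ K, ¬ ∀ i, (if u i = true then x i < y i else y i < x i)) :
    (occ L i K).card ≤ (2 * 2 ^ i) ^ (r - 1) := by
  have hpow : 2 ^ L = 2 ^ i * 2 ^ (L - i) := by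
    rw [← pow_add]
    congr 1
    omega
  apply anti hr u (occ L i K)
  · intro x hx a
    unfold occ at hx
    rw [mem_image] at hx
    obtain ⟨y, hy, rfl⟩ := hx
    show y a / 2 ^ (L - i) < 2 ^ i
    rw [Nat.div_lt_iff_lt_mul (by positivity), ← hpow]
    exact h1 y hy a
  · intro x hx y hy hall
    unfold occ at hx hy
    rw [mem_image] at hx hy
    obtain ⟨x', hx', rfl⟩ := hx
    obtain ⟨y', hy', rfl⟩ := hy
    apply h2 x' hx' y' hy'
    intro a
    have h := hall a
    by_cases hu : u a = true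
    · rw [if_pos hu] at h ⊢
      by_contra hc
      exact absurd h (not_lt.2 (Nat.div_le_div_right (not_lt.1 hc)))
    · rw [if_neg hu] at h ⊢
      by_contra hc
      exact absurd h (not_lt.2 (Nat.div_le_div_right (not_lt.1 hc)))

private theorem occ_count {r : ℕ} (hr : 1 ≤ r) (u : Fin r → Bool) {L : ℕ}
    (F : Finset (Finset (Fin r → ℕ)))
    (hF : ∀ K ∈ F, (∀ x ∈ K, ∀ i, x i < 2 ^ L) ∧
      ∀ x ∈ K, ∀ y ∈ K, ¬ ∀ i, (if u i = true then x i < y i else y i < x i)) (i : ℕ) (hi : i ≤ L) :
    (F.image (occ L i)).card ≤ 2 * 2 ^ (2 ^ r * ∑ i' ∈ range i, (2 * 2 ^ i') ^ (r - 1)) := by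
  induction i with
  | zero =>
    have hsub : F.image (occ L 0) ⊆ ({fun _ => 0} : Finset (Fin r → ℕ)).powerset := by
      intro O hO
      rw [mem_image] at hO
      obtain ⟨K, hK, rfl⟩ := hO
      rw [mem_powerset]
      intro x hx
      unfold occ at hx
      rw [mem_image] at hx
      obtain ⟨y, hy, rfl⟩ := hx
      rw [mem_singleton]
      funext a
      show y a / 2 ^ (L - 0) = 0
      rw [Nat.sub_zero]
      exact Nat.div_eq_of_lt ((hF K hK).1 y hy a)
    have h1 := card_le_card hsub
    rw [card_powerset, card_singleton, pow_one] at h1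
    simpa using h1
  | succ i ih =>
    have ih' := ih (by omega)
    have hsub : F.image (occ L (i + 1)) ⊆
        (F.image (occ L i)).biUnion (fun O => (cells 2 O).powerset) := by
      intro O hO
      rw [mem_image] at hO
      obtain ⟨K, hK, rfl⟩ := hO
      rw [mem_biUnion]
      refine ⟨occ L i K, mem_image_of_mem _ hK, ?_⟩
      rw [mem_powerset]
      intro x hx
      unfold occ at hx
      rw [mem_image] at hx
      obtain ⟨y, hy, rfl⟩ := hx
      apply mem_cells (by norm_num)
      unfold occ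
      rw [mem_image]
      refine ⟨y, hy, ?_⟩
      funext a
      show y a / 2 ^ (L - i) = y a / 2 ^ (L - (i + 1)) / 2
      rw [Nat.div_div_eq_div_mul, ← pow_succ]
      congr 2
      omega
    have hb : ∀ O ∈ F.image (occ L i), ((cells 2 O).powerset).card ≤
        2 ^ (2 ^ r * (2 * 2 ^ i) ^ (r - 1)) := by
      intro O hO
      rw [mem_image] at hO
      obtain ⟨K, hK, rfl⟩ := hO
      rw [card_powerset]
      apply Nat.pow_le_pow_right (by norm_num)
      refine (cells_card 2 _).trans ?_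
      rw [mul_comm]
      exact Nat.mul_le_mul_left _ (occ_card hr u (by omega) (hF K hK).1 (hF K hK).2)
    calc (F.image (occ L (i + 1))).card
        ≤ ((F.image (occ L i)).biUnion (fun O => (cells 2 O).powerset)).card := card_le_card hsub
      _ ≤ (F.image (occ L i)).card * 2 ^ (2 ^ r * (2 * 2 ^ i) ^ (r - 1)) :=
          card_biUnion_le_card_mul _ _ _ hb
      _ ≤ (2 * 2 ^ (2 ^ r * ∑ i' ∈ range i, (2 * 2 ^ i') ^ (r - 1))) *
            2 ^ (2 ^ r * (2 * 2 ^ i) ^ (r - 1)) := Nat.mul_le_mul_right _ ih'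
      _ = 2 * 2 ^ (2 ^ r * ∑ i' ∈ range (i + 1), (2 * 2 ^ i') ^ (r - 1)) := by
          rw [sum_range_succ, mul_add, pow_add, mul_assoc]

theorem anti_cnt {r : ℕ} (hr : 1 ≤ r) (u : Fin r → Bool) {L j k : ℕ} (hj : j ≤ L)
    (F : Finset (Finset (Fin r → ℕ)))
    (hF : ∀ K ∈ F, K.card = k ∧ (∀ x ∈ K, ∀ i, x i < 2 ^ L) ∧
      ∀ x ∈ K, ∀ y ∈ K, ¬ ∀ i, (if u i = true then x i < y i else y i < x i)) :
    F.card ≤ 2 * 2 ^ (2 ^ r * ∑ i ∈ range j, (2 * 2 ^ i) ^ (r - 1)) *
      ((2 * 2 ^ j) ^ (r - 1) * (2 ^ (L - j)) ^ r).choose k := by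
  have hcount := occ_count hr u F (fun K hK => (hF K hK).2) j hj
  have hsub : F ⊆ (F.image (occ L j)).biUnion
      (fun O => (cells (2 ^ (L - j)) O).powersetCard k) := by
    intro K hK
    rw [mem_biUnion]
    refine ⟨occ L j K, mem_image_of_mem _ hK, ?_⟩
    rw [mem_powersetCard]
    refine ⟨?_, (hF K hK).1⟩
    intro x hx
    apply mem_cells (by positivity)
    unfold occ
    exact mem_image_of_mem _ hx
  have hb : ∀ O ∈ F.image (occ L j), ((cells (2 ^ (L - j)) O).powersetCard k).card ≤
      ((2 * 2 ^ j) ^ (r - 1) * (2 ^ (L - j)) ^ r).choose k := by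
    intro O hO
    rw [mem_image] at hO
    obtain ⟨K, hK, rfl⟩ := hO
    rw [card_powersetCard]
    apply Nat.choose_le_choose
    refine (cells_card _ _).trans ?_
    exact Nat.mul_le_mul_right _ (occ_card hr u hj (hF K hK).2.1 (hF K hK).2.2)
  refine (card_le_card hsub).trans ((card_biUnion_le_card_mul _ _ _ hb).trans ?_)
  exact Nat.mul_le_mul_right _ hcount

end Pool.Agent.Work.MP_7d1693_pr.FX
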