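import Pool.Agent.Work.MP_7d1693_pr.FX.Defs

/-! # Module ArcA (S-M): counting sets of arcs, condition `Qa` (no nesting)

Let `k = A.card`. The map `F ↦ F.image (fun p => (p.1, p.2.1))`, equivalently the function `A → V`, `a ↦` left end point of the arc with label `a`, is injective on the sets of arcs without nesting: the set `X` of left end points is the image of this function, the set of right end points is `V \ X`, and by `Qa` the map from left end points to
right end points is strictly increasing (for two arcs `p`, `q` with `p.2.1 < q.2.1`: not `q.2.2 < p.2.2`, and `p.2.2 ≠ q.2.2`), so it is determined (two strictly increasing bijections `X → V \ X` are equal: the right end point of the arc at `x` is the element of `V \ X` with as many elements of `V \ X` below it as `x` has elements of `X` below it).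
So the number is at most the number of functions from `A` to `V`, `(2k)^k`. -/

namespace Pool.Agent.Work.MP_7d1693_pr.FX

open Finset FM

private theorem arcA_rank {Y : Finset ℕ} {y y' : ℕ} (hy : y ∈ Y) (hy' : y' ∈ Y)
    (h : (Y.filter (fun z => z < y)).card = (Y.filter (fun z => z < y')).card) : y = y' := by
  have key : ∀ a b : ℕ, a ∈ Y → a < b →
      (Y.filter (fun z => z < a)).card < (Y.filter (fun z => z < b)).card := by
    intro a b ha hab
    apply Finset.card_lt_card
    rw [Finset.ssubset_iff_of_subset]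
    · exact ⟨a, by simp [ha, hab], by simp⟩
    · intro z hz
      rw [Finset.mem_filter] at hz ⊢
      exact ⟨hz.1, hz.2.trans hab⟩
  by_contra hne
  rcases lt_or_gt_of_ne hne with hlt | hlt
  · exact absurd h (key y y' hy hlt).ne
  · exact absurd h.symm (key y' y hy' hlt).ne

private theorem arcA_Y {A V : Finset ℕ} {F : Finset (ℕ × ℕ × ℕ)} (hF : IsArcs A V F) :
    F.image (fun p => p.2.2) = V \ F.image (fun p => p.2.1) := by
  obtain ⟨h1, h2, h3, h4⟩ := hF
  ext v
  rw [Finset.mem_sdiff, Finset.mem_image, Finset.mem_image]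
  constructor
  · rintro ⟨p, hp, rfl⟩
    refine ⟨(h1 p hp).2.2.1, ?_⟩
    rintro ⟨q, hq, he⟩
    by_cases hpq : q = p
    · subst hpq
      exact absurd he (h1 q hq).2.2.2.ne
    · exact (h4 q hq p hp hpq).2.2.1 he
  · rintro ⟨hv, hn⟩
    obtain ⟨p, hp, he | he⟩ := h3 v hv
    · exact absurd ⟨p, hp, he⟩ hn
    · exact ⟨p, hp, he⟩

private theorem arcA_card {A V : Finset ℕ} {F : Finset (ℕ × ℕ × ℕ)} (hF : IsArcs A V F)
    (hQ : ∀ p ∈ F, ∀ q ∈ F, Qa p q) {p : ℕ × ℕ × ℕ} (hp : p ∈ F) :
    ((F.image (fun p => p.2.1)).filter (fun z => z < p.2.1)).card =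
      ((F.image (fun p => p.2.2)).filter (fun z => z < p.2.2)).card := by
  obtain ⟨h1, h2, h3, h4⟩ := hF
  rw [Finset.filter_image, Finset.filter_image, Finset.card_image_of_injOn,
    Finset.card_image_of_injOn]
  · congr 1
    ext q
    rw [Finset.mem_filter, Finset.mem_filter]
    refine and_congr_right fun hq => ?_
    by_cases hpq : p = q
    · subst hpq
      simp
    · have e1 := h4 p hp q hq hpq
      have q1 := hQ p hp q hq
      have q2 := hQ q hq p hp
      unfold Qa at q1 q2
      constructor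
      · intro h
        by_contra h'
        apply q2
        refine ⟨h, ?_⟩
        have := e1.2.2.2.2
        omega
      · intro h
        by_contra h'
        apply q1
        refine ⟨?_, h⟩
        have := e1.2.1
        omega
  · intro a ha b hb hab
    by_contra hne
    exact (h4 a (Finset.mem_filter.1 ha).1 b (Finset.mem_filter.1 hb).1 hne).2.2.2.2 hab
  · intro a ha b hb hab
    by_contra hne
    exact (h4 a (Finset.mem_filter.1 ha).1 b (Finset.mem_filter.1 hb).1 hne).2.1 hab

open Classical in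
/-- left end point of the arc with label `a` -/
private noncomputable def arcAg (F : Finset (ℕ × ℕ × ℕ)) (a : ℕ) : ℕ :=
  if h : ∃ p ∈ F, p.1 = a then h.choose.2.1 else 0

private theorem arcAg_eq {A V : Finset ℕ} {F : Finset (ℕ × ℕ × ℕ)} (hF : IsArcs A V F)
    {p : ℕ × ℕ × ℕ} (hp : p ∈ F) : arcAg F p.1 = p.2.1 := by
  have h : ∃ q ∈ F, q.1 = p.1 := ⟨p, hp, rfl⟩
  unfold arcAg
  rw [dif_pos h]
  have h1 := h.choose_spec
  by_cases hq : h.choose = p
  · rw [hq]
  · exact absurd h1.2 (hF.2.2.2 _ h1.1 p hp hq).1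

private theorem arcAg_X {A V : Finset ℕ} {F : Finset (ℕ × ℕ × ℕ)} (hF : IsArcs A V F) :
    F.image (fun p => p.2.1) = A.image (arcAg F) := by
  ext x
  rw [Finset.mem_image, Finset.mem_image]
  constructor
  · rintro ⟨p, hp, rfl⟩
    exact ⟨p.1, (hF.1 p hp).1, arcAg_eq hF hp⟩
  · rintro ⟨a, ha, rfl⟩
    obtain ⟨p, hp, rfl⟩ := hF.2.1 a ha
    exact ⟨p, hp, (arcAg_eq hF hp).symm⟩

private theorem arcA_sub {A V : Finset ℕ} {F G : Finset (ℕ × ℕ × ℕ)} (hF : IsArcs A V F)
    (hG : IsArcs A V G) (qF : ∀ p ∈ F, ∀ q ∈ F, Qa p q) (qG : ∀ p ∈ G, ∀ q ∈ G, Qa p q)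
    (h : ∀ a ∈ A, arcAg F a = arcAg G a) : F ⊆ G := by
  intro p hp
  have hpA := (hF.1 p hp).1
  obtain ⟨q, hq, he⟩ := hG.2.1 p.1 hpA
  have hX : F.image (fun p => p.2.1) = G.image (fun p => p.2.1) := by
    rw [arcAg_X hF, arcAg_X hG]
    exact Finset.image_congr (fun a ha => h a ha)
  have hY : F.image (fun p => p.2.2) = G.image (fun p => p.2.2) := by
    rw [arcA_Y hF, arcA_Y hG, hX]
  have hl : p.2.1 = q.2.1 := by
    rw [← arcAg_eq hF hp, ← arcAg_eq hG hq, he]
    exact h _ hpA
  have c1 := arcA_card hF qF hp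
  have c2 := arcA_card hG qG hq
  rw [hX, hY, hl, c2] at c1
  have hr : q.2.2 = p.2.2 := by
    apply arcA_rank (Y := G.image (fun p => p.2.2)) _ _ c1
    · exact Finset.mem_image_of_mem _ hq
    · rw [← hY]
      exact Finset.mem_image_of_mem (fun p : ℕ × ℕ × ℕ => p.2.2) hp
  have : p = q := by
    ext
    · exact he.symm
    · exact hl
    · exact hr.symm
  rw [this]
  exact hq

theorem arc_a {A V : Finset ℕ} (h : V.card = 2 * A.card) :
    arcN A V Qa ≤ (2 * A.card) ^ A.card := by
  classical
  have hc : (A.pi fun _ => V).card = (2 * A.card) ^ A.card := by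
    rw [Finset.card_pi, Finset.prod_const, h]
  rw [← hc]
  unfold arcN
  apply Finset.card_le_card_of_injOn (fun F => fun a (_ : a ∈ A) => arcAg F a)
  · intro F hF
    have hF' := (Finset.mem_filter.1 hF).2
    rw [Finset.mem_coe, Finset.mem_pi]
    intro a ha
    obtain ⟨p, hp, rfl⟩ := hF'.1.2.1 a ha
    show arcAg F p.1 ∈ V
    rw [arcAg_eq hF'.1 hp]
    exact (hF'.1.1 p hp).2.1
  · intro F hF G hG hFG
    have hF' := (Finset.mem_filter.1 hF).2
    have hG' := (Finset.mem_filter.1 hG).2
    have he : ∀ a ∈ A, arcAg F a = arcAg G a := fun a ha => congrFun (congrFun hFG a) ha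
    exact Finset.Subset.antisymm (arcA_sub hF'.1 hG'.1 hF'.2 hG'.2 he)
      (arcA_sub hG'.1 hF'.1 hG'.2 hF'.2 (fun a ha => (he a ha).symm))

end Pool.Agent.Work.MP_7d1693_pr.FX
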