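import Pool.Agent.Work.MP_7d1693_pr.FX.Defs

/-! # Module ArcB (M): counting sets of arcs, condition `Qb` (no crossing)

Strong induction on `k = A.card` for all `A`, `V` with `V.card = 2 k`. `k = 0`: `V = ∅`, only `F = ∅`. `k + 1`: let `x` be the least point of `V` and `p = (a, x, y) ∈ F` its arc (`x` is a left end point). By `Qb` every other arc has both end points in `(x, y)` or both `> y`. Let `FL`, `FR` be the two sets of arcs, `AL` the set of the labels of `FL`, `j = FL.card`;
`FL` is a set of arcs for `AL`, `VL = {v ∈ V : x < v < y}`, `FR` for `A \ {a} \ AL`, `VR = {v ∈ V : y < v}`, `VL.card = 2 j`, so `y` is determined by `j`. So `arcN A V Qb ≤ (k+1) ∑_{j ≤ k} C(k, j) N_j N_(k-j)` with `N_j = j! catalan j` (the map `F ↦ (a, y, AL, FL, FR)` is injective), which is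
`(k+1) k! ∑_j catalan j catalan (k-j) = (k+1)! catalan (k+1)` (`catalan_succ`). -/

namespace Pool.Agent.Work.MP_7d1693_pr.FX

open Finset FM

private theorem arcB_card {A V : Finset ℕ} {F : Finset (ℕ × ℕ × ℕ)} (h : IsArcs A V F) :
    V.card = 2 * A.card := by
  classical
  obtain ⟨h1, h2, h3, h4⟩ := h
  have hA : A = F.image (fun p => p.1) := by
    ext a
    rw [mem_image]
    exact ⟨fun ha => h2 a ha, fun ⟨p, hp, e⟩ => e ▸ (h1 p hp).1⟩
  have hV : V = F.image (fun p => p.2.1) ∪ F.image (fun p => p.2.2) := by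
    ext v
    rw [mem_union, mem_image, mem_image]
    constructor
    · intro hv
      obtain ⟨p, hp, h | h⟩ := h3 v hv
      · exact Or.inl ⟨p, hp, h⟩
      · exact Or.inr ⟨p, hp, h⟩
    · rintro (⟨p, hp, rfl⟩ | ⟨p, hp, rfl⟩)
      · exact (h1 p hp).2.1
      · exact (h1 p hp).2.2.1
  have hd : Disjoint (F.image (fun p => p.2.1)) (F.image (fun p => p.2.2)) := by
    rw [disjoint_left]
    intro v hv hv'
    obtain ⟨p, hp, e⟩ := mem_image.1 hv
    obtain ⟨q, hq, e'⟩ := mem_image.1 hv'
    by_cases hpq : p = q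
    · subst hpq
      have := (h1 p hp).2.2.2
      omega
    · exact (h4 p hp q hq hpq).2.2.1 (e.trans e'.symm)
  have c1 : (F.image (fun p => p.2.1)).card = F.card := by
    apply card_image_of_injOn
    intro p hp q hq e
    by_contra hpq
    exact (h4 p hp q hq hpq).2.1 e
  have c2 : (F.image (fun p => p.2.2)).card = F.card := by
    apply card_image_of_injOn
    intro p hp q hq e
    by_contra hpq
    exact (h4 p hp q hq hpq).2.2.2.2 e
  have c3 : (F.image (fun p => p.1)).card = F.card := by
    apply card_image_of_injOn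
    intro p hp q hq e
    by_contra hpq
    exact (h4 p hp q hq hpq).1 e
  rw [hV, card_union_of_disjoint hd, c1, c2, hA, c3]
  omega

open Classical in
private noncomputable def arcBS (A V : Finset ℕ) : Finset (Finset (ℕ × ℕ × ℕ)) :=
  (A ×ˢ V ×ˢ V).powerset.filter (fun F => IsArcs A V F ∧ ∀ p ∈ F, ∀ q ∈ F, Qb p q)

private theorem arcB_mem {A V : Finset ℕ} {F : Finset (ℕ × ℕ × ℕ)} :
    F ∈ arcBS A V ↔ IsArcs A V F ∧ ∀ p ∈ F, ∀ q ∈ F, Qb p q := by
  classical
  unfold arcBS
  rw [mem_filter, mem_powerset]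
  refine ⟨fun h => h.2, fun h => ⟨fun p hp => ?_, h⟩⟩
  have h1 := h.1.1 p hp
  rw [mem_product, mem_product]
  exact ⟨h1.1, h1.2.1, h1.2.2.1⟩

private noncomputable def arcBL (V : Finset ℕ) (x y : ℕ) : Finset ℕ :=
  V.filter (fun v => x < v ∧ v < y)

private noncomputable def arcBR (V : Finset ℕ) (y : ℕ) : Finset ℕ :=
  V.filter (fun v => y < v)

private theorem arcB_cover {A V : Finset ℕ} {x : ℕ} (hx : x ∈ V) (hmin : ∀ v ∈ V, x ≤ v) :
    arcBS A V ⊆ A.biUnion fun a => (A.erase a).powerset.biUnion fun AL =>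
      (V.filter (fun y => x < y ∧ (arcBL V x y).card = 2 * AL.card)).biUnion fun y =>
        (arcBS AL (arcBL V x y) ×ˢ arcBS ((A.erase a) \ AL) (arcBR V y)).image
          (fun P => insert (a, x, y) (P.1 ∪ P.2)) := by
  classical
  intro F hF
  rw [arcB_mem] at hF
  obtain ⟨⟨h1, h2, h3, h4⟩, hQ⟩ := hF
  obtain ⟨p, hp, hpx⟩ : ∃ p ∈ F, p.2.1 = x := by
    obtain ⟨p, hp, h | h⟩ := h3 x hx
    · exact ⟨p, hp, h⟩
    · have h5 := h1 p hp
      have h6 := hmin _ h5.2.1
      omega
  obtain ⟨a, x', y⟩ := p
  simp only at hpx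
  subst hpx
  have hp1 := h1 _ hp
  simp only at hp1
  obtain ⟨haA, -, hyV, hxy⟩ := hp1
  -- position of the other arcs
  have hpos : ∀ q ∈ F, q ≠ (a, x', y) → q.1 ≠ a ∧ x' < q.2.1 ∧ q.2.1 ≠ y ∧ q.2.2 ≠ y ∧
      (q.2.1 < y → q.2.2 < y) := by
    intro q hq hne
    have h5 := h4 _ hp q hq (Ne.symm hne)
    simp only at h5
    have h6 := h1 q hq
    have h7 := hmin _ h6.2.1
    have h8 := hQ _ hp q hq
    unfold Qb at h8
    simp only at h8
    refine ⟨h5.1.symm, by omega, fun h => h5.2.2.2.1 h.symm, fun h => h5.2.2.2.2 h.symm, ?_⟩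
    intro h9
    by_contra h10
    apply h8
    refine ⟨by omega, h9, ?_⟩
    have := h5.2.2.2.2
    omega
  set FL := F.filter (fun q => q ≠ (a, x', y) ∧ q.2.1 < y) with hFL
  set FR := F.filter (fun q => q ≠ (a, x', y) ∧ y < q.2.1) with hFR
  have mFL : ∀ q, q ∈ FL ↔ q ∈ F ∧ q ≠ (a, x', y) ∧ q.2.1 < y := fun q => by
    rw [hFL, mem_filter]
  have mFR : ∀ q, q ∈ FR ↔ q ∈ F ∧ q ≠ (a, x', y) ∧ y < q.2.1 := fun q => by
    rw [hFR, mem_filter]
  have hcase : ∀ q ∈ F, q ≠ (a, x', y) → q ∈ FL ∨ q ∈ FR := by
    intro q hq hne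
    rw [mFL, mFR]
    have := (hpos q hq hne).2.2.1
    rcases lt_or_gt_of_ne this with h | h
    · exact Or.inl ⟨hq, hne, h⟩
    · exact Or.inr ⟨hq, hne, h⟩
  set AL := FL.image (fun q => q.1) with hAL
  have hFLarcs : IsArcs AL (arcBL V x' y) FL := by
    refine ⟨fun q hq => ?_, fun b hb => ?_, fun v hv => ?_, fun q hq q' hq' hne => ?_⟩
    · have h5 := (mFL q).1 hq
      have h6 := hpos q h5.1 h5.2.1
      have h7 := h1 q h5.1
      refine ⟨mem_image_of_mem _ hq, ?_, ?_, h7.2.2.2⟩
      · exact mem_filter.2 ⟨h7.2.1, h6.2.1, h5.2.2⟩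
      · exact mem_filter.2 ⟨h7.2.2.1, by omega, h6.2.2.2.2 h5.2.2⟩
    · obtain ⟨q, hq, e⟩ := mem_image.1 hb
      exact ⟨q, hq, e⟩
    · obtain ⟨hvV, hxv, hvy⟩ := mem_filter.1 hv
      obtain ⟨q, hq, hqv⟩ := h3 v hvV
      have hne : q ≠ (a, x', y) := by
        intro h
        rw [h] at hqv
        simp only at hqv
        omega
      refine ⟨q, ?_, hqv⟩
      rcases hcase q hq hne with h | h
      · exact h
      · exfalso
        have h5 := (mFR q).1 h
        have h6 := (h1 q hq).2.2.2
        omega
    · exact h4 q ((mFL q).1 hq).1 q' ((mFL q').1 hq').1 hne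
  have hFRarcs : IsArcs ((A.erase a) \ AL) (arcBR V y) FR := by
    refine ⟨fun q hq => ?_, fun b hb => ?_, fun v hv => ?_, fun q hq q' hq' hne => ?_⟩
    · have h5 := (mFR q).1 hq
      have h6 := hpos q h5.1 h5.2.1
      have h7 := h1 q h5.1
      refine ⟨mem_sdiff.2 ⟨mem_erase.2 ⟨h6.1, h7.1⟩, ?_⟩, ?_, ?_, h7.2.2.2⟩
      · intro h8
        obtain ⟨q', hq', e⟩ := mem_image.1 h8
        have h9 := (mFL q').1 hq'
        have hne : q' ≠ q := by
          intro h10
          rw [h10] at h9
          omega
        exact (h4 q' h9.1 q h5.1 hne).1 e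
      · exact mem_filter.2 ⟨h7.2.1, h5.2.2⟩
      · exact mem_filter.2 ⟨h7.2.2.1, by omega⟩
    · obtain ⟨hb1, hb2⟩ := mem_sdiff.1 hb
      obtain ⟨hba, hbA⟩ := mem_erase.1 hb1
      obtain ⟨q, hq, e⟩ := h2 b hbA
      have hne : q ≠ (a, x', y) := by
        intro h
        rw [h] at e
        exact hba e.symm
      refine ⟨q, ?_, e⟩
      rcases hcase q hq hne with h | h
      · exact absurd (mem_image.2 ⟨q, h, e⟩) hb2
      · exact h
    · obtain ⟨hvV, hyv⟩ := mem_filter.1 hv
      obtain ⟨q, hq, hqv⟩ := h3 v hvV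
      have hne : q ≠ (a, x', y) := by
        intro h
        rw [h] at hqv
        simp only at hqv
        omega
      refine ⟨q, ?_, hqv⟩
      rcases hcase q hq hne with h | h
      · exfalso
        have h5 := (mFL q).1 h
        have h6 := (hpos q hq hne).2.2.2.2 h5.2.2
        omega
      · exact h
    · exact h4 q ((mFR q).1 hq).1 q' ((mFR q').1 hq').1 hne
  refine mem_biUnion.2 ⟨a, haA, mem_biUnion.2 ⟨AL, ?_, mem_biUnion.2 ⟨y, ?_, ?_⟩⟩⟩
  · rw [mem_powerset]
    intro b hb
    obtain ⟨q, hq, e⟩ := mem_image.1 hb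
    have h5 := (mFL q).1 hq
    rw [← e]
    exact mem_erase.2 ⟨(hpos q h5.1 h5.2.1).1, (h1 q h5.1).1⟩
  · exact mem_filter.2 ⟨hyV, hxy, arcB_card hFLarcs⟩
  · refine mem_image.2 ⟨(FL, FR), ?_, ?_⟩
    · rw [mem_product]
      refine ⟨arcB_mem.2 ⟨hFLarcs, fun q hq q' hq' => ?_⟩,
        arcB_mem.2 ⟨hFRarcs, fun q hq q' hq' => ?_⟩⟩
      · exact hQ q ((mFL q).1 hq).1 q' ((mFL q').1 hq').1
      · exact hQ q ((mFR q).1 hq).1 q' ((mFR q').1 hq').1
    · ext q
      rw [mem_insert, mem_union]
      constructor
      · rintro (h | h | h)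
        · rw [h]
          exact hp
        · exact ((mFL q).1 h).1
        · exact ((mFR q).1 h).1
      · intro hq
        by_cases hne : q = (a, x', y)
        · exact Or.inl hne
        · exact Or.inr (hcase q hq hne)

private theorem arcB_one {V : Finset ℕ} (x j : ℕ) :
    (V.filter (fun y => x < y ∧ (arcBL V x y).card = j)).card ≤ 1 := by
  classical
  have key : ∀ y ∈ V.filter (fun y => x < y ∧ (arcBL V x y).card = j),
      ∀ y' ∈ V.filter (fun y => x < y ∧ (arcBL V x y).card = j), y < y' → False := by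
    intro y hy y' hy' hlt
    obtain ⟨hyV, hxy, hc⟩ := mem_filter.1 hy
    obtain ⟨_, _, hc'⟩ := mem_filter.1 hy'
    have h1 : arcBL V x y ⊂ arcBL V x y' := by
      rw [ssubset_iff_of_subset]
      · refine ⟨y, mem_filter.2 ⟨hyV, hxy, hlt⟩, fun h => ?_⟩
        have := (mem_filter.1 h).2.2
        omega
      · intro v hv
        obtain ⟨h2, h3, h4⟩ := mem_filter.1 hv
        exact mem_filter.2 ⟨h2, h3, by omega⟩
    have := card_lt_card h1
    omega
  rw [card_le_one]
  intro y hy y' hy'
  by_contra hne
  rcases lt_or_gt_of_ne hne with h | h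
  · exact key y hy y' hy' h
  · exact key y' hy' y hy h

private theorem arcB_sum (k : ℕ) (B : Finset ℕ) (hB : B.card = k) :
    ∑ AL ∈ B.powerset, (AL.card.factorial * catalan AL.card) *
      ((k - AL.card).factorial * catalan (k - AL.card)) = k.factorial * catalan (k + 1) := by
  have h1 := Finset.sum_powerset_apply_card
    (fun j => (j.factorial * catalan j) * ((k - j).factorial * catalan (k - j))) (x := B)
  rw [h1, hB, catalan_succ, ← Fin.sum_univ_eq_sum_range
    (fun m => k.choose m • ((m.factorial * catalan m) * ((k - m).factorial * catalan (k - m)))),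
    Finset.mul_sum]
  refine Finset.sum_congr rfl fun i _ => ?_
  have h2 := Nat.choose_mul_factorial_mul_factorial (Nat.lt_succ_iff.1 i.2)
  rw [smul_eq_mul]
  calc k.choose i * ((i : ℕ).factorial * catalan i * ((k - i).factorial * catalan (k - i)))
      = (k.choose i * (i : ℕ).factorial * (k - i).factorial) * (catalan i * catalan (k - i)) := by
        ring
    _ = k.factorial * (catalan i * catalan (k - i)) := by rw [h2]

private theorem arcB_main (k : ℕ) : ∀ A V : Finset ℕ, A.card = k →
    (arcBS A V).card ≤ k.factorial * catalan k := by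
  classical
  induction k using Nat.strong_induction_on with
  | _ k ih =>
    intro A V hA
    rcases Nat.eq_zero_or_pos k with hk | hk
    · subst hk
      rw [card_eq_zero] at hA
      have h1 : arcBS A V ⊆ {∅} := by
        intro F hF
        rw [mem_singleton, eq_empty_iff_forall_notMem]
        intro p hp
        have := ((arcB_mem.1 hF).1.1 p hp).1
        rw [hA] at this
        exact notMem_empty _ this
      have h2 := card_le_card h1
      rw [card_singleton] at h2
      rw [Nat.factorial_zero, catalan_zero]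
      exact h2
    · obtain ⟨m, rfl⟩ : ∃ m, k = m + 1 := ⟨k - 1, by omega⟩
      rcases V.eq_empty_or_nonempty with hV | hV
      · have h1 : arcBS A V = ∅ := by
          rw [eq_empty_iff_forall_notMem]
          intro F hF
          have := arcB_card (arcB_mem.1 hF).1
          rw [hV, card_empty, hA] at this
          omega
        rw [h1, card_empty]
        exact Nat.zero_le _
      · have h1 := arcB_cover (A := A) (V.min'_mem hV) (fun v hv => V.min'_le v hv)
        refine (card_le_card h1).trans ?_
        refine card_biUnion_le.trans ?_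
        have h2 : ∀ a ∈ A, ((A.erase a).powerset.biUnion fun AL =>
            (V.filter (fun y => V.min' hV < y ∧
              (arcBL V (V.min' hV) y).card = 2 * AL.card)).biUnion fun y =>
            (arcBS AL (arcBL V (V.min' hV) y) ×ˢ arcBS ((A.erase a) \ AL) (arcBR V y)).image
              (fun P => insert (a, V.min' hV, y) (P.1 ∪ P.2))).card ≤
            m.factorial * catalan (m + 1) := by
          intro a ha
          have hc : (A.erase a).card = m := by
            rw [card_erase_of_mem ha, hA]
            omega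
          refine card_biUnion_le.trans ?_
          rw [← arcB_sum m (A.erase a) hc]
          refine Finset.sum_le_sum fun AL hAL => ?_
          have hsub := mem_powerset.1 hAL
          have hle : AL.card ≤ m := hc ▸ card_le_card hsub
          refine card_biUnion_le.trans ?_
          have h3 : ∀ y ∈ V.filter (fun y => V.min' hV < y ∧
              (arcBL V (V.min' hV) y).card = 2 * AL.card),
              ((arcBS AL (arcBL V (V.min' hV) y) ×ˢ
                arcBS ((A.erase a) \ AL) (arcBR V y)).image
                (fun P => insert (a, V.min' hV, y) (P.1 ∪ P.2))).card ≤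
              (AL.card.factorial * catalan AL.card) *
                ((m - AL.card).factorial * catalan (m - AL.card)) := by
            intro y _
            refine card_image_le.trans ?_
            rw [card_product]
            refine Nat.mul_le_mul ?_ ?_
            · exact ih AL.card (by omega) AL _ rfl
            · refine ih (m - AL.card) (by omega) _ _ ?_
              rw [card_sdiff_of_subset hsub, hc]
          refine (Finset.sum_le_card_nsmul _ _ _ h3).trans ?_
          rw [smul_eq_mul]
          calc _ ≤ 1 * ((AL.card.factorial * catalan AL.card) *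
                ((m - AL.card).factorial * catalan (m - AL.card))) :=
                Nat.mul_le_mul_right _ (arcB_one _ _)
            _ = _ := one_mul _
        refine (Finset.sum_le_card_nsmul _ _ _ h2).trans ?_
        rw [smul_eq_mul, hA, Nat.factorial_succ, mul_assoc]

theorem arc_b {A V : Finset ℕ} (h : V.card = 2 * A.card) :
    arcN A V Qb ≤ A.card.factorial * catalan A.card := by
  have h1 := arcB_main A.card A V rfl
  exact h1

end Pool.Agent.Work.MP_7d1693_pr.FX
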