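import Pool.Agent.Work.MP_7d1693_pr.FX.Defs

/-! # Module ArcC (M): counting sets of arcs, condition `Qc`

Strong induction on `k = A.card` for all `A`, `V` with `V.card = 2 k`. `k = 0`: `V = ∅`, only `F = ∅`. `k + 1`: let `a` be the least label and `p = (a, x, y) ∈ F` its arc. `Qc p q` for every other arc `q` (`a < q.1`): not `q.2.1 < x < q.2.2`. So every other arc has both end points `< x`, or both `> x` (and `≠ y`).
Let `FL`, `FR` be the two sets of arcs, `AL` the set of the labels of `FL`; `FL` is a set of arcs for `AL` and `VL = {v ∈ V : v < x}`, `FR` for `A \ {a} \ AL` and `VR = {v ∈ V : x < v, v ≠ y}`; `j = FL.card`, `VL.card = 2 j`, so `x` is the element of `V` with exactly `2 j` elements of `V` below it, determined by `j`; `VR.card = 2 (k - j)`,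
and `y` is one of the `2 (k - j) + 1` elements of `V` above `x`. So `arcN A V Qc ≤ ∑_{j ≤ k} C(k, j) (2 (k-j) + 1) N_j N_(k-j)` where `N_j = j! catalan j` bounds the number of sets of arcs with `j` labels: the map `F ↦ (x, y, AL, FL, FR)` is injective (`F = insert (a,x,y) (FL ∪ FR)`). With `N_j = j! catalan j`: the sum is
`k! ∑_j (2(k-j)+1) catalan j catalan (k-j)`, and by the symmetry `j ↔ k-j` it is `k! (k+1) ∑_j catalan j catalan (k-j) = (k+1)! catalan (k+1)` (`catalan_succ`, `catalan_succ'`). -/

namespace Pool.Agent.Work.MP_7d1693_pr.FX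

open Finset FM

open Classical in
private noncomputable def Fc (A V : Finset ℕ) : Finset (Finset (ℕ × ℕ × ℕ)) :=
  (A ×ˢ V ×ˢ V).powerset.filter (fun F => IsArcs A V F ∧ ∀ p ∈ F, ∀ q ∈ F, Qc p q)

open Classical in
private theorem mem_Fc {A V : Finset ℕ} {F : Finset (ℕ × ℕ × ℕ)} :
    F ∈ Fc A V ↔ IsArcs A V F ∧ ∀ p ∈ F, ∀ q ∈ F, Qc p q := by
  unfold Fc
  rw [mem_filter, mem_powerset]
  constructor
  · exact fun h => h.2
  · intro h
    refine ⟨?_, h⟩
    intro p hp
    have := h.1.1 p hp
    rw [mem_product, mem_product]
    exact ⟨this.1, this.2.1, this.2.2.1⟩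

private theorem arcN_eq (A V : Finset ℕ) : arcN A V Qc = (Fc A V).card := rfl

private theorem card_arcs {A V : Finset ℕ} {F : Finset (ℕ × ℕ × ℕ)} (h : IsArcs A V F) :
    A.card = F.card ∧ V.card = 2 * F.card := by
  obtain ⟨h1, h2, h3, h4⟩ := h
  constructor
  · have e : A = F.image (fun p => p.1) := by
      ext a
      rw [mem_image]
      constructor
      · intro ha
        obtain ⟨p, hp, e⟩ := h2 a ha
        exact ⟨p, hp, e⟩
      · rintro ⟨p, hp, rfl⟩
        exact (h1 p hp).1
    rw [e, card_image_of_injOn]
    intro p hp q hq hpq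
    by_contra hne
    exact (h4 p hp q hq hne).1 hpq
  · have e : V = F.image (fun p => p.2.1) ∪ F.image (fun p => p.2.2) := by
      ext v
      rw [mem_union, mem_image, mem_image]
      constructor
      · intro hv
        obtain ⟨p, hp, e | e⟩ := h3 v hv
        · exact Or.inl ⟨p, hp, e⟩
        · exact Or.inr ⟨p, hp, e⟩
      · rintro (⟨p, hp, rfl⟩ | ⟨p, hp, rfl⟩)
        · exact (h1 p hp).2.1
        · exact (h1 p hp).2.2.1
    have hd : Disjoint (F.image (fun p => p.2.1)) (F.image (fun p => p.2.2)) := by
      rw [disjoint_left]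
      intro v hv hv'
      rw [mem_image] at hv hv'
      obtain ⟨p, hp, rfl⟩ := hv
      obtain ⟨q, hq, e⟩ := hv'
      by_cases hne : p = q
      · subst hne
        have := (h1 p hp).2.2.2
        omega
      · exact (h4 p hp q hq hne).2.2.1 e.symm
    rw [e, card_union_of_disjoint hd, card_image_of_injOn, card_image_of_injOn, two_mul]
    · intro p hp q hq hpq
      by_contra hne
      exact (h4 p hp q hq hne).2.2.2.2 hpq
    · intro p hp q hq hpq
      by_contra hne
      exact (h4 p hp q hq hne).2.1 hpq

private theorem cover {A V : Finset ℕ} {F : Finset (ℕ × ℕ × ℕ)} (hF : F ∈ Fc A V) {a : ℕ}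
    (ha : a ∈ A) (hmin : ∀ b ∈ A, a ≤ b) :
    ∃ x ∈ V, ∃ y ∈ V, x < y ∧ ∃ AL ⊆ A.erase a, ∃ FL ∈ Fc AL (V.filter (· < x)),
      ∃ FR ∈ Fc (A.erase a \ AL) ((V.filter (x < ·)).erase y),
      F = insert (a, x, y) (FL ∪ FR) ∧ (V.filter (· < x)).card = 2 * AL.card := by
  rw [mem_Fc] at hF
  obtain ⟨⟨h1, h2, h3, h4⟩, hQ⟩ := hF
  obtain ⟨⟨a', x, y⟩, hp, e⟩ := h2 a ha
  simp only at e
  subst e
  have hxy : x < y := (h1 _ hp).2.2.2
  have hx : x ∈ V := (h1 _ hp).2.1
  have hy : y ∈ V := (h1 _ hp).2.2.1
  -- trichotomy
  have tri : ∀ q ∈ F, q ≠ (a', x, y) → q.2.2 < x ∨ x < q.2.1 := by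
    intro q hq hne
    have q1 := (h1 q hq)
    have q4 := h4 q hq _ hp hne
    have := hQ _ hp q hq
    unfold Qc at this
    simp only at this q4
    have hlt : a' < q.1 := lt_of_le_of_ne (hmin _ q1.1) (Ne.symm q4.1)
    have q5 : q.2.1 ≠ x := q4.2.1
    have q6 : q.2.2 ≠ x := q4.2.2.2.1
    by_contra hcon
    push Not at hcon
    exact this ⟨hlt, by omega, by omega⟩
  have hneL : ∀ q ∈ F, q.2.2 < x → q ≠ (a', x, y) := by
    rintro q hq hlt rfl
    simp only at hlt
    omega
  have hneR : ∀ q ∈ F, x < q.2.1 → q ≠ (a', x, y) := by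
    rintro q hq hlt rfl
    simp only at hlt
    omega
  set FL := F.filter (fun q => q.2.2 < x) with hFL
  set FR := F.filter (fun q => x < q.2.1) with hFR
  set AL := FL.image (fun q => q.1) with hAL
  have mL : ∀ q, q ∈ FL ↔ q ∈ F ∧ q.2.2 < x := fun q => by rw [hFL, mem_filter]
  have mR : ∀ q, q ∈ FR ↔ q ∈ F ∧ x < q.2.1 := fun q => by rw [hFR, mem_filter]
  have hFLc : FL ∈ Fc AL (V.filter (· < x)) := by
    rw [mem_Fc]
    refine ⟨⟨?_, ?_, ?_, ?_⟩, ?_⟩
    · intro q hq
      have hq' := (mL q).1 hq
      have q1 := h1 q hq'.1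
      refine ⟨mem_image_of_mem _ hq, ?_, ?_, q1.2.2.2⟩
      · rw [mem_filter]
        exact ⟨q1.2.1, by omega⟩
      · rw [mem_filter]
        exact ⟨q1.2.2.1, hq'.2⟩
    · intro b hb
      rw [hAL, mem_image] at hb
      exact hb
    · intro v hv
      rw [mem_filter] at hv
      obtain ⟨q, hq, hqv⟩ := h3 v hv.1
      have hne : q ≠ (a', x, y) := by
        rintro rfl
        simp only at hqv
        omega
      have q1 := h1 q hq
      rcases tri q hq hne with h | h
      · exact ⟨q, (mL q).2 ⟨hq, h⟩, hqv⟩
      · exfalso
        omega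
    · intro p hp q hq hne
      exact h4 p ((mL p).1 hp).1 q ((mL q).1 hq).1 hne
    · intro p hp q hq
      exact hQ p ((mL p).1 hp).1 q ((mL q).1 hq).1
  have hFRc : FR ∈ Fc (A.erase a' \ AL) ((V.filter (x < ·)).erase y) := by
    rw [mem_Fc]
    refine ⟨⟨?_, ?_, ?_, ?_⟩, ?_⟩
    · intro q hq
      have hq' := (mR q).1 hq
      have q1 := h1 q hq'.1
      have hne := hneR q hq'.1 hq'.2
      have q4 := h4 q hq'.1 _ hp hne
      simp only at q4
      refine ⟨?_, ?_, ?_, q1.2.2.2⟩
      · rw [mem_sdiff, mem_erase]
        refine ⟨⟨q4.1, q1.1⟩, ?_⟩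
        intro hAL'
        rw [hAL, mem_image] at hAL'
        obtain ⟨q', hq'L, e⟩ := hAL'
        have hq'L' := (mL q').1 hq'L
        have q1' := h1 q' hq'L'.1
        have hne' : q' ≠ q := by
          rintro rfl
          omega
        exact (h4 q' hq'L'.1 q hq'.1 hne').1 e
      · rw [mem_erase, mem_filter]
        exact ⟨q4.2.2.1, q1.2.1, hq'.2⟩
      · rw [mem_erase, mem_filter]
        exact ⟨q4.2.2.2.2, q1.2.2.1, by omega⟩
    · intro b hb
      rw [mem_sdiff, mem_erase] at hb
      obtain ⟨q, hq, e⟩ := h2 b hb.1.2
      have hne : q ≠ (a', x, y) := by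
        rintro rfl
        exact hb.1.1 e.symm
      rcases tri q hq hne with h | h
      · exfalso
        apply hb.2
        rw [hAL, mem_image]
        exact ⟨q, (mL q).2 ⟨hq, h⟩, e⟩
      · exact ⟨q, (mR q).2 ⟨hq, h⟩, e⟩
    · intro v hv
      rw [mem_erase, mem_filter] at hv
      obtain ⟨q, hq, hqv⟩ := h3 v hv.2.1
      have hne : q ≠ (a', x, y) := by
        rintro rfl
        simp only at hqv
        omega
      have q1 := h1 q hq
      rcases tri q hq hne with h | h
      · exfalso
        omega
      · exact ⟨q, (mR q).2 ⟨hq, h⟩, hqv⟩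
    · intro p hp q hq hne
      exact h4 p ((mR p).1 hp).1 q ((mR q).1 hq).1 hne
    · intro p hp q hq
      exact hQ p ((mR p).1 hp).1 q ((mR q).1 hq).1
  refine ⟨x, hx, y, hy, hxy, AL, ?_, FL, hFLc, FR, hFRc, ?_, ?_⟩
  · intro b hb
    rw [hAL, mem_image] at hb
    obtain ⟨q, hq, rfl⟩ := hb
    have hq' := (mL q).1 hq
    rw [mem_erase]
    exact ⟨(h4 q hq'.1 _ hp (hneL q hq'.1 hq'.2)).1, (h1 q hq'.1).1⟩
  · ext q
    rw [mem_insert, mem_union, mL, mR]
    constructor
    · intro hq
      by_cases hne : q = (a', x, y)
      · exact Or.inl hne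
      · rcases tri q hq hne with h | h
        · exact Or.inr (Or.inl ⟨hq, h⟩)
        · exact Or.inr (Or.inr ⟨hq, h⟩)
    · rintro (rfl | h | h)
      · exact hp
      · exact h.1
      · exact h.1
  · rw [mem_Fc] at hFLc
    have := card_arcs hFLc.1
    omega

private theorem sum_id (k : ℕ) :
    ∑ j ∈ range (k + 1), (2 * (k - j) + 1) * (k.factorial * (catalan j * catalan (k - j))) =
      (k + 1).factorial * catalan (k + 1) := by
  have e1 : ∑ j ∈ range (k + 1), (2 * (k - j) + 1) * (catalan j * catalan (k - j)) =
      ∑ j ∈ range (k + 1), (2 * j + 1) * (catalan j * catalan (k - j)) := by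
    rw [← sum_range_reflect]
    apply sum_congr rfl
    intro j hj
    rw [mem_range] at hj
    have h1 : k + 1 - 1 - j = k - j := by omega
    have h2 : k - (k - j) = j := by omega
    rw [h1, h2, mul_comm (catalan j)]
  have e2 : 2 * ∑ j ∈ range (k + 1), (2 * (k - j) + 1) * (catalan j * catalan (k - j)) =
      2 * ((k + 1) * catalan (k + 1)) := by
    rw [two_mul]
    conv_lhs => rhs; rw [e1]
    rw [← sum_add_distrib]
    have : ∀ j ∈ range (k + 1), (2 * (k - j) + 1) * (catalan j * catalan (k - j)) +
        (2 * j + 1) * (catalan j * catalan (k - j)) =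
        2 * (k + 1) * (catalan j * catalan (k - j)) := by
      intro j hj
      rw [mem_range] at hj
      rw [← add_mul]
      congr 1
      omega
    rw [sum_congr rfl this, ← mul_sum, catalan_succ, ← Fin.sum_univ_eq_sum_range
      (fun j => catalan j * catalan (k - j)) (k + 1)]
    ring
  have e3 : ∑ j ∈ range (k + 1), (2 * (k - j) + 1) * (catalan j * catalan (k - j)) =
      (k + 1) * catalan (k + 1) := by omega
  calc ∑ j ∈ range (k + 1), (2 * (k - j) + 1) * (k.factorial * (catalan j * catalan (k - j)))
      = k.factorial * ∑ j ∈ range (k + 1), (2 * (k - j) + 1) * (catalan j * catalan (k - j)) := by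
        rw [mul_sum]
        apply sum_congr rfl
        intro j _
        ring
    _ = (k + 1).factorial * catalan (k + 1) := by
        rw [e3, Nat.factorial_succ]
        ring

private theorem main (k : ℕ) : ∀ A V : Finset ℕ, A.card = k → V.card = 2 * k →
    (Fc A V).card ≤ k.factorial * catalan k := by
  induction k using Nat.strong_induction_on with
  | _ k ih =>
    intro A V hA hV
    rcases k with _ | k
    · rw [card_eq_zero] at hA
      subst hA
      have : Fc ∅ V ⊆ {∅} := by
        intro F hF
        rw [mem_Fc] at hF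
        rw [mem_singleton]
        have := card_arcs hF.1
        rw [card_empty] at this
        exact card_eq_zero.1 this.1.symm
      have := card_le_card this
      simpa using this
    · have hAne : A.Nonempty := by
        rw [← card_pos]
        omega
      set a := A.min' hAne with haD
      have ha : a ∈ A := min'_mem _ _
      have hmin : ∀ b ∈ A, a ≤ b := fun b hb => min'_le _ _ hb
      have hAe : (A.erase a).card = k := by
        rw [card_erase_of_mem ha]
        omega
      have hsub : Fc A V ⊆ (range (k + 1)).biUnion fun j =>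
          (V.filter (fun x => (V.filter (· < x)).card = 2 * j)).biUnion fun x =>
          (V.filter (x < ·)).biUnion fun y => (powersetCard j (A.erase a)).biUnion fun AL =>
          (Fc AL (V.filter (· < x)) ×ˢ Fc (A.erase a \ AL) ((V.filter (x < ·)).erase y)).image
            fun q => insert (a, x, y) (q.1 ∪ q.2) := by
        intro F hF
        obtain ⟨x, hx, y, hy, hxy, AL, hAL, FL, hFL, FR, hFR, e, hc⟩ := cover hF ha hmin
        simp only [mem_biUnion, mem_range, mem_filter, mem_powersetCard, mem_image, mem_product]
        refine ⟨AL.card, ?_, x, ⟨hx, hc⟩, y, ⟨hy, hxy⟩, AL, ⟨hAL, rfl⟩, (FL, FR), ⟨hFL, hFR⟩,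
          e.symm⟩
        have := card_le_card hAL
        omega
      refine (card_le_card hsub).trans ?_
      rw [← sum_id k]
      refine card_biUnion_le.trans (sum_le_sum fun j hj => ?_)
      rw [mem_range] at hj
      have hX : (V.filter (fun x => (V.filter (· < x)).card = 2 * j)).card ≤ 1 := by
        rw [card_le_one]
        intro x hx x' hx'
        rw [mem_filter] at hx hx'
        have key : ∀ x x', x ∈ V → x < x' → (V.filter (· < x)).card < (V.filter (· < x')).card := by
          intro x x' hx hlt
          apply card_lt_card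
          rw [ssubset_iff_of_subset]
          · exact ⟨x, mem_filter.2 ⟨hx, hlt⟩, fun h => absurd (mem_filter.1 h).2 (lt_irrefl _)⟩
          · intro z hz
            rw [mem_filter] at hz ⊢
            exact ⟨hz.1, hz.2.trans hlt⟩
        rcases lt_trichotomy x x' with h | h | h
        · have := key x x' hx.1 h
          omega
        · exact h
        · have := key x' x hx'.1 h
          omega
      have hin : ∀ x ∈ V.filter (fun x => (V.filter (· < x)).card = 2 * j),
          ((V.filter (x < ·)).biUnion fun y => (powersetCard j (A.erase a)).biUnion fun AL =>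
          (Fc AL (V.filter (· < x)) ×ˢ Fc (A.erase a \ AL) ((V.filter (x < ·)).erase y)).image
            fun q => insert (a, x, y) (q.1 ∪ q.2)).card ≤
          (2 * (k - j) + 1) * (k.factorial * (catalan j * catalan (k - j))) := by
        intro x hx
        rw [mem_filter] at hx
        have hR : (V.filter (x < ·)).card = 2 * (k - j) + 1 := by
          have h1 : V = (V.filter (· < x)) ∪ ({x} ∪ (V.filter (x < ·))) := by
            ext v
            simp only [mem_union, mem_filter, mem_singleton]
            constructor
            · intro hv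
              rcases lt_trichotomy v x with h | h | h
              · exact Or.inl ⟨hv, h⟩
              · exact Or.inr (Or.inl h)
              · exact Or.inr (Or.inr ⟨hv, h⟩)
            · rintro (h | rfl | h)
              · exact h.1
              · exact hx.1
              · exact h.1
          have h2 : V.card = (V.filter (· < x)).card + (1 + (V.filter (x < ·)).card) := by
            conv_lhs => rw [h1]
            rw [card_union_of_disjoint, card_union_of_disjoint, card_singleton]
            · rw [disjoint_singleton_left, mem_filter]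
              exact fun h => absurd h.2 (lt_irrefl _)
            · rw [disjoint_left]
              intro v hv hv'
              simp only [mem_union, mem_filter, mem_singleton] at hv hv'
              omega
          omega
        refine card_biUnion_le.trans ?_
        rw [← hR, ← smul_eq_mul]
        refine sum_le_card_nsmul _ _ _ fun y hy => ?_
        refine card_biUnion_le.trans ?_
        have hN : ∀ AL ∈ powersetCard j (A.erase a),
            ((Fc AL (V.filter (· < x)) ×ˢ
              Fc (A.erase a \ AL) ((V.filter (x < ·)).erase y)).image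
            fun q => insert (a, x, y) (q.1 ∪ q.2)).card ≤
            (j.factorial * catalan j) * ((k - j).factorial * catalan (k - j)) := by
          intro AL hAL
          rw [mem_powersetCard] at hAL
          refine card_image_le.trans ?_
          rw [card_product]
          refine Nat.mul_le_mul ?_ ?_
          · exact ih j (by omega) AL _ hAL.2 hx.2
          · refine ih (k - j) (by omega) _ _ ?_ ?_
            · rw [card_sdiff_of_subset hAL.1, hAe, hAL.2]
            · rw [card_erase_of_mem hy, hR]
              omega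
        refine (sum_le_card_nsmul _ _ _ hN).trans ?_
        rw [card_powersetCard, hAe, smul_eq_mul]
        have := Nat.choose_mul_factorial_mul_factorial (n := k) (k := j) (by omega)
        rw [← this]
        apply le_of_eq
        ring
      calc _ ≤ ∑ x ∈ V.filter (fun x => (V.filter (· < x)).card = 2 * j), _ := card_biUnion_le
        _ ≤ _ := sum_le_card_nsmul _ _ _ hin
        _ ≤ 1 • _ := by
          rw [smul_eq_mul, smul_eq_mul]
          exact Nat.mul_le_mul_right _ hX
        _ = _ := one_smul _ _

theorem arc_c {A V : Finset ℕ} (h : V.card = 2 * A.card) :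
    arcN A V Qc ≤ A.card.factorial * catalan A.card := by
  rw [arcN_eq]
  exact main A.card A V rfl h

end Pool.Agent.Work.MP_7d1693_pr.FX
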