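import Pool.Agent.Work.MP_7d1693_pr.FX.Defs
import Pool.Agent.Work.MP_7d1693_pr.FX.ArcC

/-! # Module ArcSym (S-M): counting sets of arcs, conditions `Qd`, `Qe`, `Qf`

Reflections. Let `m` be larger than all elements of `A`, `A' = A.image (m - ·)`, and map `F` to `F.image (fun p => (m - p.1, p.2))`: an injection from the sets of arcs for `A`, `V` with `Qd` to those for `A'`, `V` with `Qc` (`Qd p q` is `Qc` for the images of `q`, `p`: `m - q.1 < m - p.1` iff `p.1 < q.1`).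
Let `m` be larger than all elements of `V`, `V' = V.image (m - ·)` and map `F` to `F.image (fun p => (p.1, m - p.2.2, m - p.2.1))`: it takes `Qf` for `(p, q)` to `Qc` for the images: `Qc p' q'` is `¬ (p.1 < q.1 ∧ m - q.2.2 < m - p.2.2 ∧ m - p.2.2 < m - q.2.1)`, i.e. `¬ (p.1 < q.1 ∧ p.2.2 < q.2.2 ∧ q.2.1 < p.2.2)`, which is
`Qf p q`; and it takes `Qe` to `Qd` (`Qd p' q' = ¬ (p.1 < q.1 ∧ m - p.2.2 < m - q.2.2 ∧ m - q.2.2 < m - p.2.1) = Qe p q`). The cardinals of `A'`, `V'` are those of `A`, `V`. Conclude with `arc_c`. -/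

namespace Pool.Agent.Work.MP_7d1693_pr.FX

open Finset FM

private theorem transfer {A V A' V' : Finset ℕ} {Q Q' : ℕ × ℕ × ℕ → ℕ × ℕ × ℕ → Prop}
    (φ : ℕ × ℕ × ℕ → ℕ × ℕ × ℕ)
    (hinj : ∀ p ∈ A ×ˢ V ×ˢ V, ∀ q ∈ A ×ˢ V ×ˢ V, φ p = φ q → p = q)
    (h1 : ∀ F, IsArcs A V F → IsArcs A' V' (F.image φ))
    (h2 : ∀ p ∈ A ×ˢ V ×ˢ V, ∀ q ∈ A ×ˢ V ×ˢ V, Q p q → Q q p → Q' (φ p) (φ q)) :
    arcN A V Q ≤ arcN A' V' Q' := by
  classical
  unfold arcN
  apply card_le_card_of_injOn (fun F => F.image φ)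
  · intro F hF
    simp only [coe_filter, mem_powerset, Set.mem_ofPred_eq] at hF ⊢
    obtain ⟨hs, hA, hQ⟩ := hF
    have hA' := h1 F hA
    refine ⟨?_, hA', ?_⟩
    · intro p hp
      obtain ⟨h1, h2, h3, -⟩ := hA'.1 p hp
      rw [mem_product, mem_product]
      exact ⟨h1, h2, h3⟩
    · intro p hp q hq
      obtain ⟨p', hp', rfl⟩ := mem_image.1 hp
      obtain ⟨q', hq', rfl⟩ := mem_image.1 hq
      exact h2 p' (hs hp') q' (hs hq') (hQ p' hp' q' hq') (hQ q' hq' p' hp')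
  · intro F hF G hG hFG
    simp only [coe_filter, mem_powerset, Set.mem_ofPred_eq] at hF hG
    simp only at hFG
    have key : ∀ F G : Finset (ℕ × ℕ × ℕ), F ⊆ A ×ˢ V ×ˢ V → G ⊆ A ×ˢ V ×ˢ V →
        F.image φ = G.image φ → F ⊆ G := by
      intro F G hF hG h p hp
      have h3 : φ p ∈ G.image φ := h ▸ mem_image_of_mem φ hp
      obtain ⟨q, hq, hqp⟩ := mem_image.1 h3
      have h4 := hinj q (hG hq) p (hF hp) hqp
      rw [← h4]
      exact hq
    exact Subset.antisymm (key F G hF.1 hG.1 hFG) (key G F hG.1 hF.1 hFG.symm)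

private theorem sup_bd (A : Finset ℕ) : ∀ a ∈ A, a < A.sup id + 1 :=
  fun a ha => Nat.lt_succ_of_le (le_sup (f := id) ha)

private theorem card_refl {A : Finset ℕ} {m : ℕ} (hA : ∀ a ∈ A, a < m) :
    (A.image (fun a => m - a)).card = A.card := by
  apply card_image_of_injOn
  intro a ha b hb hab
  have h1 := hA a ha
  have h2 := hA b hb
  simp only at hab
  omega

theorem arc_d {A V : Finset ℕ} (h : V.card = 2 * A.card) :
    arcN A V Qd ≤ A.card.factorial * catalan A.card := by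
  classical
  obtain ⟨m, hA⟩ : ∃ m, ∀ a ∈ A, a < m := ⟨_, sup_bd A⟩
  have hc := card_refl hA
  have h1 : arcN A V Qd ≤ arcN (A.image (fun a => m - a)) V Qc := by
    apply transfer (fun p => (m - p.1, p.2.1, p.2.2))
    · rintro ⟨a, x, y⟩ hp ⟨b, z, w⟩ hq hpq
      rw [mem_product, mem_product] at hp hq
      have h1 := hA a hp.1
      have h2 := hA b hq.1
      simp only [Prod.mk.injEq] at hpq ⊢
      omega
    · intro F hF
      obtain ⟨f1, f2, f3, f4⟩ := hF
      refine ⟨?_, ?_, ?_, ?_⟩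
      · intro p hp
        obtain ⟨q, hq, rfl⟩ := mem_image.1 hp
        obtain ⟨g1, g2, g3, g4⟩ := f1 q hq
        exact ⟨mem_image_of_mem _ g1, g2, g3, g4⟩
      · intro a ha
        obtain ⟨b, hb, rfl⟩ := mem_image.1 ha
        obtain ⟨p, hp, rfl⟩ := f2 b hb
        exact ⟨_, mem_image_of_mem _ hp, rfl⟩
      · intro v hv
        obtain ⟨p, hp, h⟩ := f3 v hv
        exact ⟨_, mem_image_of_mem _ hp, h⟩
      · intro p hp q hq hpq
        obtain ⟨p', hp', rfl⟩ := mem_image.1 hp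
        obtain ⟨q', hq', rfl⟩ := mem_image.1 hq
        have hne : p' ≠ q' := fun h => hpq (by rw [h])
        obtain ⟨g1, g2⟩ := f4 p' hp' q' hq' hne
        refine ⟨?_, g2⟩
        have h5 := hA _ (f1 p' hp').1
        have h6 := hA _ (f1 q' hq').1
        simp only
        omega
    · rintro ⟨a, x, y⟩ hp ⟨b, z, w⟩ hq - hQ
      rw [mem_product, mem_product] at hp hq
      have h1 := hA a hp.1
      have h2 := hA b hq.1
      unfold Qd at hQ
      unfold Qc
      simp only at hQ h1 h2 ⊢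
      omega
  refine h1.trans ?_
  have h2 := arc_c (A := A.image (fun a => m - a)) (V := V) (by rw [hc]; exact h)
  rw [hc] at h2
  exact h2

private theorem reflect {A V : Finset ℕ} {m : ℕ} {Q Q' : ℕ × ℕ × ℕ → ℕ × ℕ × ℕ → Prop}
    (hV : ∀ a ∈ V, a < m)
    (hQ : ∀ a x y b z w, x < m → y < m → z < m → w < m → Q (a, x, y) (b, z, w) →
      Q' (a, m - y, m - x) (b, m - w, m - z)) :
    arcN A V Q ≤ arcN A (V.image (fun a => m - a)) Q' := by
  classical
  apply transfer (fun p => (p.1, m - p.2.2, m - p.2.1))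
  · rintro ⟨a, x, y⟩ hp ⟨b, z, w⟩ hq hpq
    rw [mem_product, mem_product] at hp hq
    have h1 := hV x hp.2.1
    have h2 := hV y hp.2.2
    have h3 := hV z hq.2.1
    have h4 := hV w hq.2.2
    simp only [Prod.mk.injEq] at hpq ⊢
    omega
  · intro F hF
    obtain ⟨f1, f2, f3, f4⟩ := hF
    refine ⟨?_, ?_, ?_, ?_⟩
    · intro p hp
      obtain ⟨q, hq, rfl⟩ := mem_image.1 hp
      obtain ⟨g1, g2, g3, g4⟩ := f1 q hq
      refine ⟨g1, mem_image_of_mem _ g3, mem_image_of_mem _ g2, ?_⟩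
      have h5 := hV _ g2
      have h6 := hV _ g3
      simp only
      omega
    · intro a ha
      obtain ⟨p, hp, rfl⟩ := f2 a ha
      exact ⟨_, mem_image_of_mem _ hp, rfl⟩
    · intro v hv
      obtain ⟨u, hu, rfl⟩ := mem_image.1 hv
      obtain ⟨p, hp, h⟩ := f3 u hu
      refine ⟨_, mem_image_of_mem _ hp, ?_⟩
      rcases h with h | h
      · right
        simp only [h]
      · left
        simp only [h]
    · intro p hp q hq hpq
      obtain ⟨p', hp', rfl⟩ := mem_image.1 hp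
      obtain ⟨q', hq', rfl⟩ := mem_image.1 hq
      have hne : p' ≠ q' := fun h => hpq (by rw [h])
      obtain ⟨g1, g2, g3, g4, g5⟩ := f4 p' hp' q' hq' hne
      have h5 := hV _ (f1 p' hp').2.1
      have h6 := hV _ (f1 p' hp').2.2.1
      have h7 := hV _ (f1 q' hq').2.1
      have h8 := hV _ (f1 q' hq').2.2.1
      refine ⟨g1, ?_, ?_, ?_, ?_⟩ <;> simp only <;> omega
  · rintro ⟨a, x, y⟩ hp ⟨b, z, w⟩ hq hQ1 -
    rw [mem_product, mem_product] at hp hq
    exact hQ a x y b z w (hV x hp.2.1) (hV y hp.2.2) (hV z hq.2.1) (hV w hq.2.2) hQ1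

theorem arc_e {A V : Finset ℕ} (h : V.card = 2 * A.card) :
    arcN A V Qe ≤ A.card.factorial * catalan A.card := by
  classical
  obtain ⟨m, hV⟩ : ∃ m, ∀ a ∈ V, a < m := ⟨_, sup_bd V⟩
  refine le_trans ?_ (arc_d (A := A) (V := V.image (fun a => m - a)) (by rw [card_refl hV, h]))
  apply reflect hV
  intro a x y b z w h1 h2 h3 h4 hQ
  unfold Qe at hQ
  unfold Qd
  simp only at hQ ⊢
  omega

theorem arc_f {A V : Finset ℕ} (h : V.card = 2 * A.card) :
    arcN A V Qf ≤ A.card.factorial * catalan A.card := by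
  classical
  obtain ⟨m, hV⟩ : ∃ m, ∀ a ∈ V, a < m := ⟨_, sup_bd V⟩
  refine le_trans ?_ (arc_c (A := A) (V := V.image (fun a => m - a)) (by rw [card_refl hV, h]))
  apply reflect hV
  intro a x y b z w h1 h2 h3 h4 hQ
  unfold Qf at hQ
  unfold Qc
  simp only at hQ ⊢
  omega

end Pool.Agent.Work.MP_7d1693_pr.FX
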