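import Pool.Agent.Work.MP_7d1693_pr.FX.Defs
import Pool.Agent.Work.MP_7d1693_pr.FM.Gre
import Pool.Agent.Work.MP_7d1693_pr.FM.Link
import Pool.Agent.Work.MP_7d1693_pr.FM.ETot
import Pool.Agent.Work.MP_7d1693_pr.FM.ChB
import Pool.Agent.Work.MP_7d1693_pr.FM.PhiReg

/-! # Module LbGre (S): lower bounds for `phi` from sets with few conflicts

`gre` (symmetric relation `conf P`: `conf_symm`): `(S.card/2)^k ≤ k! (indK (conf P) S k).card`; `indK` is monotone in `S`, and `indK (conf P) (Ebox r B) k = Cl r P B k` (`Cl_eq`), `card_Cl`: its cardinal is `ac k * chB B k`. `chB_le`: `chB B k * k^(rk) ≤ (e^r vol)^k`, `k! ≤ k^k`.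
So `ac k/k^(rk) ≥ (S.card/(2 k e^r vol))^k`, and `phi^k = ac k/k^(rk)` (`phi_pow`); take `k`-th roots. (`S` is nonempty and contained in `Ebox`, `(Ebox).card ≤ volB`: `Ebox_card`, so the volume is positive.) -/

namespace Pool.Agent.Work.MP_7d1693_pr.FX

open Finset FM

theorem lb_gre {r : ℕ} (hr : 1 ≤ r) {P : Set (List Bool)} {B : Box} {c k Δ : ℕ} (hB : BOrd c B)
    (hC : Comp r (shape B)) (hk : 1 ≤ k) {S : Finset (Finset ℕ)} (hS : S ⊆ Ebox r B)
    (hd : ∀ v ∈ S, deg (conf P) S v ≤ Δ) (hj : 2 * k * (Δ + 1) ≤ S.card) :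
    (S.card : ℝ) / (2 * Real.exp r * k * volB B) ≤ phi r P (shape B) k := by
  have hkR : (0 : ℝ) < k := by exact_mod_cast hk
  have hN : 0 < S.card := by
    have h1 : 0 < 2 * k * (Δ + 1) := by positivity
    exact lt_of_lt_of_le h1 hj
  have hV : 0 < volB B :=
    lt_of_lt_of_le hN ((Finset.card_le_card hS).trans (Ebox_card hB hC.1))
  have hVR : (0 : ℝ) < volB B := by exact_mod_cast hV
  have hE : (0 : ℝ) < Real.exp r := Real.exp_pos _
  have h1 := gre (conf P) (fun u v h => conf_symm P h) S hd hj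
  have h2 : (indK (conf P) S k).card ≤ ac r P (shape B) k * chB B k := by
    rw [← card_Cl hr P hB hC.1 k, Cl_eq hr P B k]
    classical
    refine Finset.card_le_card ?_
    intro I hI
    unfold indK at hI ⊢
    rw [Finset.mem_filter] at hI ⊢
    exact ⟨Finset.powersetCard_mono hS hI.1, hI.2⟩
  have h2R : ((indK (conf P) S k).card : ℝ) ≤ (ac r P (shape B) k : ℝ) * (chB B k : ℝ) := by
    exact_mod_cast h2
  have h3 := chB_le (r := r) (B := B) hC hk
  have h4 := phi_pow r P (shape B) hk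
  have h5 : ((k.factorial : ℕ) : ℝ) ≤ (k : ℝ) ^ k := by exact_mod_cast Nat.factorial_le_pow k
  have hphi := phi_nonneg r P (shape B) k
  have hpk : (0 : ℝ) < (k : ℝ) ^ (r * k) := by positivity
  have hac : (0 : ℝ) ≤ (ac r P (shape B) k : ℝ) := Nat.cast_nonneg _
  have h6 : ((S.card : ℝ) / 2) ^ k * (k : ℝ) ^ (r * k) ≤
      ((k : ℝ) * phi r P (shape B) k * (Real.exp r * volB B)) ^ k * (k : ℝ) ^ (r * k) := by
    calc ((S.card : ℝ) / 2) ^ k * (k : ℝ) ^ (r * k)
        ≤ ((k.factorial : ℝ) * ((ac r P (shape B) k : ℝ) * (chB B k : ℝ))) * (k : ℝ) ^ (r * k) := by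
          refine mul_le_mul_of_nonneg_right (h1.trans ?_) hpk.le
          exact mul_le_mul_of_nonneg_left h2R (Nat.cast_nonneg _)
      _ = (k.factorial : ℝ) * ((ac r P (shape B) k : ℝ) * ((chB B k : ℝ) * (k : ℝ) ^ (r * k))) := by ring
      _ ≤ (k : ℝ) ^ k * ((ac r P (shape B) k : ℝ) * (Real.exp r * volB B) ^ k) := by
          refine mul_le_mul h5 (mul_le_mul_of_nonneg_left h3 hac) (by positivity) (by positivity)
      _ = ((k : ℝ) * phi r P (shape B) k * (Real.exp r * volB B)) ^ k * (k : ℝ) ^ (r * k) := by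
          rw [← h4, mul_pow, mul_pow]
          ring
  have h7 : ((S.card : ℝ) / 2) ^ k ≤ ((k : ℝ) * phi r P (shape B) k * (Real.exp r * volB B)) ^ k :=
    le_of_mul_le_mul_right h6 hpk
  have h8 : (S.card : ℝ) / 2 ≤ (k : ℝ) * phi r P (shape B) k * (Real.exp r * volB B) := by
    refine le_of_pow_le_pow_left₀ (Nat.one_le_iff_ne_zero.mp hk) (by positivity) h7
  rw [div_le_iff₀ (by positivity)]
  linarith

end Pool.Agent.Work.MP_7d1693_pr.FX
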