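import Pool.Agent.Work.MP_7d1693_pr.FX.Defs
import Pool.Agent.Work.MP_7d1693_pr.FM.Vert
import Pool.Agent.Work.MP_7d1693_pr.FM.Link
import Pool.Agent.Work.MP_7d1693_pr.PAT
import Pool.Agent.Work.MP_7d1693_pr.FULL

/-! # Module PatBox (M): the box with all parts 1 as a grid

`B = nBox N 0 (List.replicate r 1)` is the list of `(1, j N, (j+1) N)`, `j < r` (induction). `enc r N x` has exactly one element in each `[jN, (j+1)N)`, and it is the `j`-th smallest (`el`; e.g. by `full_good_el` in `FULL`: `v / N = j`). An `r`-set with one element in each interval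
(for `InB`) has `j`-th smallest element in `[jN, (j+1)N)` and is `enc` of its differences. `pat_box`: `full_pat` in `FULL` proves that the word is `word` of the list of `(1, decide (el e j < el f j))` (look into its proof: `pat_word_iff`); here the equality itself is needed, without the assumption on
the minima (`pat_word_iff` needs none). `nbox_ord`, `nbox_shape`, `nbox_vol`: as the private lemmas in `FM/Link`. `nbox_card`: `enc` is a bijection from the functions with values `< N`. -/

namespace Pool.Agent.Work.MP_7d1693_pr.FX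

open Finset FM

theorem nbox_ord (N c : ℕ) (l : List ℕ) : BOrd c (nBox N c l) := by
  induction l generalizing c with
  | nil => exact trivial
  | cons s l ih => exact ⟨le_rfl, Nat.le_add_right c N, ih (c + N)⟩

theorem nbox_shape (N c : ℕ) (l : List ℕ) : shape (nBox N c l) = l := by
  induction l generalizing c with
  | nil => rfl
  | cons s l ih =>
    show s :: shape (nBox N (c + N) l) = s :: l
    rw [ih (c + N)]

theorem nbox_vol (N c : ℕ) (l : List ℕ) : volB (nBox N c l) = N ^ l.sum := by
  induction l generalizing c with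
  | nil => rfl
  | cons s l ih =>
    have h : volB (nBox N c (s :: l)) = (c + N - c) ^ s * volB (nBox N (c + N) l) := by
      show (List.map _ (_ :: _)).prod = _
      rw [List.map_cons, List.prod_cons]
      rfl
    rw [h, ih (c + N), Nat.add_sub_cancel_left, List.sum_cons, pow_add]

private theorem mem_nB (N r c : ℕ) (b : ℕ × ℕ × ℕ) : b ∈ nBox N c (List.replicate r 1) ↔
    ∃ j < r, b = (1, c + j * N, c + j * N + N) := by
  induction r generalizing c with
  | zero => simp [nBox]
  | succ r ih =>
    rw [List.replicate_succ, nBox, List.mem_cons, ih (c + N)]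
    constructor
    · rintro (rfl | ⟨j, hj, rfl⟩)
      · exact ⟨0, by omega, by simp⟩
      · refine ⟨j + 1, by omega, ?_⟩
        rw [Nat.add_mul, Nat.one_mul]
        have e1 : c + N + j * N = c + (j * N + N) := by ring
        rw [e1]
    · rintro ⟨j, hj, rfl⟩
      rcases j with _ | j
      · left
        simp
      · right
        refine ⟨j, by omega, ?_⟩
        rw [Nat.add_mul, Nat.one_mul]
        have e1 : c + N + j * N = c + (j * N + N) := by ring
        rw [e1]

private theorem enc_range (r N : ℕ) (x : Fin r → ℕ) :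
    enc r N x = (range r).image fun j => j * N + (if h : j < r then x ⟨j, h⟩ else 0) := by
  ext v
  rw [enc, mem_image, mem_image]
  constructor
  · rintro ⟨j, -, rfl⟩
    refine ⟨j, mem_range.2 j.2, ?_⟩
    rw [dif_pos j.2]
  · rintro ⟨j, hj, rfl⟩
    rw [mem_range] at hj
    refine ⟨⟨j, hj⟩, mem_univ _, ?_⟩
    rw [dif_pos hj]

private theorem enc_mono {r N : ℕ} {x : Fin r → ℕ} (hx : ∀ j, x j < N) :
    StrictMonoOn (fun j => j * N + (if h : j < r then x ⟨j, h⟩ else 0)) (range r : Set ℕ) := by
  intro i hi j hj hij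
  have hi' : i < r := by simpa using hi
  have hj' : j < r := by simpa using hj
  dsimp only
  rw [dif_pos hi', dif_pos hj']
  have h1 := hx ⟨i, hi'⟩
  have h2 : (i + 1) * N ≤ j * N := Nat.mul_le_mul_right N hij
  rw [Nat.add_mul, Nat.one_mul] at h2
  omega

private theorem enc_card {r N : ℕ} {x : Fin r → ℕ} (hx : ∀ j, x j < N) :
    (enc r N x).card = r := by
  rw [enc_range, card_image_of_injOn (enc_mono hx).injOn, card_range]

theorem enc_mem {r N : ℕ} {x : Fin r → ℕ} (hx : ∀ j, x j < N) :
    enc r N x ∈ Ebox r (nBox N 0 (List.replicate r 1)) := by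
  classical
  unfold Ebox
  rw [mem_filter, mem_powersetCard]
  refine ⟨⟨?_, enc_card hx⟩, ?_⟩
  · intro v hv
    rw [enc_range, mem_image] at hv
    obtain ⟨j, hj, rfl⟩ := hv
    rw [mem_range] at hj
    unfold vert
    rw [mem_biUnion]
    refine ⟨(1, 0 + j * N, 0 + j * N + N), ?_, ?_⟩
    · rw [List.mem_toFinset, mem_nB]
      exact ⟨j, hj, rfl⟩
    · rw [mem_Ico]
      have h1 := hx ⟨j, hj⟩
      rw [dif_pos hj]
      dsimp only
      omega
  · intro b hb
    rw [mem_nB] at hb
    obtain ⟨i, hi, rfl⟩ := hb
    dsimp only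
    have h1 : (enc r N x).filter (fun v => 0 + i * N ≤ v ∧ v < 0 + i * N + N) =
        {i * N + x ⟨i, hi⟩} := by
      ext v
      rw [mem_filter, mem_singleton, enc, mem_image]
      constructor
      · rintro ⟨⟨j, -, rfl⟩, h2, h3⟩
        have h4 := hx j
        have h5 : (j : ℕ) = i := by
          rcases lt_trichotomy (j : ℕ) i with h | h | h
          · exfalso
            have h6 : ((j : ℕ) + 1) * N ≤ i * N := Nat.mul_le_mul_right N h
            rw [Nat.add_mul, Nat.one_mul] at h6
            omega
          · exact h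
          · exfalso
            have h6 : (i + 1) * N ≤ (j : ℕ) * N := Nat.mul_le_mul_right N h
            rw [Nat.add_mul, Nat.one_mul] at h6
            omega
        have h7 : j = ⟨i, hi⟩ := Fin.ext h5
        rw [h7]
      · rintro rfl
        refine ⟨⟨⟨i, hi⟩, mem_univ _, rfl⟩, by omega, ?_⟩
        have := hx ⟨i, hi⟩
        omega
    rw [h1, card_singleton]

theorem enc_el {r N : ℕ} {x : Fin r → ℕ} (hx : ∀ j, x j < N) (j : Fin r) :
    el (enc r N x) j = (j : ℕ) * N + x j := by
  have h1 : (j : ℕ) < (range r).card := by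
    rw [card_range]
    exact j.2
  rw [enc_range, el_image _ _ (enc_mono hx) _ h1, full_el_range r j j.2, dif_pos j.2]

theorem enc_inj {r N : ℕ} {x y : Fin r → ℕ} (hx : ∀ j, x j < N) (hy : ∀ j, y j < N)
    (h : enc r N x = enc r N y) : x = y := by
  funext j
  have h1 := enc_el hx j
  rw [h, enc_el hy j] at h1
  omega

private theorem good_of_mem {r N : ℕ} {e : Finset ℕ}
    (he : e ∈ Ebox r (nBox N 0 (List.replicate r 1))) :
    FullGood N r e ∧ (0 < r → 0 < N) := by
  classical
  unfold Ebox at he
  rw [mem_filter, mem_powersetCard] at he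
  obtain ⟨⟨-, h2⟩, h3⟩ := he
  have h4 : ∀ j < r, ∃ v ∈ e, j * N ≤ v ∧ v < j * N + N := by
    intro j hj
    have h5 := h3 (1, 0 + j * N, 0 + j * N + N) ((mem_nB N r 0 _).2 ⟨j, hj, rfl⟩)
    dsimp only at h5
    have h6 : (e.filter (fun v => 0 + j * N ≤ v ∧ v < 0 + j * N + N)).Nonempty := by
      rw [← card_pos, h5]
      omega
    obtain ⟨v, hv⟩ := h6
    rw [mem_filter] at hv
    exact ⟨v, hv.1, by omega, by omega⟩
  have hN : 0 < r → 0 < N := by
    intro hr
    obtain ⟨v, -, h5, h6⟩ := h4 0 hr
    omega
  refine ⟨⟨h2, ?_⟩, hN⟩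
  symm
  apply eq_of_subset_of_card_le
  · intro j hj
    rw [mem_range] at hj
    obtain ⟨v, hv, h5, h6⟩ := h4 j hj
    rw [mem_image]
    refine ⟨v, hv, ?_⟩
    rw [Nat.div_eq_iff (hN (by omega))]
    omega
  · rw [card_range, ← h2]
    exact card_image_le

theorem enc_surj {r N : ℕ} {e : Finset ℕ}
    (he : e ∈ Ebox r (nBox N 0 (List.replicate r 1))) :
    (∀ j < r, j * N ≤ el e j ∧ el e j < j * N + N) ∧
      e = enc r N (fun j : Fin r => el e j - (j : ℕ) * N) := by
  obtain ⟨hg, hN⟩ := good_of_mem he
  have h1 : ∀ j < r, j * N ≤ el e j ∧ el e j < j * N + N := by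
    intro j hj
    have h2 := full_good_el N r e hg j hj
    have hN0 := hN (by omega)
    rw [Nat.div_eq_iff hN0] at h2
    exact ⟨h2.1, by omega⟩
  refine ⟨h1, ?_⟩
  ext v
  rw [enc, mem_image]
  constructor
  · intro hv
    obtain ⟨i, hi, rfl⟩ := exists_el e v hv
    rw [hg.1] at hi
    refine ⟨⟨i, hi⟩, mem_univ _, ?_⟩
    have := (h1 i hi).1
    dsimp only
    omega
  · rintro ⟨j, -, rfl⟩
    have h3 := (h1 j j.2).1
    have h4 : (j : ℕ) * N + (el e j - (j : ℕ) * N) = el e j := by omega
    rw [h4]
    exact el_mem e j (by rw [hg.1]; exact j.2)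

theorem pat_box {r N : ℕ} (hr : 1 ≤ r) {e f : Finset ℕ}
    (he : e ∈ Ebox r (nBox N 0 (List.replicate r 1)))
    (hf : f ∈ Ebox r (nBox N 0 (List.replicate r 1))) (hd : Disjoint e f) :
    pat e f = wd r (fun j => decide (el e j < el f j)) := by
  classical
  obtain ⟨he', -⟩ := good_of_mem he
  obtain ⟨hf', -⟩ := good_of_mem hf
  unfold wd
  set b : List (ℕ × Bool) := (List.range r).map (fun j => (1, decide (el e j < el f j))) with hb
  have hfst : b.map Prod.fst = List.replicate r 1 := by
    rw [hb, List.map_map]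
    apply List.ext_getElem
    · simp
    · intro i h1 h2
      simp
  have hsnd : ∀ i < r, (b.map Prod.snd).getD i false = decide (el e i < el f i) := by
    intro i hi
    rw [hb, List.map_map, List.getD_eq_getElem _ _ (by simpa using hi)]
    simp
  rw [pat_word_iff r b (by rw [hfst]; simp) e f he'.1 hf'.1 hd]
  intro i hi j hj
  rw [hfst, full_bi r i hi, full_bi r j hj, hsnd i hi, decide_eq_true_iff]
  have ei := full_good_el N r e he' i hi
  have fj := full_good_el N r f hf' j hj
  constructor
  · intro h
    rcases Nat.lt_trichotomy i j with h1 | h1 | h1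
    · exact Or.inl h1
    · subst h1; exact Or.inr ⟨rfl, h⟩
    · exfalso
      have := Nat.div_le_div_right (c := N) h.le
      omega
  · rintro (h | ⟨h, h'⟩)
    · by_contra hc
      push Not at hc
      have := Nat.div_le_div_right (c := N) hc
      omega
    · subst h; exact h'

end Pool.Agent.Work.MP_7d1693_pr.FX
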