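import Pool.Agent.Work.MP_7d1693_pr.FX.Defs
import Pool.Agent.Work.MP_7d1693_pr.FX.LbGre
import Pool.Agent.Work.MP_7d1693_pr.FX.PatBox

/-! # Module ClsLb (M): lower bound for class patterns

`κ` labels the parts by classes, `u` is a twist, `q` the number of classes. Let `k ≥ 1`, `N = 4 q k + 1` (any `N ≥ 4 q k`), `B = nBox N 0 (List.replicate r 1)`, and let `S` be the set of the `enc r N x` with `x j = b (κ j)` if `u j = true` and `N - 1 - b (κ j)` if `u j = false`,
for the functions `b` from the `q` classes to `{0,...,N-1}`; `S.card = N^q` (`enc_inj`). Two elements `b ≠ b'` of `S` in conflict (`conf P`) have `b c = b' c` for some class `c`: otherwise they are disjoint, `el e j < el f j` iff (`b (κ j) < b' (κ j)` if `u j`, `>` if not), so by `pat_box` the word (smaller minimum first,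
`el e 0 < el f 0`, so `s 0 = true`) is `wd r s` with `s i = s j ↔ u i = u j` for `κ i = κ j`: in `P`. So the degree is at most `q N^(q-1)`, and `2 k (q N^(q-1) + 1) ≤ N^q` (`q ≥ 1`). `lb_gre`: `phi k ≥ N^q/(2 e^r k N^r)`, and `N ≤ 5 q k`: `≥ c k^(-1-(r-q))`. -/

namespace Pool.Agent.Work.MP_7d1693_pr.FX

open Finset FM

private lemma fix_card {q N : ℕ} (c : Fin q) (a : Fin N) :
    ((univ : Finset (Fin q → Fin N)).filter (fun b => b c = a)).card ≤ N ^ (q - 1) := by
  classical
  have hle : ((univ : Finset (Fin q → Fin N)).filter (fun b => b c = a)).card ≤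
      (Fintype.piFinset (fun c' : Fin q => if c' = c then ({a} : Finset (Fin N)) else univ)).card := by
    apply card_le_card
    intro b hb
    rw [mem_filter] at hb
    rw [Fintype.mem_piFinset]
    intro c'
    by_cases hc : c' = c
    · subst hc
      simp [hb.2]
    · simp [hc]
  refine hle.trans ?_
  rw [Fintype.card_piFinset]
  have h1 : ∀ c' : Fin q, (if c' = c then ({a} : Finset (Fin N)) else univ).card =
      if c' = c then 1 else N := by
    intro c'
    split_ifs <;> simp
  rw [prod_congr rfl (fun c' _ => h1 c'), prod_ite, prod_const_one, one_mul, prod_const]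
  apply le_of_eq
  congr 1
  have h2 : (univ.filter (fun c' : Fin q => ¬ c' = c)) = univ.erase c := by
    ext x
    simp
  rw [h2, card_erase_of_mem (mem_univ c), card_univ, Fintype.card_fin]

theorem cls_lb {r : ℕ} (hr : 1 ≤ r) {P : Set (List Bool)} (κ : ℕ → ℕ) (u : ℕ → Bool)
    (h : ∀ s : ℕ → Bool, s 0 = true →
      (∀ i < r, ∀ j < r, κ i = κ j → (s i = s j ↔ u i = u j)) → wd r s ∈ P) :
    Lb r P (List.replicate r 1) ((r : ℝ) + 1 - ((range r).image κ).card) := by
  classical
  set Cs := (range r).image κ with hCs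
  obtain ⟨q, hq⟩ : ∃ q, Cs.card = q := ⟨_, rfl⟩
  have hqr : q ≤ r := by
    rw [← hq]
    exact card_image_le.trans (by rw [card_range])
  have hq1 : 1 ≤ q := by
    rw [← hq]
    exact card_pos.2 ⟨κ 0, mem_image_of_mem _ (mem_range.2 hr)⟩
  -- class numbering
  obtain ⟨g, hg, hgs⟩ : ∃ g : ℕ → Fin q, (∀ i < r, ∀ j < r, g i = g j ↔ κ i = κ j) ∧
      ∀ c : Fin q, ∃ j < r, g j = c := by
    have e : Cs ≃ Fin q := Cs.equivFin.trans (finCongr hq)
    refine ⟨fun i => if hi : κ i ∈ Cs then e ⟨κ i, hi⟩ else ⟨0, hq1⟩, ?_, ?_⟩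
    · intro i hi j hj
      have h1 : κ i ∈ Cs := mem_image_of_mem _ (mem_range.2 hi)
      have h2 : κ j ∈ Cs := mem_image_of_mem _ (mem_range.2 hj)
      simp only [h1, h2, dif_pos]
      rw [e.apply_eq_iff_eq, Subtype.mk.injEq]
    · intro c
      obtain ⟨j, hj, hjc⟩ := mem_image.1 (e.symm c).2
      refine ⟨j, mem_range.1 hj, ?_⟩
      have h1 : κ j ∈ Cs := mem_image_of_mem _ hj
      simp only [h1, dif_pos]
      have h2 : (⟨κ j, h1⟩ : Cs) = e.symm c := Subtype.ext hjc
      rw [h2, Equiv.apply_symm_apply]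
  refine ⟨(2 * Real.exp r * (4 * q : ℝ) ^ (r - q))⁻¹, by positivity, ?_⟩
  intro k hk
  obtain ⟨N, hN⟩ : ∃ N, N = 4 * q * k := ⟨_, rfl⟩
  have hN1 : 1 ≤ N := by
    rw [hN]; nlinarith [Nat.mul_le_mul hq1 hk]
  -- the elements
  obtain ⟨X, hX⟩ : ∃ X : (Fin q → Fin N) → Fin r → ℕ, ∀ b j, X b j =
      if u j = true then ((b (g j) : Fin N) : ℕ) else N - 1 - ((b (g j) : Fin N) : ℕ) :=
    ⟨_, fun _ _ => rfl⟩
  have hXN : ∀ b j, X b j < N := by
    intro b j
    rw [hX]
    have := (b (g j)).isLt
    split_ifs <;> omega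
  have hXeq : ∀ b b' (j : Fin r), X b j = X b' j → b (g j) = b' (g j) := by
    intro b b' j hj
    rw [hX, hX] at hj
    have h1 := (b (g j)).isLt
    have h2 := (b' (g j)).isLt
    apply Fin.ext
    split_ifs at hj <;> omega
  obtain ⟨E, hE⟩ : ∃ E : (Fin q → Fin N) → Finset ℕ, ∀ b, E b = enc r N (X b) := ⟨_, fun _ => rfl⟩
  have hEinj : Function.Injective E := by
    intro b b' hb
    rw [hE, hE] at hb
    have h1 := enc_inj (hXN b) (hXN b') hb
    funext c
    obtain ⟨j, hj, rfl⟩ := hgs c
    exact hXeq b b' ⟨j, hj⟩ (congrFun h1 ⟨j, hj⟩)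
  have hEbox : ∀ b, E b ∈ Ebox r (nBox N 0 (List.replicate r 1)) := by
    intro b
    rw [hE]
    exact enc_mem (hXN b)
  have hEel : ∀ b, ∀ j (hj : j < r), el (E b) j = j * N + X b ⟨j, hj⟩ := by
    intro b j hj
    rw [hE]
    exact enc_el (hXN b) ⟨j, hj⟩
  have hEcard : ∀ b, (E b).card = r := by
    intro b
    have := hEbox b
    unfold Ebox at this
    rw [mem_filter, mem_powersetCard] at this
    exact this.1.2
  have hEne : ∀ b, (E b).Nonempty := by
    intro b
    rw [← card_pos, hEcard]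
    exact hr
  -- the key: no conflicts
  have hkey : ∀ b b', (∀ c, b c ≠ b' c) → (E b).min < (E b').min → Disjoint (E b) (E b') →
      pat (E b) (E b') ∈ P := by
    intro b b' hbb hmin hdis
    rw [pat_box hr (hEbox b) (hEbox b') hdis]
    have hs0 : el (E b) 0 < el (E b') 0 := by
      obtain ⟨h1, h2⟩ := mn_eq (E b) (hEne b)
      obtain ⟨h3, h4⟩ := mn_eq (E b') (hEne b')
      rw [h2, h4] at hmin
      rw [← h1, ← h3]
      exact_mod_cast hmin
    have hlt : ∀ j (hj : j < r), (decide (el (E b) j < el (E b') j) = true ↔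
        (u j = true ↔ b (g j) < b' (g j))) := by
      intro j hj
      have hX' : ∀ b, X b ⟨j, hj⟩ = if u j = true then ((b (g j) : Fin N) : ℕ)
          else N - 1 - ((b (g j) : Fin N) : ℕ) := fun b => hX b ⟨j, hj⟩
      rw [decide_eq_true_iff, hEel b j hj, hEel b' j hj, hX', hX']
      have h1 := (b (g j)).isLt
      have h2 := (b' (g j)).isLt
      have h3 : ((b (g j) : Fin N) : ℕ) ≠ b' (g j) := fun hh => hbb (g j) (Fin.ext hh)
      rw [Fin.lt_def]
      by_cases hu : u j = true
      · rw [if_pos hu, if_pos hu]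
        constructor
        · intro hh
          exact ⟨fun _ => by omega, fun _ => hu⟩
        · intro hh
          have := hh.1 hu
          omega
      · rw [if_neg hu, if_neg hu]
        constructor
        · intro hh
          exact ⟨fun h' => absurd h' hu, fun h' => by omega⟩
        · intro hh
          have : ¬ (((b (g j) : Fin N) : ℕ) < b' (g j)) := fun h' => hu (hh.2 h')
          omega
    apply h
    · exact decide_eq_true hs0
    · intro i hi j hj hij
      have h1 := hlt i hi
      have h2 := hlt j hj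
      have h3 : g i = g j := (hg i hi j hj).2 hij
      rw [h3] at h1
      generalize decide (el (E b) i < el (E b') i) = x at h1 ⊢
      generalize decide (el (E b) j < el (E b') j) = y at h2 ⊢
      generalize hui : u i = ui at h1 ⊢
      generalize huj : u j = uj at h2 ⊢
      by_cases hbl : b (g j) < b' (g j)
      · have e1 : x = ui := Bool.eq_iff_iff.2 (by rw [h1]; exact ⟨fun h => h.2 hbl, fun h => ⟨fun _ => hbl, fun _ => h⟩⟩)
        have e2 : y = uj := Bool.eq_iff_iff.2 (by rw [h2]; exact ⟨fun h => h.2 hbl, fun h => ⟨fun _ => hbl, fun _ => h⟩⟩)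
        rw [e1, e2]
      · have e1 : x = !ui := by
          rw [Bool.eq_iff_iff, h1]
          cases ui
          · exact ⟨fun _ => rfl, fun _ => ⟨fun h => absurd h (by decide), fun h => absurd h hbl⟩⟩
          · exact ⟨fun h => absurd (h.1 rfl) hbl, fun h => absurd h (by decide)⟩
        have e2 : y = !uj := by
          rw [Bool.eq_iff_iff, h2]
          cases uj
          · exact ⟨fun _ => rfl, fun _ => ⟨fun h => absurd h (by decide), fun h => absurd h hbl⟩⟩
          · exact ⟨fun h => absurd (h.1 rfl) hbl, fun h => absurd h (by decide)⟩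
        rw [e1, e2]
        cases ui <;> cases uj <;> decide
  have hdisj : ∀ b b', (∀ c, b c ≠ b' c) → Disjoint (E b) (E b') := by
    intro b b' hbb
    rw [hE, hE, Finset.disjoint_left]
    intro v hv hv'
    unfold enc at hv hv'
    obtain ⟨j, -, hj⟩ := mem_image.1 hv
    obtain ⟨j', -, hj'⟩ := mem_image.1 hv'
    have h1 := hXN b j
    have h2 := hXN b' j'
    have h3 : (j : ℕ) = j' := by
      have e1 : v / N = j := by
        rw [← hj, mul_comm, Nat.mul_add_div (by omega), Nat.div_eq_of_lt h1, add_zero]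
      have e2 : v / N = j' := by
        rw [← hj', mul_comm, Nat.mul_add_div (by omega), Nat.div_eq_of_lt h2, add_zero]
      rw [← e1, e2]
    have h4 : j = j' := Fin.ext h3
    subst h4
    exact hbb (g j) (hXeq b b' j (by omega))
  have hnc : ∀ b b', (∀ c, b c ≠ b' c) → ¬ conf P (E b) (E b') := by
    intro b b' hbb hc
    have hd := hdisj b b' hbb
    rcases hc with hc | hc | hc
    · exact hc hd
    · exact hc.2 (hkey b b' hbb hc.1 hd)
    · exact hc.2 (hkey b' b (fun c hh => hbb c hh.symm) hc.1 hd.symm)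
  have hScard : (univ.image E).card = N ^ q := by
    rw [card_image_of_injective _ hEinj, card_univ, Fintype.card_fun, Fintype.card_fin,
      Fintype.card_fin]
  have hdeg : ∀ v ∈ univ.image E, deg (conf P) (univ.image E) v ≤ q * N ^ (q - 1) := by
    intro v hv
    obtain ⟨b, -, rfl⟩ := mem_image.1 hv
    unfold deg
    have hsub : ((univ.image E).filter (fun w => w ≠ E b ∧ conf P (E b) w)) ⊆
        (univ : Finset (Fin q)).biUnion
          (fun c => ((univ : Finset (Fin q → Fin N)).filter (fun b' => b' c = b c)).image E) := by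
      intro w hw
      rw [mem_filter] at hw
      obtain ⟨hw1, hw2, hw3⟩ := hw
      obtain ⟨b', -, rfl⟩ := mem_image.1 hw1
      by_contra hcon
      apply hnc b b' _ hw3
      intro c hc
      apply hcon
      rw [mem_biUnion]
      exact ⟨c, mem_univ _, mem_image_of_mem _ (mem_filter.2 ⟨mem_univ _, hc.symm⟩)⟩
    refine (card_le_card hsub).trans (card_biUnion_le.trans ?_)
    have : ∀ c ∈ (univ : Finset (Fin q)),
        (((univ : Finset (Fin q → Fin N)).filter (fun b' => b' c = b c)).image E).card ≤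
        N ^ (q - 1) := fun c _ => card_image_le.trans (fix_card c (b c))
    refine (sum_le_sum this).trans ?_
    rw [sum_const, card_univ, Fintype.card_fin, smul_eq_mul]
  have hpow : N ^ q = N * N ^ (q - 1) := by
    obtain ⟨m, rfl⟩ : ∃ m, q = m + 1 := ⟨q - 1, by omega⟩
    rw [Nat.add_sub_cancel, pow_succ, mul_comm]
  have hbig : 2 * k * (q * N ^ (q - 1) + 1) ≤ (univ.image E).card := by
    rw [hScard, hpow]
    have hp1 : 1 ≤ N ^ (q - 1) := Nat.one_le_pow _ _ (by omega)
    have e1 : N * N ^ (q - 1) = 2 * k * (q * N ^ (q - 1)) + 2 * k * (q * N ^ (q - 1)) := by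
      nth_rewrite 1 [hN]
      ring
    rw [e1, mul_add]
    apply Nat.add_le_add_left
    apply Nat.mul_le_mul_left
    exact Nat.mul_pos hq1 hp1
  have hcomp : Comp r (shape (nBox N 0 (List.replicate r 1))) := by
    rw [nbox_shape]
    refine ⟨by simp, ?_⟩
    intro a ha
    rw [List.eq_of_mem_replicate ha]
    exact one_pos
  have hmain := lb_gre hr (nbox_ord N 0 (List.replicate r 1)) hcomp hk
    (S := univ.image E) (P := P) (Δ := q * N ^ (q - 1))
    (by
      intro v hv
      obtain ⟨b, -, rfl⟩ := mem_image.1 hv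
      exact hEbox b) hdeg hbig
  rw [nbox_shape] at hmain
  refine le_trans (le_of_eq ?_) hmain
  rw [hScard, nbox_vol]
  have hsum : (List.replicate r 1).sum = r := by simp
  rw [hsum]
  have hkpos : (0 : ℝ) < k := by exact_mod_cast hk
  have hNpos : (0 : ℝ) < N := by exact_mod_cast hN1
  have hNr : (N : ℝ) = 4 * q * k := by rw [hN]; push_cast; ring
  have hqpos : (0 : ℝ) < q := by exact_mod_cast hq1
  have hexp : (k : ℝ) ^ (-((r : ℝ) + 1 - (q : ℝ))) = ((k : ℝ) ^ (r - q + 1))⁻¹ := by
    rw [← Real.rpow_natCast, ← Real.rpow_neg hkpos.le]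
    congr 1
    push_cast [Nat.cast_sub hqr]
    ring
  rw [hq, hexp]
  have hrq : r = q + (r - q) := by omega
  have hvol : (((N ^ r : ℕ) : ℝ)) = (N : ℝ) ^ q * (N : ℝ) ^ (r - q) := by
    push_cast
    rw [← pow_add, ← hrq]
  rw [hvol]
  push_cast
  rw [hNr]
  have h4 : ((4 * (q : ℝ) * k) ^ (r - q)) = (4 * (q : ℝ)) ^ (r - q) * (k : ℝ) ^ (r - q) := by
    rw [mul_pow]
  rw [h4, pow_succ]
  have hA : (0 : ℝ) < (4 * (q : ℝ) * k) ^ q := by positivity
  have hB : (0 : ℝ) < (4 * (q : ℝ)) ^ (r - q) := by positivity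
  have hC : (0 : ℝ) < (k : ℝ) ^ (r - q) := by positivity
  have hD : (0 : ℝ) < Real.exp r := Real.exp_pos _
  field_simp

end Pool.Agent.Work.MP_7d1693_pr.FX
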