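import Pool.Agent.Work.MP_7d1693_pr.FX.Defs
import Pool.Agent.Work.MP_7d1693_pr.FM.Fin1
import Pool.Agent.Work.MP_7d1693_pr.FM.PhiReg

/-! # Module GgSet (S): the defining properties of `gg`

Copy from the proof of `fin1` in `FM/Fin1` (its private lemmas `const`, `cond_iff`, the boundedness of the set, `hG`, `hG1`): the set in the definition of `gg` contains `0` (`ac_zero`), it is bounded (`phi_reg`, `phi_one`: `phi k ≤ C1/k`, finitely many
types), so `gg` is in it (`Nat.sSup_mem`) and `gg + 1` is not; for `k ≥ 1` the condition of the set is `1 ≤ ν phi k` (`phi_pow`). -/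

namespace Pool.Agent.Work.MP_7d1693_pr.FX

open Finset FM

private theorem const {r : ℕ} (hr : 1 ≤ r) (P : Set (List Bool)) :
    ∃ C1 : ℝ, 1 ≤ C1 ∧ ∀ lam, Adm r P lam → ∀ j k : ℕ, 1 ≤ j → j ≤ k →
      phi r P lam k ≤ C1 * ((j : ℝ) / k) * phi r P lam j := by
  classical
  have hch : ∀ lam, ∃ C : ℝ, 1 ≤ C ∧ (Adm r P lam → ∀ j k : ℕ, 1 ≤ j → j ≤ k →
      phi r P lam k ≤ C * ((j : ℝ) / k) * phi r P lam j) := by
    intro lam
    by_cases h : Adm r P lam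
    · obtain ⟨C, hC, hC2⟩ := phi_reg hr h
      exact ⟨C, hC, fun _ j k hj hk => (hC2 j k hj hk).1⟩
    · exact ⟨1, le_refl _, fun h' => absurd h' h⟩
  choose g hg1 hg2 using hch
  set F := (comps r).filter (fun lam => Adm r P lam) with hF
  refine ⟨1 + ∑ lam ∈ F, g lam, ?_, ?_⟩
  · have : 0 ≤ ∑ lam ∈ F, g lam := Finset.sum_nonneg fun lam _ => by linarith [hg1 lam]
    linarith
  · intro lam hlam j k hj hk
    have hmem : lam ∈ F := by
      rw [hF, Finset.mem_filter]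
      exact ⟨mem_comps.2 (adm_comp hlam), hlam⟩
    have hle : g lam ≤ 1 + ∑ lam ∈ F, g lam := by
      have := Finset.single_le_sum (f := g) (fun l _ => by linarith [hg1 l]) hmem
      linarith
    refine (hg2 lam hlam j k hj hk).trans ?_
    apply mul_le_mul_of_nonneg_right _ (phi_nonneg _ _ _ _)
    exact mul_le_mul_of_nonneg_right hle (by positivity)

private theorem cond_iff {r : ℕ} (P : Set (List Bool)) (lam : List ℕ) {ν : ℝ} (hν : 0 ≤ ν) {k : ℕ}
    (hk : 1 ≤ k) :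
    (k : ℝ) ^ (r * k) ≤ ν ^ k * ac r P lam k ↔ 1 ≤ ν * phi r P lam k := by
  have hkp : (0 : ℝ) < k := by exact_mod_cast hk
  have h1 : (0 : ℝ) < (k : ℝ) ^ (r * k) := by positivity
  have h2 : 0 ≤ ν * phi r P lam k := mul_nonneg hν (phi_nonneg _ _ _ _)
  rw [← phi_pow r P lam hk, ← mul_assoc, ← mul_pow]
  constructor
  · intro h
    have h3 : 1 ≤ (ν * phi r P lam k) ^ k := by
      by_contra hcon
      have h4 : (ν * phi r P lam k) ^ k < 1 := not_le.1 hcon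
      have h5 := mul_lt_mul_of_pos_right h4 h1
      linarith
    by_contra hcon
    have h6 : (ν * phi r P lam k) ^ k < 1 := pow_lt_one₀ h2 (not_le.1 hcon) (by omega)
    linarith
  · intro h
    have h3 : 1 ≤ (ν * phi r P lam k) ^ k := one_le_pow₀ h
    have h4 := mul_le_mul_of_nonneg_right h3 h1.le
    linarith

private theorem both {r : ℕ} (hr : 2 ≤ r) {P : Set (List Bool)} (hP : ∃ lam, Adm r P lam)
    {n t : ℕ} (ht : 1 ≤ t) (htn : t ≤ n) :
    (∃ lam, Adm r P lam ∧ ((gg r P n t : ℕ) : ℝ) ^ (r * gg r P n t) ≤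
      ((n : ℝ) * ((t : ℝ) / n) ^ (lam.headD 0)) ^ gg r P n t * ac r P lam (gg r P n t)) ∧
    ¬ ∃ lam, Adm r P lam ∧ ((gg r P n t + 1 : ℕ) : ℝ) ^ (r * (gg r P n t + 1)) ≤
      ((n : ℝ) * ((t : ℝ) / n) ^ (lam.headD 0)) ^ (gg r P n t + 1) *
        ac r P lam (gg r P n t + 1) := by
  have hr1 : 1 ≤ r := by omega
  obtain ⟨C1, hC1, hreg⟩ := const hr1 P
  have hC1p : 0 < C1 := by linarith
  have hnp : (0 : ℝ) < n := by
    have : 0 < n := by omega
    exact_mod_cast this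
  have htp : (0 : ℝ) ≤ t := Nat.cast_nonneg t
  have hnu : ∀ lam : List ℕ, 0 ≤ (n : ℝ) * ((t : ℝ) / n) ^ (lam.headD 0) := fun lam => by positivity
  have hnun : ∀ lam : List ℕ, (n : ℝ) * ((t : ℝ) / n) ^ (lam.headD 0) ≤ n := by
    intro lam
    have h1 : (t : ℝ) / n ≤ 1 := by
      rw [div_le_one hnp]
      exact_mod_cast htn
    have h2 : ((t : ℝ) / n) ^ (lam.headD 0) ≤ 1 := pow_le_one₀ (by positivity) h1
    nlinarith
  set S := {k : ℕ | ∃ lam, Adm r P lam ∧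
    (k : ℝ) ^ (r * k) ≤ ((n : ℝ) * ((t : ℝ) / n) ^ (lam.headD 0)) ^ k * ac r P lam k} with hS
  have hgS : gg r P n t = sSup S := rfl
  have h0 : (0 : ℕ) ∈ S := by
    obtain ⟨lam, hlam⟩ := hP
    refine ⟨lam, hlam, ?_⟩
    rw [ac_zero]
    simp
  have hbdd : BddAbove S := by
    refine ⟨⌈(n : ℝ) * C1⌉₊, ?_⟩
    rintro k ⟨lam, hlam, hk⟩
    rcases Nat.eq_zero_or_pos k with rfl | hkpos
    · exact Nat.zero_le _
    · rw [cond_iff P lam (hnu lam) hkpos] at hk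
      have hkp : (0 : ℝ) < k := by exact_mod_cast hkpos
      have h1 := hreg lam hlam 1 k le_rfl hkpos
      rw [phi_one P hlam.1, mul_one, Nat.cast_one] at h1
      have h2 : (n : ℝ) * ((t : ℝ) / n) ^ (lam.headD 0) * phi r P lam k ≤ n * (C1 * (1 / k)) :=
        mul_le_mul (hnun lam) h1 (phi_nonneg _ _ _ _) hnp.le
      have h3 : (1 : ℝ) ≤ n * (C1 * (1 / k)) := hk.trans h2
      have h4 : (k : ℝ) ≤ n * C1 := by
        have h5 : (n : ℝ) * (C1 * (1 / k)) * k = n * C1 := by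
          field_simp
        nlinarith
      exact_mod_cast h4.trans (Nat.le_ceil _)
  have hG : gg r P n t ∈ S := by
    rw [hgS]
    exact Nat.sSup_mem ⟨0, h0⟩ hbdd
  have hG1 : gg r P n t + 1 ∉ S := by
    intro h
    have h1 := le_csSup hbdd h
    rw [← hgS] at h1
    omega
  exact ⟨hG, hG1⟩

theorem gg_in {r : ℕ} (hr : 2 ≤ r) {P : Set (List Bool)} (hP : ∃ lam, Adm r P lam) {n t : ℕ}
    (ht : 1 ≤ t) (htn : t ≤ n) (hg : 1 ≤ gg r P n t) :
    ∃ lam, Adm r P lam ∧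
      1 ≤ (n : ℝ) * ((t : ℝ) / n) ^ (lam.headD 0) * phi r P lam (gg r P n t) := by
  obtain ⟨⟨lam, hlam, hc⟩, -⟩ := both hr hP ht htn
  have hnu : 0 ≤ (n : ℝ) * ((t : ℝ) / n) ^ (lam.headD 0) := by positivity
  exact ⟨lam, hlam, (cond_iff P lam hnu hg).1 hc⟩

theorem gg_out {r : ℕ} (hr : 2 ≤ r) {P : Set (List Bool)} (hP : ∃ lam, Adm r P lam) {n t : ℕ}
    (ht : 1 ≤ t) (htn : t ≤ n) {lam : List ℕ} (h : Adm r P lam) :
    (n : ℝ) * ((t : ℝ) / n) ^ (lam.headD 0) * phi r P lam (gg r P n t + 1) < 1 := by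
  obtain ⟨-, hn⟩ := both hr hP ht htn
  have hnu : 0 ≤ (n : ℝ) * ((t : ℝ) / n) ^ (lam.headD 0) := by positivity
  by_contra hcon
  exact hn ⟨lam, h, (cond_iff P lam hnu (by omega)).2 (not_lt.1 hcon)⟩

end Pool.Agent.Work.MP_7d1693_pr.FX
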