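import Pool.Agent.Work.MP_7d1693_pr.FX.Defs
import Pool.Agent.Work.MP_7d1693_pr.FX.GgSet

/-! # Module Ev (M): from the growth of `phi` to the order of `z`

By `fin1` and `process_eq` (`FM/Main` shows how to use `process_eq`) it is enough to show, with constants: `gg ≤ C' (g + 1)` and `g ≤ C' (gg + 1)`.
Upper: if `gg = 0` trivial. Else `gg_in`: `lam` with `1 ≤ ν phi(gg)`, `ν = n (t/n)^(λ_1)`, `phi(gg) ≤ C gg^(-p)`, so `gg^p ≤ C ν`, `gg ≤ (C ν)^(1/p) = C^(1/p) ν^(1/p) ≤ C^(1/p) C'' (g+1)`; the constants depend on `lam`, there are finitely many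
(`comps r`; take sums of the constants over the filtered set, as in `const` of `FM/Fin1`). Lower: if `g n t ≤ C` it is at most `C (gg + 1)`. Else some `x ∈ L` with `g ≤ C ν^(1/p)`; `gg_out` and `Lb` for `k = gg + 1`: `ν c (gg+1)^(-p) < 1`, so `ν < (gg+1)^p/c`,
`ν^(1/p) ≤ c^(-1/p) (gg+1)`; finitely many `x ∈ L` (take the sum of the constants over the list). Then the two bounds of the claim. First: with `c' = c/(2C')`: if `gg = 0` then `g ≤ C'`; if `gg ≥ 1` then `g ≤ 2 C' gg`, `z < c' g` implies `z < c gg` (use the constants of `fin1`), and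
`C1/gg ≤ C1 2 C'/g`. If `gg = 0`: the bound `C/g` is at least `1` for `C ≥ C'` when `g > 0` (`pr_le_one`); if `g = 0` the event `z < 0` is empty. Second: put `m' = m (g+1)/(gg+1)`; `gg + 1 ≤ C' (g+1) + 1 ≤ 2C'(g+1)` (`C' ≥ 1`), so `m' ≥ m/(2C')` is at least the constant of `fin1` for `m ≥ 2 C' C1`, and `m' (gg+1) = m (g+1)`: the bound of `fin1` is exactly `C1/(m (g+1))`. -/

namespace Pool.Agent.Work.MP_7d1693_pr.FX

open Finset FM

private theorem ev_imp (r t : ℕ) (V : Finset ℕ) (E : Finset (Finset ℕ) → Prop)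
    (h : ∀ M, ¬ E M) : pr r t V E ≤ 0 := by
  classical
  induction t generalizing V E with
  | zero =>
    rw [pr_zero, if_neg (h ∅)]
  | succ t ih =>
    rw [pr_succ]
    apply div_nonpos_of_nonpos_of_nonneg _ (Nat.cast_nonneg _)
    exact Finset.sum_nonpos fun S _ => ih _ _ fun M => h _

/-- upper bound for `gg` -/
private theorem ev_up {r : ℕ} (hr : 2 ≤ r) {P : Set (List Bool)} (hP : ∃ lam, Adm r P lam)
    (g : ℕ → ℕ → ℝ) (hg : ∀ n t : ℕ, 0 ≤ g n t)
    (hup : ∀ lam, Adm r P lam → ∃ p : ℝ, 0 < p ∧ Ub r P lam p ∧ ∃ C : ℝ, 0 < C ∧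
      ∀ n t : ℕ, 1 ≤ t → t ≤ n →
        ((n : ℝ) * ((t : ℝ) / n) ^ (lam.headD 0)) ^ (1 / p) ≤ C * (g n t + 1)) :
    ∃ K : ℝ, 1 ≤ K ∧ ∀ n t : ℕ, 1 ≤ t → t ≤ n → (gg r P n t : ℝ) ≤ K * (g n t + 1) := by
  classical
  have key : ∀ lam, ∃ K : ℝ, 0 ≤ K ∧ (Adm r P lam → ∀ n t : ℕ, 1 ≤ t → t ≤ n →
      ∀ k : ℕ, 1 ≤ k → 1 ≤ (n : ℝ) * ((t : ℝ) / n) ^ (lam.headD 0) * phi r P lam k →
        (k : ℝ) ≤ K * (g n t + 1)) := by
    intro lam
    by_cases h : Adm r P lam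
    · obtain ⟨p, hp, ⟨Cu, hCu, hub⟩, C, hC, hle⟩ := hup lam h
      refine ⟨Cu ^ (1 / p) * C, by positivity, fun _ n t ht htn k hk h1 => ?_⟩
      have hkp : (0 : ℝ) < k := by exact_mod_cast hk
      set ν : ℝ := (n : ℝ) * ((t : ℝ) / n) ^ (lam.headD 0) with hν
      have hν0 : 0 ≤ ν := by positivity
      have h2 : 1 ≤ ν * (Cu * (k : ℝ) ^ (-p)) :=
        h1.trans (mul_le_mul_of_nonneg_left (hub k hk) hν0)
      have hkpp : (0 : ℝ) < (k : ℝ) ^ p := Real.rpow_pos_of_pos hkp p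
      have h3 : (k : ℝ) ^ p ≤ Cu * ν := by
        rw [Real.rpow_neg hkp.le] at h2
        have h4 : ν * (Cu * ((k : ℝ) ^ p)⁻¹) * (k : ℝ) ^ p = Cu * ν := by
          field_simp
        calc (k : ℝ) ^ p = 1 * (k : ℝ) ^ p := (one_mul _).symm
          _ ≤ ν * (Cu * ((k : ℝ) ^ p)⁻¹) * (k : ℝ) ^ p := mul_le_mul_of_nonneg_right h2 hkpp.le
          _ = Cu * ν := h4
      have h5 : (k : ℝ) ≤ (Cu * ν) ^ (1 / p) := by
        have h6 := Real.rpow_le_rpow hkpp.le h3 (by positivity : (0 : ℝ) ≤ 1 / p)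
        rwa [← Real.rpow_mul hkp.le, mul_one_div_cancel hp.ne', Real.rpow_one] at h6
      rw [Real.mul_rpow hCu.le hν0] at h5
      refine h5.trans ?_
      rw [mul_assoc]
      exact mul_le_mul_of_nonneg_left (hle n t ht htn) (by positivity)
    · exact ⟨0, le_refl _, fun h' => absurd h' h⟩
  choose K hK0 hK using key
  set F := (comps r).filter (fun lam => Adm r P lam) with hF
  refine ⟨1 + ∑ lam ∈ F, K lam, ?_, ?_⟩
  · have : 0 ≤ ∑ lam ∈ F, K lam := Finset.sum_nonneg fun lam _ => hK0 lam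
    linarith
  · intro n t ht htn
    have hS : 0 ≤ ∑ lam ∈ F, K lam := Finset.sum_nonneg fun lam _ => hK0 lam
    have hg0 := hg n t
    rcases Nat.eq_zero_or_pos (gg r P n t) with hz | hpos
    · rw [hz, Nat.cast_zero]
      positivity
    · obtain ⟨lam, hlam, h1⟩ := gg_in hr hP ht htn hpos
      have hmem : lam ∈ F := by
        rw [hF, Finset.mem_filter]
        exact ⟨mem_comps.2 (adm_comp hlam), hlam⟩
      have hle : K lam ≤ 1 + ∑ lam ∈ F, K lam := by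
        have := Finset.single_le_sum (f := K) (fun l _ => hK0 l) hmem
        linarith
      refine (hK lam hlam n t ht htn _ hpos h1).trans ?_
      exact mul_le_mul_of_nonneg_right hle (by positivity)

/-- upper bound for `g` -/
private theorem ev_low {r : ℕ} (hr : 2 ≤ r) {P : Set (List Bool)} (hP : ∃ lam, Adm r P lam)
    (g : ℕ → ℕ → ℝ)
    (L : List (List ℕ × ℝ)) (hL : ∀ x ∈ L, Adm r P x.1 ∧ 0 < x.2 ∧ Lb r P x.1 x.2)
    (hlow : ∃ C : ℝ, 0 < C ∧ ∀ n t : ℕ, 1 ≤ t → t ≤ n → g n t ≤ C ∨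
      ∃ x ∈ L, g n t ≤ C * ((n : ℝ) * ((t : ℝ) / n) ^ (x.1.headD 0)) ^ (1 / x.2)) :
    ∃ K : ℝ, 1 ≤ K ∧ ∀ n t : ℕ, 1 ≤ t → t ≤ n → g n t ≤ K * ((gg r P n t : ℝ) + 1) := by
  classical
  obtain ⟨C, hC, hlow⟩ := hlow
  have key : ∀ x : List ℕ × ℝ, ∃ K : ℝ, 0 ≤ K ∧ (x ∈ L → ∀ n t : ℕ, 1 ≤ t → t ≤ n →
      C * ((n : ℝ) * ((t : ℝ) / n) ^ (x.1.headD 0)) ^ (1 / x.2) ≤
        K * ((gg r P n t : ℝ) + 1)) := by
    intro x
    by_cases hx : x ∈ L
    · obtain ⟨hA, hp, c, hc, hlb⟩ := hL x hx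
      refine ⟨C * (1 / c) ^ (1 / x.2), by positivity, fun _ n t ht htn => ?_⟩
      set ν : ℝ := (n : ℝ) * ((t : ℝ) / n) ^ (x.1.headD 0) with hν
      have hν0 : 0 ≤ ν := by positivity
      set k : ℕ := gg r P n t + 1 with hk
      have hkc : (k : ℝ) = (gg r P n t : ℝ) + 1 := by rw [hk]; push_cast; ring
      have hkp : (0 : ℝ) < k := by rw [hkc]; positivity
      have h1 := gg_out hr hP ht htn hA
      rw [← hk, ← hν] at h1
      have h2 : ν * (c * (k : ℝ) ^ (-x.2)) < 1 :=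
        lt_of_le_of_lt (mul_le_mul_of_nonneg_left (hlb k (by omega)) hν0) h1
      have hkpp : (0 : ℝ) < (k : ℝ) ^ x.2 := Real.rpow_pos_of_pos hkp x.2
      have h3 : ν ≤ 1 / c * (k : ℝ) ^ x.2 := by
        rw [Real.rpow_neg hkp.le] at h2
        have h4 : ν * (c * ((k : ℝ) ^ x.2)⁻¹) * (1 / c * (k : ℝ) ^ x.2) = ν := by
          field_simp
        calc ν = ν * (c * ((k : ℝ) ^ x.2)⁻¹) * (1 / c * (k : ℝ) ^ x.2) := h4.symm
          _ ≤ 1 * (1 / c * (k : ℝ) ^ x.2) := mul_le_mul_of_nonneg_right h2.le (by positivity)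
          _ = 1 / c * (k : ℝ) ^ x.2 := one_mul _
      have h5 : ν ^ (1 / x.2) ≤ (1 / c) ^ (1 / x.2) * k := by
        have h6 := Real.rpow_le_rpow hν0 h3 (by positivity : (0 : ℝ) ≤ 1 / x.2)
        rwa [Real.mul_rpow (by positivity) hkpp.le, ← Real.rpow_mul hkp.le,
          mul_one_div_cancel hp.ne', Real.rpow_one] at h6
      rw [mul_assoc, ← hkc]
      exact mul_le_mul_of_nonneg_left h5 hC.le
    · exact ⟨0, le_refl _, fun h' => absurd h' hx⟩
  choose K hK0 hK using key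
  have hS : 0 ≤ ∑ x ∈ L.toFinset, K x := Finset.sum_nonneg fun x _ => hK0 x
  refine ⟨1 + C + ∑ x ∈ L.toFinset, K x, by linarith, ?_⟩
  intro n t ht htn
  have hG : (0 : ℝ) ≤ gg r P n t := Nat.cast_nonneg _
  rcases hlow n t ht htn with h | ⟨x, hx, h⟩
  · nlinarith [mul_nonneg hS hG, mul_nonneg hC.le hG]
  · refine h.trans ((hK x hx n t ht htn).trans ?_)
    apply mul_le_mul_of_nonneg_right _ (by positivity)
    have := Finset.single_le_sum (f := K) (fun l _ => hK0 l) (List.mem_toFinset.2 hx)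
    linarith

theorem ev {r : ℕ} (hr : 2 ≤ r) {P : Set (List Bool)} (hP : ∃ lam, Adm r P lam) (g : ℕ → ℕ → ℝ)
    (hg : ∀ n t : ℕ, 0 ≤ g n t)
    (hup : ∀ lam, Adm r P lam → ∃ p : ℝ, 0 < p ∧ Ub r P lam p ∧ ∃ C : ℝ, 0 < C ∧
      ∀ n t : ℕ, 1 ≤ t → t ≤ n →
        ((n : ℝ) * ((t : ℝ) / n) ^ (lam.headD 0)) ^ (1 / p) ≤ C * (g n t + 1))
    (L : List (List ℕ × ℝ)) (hL : ∀ x ∈ L, Adm r P x.1 ∧ 0 < x.2 ∧ Lb r P x.1 x.2)
    (hlow : ∃ C : ℝ, 0 < C ∧ ∀ n t : ℕ, 1 ≤ t → t ≤ n → g n t ≤ C ∨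
      ∃ x ∈ L, g n t ≤ C * ((n : ℝ) * ((t : ℝ) / n) ^ (x.1.headD 0)) ^ (1 / x.2)) :
    HasOrder r P g := by
  have hr0 : 0 < r := by omega
  have hcard : ∀ n t : ℕ, t ≤ n → r * t ≤ (range (r * n)).card := fun n t h => by
    rw [card_range]; exact Nat.mul_le_mul_left _ h
  obtain ⟨c1, C1, hc1, hC1, h1⟩ := fin1 hr hP
  obtain ⟨K1, hK1, hup'⟩ := ev_up hr hP g hg hup
  obtain ⟨K2, hK2, hlow'⟩ := ev_low hr hP g L hL hlow
  set K := max K1 K2 with hKdef
  have hK : 1 ≤ K := hK1.trans (le_max_left _ _)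
  have hKp : 0 < K := by linarith
  have hup2 : ∀ n t : ℕ, 1 ≤ t → t ≤ n → (gg r P n t : ℝ) ≤ K * (g n t + 1) := by
    intro n t ht htn
    refine (hup' n t ht htn).trans (mul_le_mul_of_nonneg_right (le_max_left _ _) ?_)
    have := hg n t
    linarith
  have hlow2 : ∀ n t : ℕ, 1 ≤ t → t ≤ n → g n t ≤ K * ((gg r P n t : ℝ) + 1) := by
    intro n t ht htn
    exact (hlow' n t ht htn).trans (mul_le_mul_of_nonneg_right (le_max_right _ _) (by positivity))
  refine ⟨c1 / (2 * K), 2 * K * C1 + K, by positivity, by positivity, ?_⟩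
  intro n t ht htn
  obtain ⟨h1a, h1b⟩ := h1 n t ht htn
  have hu := hup2 n t ht htn
  have hl := hlow2 n t ht htn
  have hg0 := hg n t
  set G := gg r P n t with hG
  constructor
  · rw [process_eq r t hr0 _ (hcard n t htn)]
    apply ENNReal.ofReal_le_ofReal
    rcases eq_or_lt_of_le hg0 with hz | hgp
    · rw [← hz, mul_zero, div_zero]
      apply ev_imp
      intro M hM
      have : (0 : ℝ) ≤ z P M := Nat.cast_nonneg _
      linarith
    · rcases Nat.eq_zero_or_pos G with hz | hpos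
      · refine (pr_le_one _ _ _ _).trans ?_
        rw [one_le_div hgp]
        rw [hz, Nat.cast_zero, zero_add, mul_one] at hl
        have : 0 ≤ 2 * K * C1 := by positivity
        linarith
      · have hGp : (0 : ℝ) < G := by exact_mod_cast hpos
        have hG1 : (1 : ℝ) ≤ G := by exact_mod_cast hpos
        have h2 : g n t ≤ 2 * K * G := by nlinarith
        have h3 : c1 / (2 * K) * g n t ≤ c1 * G := by
          have h4 : c1 / (2 * K) * g n t ≤ c1 / (2 * K) * (2 * K * G) :=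
            mul_le_mul_of_nonneg_left h2 (by positivity)
          have h5 : c1 / (2 * K) * (2 * K * G) = c1 * G := by field_simp
          linarith
        refine (pr_mono r t _ _ _ fun M _ h => ?_).trans (h1a.trans ?_)
        · exact lt_of_lt_of_le h h3
        · rw [div_le_div_iff₀ hGp hgp]
          have h4 : C1 * g n t ≤ C1 * (2 * K * G) := mul_le_mul_of_nonneg_left h2 hC1.le
          have h5 : 0 ≤ K * (G : ℝ) := by positivity
          nlinarith
  · intro m hm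
    rw [process_eq r t hr0 _ (hcard n t htn)]
    apply ENNReal.ofReal_le_ofReal
    have hmp : 0 < m := lt_of_lt_of_le (by positivity) hm
    have hG1 : (0 : ℝ) < (G : ℝ) + 1 := by positivity
    have hg1 : 0 < g n t + 1 := by linarith
    have h2 : (G : ℝ) + 1 ≤ 2 * K * (g n t + 1) := by nlinarith
    have h3 : m * (g n t + 1) / ((G : ℝ) + 1) * ((G : ℝ) + 1) = m * (g n t + 1) := by
      field_simp
    have h4 : C1 ≤ m * (g n t + 1) / ((G : ℝ) + 1) := by
      rw [le_div_iff₀ hG1]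
      have h5 : C1 * ((G : ℝ) + 1) ≤ C1 * (2 * K * (g n t + 1)) :=
        mul_le_mul_of_nonneg_left h2 hC1.le
      have h6 : 2 * K * C1 * (g n t + 1) ≤ m * (g n t + 1) :=
        mul_le_mul_of_nonneg_right (by linarith) hg1.le
      linarith
    have h5 := h1b _ h4
    rw [h3] at h5
    refine h5.trans ?_
    apply div_le_div_of_nonneg_right _ (by positivity)
    nlinarith

end Pool.Agent.Work.MP_7d1693_pr.FX
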