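import Pool.Agent.Work.MP_7d1693_pr.FX.Defs
import Pool.Agent.Work.MP_7d1693_pr.FX.Ev
import Pool.Agent.Work.MP_7d1693_pr.FX.ClsLb
import Pool.Agent.Work.MP_7d1693_pr.FX.WdType
import Pool.Agent.Work.MP_7d1693_pr.FM.PhiReg

/-! # Module OrdFull (S-M): all `r`-partite words: order `t`

`ev` with `g n t = t`: all admissible types have `Ub r P lam 1` (`phi_reg` with `j = 1`, `phi_one`: `phi k ≤ C/k`), `n (t/n)^(λ_1) ≤ t` (`λ_1 ≥ 1`, `t ≤ n`). Lower: `List.replicate r 1` is admissible (`wd_hasType`, sum `r`), `cls_lb` with `κ = id`: `r + 1 - r = 1`. -/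

namespace Pool.Agent.Work.MP_7d1693_pr.FX

open Finset FM

theorem order_full {r : ℕ} (hr : 2 ≤ r) {P : Set (List Bool)}
    (h : ∀ s : ℕ → Bool, s 0 = true → wd r s ∈ P) : HasOrder r P (fun _ t => (t : ℝ)) := by
  have hr1 : 1 ≤ r := by omega
  have hadm : Adm r P (List.replicate r 1) := by
    refine ⟨by simp, wd r (fun _ => true), h _ rfl, wd_hasType hr1 rfl⟩
  have hhead : (List.replicate r 1).headD 0 = 1 := by
    obtain ⟨r', rfl⟩ : ∃ r', r = r' + 1 := ⟨r - 1, by omega⟩
    simp [List.replicate_succ]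
  have hLb : Lb r P (List.replicate r 1) 1 := by
    have h1 := cls_lb hr1 (P := P) id (fun _ => true) (fun s hs _ => h s hs)
    rw [Finset.image_id, card_range] at h1
    have e : (r : ℝ) + 1 - r = 1 := by ring
    rwa [e] at h1
  apply ev hr ⟨_, hadm⟩ (fun _ t => (t : ℝ)) (fun _ t => Nat.cast_nonneg t)
    ?_ [(List.replicate r 1, 1)] ?_ ?_
  · intro lam hl
    refine ⟨1, one_pos, ?_, 1, one_pos, ?_⟩
    · obtain ⟨C, hC, hC2⟩ := phi_reg hr1 hl
      refine ⟨C, by linarith, ?_⟩
      intro k hk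
      have h1 := (hC2 1 k le_rfl hk).1
      rw [phi_one P hl.1, mul_one] at h1
      refine h1.trans (le_of_eq ?_)
      rw [Real.rpow_neg_one]
      push_cast
      rw [one_div]
    · intro n t ht htn
      have hcomp := adm_comp hl
      have ha : 1 ≤ lam.headD 0 := by
        rcases lam with _ | ⟨a, l⟩
        · have h1 := hcomp.1
          simp at h1
          omega
        · have h1 : 0 < a := hcomp.2 a (by simp)
          show 1 ≤ a
          omega
      have hnp : (0 : ℝ) < n := by
        have : 0 < n := by omega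
        exact_mod_cast this
      have htp : (0 : ℝ) < t := by
        have : 0 < t := by omega
        exact_mod_cast this
      have hle : (t : ℝ) / n ≤ 1 := by
        rw [div_le_one hnp]
        exact_mod_cast htn
      have h0 : 0 ≤ (t : ℝ) / n := by positivity
      have h2 : ((t : ℝ) / n) ^ (lam.headD 0) ≤ (t : ℝ) / n := by
        have := pow_le_pow_of_le_one h0 hle ha
        rwa [pow_one] at this
      have h3 : (n : ℝ) * ((t : ℝ) / n) ^ (lam.headD 0) ≤ t := by
        have h4 := mul_le_mul_of_nonneg_left h2 hnp.le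
        rwa [mul_div_cancel₀ _ hnp.ne'] at h4
      have e1 : (1 : ℝ) / 1 = 1 := by norm_num
      rw [e1, Real.rpow_one]
      linarith
  · intro x hx
    rw [List.mem_singleton] at hx
    subst hx
    exact ⟨hadm, one_pos, hLb⟩
  · refine ⟨1, one_pos, ?_⟩
    intro n t ht htn
    right
    refine ⟨(List.replicate r 1, 1), by simp, ?_⟩
    have hnp : (0 : ℝ) < n := by
      have : 0 < n := by omega
      exact_mod_cast this
    show (t : ℝ) ≤ 1 * ((n : ℝ) * ((t : ℝ) / n) ^ ((List.replicate r 1).headD 0)) ^ ((1 : ℝ) / 1)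
    rw [hhead]
    have e1 : (1 : ℝ) / 1 = 1 := by norm_num
    rw [e1, Real.rpow_one, pow_one, mul_div_cancel₀ _ hnp.ne', one_mul]

end Pool.Agent.Work.MP_7d1693_pr.FX
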