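import Pool.Agent.Work.MP_7d1693_pr.FX.Defs
import Pool.Agent.Work.MP_7d1693_pr.FX.LbGre
import Pool.Agent.Work.MP_7d1693_pr.FX.PatBox

/-! # Module MisLb (M): lower bound when only one `r`-partite word is missing

Let `k ≥ 1`, `m' = ⌈(8k)^(1/(r-1))⌉ ≥ 1` (so `m'^(r-1) ≥ 8k`, `m' ≤ 2 (8k)^(1/(r-1))`), `m = (r-1) m'`, `D = 8 r k`, `N = m D`, `B = nBox N 0 (List.replicate r 1)`. For a point `x` with coordinates `< N` let `c i = x i / D` if `u i = true` and `c i = m - 1 - x i / D` otherwise (values `< m`). `S` = the set of the `enc r N x`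
with `c i < m'` for `i < r - 1` and `c (r-1) = ∑_{i<r-1} (m' - 1 - c i)` (it is `≤ (r-1)(m'-1) < m`). Parametrize `S` by the `c i ∈ {0..m'-1}`, `i < r-1`, and the remainders `x i % D`: `S.card = m'^(r-1) D^r`. The sum of all `c i` is `(r-1)(m'-1)`. Two points of `S` with different vectors `c`, `c'` and disjoint: some `c i < c' i` and some
`c j > c' j`; so with `s a = (el e a < el f a)`: `s i = u i` and `s j ≠ u j`; the word `wd r s` (`pat_box`) with `s 0 = true` (smaller minimum first; if the roles of `e` and `f` are exchanged the same holds with `i` and `j` exchanged) is in `P` by the hypothesis. So in a conflict of two points of `S` the vectors `c` are equal (at most `D^r` points) or they have a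
common coordinate `x i = y i`: at most `r m'^(r-2) D^(r-1)` points (the vectors `c` with one prescribed coordinate number at most `m'^(r-2)`, also for the last coordinate, because the other coordinates `i ≥ 1` and it determine `c 0`). `2k (D^r + r m'^(r-2) D^(r-1) + 1) ≤ m'^(r-1) D^r`: each of the three terms times `2k` is at most a quarter. `lb_gre`:
`phi k ≥ m'^(r-1) D^r/(2 e^r k ((r-1) m' D)^r) = 1/(2 e^r (r-1)^r k m') ≥ c k^(-1-1/(r-1)) = c k^(-r/(r-1))`. -/

namespace Pool.Agent.Work.MP_7d1693_pr.FX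

open Finset FM

private def lev {n M : ℕ} (c : Fin (n + 1) → Fin M) : Fin (n + 2) → ℕ :=
  Fin.cons (∑ i, (M - 1 - (c i : ℕ))) (fun i => (c i : ℕ))

private theorem lev_zero {n M : ℕ} (c : Fin (n + 1) → Fin M) :
    lev c 0 = ∑ i, (M - 1 - (c i : ℕ)) := rfl

private theorem lev_succ {n M : ℕ} (c : Fin (n + 1) → Fin M) (i : Fin (n + 1)) :
    lev c i.succ = (c i : ℕ) := rfl

private theorem lev_lt {n M : ℕ} (c : Fin (n + 1) → Fin M) (i : Fin (n + 2)) :
    lev c i < (n + 1) * M := by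
  have hM : 1 ≤ M := by
    have := (c 0).isLt
    omega
  refine Fin.cases ?_ (fun j => ?_) i
  · rw [lev_zero]
    have h1 : ∑ i, (M - 1 - (c i : ℕ)) ≤ ∑ _i : Fin (n + 1), (M - 1) :=
      Finset.sum_le_sum fun i _ => Nat.sub_le _ _
    rw [Finset.sum_const, Finset.card_univ, Fintype.card_fin, smul_eq_mul] at h1
    refine lt_of_le_of_lt h1 ?_
    exact Nat.mul_lt_mul_of_pos_left (by omega) (by omega)
  · rw [lev_succ]
    have h1 := (c j).isLt
    have h2 : M ≤ (n + 1) * M := Nat.le_mul_of_pos_left _ (by omega)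
    omega

private theorem lev_inj {n M : ℕ} {c c' : Fin (n + 1) → Fin M} (h : ∀ i, lev c i ≤ lev c' i) :
    c = c' := by
  have h0 := h 0
  rw [lev_zero, lev_zero] at h0
  have h1 : ∀ i ∈ (Finset.univ : Finset (Fin (n + 1))),
      M - 1 - (c' i : ℕ) ≤ M - 1 - (c i : ℕ) := by
    intro i _
    have := h i.succ
    rw [lev_succ, lev_succ] at this
    omega
  have h2 : ∑ i, (M - 1 - (c' i : ℕ)) = ∑ i, (M - 1 - (c i : ℕ)) :=
    le_antisymm (Finset.sum_le_sum h1) h0
  have h3 := (Finset.sum_eq_sum_iff_of_le h1).1 h2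
  funext i
  have h4 := h3 i (Finset.mem_univ i)
  have h5 := (c i).isLt
  have h6 := (c' i).isLt
  exact Fin.ext (by omega)

private def Xc {n M D : ℕ} (u : ℕ → Bool)
    (p : (Fin (n + 1) → Fin M) × (Fin (n + 2) → Fin D)) : Fin (n + 2) → ℕ :=
  fun i => D * (if u i then lev p.1 i else (n + 1) * M - 1 - lev p.1 i) + (p.2 i : ℕ)

private theorem Xc_lt {n M D : ℕ} (u : ℕ → Bool)
    (p : (Fin (n + 1) → Fin M) × (Fin (n + 2) → Fin D)) (i : Fin (n + 2)) :
    Xc u p i < (n + 1) * M * D := by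
  have h1 := lev_lt p.1 i
  have h2 := (p.2 i).isLt
  have h3 : (if u i then lev p.1 i else (n + 1) * M - 1 - lev p.1 i) + 1 ≤ (n + 1) * M := by
    split_ifs <;> omega
  unfold Xc
  calc D * (if u i then lev p.1 i else (n + 1) * M - 1 - lev p.1 i) + (p.2 i : ℕ)
      < D * (if u i then lev p.1 i else (n + 1) * M - 1 - lev p.1 i) + D := by omega
    _ = D * ((if u i then lev p.1 i else (n + 1) * M - 1 - lev p.1 i) + 1) := by ring
    _ ≤ D * ((n + 1) * M) := Nat.mul_le_mul_left _ h3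
    _ = (n + 1) * M * D := by ring

private theorem Xc_div {n M D : ℕ} (u : ℕ → Bool)
    (p : (Fin (n + 1) → Fin M) × (Fin (n + 2) → Fin D)) (i : Fin (n + 2)) :
    Xc u p i / D = (if u i then lev p.1 i else (n + 1) * M - 1 - lev p.1 i) := by
  have h2 := (p.2 i).isLt
  unfold Xc
  rw [Nat.mul_add_div (by omega), Nat.div_eq_of_lt h2, add_zero]

private theorem Xc_mod {n M D : ℕ} (u : ℕ → Bool)
    (p : (Fin (n + 1) → Fin M) × (Fin (n + 2) → Fin D)) (i : Fin (n + 2)) :
    Xc u p i % D = (p.2 i : ℕ) := by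
  have h2 := (p.2 i).isLt
  unfold Xc
  rw [Nat.mul_add_mod, Nat.mod_eq_of_lt h2]

private theorem coord_eq {n M D : ℕ} {u : ℕ → Bool}
    {p q : (Fin (n + 1) → Fin M) × (Fin (n + 2) → Fin D)} {i : Fin (n + 2)}
    (h : Xc u p i = Xc u q i) : lev p.1 i = lev q.1 i ∧ p.2 i = q.2 i := by
  have h1 : Xc u p i / D = Xc u q i / D := by rw [h]
  have h2 : Xc u p i % D = Xc u q i % D := by rw [h]
  rw [Xc_div, Xc_div] at h1
  rw [Xc_mod, Xc_mod] at h2
  refine ⟨?_, Fin.ext h2⟩
  have h3 := lev_lt p.1 i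
  have h4 := lev_lt q.1 i
  split_ifs at h1 <;> omega

private theorem ord1 {n M D : ℕ} {u : ℕ → Bool}
    {p q : (Fin (n + 1) → Fin M) × (Fin (n + 2) → Fin D)} {i : Fin (n + 2)}
    (h : decide (Xc u p i < Xc u q i) = u i) : lev p.1 i ≤ lev q.1 i := by
  have h3 := lev_lt p.1 i
  have h4 := lev_lt q.1 i
  by_cases hu : u i = true
  · rw [hu, decide_eq_true_eq] at h
    have h1 := Nat.div_le_div_right (c := D) h.le
    rw [Xc_div, Xc_div, if_pos hu, if_pos hu] at h1
    exact h1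
  · have hu' : u i = false := by simpa using hu
    rw [hu', decide_eq_false_iff_not, not_lt] at h
    have h1 := Nat.div_le_div_right (c := D) h
    rw [Xc_div, Xc_div, if_neg hu, if_neg hu] at h1
    omega

private theorem conf_pat {n M D : ℕ} {u : ℕ → Bool} {P : Set (List Bool)}
    (h : ∀ s : ℕ → Bool, s 0 = true → (∃ i < n + 2, s i ≠ u i) → wd (n + 2) s ∈ P)
    {p q : (Fin (n + 1) → Fin M) × (Fin (n + 2) → Fin D)}
    (hd : Disjoint (enc (n + 2) ((n + 1) * M * D) (Xc u p))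
      (enc (n + 2) ((n + 1) * M * D) (Xc u q)))
    (hm : (enc (n + 2) ((n + 1) * M * D) (Xc u p)).min <
      (enc (n + 2) ((n + 1) * M * D) (Xc u q)).min)
    (hP : pat (enc (n + 2) ((n + 1) * M * D) (Xc u p))
      (enc (n + 2) ((n + 1) * M * D) (Xc u q)) ∉ P) : p.1 = q.1 := by
  have hpE := enc_mem (fun j => Xc_lt u p j)
  have hqE := enc_mem (fun j => Xc_lt u q j)
  rw [pat_box (by omega) hpE hqE hd] at hP
  have hne : ∀ x : Fin (n + 2) → ℕ, (enc (n + 2) ((n + 1) * M * D) x).Nonempty := by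
    intro x
    unfold enc
    exact Finset.Nonempty.image Finset.univ_nonempty _
  have hcmp : ∀ j : Fin (n + 2),
      (el (enc (n + 2) ((n + 1) * M * D) (Xc u p)) j <
        el (enc (n + 2) ((n + 1) * M * D) (Xc u q)) j) ↔ Xc u p j < Xc u q j := by
    intro j
    rw [enc_el (fun j => Xc_lt u p j), enc_el (fun j => Xc_lt u q j)]
    omega
  have h0 : el (enc (n + 2) ((n + 1) * M * D) (Xc u p)) 0 <
      el (enc (n + 2) ((n + 1) * M * D) (Xc u q)) 0 := by
    obtain ⟨h1, h2⟩ := mn_eq _ (hne (Xc u p))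
    obtain ⟨h3, h4⟩ := mn_eq _ (hne (Xc u q))
    rw [h2, h4, h1, h3] at hm
    exact_mod_cast hm
  apply lev_inj
  intro i
  apply ord1 (u := u)
  by_contra hcon
  apply hP
  apply h
  · simp only [decide_eq_true_eq]
    exact h0
  · refine ⟨i, i.isLt, ?_⟩
    intro h5
    apply hcon
    rw [← h5]
    simp only [decide_eq_decide]
    exact (hcmp i).symm

private theorem conf_cases {n M D : ℕ} {u : ℕ → Bool} {P : Set (List Bool)}
    (h : ∀ s : ℕ → Bool, s 0 = true → (∃ i < n + 2, s i ≠ u i) → wd (n + 2) s ∈ P)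
    {p q : (Fin (n + 1) → Fin M) × (Fin (n + 2) → Fin D)}
    (hc : conf P (enc (n + 2) ((n + 1) * M * D) (Xc u p))
      (enc (n + 2) ((n + 1) * M * D) (Xc u q))) :
    q.1 = p.1 ∨ ∃ i, Xc u q i = Xc u p i := by
  by_cases hd : Disjoint (enc (n + 2) ((n + 1) * M * D) (Xc u p))
      (enc (n + 2) ((n + 1) * M * D) (Xc u q))
  · left
    rcases hc with hc | hc | hc
    · exact absurd hd hc
    · exact (conf_pat h hd hc.1 hc.2).symm
    · exact conf_pat h hd.symm hc.1 hc.2
  · right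
    rw [Finset.not_disjoint_iff] at hd
    obtain ⟨a, ha, hb⟩ := hd
    unfold enc at ha hb
    rw [Finset.mem_image] at ha hb
    obtain ⟨i, -, hi⟩ := ha
    obtain ⟨j, -, hj⟩ := hb
    have h1 := Xc_lt u p i
    have h2 := Xc_lt u q j
    have hN : 0 < (n + 1) * M * D := by omega
    have h3 : a / ((n + 1) * M * D) = (i : ℕ) := by
      rw [← hi, mul_comm, Nat.mul_add_div hN, Nat.div_eq_of_lt h1, add_zero]
    have h4 : a / ((n + 1) * M * D) = (j : ℕ) := by
      rw [← hj, mul_comm, Nat.mul_add_div hN, Nat.div_eq_of_lt h2, add_zero]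
    have h5 : i = j := Fin.ext (h3.symm.trans h4)
    subst h5
    exact ⟨i, by omega⟩

private theorem cnt1 {n M D : ℕ} (p : (Fin (n + 1) → Fin M) × (Fin (n + 2) → Fin D)) :
    ((Finset.univ : Finset ((Fin (n + 1) → Fin M) × (Fin (n + 2) → Fin D))).filter
      (fun q => q.1 = p.1)).card ≤ D ^ (n + 2) := by
  calc _ ≤ (Finset.univ : Finset (Fin (n + 2) → Fin D)).card := by
        refine Finset.card_le_card_of_injOn (fun q => q.2) (fun _ _ => Finset.mem_coe.2 (Finset.mem_univ _)) ?_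
        intro q hq q' hq' hqq
        rw [Finset.mem_coe, Finset.mem_filter] at hq hq'
        exact Prod.ext (hq.2.trans hq'.2.symm) hqq
    _ = D ^ (n + 2) := by
        rw [Finset.card_univ, Fintype.card_fun, Fintype.card_fin, Fintype.card_fin]

private theorem cnt2 {n M D : ℕ} (A : Finset ((Fin (n + 1) → Fin M) × (Fin (n + 2) → Fin D)))
    (i : Fin (n + 2)) (j : Fin (n + 1)) (h1 : ∀ q ∈ A, ∀ q' ∈ A, q.2 i = q'.2 i)
    (h2 : ∀ q ∈ A, ∀ q' ∈ A, (∀ t, q.1 (j.succAbove t) = q'.1 (j.succAbove t)) →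
      q.1 j = q'.1 j) : A.card ≤ M ^ n * D ^ (n + 1) := by
  calc A.card ≤ (Finset.univ : Finset ((Fin n → Fin M) × (Fin (n + 1) → Fin D))).card := by
        refine Finset.card_le_card_of_injOn
          (fun q => (fun t => q.1 (j.succAbove t), fun t => q.2 (i.succAbove t)))
          (fun _ _ => Finset.mem_coe.2 (Finset.mem_univ _)) ?_
        intro q hq q' hq' hqq
        rw [Finset.mem_coe] at hq hq'
        simp only [Prod.mk.injEq] at hqq
        obtain ⟨h3, h4⟩ := hqq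
        refine Prod.ext ?_ ?_
        · funext t
          rcases Fin.eq_self_or_eq_succAbove j t with ht | ⟨t', ht⟩
          · rw [ht]
            exact h2 q hq q' hq' (fun t => congrFun h3 t)
          · rw [ht]
            exact congrFun h3 t'
        · funext t
          rcases Fin.eq_self_or_eq_succAbove i t with ht | ⟨t', ht⟩
          · rw [ht]
            exact h1 q hq q' hq'
          · rw [ht]
            exact congrFun h4 t'
    _ = M ^ n * D ^ (n + 1) := by
        rw [Finset.card_univ, Fintype.card_prod, Fintype.card_fun, Fintype.card_fun,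
          Fintype.card_fin, Fintype.card_fin, Fintype.card_fin, Fintype.card_fin]

private theorem cnt3 {n M D : ℕ} (u : ℕ → Bool)
    (p : (Fin (n + 1) → Fin M) × (Fin (n + 2) → Fin D)) (i : Fin (n + 2)) :
    ((Finset.univ : Finset ((Fin (n + 1) → Fin M) × (Fin (n + 2) → Fin D))).filter
      (fun q => Xc u q i = Xc u p i)).card ≤ M ^ n * D ^ (n + 1) := by
  have key : ∀ q ∈ (Finset.univ : Finset ((Fin (n + 1) → Fin M) × (Fin (n + 2) → Fin D))).filter
      (fun q => Xc u q i = Xc u p i), ∀ q' ∈ (Finset.univ :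
        Finset ((Fin (n + 1) → Fin M) × (Fin (n + 2) → Fin D))).filter
      (fun q => Xc u q i = Xc u p i), lev q.1 i = lev q'.1 i ∧ q.2 i = q'.2 i := by
    intro q hq q' hq'
    rw [Finset.mem_filter] at hq hq'
    exact coord_eq (hq.2.trans hq'.2.symm)
  rcases Fin.eq_zero_or_eq_succ i with hi | ⟨j, hj⟩
  · refine cnt2 _ i 0 (fun q hq q' hq' => (key q hq q' hq').2) ?_
    intro q hq q' hq' hs
    have h1 := (key q hq q' hq').1
    rw [hi, lev_zero, lev_zero, Fin.sum_univ_succ, Fin.sum_univ_succ] at h1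
    have h2 : ∀ t : Fin n, M - 1 - (q.1 t.succ : ℕ) = M - 1 - (q'.1 t.succ : ℕ) := by
      intro t
      have := hs t
      rw [Fin.zero_succAbove] at this
      rw [this]
    rw [Finset.sum_congr rfl fun t _ => h2 t] at h1
    have h3 := (q.1 0).isLt
    have h4 := (q'.1 0).isLt
    exact Fin.ext (by omega)
  · refine cnt2 _ i j (fun q hq q' hq' => (key q hq q' hq').2) ?_
    intro q hq q' hq' _
    have h1 := (key q hq q' hq').1
    rw [hj, lev_succ, lev_succ] at h1
    exact Fin.ext h1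

private theorem main_nat {n : ℕ} {P : Set (List Bool)} (u : ℕ → Bool)
    (h : ∀ s : ℕ → Bool, s 0 = true → (∃ i < n + 2, s i ≠ u i) → wd (n + 2) s ∈ P)
    {k M D : ℕ} (hk : 1 ≤ k) (hM : 1 ≤ M) (hMk : 8 * k ≤ M ^ (n + 1))
    (hD : D = 8 * (n + 2) * k) :
    ((M ^ (n + 1) * D ^ (n + 2) : ℕ) : ℝ) /
      (2 * Real.exp ((n + 2 : ℕ) : ℝ) * k * ((((n + 1) * M * D) ^ (n + 2) : ℕ) : ℝ)) ≤
      phi (n + 2) P (List.replicate (n + 2) 1) k := by
  classical
  set T := (Fin (n + 1) → Fin M) × (Fin (n + 2) → Fin D) with hT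
  set N := (n + 1) * M * D with hN
  set S : Finset (Finset ℕ) := (Finset.univ : Finset T).image (fun p => enc (n + 2) N (Xc u p))
    with hS
  have hinj : Function.Injective (fun p : T => enc (n + 2) N (Xc u p)) := by
    intro p q hpq
    have h1 := enc_inj (fun j => Xc_lt u p j) (fun j => Xc_lt u q j) hpq
    have h2 : ∀ i, lev p.1 i = lev q.1 i ∧ p.2 i = q.2 i := fun i =>
      coord_eq (congrFun h1 i)
    exact Prod.ext (lev_inj fun i => (h2 i).1.le) (funext fun i => (h2 i).2)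
  have hcard : S.card = M ^ (n + 1) * D ^ (n + 2) := by
    rw [hS, Finset.card_image_of_injective _ hinj, Finset.card_univ]
    change Fintype.card ((Fin (n + 1) → Fin M) × (Fin (n + 2) → Fin D)) = _
    rw [Fintype.card_prod, Fintype.card_fun, Fintype.card_fun, Fintype.card_fin,
      Fintype.card_fin, Fintype.card_fin, Fintype.card_fin]
  have hSE : S ⊆ Ebox (n + 2) (nBox N 0 (List.replicate (n + 2) 1)) := by
    intro e he
    rw [hS, Finset.mem_image] at he
    obtain ⟨p, -, rfl⟩ := he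
    exact enc_mem (fun j => Xc_lt u p j)
  set Δ := D ^ (n + 2) + (n + 2) * (M ^ n * D ^ (n + 1)) with hΔ
  have hdeg : ∀ v ∈ S, deg (conf P) S v ≤ Δ := by
    intro v hv
    rw [hS, Finset.mem_image] at hv
    obtain ⟨p, -, rfl⟩ := hv
    unfold deg
    have hsub : S.filter (fun w => w ≠ enc (n + 2) N (Xc u p) ∧
        conf P (enc (n + 2) N (Xc u p)) w) ⊆
        (((Finset.univ : Finset T).filter (fun q => q.1 = p.1)) ∪
          (Finset.univ : Finset (Fin (n + 2))).biUnion (fun i =>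
            (Finset.univ : Finset T).filter (fun q => Xc u q i = Xc u p i))).image
          (fun q => enc (n + 2) N (Xc u q)) := by
      intro w hw
      rw [Finset.mem_filter] at hw
      obtain ⟨hwS, -, hwc⟩ := hw
      rw [hS, Finset.mem_image] at hwS
      obtain ⟨q, -, rfl⟩ := hwS
      refine Finset.mem_image_of_mem _ ?_
      rw [Finset.mem_union, Finset.mem_biUnion]
      rcases conf_cases h hwc with h1 | ⟨i, hi⟩
      · left
        rw [Finset.mem_filter]
        exact ⟨Finset.mem_univ _, h1⟩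
      · right
        refine ⟨i, Finset.mem_univ _, ?_⟩
        rw [Finset.mem_filter]
        exact ⟨Finset.mem_univ _, hi⟩
    have h3 : ((Finset.univ : Finset (Fin (n + 2))).biUnion (fun i =>
        (Finset.univ : Finset T).filter (fun q => Xc u q i = Xc u p i))).card ≤
        (n + 2) * (M ^ n * D ^ (n + 1)) := by
      refine Finset.card_biUnion_le.trans ?_
      refine (Finset.sum_le_sum fun i _ => cnt3 u p i).trans ?_
      rw [Finset.sum_const, Finset.card_univ, Fintype.card_fin, smul_eq_mul]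
    refine le_trans (le_of_eq ?_) ((Finset.card_le_card hsub).trans
      (Finset.card_image_le.trans ((Finset.card_union_le _ _).trans
        (Nat.add_le_add (cnt1 p) h3))))
    congr 1
  have hD1 : 1 ≤ D := by
    rw [hD]
    exact Nat.mul_pos (by omega) (by omega)
  have hj : 2 * k * (Δ + 1) ≤ S.card := by
    rw [hcard, hΔ]
    have e1 : 8 * k * D ^ (n + 2) ≤ M ^ (n + 1) * D ^ (n + 2) := Nat.mul_le_mul_right _ hMk
    have e2 : 8 * k * ((n + 2) * (M ^ n * D ^ (n + 1))) ≤ M ^ (n + 1) * D ^ (n + 2) := by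
      calc 8 * k * ((n + 2) * (M ^ n * D ^ (n + 1))) = (8 * (n + 2) * k) * (M ^ n * D ^ (n + 1)) := by
            ring
        _ = D * (M ^ n * D ^ (n + 1)) := by rw [← hD]
        _ ≤ (M * D) * (M ^ n * D ^ (n + 1)) :=
            Nat.mul_le_mul_right _ (Nat.le_mul_of_pos_left _ hM)
        _ = M ^ (n + 1) * D ^ (n + 2) := by ring
    have e3 : 8 * k * 1 ≤ M ^ (n + 1) * D ^ (n + 2) := by
      calc 8 * k * 1 ≤ M ^ (n + 1) * 1 := Nat.mul_le_mul_right _ hMk
        _ ≤ M ^ (n + 1) * D ^ (n + 2) := Nat.mul_le_mul_left _ (Nat.one_le_pow _ _ hD1)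
    nlinarith
  have hC : Comp (n + 2) (shape (nBox N 0 (List.replicate (n + 2) 1))) := by
    rw [nbox_shape]
    refine ⟨by simp, ?_⟩
    intro a ha
    rw [List.mem_replicate] at ha
    omega
  have key := lb_gre (by omega) (nbox_ord N 0 (List.replicate (n + 2) 1)) hC hk hSE hdeg hj
  rw [nbox_shape, nbox_vol, hcard] at key
  have hsum : (List.replicate (n + 2) 1).sum = n + 2 := by simp
  rw [hsum] at key
  exact key

theorem mis_lb {r : ℕ} (hr : 2 ≤ r) {P : Set (List Bool)} (u : ℕ → Bool) (hu : u 0 = true)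
    (h : ∀ s : ℕ → Bool, s 0 = true → (∃ i < r, s i ≠ u i) → wd r s ∈ P) :
    Lb r P (List.replicate r 1) ((r : ℝ) / ((r : ℝ) - 1)) := by
  obtain ⟨n, rfl⟩ : ∃ n, r = n + 2 := ⟨r - 2, by omega⟩
  clear hr
  set θ : ℝ := 1 / ((n : ℝ) + 1) with hθ
  have hn1 : (0 : ℝ) < (n : ℝ) + 1 := by positivity
  have hexp : (((n + 2 : ℕ) : ℝ)) / (((n + 2 : ℕ) : ℝ) - 1) = 1 + θ := by
    rw [hθ]
    push_cast
    have h1 : (n : ℝ) + 2 - 1 = (n : ℝ) + 1 := by ring
    rw [h1]
    field_simp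
    ring
  refine ⟨1 / (4 * Real.exp ((n + 2 : ℕ) : ℝ) * ((n : ℝ) + 1) ^ (n + 2) * (8 : ℝ) ^ θ),
    by positivity, fun k hk => ?_⟩
  have hkpos : (0 : ℝ) < k := by exact_mod_cast hk
  have hk1 : (1 : ℝ) ≤ k := by exact_mod_cast hk
  set y : ℝ := (8 * (k : ℝ)) ^ θ with hy
  have hy1 : 1 ≤ y := by
    rw [hy]
    exact Real.one_le_rpow (by linarith) (by positivity)
  set M : ℕ := ⌈y⌉₊ with hMdef
  have hMy : y ≤ (M : ℝ) := Nat.le_ceil y
  have hM2 : (M : ℝ) ≤ 2 * y := by
    have := Nat.ceil_lt_add_one (show (0 : ℝ) ≤ y by linarith)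
    have h2 : (M : ℝ) < y + 1 := this
    linarith
  have hM1 : 1 ≤ M := by
    have : (1 : ℝ) ≤ (M : ℝ) := hy1.trans hMy
    exact_mod_cast this
  have hMk : 8 * k ≤ M ^ (n + 1) := by
    have h1 : (8 * (k : ℝ)) = y ^ (n + 1) := by
      rw [hy, ← Real.rpow_natCast, ← Real.rpow_mul (by positivity), hθ]
      push_cast
      rw [one_div, inv_mul_cancel₀ hn1.ne', Real.rpow_one]
    have h2 : (8 * (k : ℝ)) ≤ (M : ℝ) ^ (n + 1) := by
      rw [h1]
      exact pow_le_pow_left₀ (by linarith) hMy _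
    exact_mod_cast h2
  have key := main_nat u h hk hM1 hMk (D := 8 * (n + 2) * k) rfl
  refine le_trans ?_ key
  have hMpos : (0 : ℝ) < M := by linarith
  have hDpos : (0 : ℝ) < ((8 * (n + 2) * k : ℕ) : ℝ) := by
    have : 0 < 8 * (n + 2) * k := Nat.mul_pos (by omega) (by omega)
    exact_mod_cast this
  have hE : (((M ^ (n + 1) * (8 * (n + 2) * k) ^ (n + 2) : ℕ)) : ℝ) /
      (2 * Real.exp ((n + 2 : ℕ) : ℝ) * k *
        ((((n + 1) * M * (8 * (n + 2) * k)) ^ (n + 2) : ℕ) : ℝ)) =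
      1 / (2 * Real.exp ((n + 2 : ℕ) : ℝ) * k * ((n : ℝ) + 1) ^ (n + 2) * M) := by
    have h1 : (((M ^ (n + 1) * (8 * (n + 2) * k) ^ (n + 2) : ℕ)) : ℝ) =
        (M : ℝ) ^ (n + 1) * ((8 * (n + 2) * k : ℕ) : ℝ) ^ (n + 2) := by
      rw [Nat.cast_mul, Nat.cast_pow, Nat.cast_pow]
    have h2 : ((((n + 1) * M * (8 * (n + 2) * k)) ^ (n + 2) : ℕ) : ℝ) =
        ((n : ℝ) + 1) ^ (n + 2) * (M : ℝ) ^ (n + 2) * ((8 * (n + 2) * k : ℕ) : ℝ) ^ (n + 2) := by
      rw [Nat.cast_pow, Nat.cast_mul, Nat.cast_mul, mul_pow, mul_pow]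
      push_cast
      ring
    rw [h1, h2]
    set Dr : ℝ := ((8 * (n + 2) * k : ℕ) : ℝ) with hDr
    rw [div_eq_div_iff (by positivity) (by positivity)]
    ring
  rw [hE, hexp]
  have hpow : (k : ℝ) ^ (-(1 + θ)) = 1 / (k * (k : ℝ) ^ θ) := by
    rw [Real.rpow_neg hkpos.le, Real.rpow_add hkpos, Real.rpow_one, one_div]
  have hy2 : y = (8 : ℝ) ^ θ * (k : ℝ) ^ θ := by
    rw [hy, Real.mul_rpow (by norm_num) hkpos.le]
  rw [hpow, one_div_mul_one_div]
  refine one_div_le_one_div_of_le (by positivity) ?_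
  have h8 : (0 : ℝ) < (8 : ℝ) ^ θ := by positivity
  have hkθ : (0 : ℝ) < (k : ℝ) ^ θ := by positivity
  calc 2 * Real.exp ((n + 2 : ℕ) : ℝ) * k * ((n : ℝ) + 1) ^ (n + 2) * M
      ≤ 2 * Real.exp ((n + 2 : ℕ) : ℝ) * k * ((n : ℝ) + 1) ^ (n + 2) * (2 * y) :=
        mul_le_mul_of_nonneg_left hM2 (by positivity)
    _ = 4 * Real.exp ((n + 2 : ℕ) : ℝ) * ((n : ℝ) + 1) ^ (n + 2) * (8 : ℝ) ^ θ *
        (k * (k : ℝ) ^ θ) := by
        rw [hy2]
        ring

end Pool.Agent.Work.MP_7d1693_pr.FX
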