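import Pool.Agent.Work.MP_7d1693_pr.FX.Defs
import Pool.Agent.Work.MP_7d1693_pr.FX.AntiCnt
import Pool.Agent.Work.MP_7d1693_pr.FX.PatBox
import Pool.Agent.Work.MP_7d1693_pr.FM.ETot
import Pool.Agent.Work.MP_7d1693_pr.FM.ChB
import Pool.Agent.Work.MP_7d1693_pr.FM.PhiReg

/-! # Module MisUb (M): upper bound when one `r`-partite word is missing

Let `k ≥ 1`, `N = 2^L` with `k r ≤ N` , `B = nBox N 0 (List.replicate r 1)`. Map `K ∈ Cl r P B k` to `K.image (fun e (i : Fin r) => el e i - i N)`: injective (`enc_surj`), `k` points (injective on edges), coordinates `< N`; no two points `x` (of `e`), `y` (of `f`) with `x i < y i` for `u i = true` and `y i < x i` for `u i = false`,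
all `i`: then `e ≠ f`, disjoint, `el e 0 < el f 0` (`u 0 = true`; `el e 0 = mn e`: `mn_eq`) and `pat e f = wd r s` with `s i = u i` for `i < r` (`pat_box`; `wd` depends on the values below `r` only), which is not in `P`. So `anti_cnt` bounds `(Cl r P B k).card`. Choose `j` with `2^(j(r-1)) ≤ k < 2^((j+1)(r-1))`
(`j ≤ L` as `2^j ≤ k ≤ N` for `r ≥ 2`). `∑_{i<j} (2 * 2^i)^(r-1) = ∑_{i<j} 2^((i+1)(r-1)) ≤ 2 * 2^(j(r-1)) ≤ 2k`; `choose M k ≤ (e M/k)^k` (or `≤ M^k/k!`, `k! ≥ (k/e)^k`), `M = 2^(r-1) 2^(j(r-1)) N^r 2^(-jr)`, `2^(j(r-1)) ≤ k`, `2^(-jr) ≤ 2^r k^(-r/(r-1))`. So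
`(Cl B k).card ≤ 2 * 2^(2^(r+1) k) (e 2^(2r) N^r k^(-r/(r-1)))^k`. With `card_Cl`, `le_chB` (`N^(rk) ≤ chB (r^r k^r)^k`), `phi_pow`: `phi^k = ac/k^(rk) ≤ (Cl B k).card r^(rk)/N^(rk)`; take `k`-th roots (`2 ≤ 2^k`). -/

namespace Pool.Agent.Work.MP_7d1693_pr.FX

open Finset FM

private theorem sum_bd {r : ℕ} (hr : 2 ≤ r) (j : ℕ) :
    ∑ i ∈ range j, (2 * 2 ^ i) ^ (r - 1) ≤ 2 * 2 ^ (j * (r - 1)) := by
  induction j with
  | zero => simp
  | succ j ih =>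
    rw [sum_range_succ]
    have h1 : (2 * 2 ^ j) ^ (r - 1) = 2 ^ ((j + 1) * (r - 1)) := by
      rw [pow_mul, pow_succ, mul_comm]
    have h2 : 2 * 2 ^ (j * (r - 1)) ≤ 2 ^ ((j + 1) * (r - 1)) := by
      rw [mul_comm, ← pow_succ]
      apply Nat.pow_le_pow_right (by norm_num)
      rw [Nat.add_mul, Nat.one_mul]
      omega
    rw [h1]
    omega

private theorem choose_bd (M k : ℕ) :
    (M.choose k : ℝ) * (k : ℝ) ^ k ≤ (Real.exp 1 * M) ^ k := by
  have h1 : (M.choose k : ℝ) ≤ (M : ℝ) ^ k / (Nat.factorial k : ℝ) := Nat.choose_le_pow_div k M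
  have h2 : (k : ℝ) ^ k / (Nat.factorial k : ℝ) ≤ Real.exp k :=
    Real.pow_div_factorial_le_exp (k : ℝ) (Nat.cast_nonneg _) k
  have h3 : Real.exp (k : ℝ) = Real.exp 1 ^ k := by
    rw [← Real.exp_nat_mul, mul_one]
  calc (M.choose k : ℝ) * (k : ℝ) ^ k
      ≤ (M : ℝ) ^ k / (Nat.factorial k : ℝ) * (k : ℝ) ^ k :=
        mul_le_mul_of_nonneg_right h1 (by positivity)
    _ = (k : ℝ) ^ k / (Nat.factorial k : ℝ) * (M : ℝ) ^ k := by ring
    _ ≤ Real.exp k * (M : ℝ) ^ k := mul_le_mul_of_nonneg_right h2 (by positivity)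
    _ = (Real.exp 1 * M) ^ k := by rw [h3, mul_pow]

private theorem wd_congr {r : ℕ} {s u : ℕ → Bool} (h : ∀ i < r, s i = u i) : wd r s = wd r u := by
  unfold wd
  congr 1
  apply List.map_congr_left
  intro i hi
  rw [List.mem_range] at hi
  rw [h i hi]

private theorem cl_bd {r : ℕ} (hr : 2 ≤ r) {P : Set (List Bool)} (u : ℕ → Bool) (hu : u 0 = true)
    (h : wd r u ∉ P) {L j k : ℕ} (hj : j ≤ L) :
    (Cl r P (nBox (2 ^ L) 0 (List.replicate r 1)) k).card ≤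
      2 * 2 ^ (2 ^ r * ∑ i ∈ range j, (2 * 2 ^ i) ^ (r - 1)) *
      ((2 * 2 ^ j) ^ (r - 1) * (2 ^ (L - j)) ^ r).choose k := by
  classical
  let co : Finset ℕ → (Fin r → ℕ) := fun e i => el e i - (i : ℕ) * 2 ^ L
  have hmem : ∀ K ∈ Cl r P (nBox (2 ^ L) 0 (List.replicate r 1)) k,
      (∀ e ∈ K, e ∈ Ebox r (nBox (2 ^ L) 0 (List.replicate r 1))) ∧ K.card = k ∧ Fam r K ∧
        IsClique P K := by
    intro K hK
    unfold Cl at hK
    rw [mem_filter, mem_powersetCard] at hK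
    exact ⟨fun e he => hK.1.1 he, hK.1.2, hK.2.1, hK.2.2⟩
  have hco : ∀ e ∈ Ebox r (nBox (2 ^ L) 0 (List.replicate r 1)), enc r (2 ^ L) (co e) = e :=
    fun e he => (enc_surj he).2.symm
  have hinj : Set.InjOn (fun K : Finset (Finset ℕ) => K.image co)
      (Cl r P (nBox (2 ^ L) 0 (List.replicate r 1)) k : Set (Finset (Finset ℕ))) := by
    have hback : ∀ K ∈ Cl r P (nBox (2 ^ L) 0 (List.replicate r 1)) k,
        (K.image co).image (enc r (2 ^ L)) = K := by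
      intro K hK
      rw [image_image]
      conv_rhs => rw [← image_id (s := K)]
      apply image_congr
      intro e he
      exact hco e ((hmem K hK).1 e he)
    intro K hK K' hK' heq
    rw [← hback K hK, ← hback K' hK']
    exact congrArg _ heq
  rw [← card_image_of_injOn hinj]
  apply anti_cnt (by omega) (fun i : Fin r => u i) hj
  intro K' hK'
  rw [mem_image] at hK'
  obtain ⟨K, hK, rfl⟩ := hK'
  obtain ⟨h1, h2, h3, h4⟩ := hmem K hK
  refine ⟨?_, ?_, ?_⟩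
  · rw [card_image_of_injOn, h2]
    intro e he f hf hef
    rw [← hco e (h1 e he), ← hco f (h1 f hf)]
    exact congrArg _ hef
  · intro x hx i
    rw [mem_image] at hx
    obtain ⟨e, he, rfl⟩ := hx
    have h5 := (enc_surj (h1 e he)).1 i i.2
    show el e i - (i : ℕ) * 2 ^ L < 2 ^ L
    omega
  · intro x hx y hy hall
    rw [mem_image] at hx hy
    obtain ⟨e, he, rfl⟩ := hx
    obtain ⟨f, hf, rfl⟩ := hy
    have hcmp : ∀ i : Fin r, (co e i < co f i ↔ el e i < el f i) ∧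
        (co f i < co e i ↔ el f i < el e i) := by
      intro i
      have h5 := (enc_surj (h1 e he)).1 i i.2
      have h6 := (enc_surj (h1 f hf)).1 i i.2
      constructor
      · show el e i - (i : ℕ) * 2 ^ L < el f i - (i : ℕ) * 2 ^ L ↔ _
        omega
      · show el f i - (i : ℕ) * 2 ^ L < el e i - (i : ℕ) * 2 ^ L ↔ _
        omega
    have h0 : el e 0 < el f 0 := by
      have h5 := hall ⟨0, by omega⟩
      have h6 : u ((⟨0, by omega⟩ : Fin r) : ℕ) = true := hu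
      rw [if_pos h6] at h5
      exact ((hcmp ⟨0, by omega⟩).1).1 h5
    have hne : e ≠ f := by
      rintro rfl
      exact lt_irrefl _ h0
    have hd := h3.2 e he f hf hne
    have hen : e.Nonempty := by
      rw [← card_pos, h3.1 e he]
      omega
    have hfn : f.Nonempty := by
      rw [← card_pos, h3.1 f hf]
      omega
    have hlt : e.min < f.min := by
      rw [(mn_eq e hen).2, (mn_eq f hfn).2, (mn_eq e hen).1, (mn_eq f hfn).1]
      exact_mod_cast h0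
    have h7 := h4 e he f hf hlt
    rw [pat_box (by omega) (h1 e he) (h1 f hf) hd] at h7
    apply h
    have h8 : wd r (fun j => decide (el e j < el f j)) = wd r u := by
      apply wd_congr
      intro i hi
      have h5 := hall ⟨i, hi⟩
      by_cases hui : u i = true
      · rw [if_pos hui] at h5
        rw [hui, decide_eq_true_eq]
        exact ((hcmp ⟨i, hi⟩).1).1 h5
      · rw [if_neg hui] at h5
        have h9 : u i = false := by simpa using hui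
        rw [h9, decide_eq_false_iff_not, not_lt]
        exact (((hcmp ⟨i, hi⟩).2).1 h5).le
    rw [← h8]
    exact h7

private theorem root_bd {r : ℕ} (hr : 2 ≤ r) {j k : ℕ} (hk : k < (2 ^ (r - 1)) ^ (j + 1)) :
    (k : ℝ) ^ (1 / ((r : ℝ) - 1)) ≤ 2 * 2 ^ j := by
  have h1 : ((r - 1 : ℕ) : ℝ) = (r : ℝ) - 1 := by
    rw [Nat.cast_sub (by omega), Nat.cast_one]
  have h2 : (k : ℝ) ≤ ((2 : ℝ) ^ (j + 1)) ^ (r - 1) := by
    have h3 : (2 ^ (r - 1)) ^ (j + 1) = ((2 : ℕ) ^ (j + 1)) ^ (r - 1) := by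
      rw [← pow_mul, ← pow_mul, mul_comm]
    rw [h3] at hk
    exact_mod_cast hk.le
  have h4 := Real.rpow_le_rpow (Nat.cast_nonneg k) h2
    (by rw [← h1]; positivity : (0 : ℝ) ≤ 1 / ((r : ℝ) - 1))
  refine h4.trans (le_of_eq ?_)
  rw [one_div, ← h1, Real.pow_rpow_inv_natCast (by positivity) (by omega), pow_succ, mul_comm]

theorem mis_ub {r : ℕ} (hr : 2 ≤ r) {P : Set (List Bool)} (u : ℕ → Bool) (hu : u 0 = true)
    (h : wd r u ∉ P) : Ub r P (List.replicate r 1) ((r : ℝ) / ((r : ℝ) - 1)) := by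
  obtain ⟨D, hD⟩ : ∃ D : ℝ, D = 2 * ((2 : ℝ) ^ (2 ^ (r + 1)) * Real.exp 1 * 2 ^ (r - 1) *
    (r : ℝ) ^ r) := ⟨_, rfl⟩
  have hrp : (0 : ℝ) < r := by
    have : 0 < r := by omega
    exact_mod_cast this
  have hD0 : 0 < D := by
    rw [hD]
    positivity
  refine ⟨2 * D, by positivity, fun k hk => ?_⟩
  have hkp : (0 : ℝ) < k := by exact_mod_cast hk
  obtain ⟨j, hj⟩ : ∃ j, j = Nat.log (2 ^ (r - 1)) k := ⟨_, rfl⟩
  have hb : 1 < 2 ^ (r - 1) := Nat.one_lt_two_pow (by omega)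
  have hj1 : (2 ^ (r - 1)) ^ j ≤ k := by
    rw [hj]
    exact Nat.pow_log_le_self _ (by omega)
  have hj2 : k < (2 ^ (r - 1)) ^ (j + 1) := by
    rw [hj]
    exact Nat.lt_pow_succ_log_self hb k
  have hk2 : k < 2 ^ k := Nat.lt_two_pow_self
  have hjL : j ≤ k := by
    have h1 : j < (2 ^ (r - 1)) ^ j := Nat.lt_pow_self hb
    omega
  obtain ⟨B, hB⟩ : ∃ B, B = nBox (2 ^ k) 0 (List.replicate r 1) := ⟨_, rfl⟩
  have hord : BOrd 0 B := by rw [hB]; exact nbox_ord _ _ _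
  have hsh : shape B = List.replicate r 1 := by rw [hB]; exact nbox_shape _ _ _
  have hsum : (shape B).sum = r := by rw [hsh]; simp
  have hvol : volB B = (2 ^ k) ^ r := by
    rw [hB, nbox_vol]
    simp
  have hcomp : Comp r (shape B) := by
    refine ⟨hsum, fun a ha => ?_⟩
    rw [hsh] at ha
    rw [List.eq_of_mem_replicate ha]
    norm_num
  have hlen : ∀ b ∈ B, k * b.1 ≤ b.2.2 - b.2.1 := by
    rw [hB]
    have hgen : ∀ (l : ℕ) (c : ℕ), ∀ b ∈ nBox (2 ^ k) c (List.replicate l 1),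
        k * b.1 ≤ b.2.2 - b.2.1 := by
      intro l
      induction l with
      | zero =>
        intro c b hb
        simp [nBox] at hb
      | succ l ih =>
        intro c b hb
        rw [List.replicate_succ, nBox, List.mem_cons] at hb
        rcases hb with rfl | hb
        · show k * 1 ≤ c + 2 ^ k - c
          omega
        · exact ih _ b hb
    exact hgen r 0
  have hcard := card_Cl (by omega : 1 ≤ r) P hord hsum k
  have hchb := le_chB hcomp hk hlen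
  have hphi := phi_pow r P (List.replicate r 1) hk
  have hcl := cl_bd hr u hu h (L := k) (j := j) (k := k) hjL
  rw [← hB] at hcl
  rw [hsh] at hcard
  obtain ⟨φ, hφ⟩ : ∃ φ, φ = phi r P (List.replicate r 1) k := ⟨_, rfl⟩
  have hφ0 : 0 ≤ φ := by
    rw [hφ]
    exact phi_nonneg _ _ _ _
  rw [← hφ] at hphi ⊢
  obtain ⟨S, hS⟩ : ∃ S, S = ∑ i ∈ range j, (2 * 2 ^ i) ^ (r - 1) := ⟨_, rfl⟩
  have hS2 : S ≤ 2 * k := by
    rw [hS]
    refine (sum_bd hr j).trans ?_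
    have h1 : 2 ^ (j * (r - 1)) = (2 ^ (r - 1)) ^ j := by
      rw [← pow_mul, mul_comm]
    rw [h1]
    omega
  obtain ⟨M, hM⟩ : ∃ M, M = (2 * 2 ^ j) ^ (r - 1) * (2 ^ (k - j)) ^ r := ⟨_, rfl⟩
  rw [← hS, ← hM] at hcl
  have hM2 : M * 2 ^ j = (2 ^ k) ^ r * 2 ^ (r - 1) := by
    obtain ⟨m, rfl⟩ := Nat.exists_eq_add_of_le hjL
    obtain ⟨q, rfl⟩ := Nat.exists_eq_add_of_le hr
    rw [hM, Nat.add_sub_cancel_left]
    have h1 : 2 + q - 1 = q + 1 := by omega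
    rw [h1]
    ring
  -- first step
  have e1 : φ ^ k * (((2 : ℝ) ^ k) ^ r) ^ k ≤
      ((Cl r P B k).card : ℝ) * ((r : ℝ) ^ r) ^ k := by
    have hk0 : (0 : ℝ) < ((k : ℝ) ^ r) ^ k := by positivity
    refine le_of_mul_le_mul_right ?_ hk0
    rw [hcard, Nat.cast_mul, ← hphi]
    rw [hvol] at hchb
    have h2 : (((2 ^ k) ^ r : ℕ) : ℝ) = ((2 : ℝ) ^ k) ^ r := by push_cast; ring
    rw [h2] at hchb
    have h3 : (k : ℝ) ^ (r * k) = ((k : ℝ) ^ r) ^ k := pow_mul _ _ _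
    rw [h3]
    have h4 := mul_le_mul_of_nonneg_left hchb
      (by positivity : (0 : ℝ) ≤ φ ^ k * ((k : ℝ) ^ r) ^ k)
    calc φ ^ k * (((2 : ℝ) ^ k) ^ r) ^ k * ((k : ℝ) ^ r) ^ k
        = φ ^ k * ((k : ℝ) ^ r) ^ k * (((2 : ℝ) ^ k) ^ r) ^ k := by ring
      _ ≤ φ ^ k * ((k : ℝ) ^ r) ^ k * ((chB B k : ℝ) * ((r : ℝ) ^ r * (k : ℝ) ^ r) ^ k) := h4
      _ = φ ^ k * ((k : ℝ) ^ r) ^ k * (chB B k : ℝ) * ((r : ℝ) ^ r) ^ k *
          ((k : ℝ) ^ r) ^ k := by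
        rw [mul_pow]
        ring
  have e2 : ((Cl r P B k).card : ℝ) * (k : ℝ) ^ k ≤
      2 * ((2 : ℝ) ^ (2 ^ (r + 1))) ^ k * (Real.exp 1 * M) ^ k := by
    have h1 : ((Cl r P B k).card : ℝ) ≤ 2 * 2 ^ (2 ^ r * S) * (M.choose k : ℝ) := by
      exact_mod_cast hcl
    have h2 : (2 : ℝ) ^ (2 ^ r * S) ≤ ((2 : ℝ) ^ (2 ^ (r + 1))) ^ k := by
      rw [← pow_mul]
      apply pow_le_pow_right₀ (by norm_num)
      calc 2 ^ r * S ≤ 2 ^ r * (2 * k) := Nat.mul_le_mul_left _ hS2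
        _ = 2 ^ (r + 1) * k := by ring
    calc ((Cl r P B k).card : ℝ) * (k : ℝ) ^ k
        ≤ 2 * 2 ^ (2 ^ r * S) * (M.choose k : ℝ) * (k : ℝ) ^ k :=
          mul_le_mul_of_nonneg_right h1 (by positivity)
      _ = 2 * 2 ^ (2 ^ r * S) * ((M.choose k : ℝ) * (k : ℝ) ^ k) := by ring
      _ ≤ 2 * 2 ^ (2 ^ r * S) * (Real.exp 1 * M) ^ k :=
          mul_le_mul_of_nonneg_left (choose_bd M k) (by positivity)
      _ ≤ 2 * ((2 : ℝ) ^ (2 ^ (r + 1))) ^ k * (Real.exp 1 * M) ^ k := by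
          apply mul_le_mul_of_nonneg_right _ (by positivity)
          exact mul_le_mul_of_nonneg_left h2 (by norm_num)
  have e3 : (φ * k * 2 ^ j) ^ k ≤ D ^ k := by
    have hN0 : (0 : ℝ) < (((2 : ℝ) ^ k) ^ r) ^ k := by positivity
    refine le_of_mul_le_mul_right ?_ hN0
    have hM3 : (M : ℝ) * 2 ^ j = ((2 : ℝ) ^ k) ^ r * 2 ^ (r - 1) := by exact_mod_cast hM2
    calc (φ * k * 2 ^ j) ^ k * (((2 : ℝ) ^ k) ^ r) ^ k
        = φ ^ k * (((2 : ℝ) ^ k) ^ r) ^ k * ((k : ℝ) ^ k * (2 ^ j) ^ k) := by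
          rw [mul_pow, mul_pow]
          ring
      _ ≤ ((Cl r P B k).card : ℝ) * ((r : ℝ) ^ r) ^ k * ((k : ℝ) ^ k * (2 ^ j) ^ k) :=
          mul_le_mul_of_nonneg_right e1 (by positivity)
      _ = ((Cl r P B k).card : ℝ) * (k : ℝ) ^ k * (((r : ℝ) ^ r) ^ k * (2 ^ j) ^ k) := by ring
      _ ≤ 2 * ((2 : ℝ) ^ (2 ^ (r + 1))) ^ k * (Real.exp 1 * M) ^ k *
          (((r : ℝ) ^ r) ^ k * (2 ^ j) ^ k) :=
          mul_le_mul_of_nonneg_right e2 (by positivity)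
      _ = 2 * ((2 : ℝ) ^ (2 ^ (r + 1))) ^ k * Real.exp 1 ^ k * (M * 2 ^ j) ^ k *
          ((r : ℝ) ^ r) ^ k := by
          rw [mul_pow, mul_pow (M : ℝ)]
          ring
      _ = 2 * ((2 : ℝ) ^ (2 ^ (r + 1)) * Real.exp 1 * 2 ^ (r - 1) * (r : ℝ) ^ r) ^ k *
          (((2 : ℝ) ^ k) ^ r) ^ k := by
          rw [hM3, mul_pow, mul_pow, mul_pow, mul_pow]
          ring
      _ ≤ 2 ^ k * ((2 : ℝ) ^ (2 ^ (r + 1)) * Real.exp 1 * 2 ^ (r - 1) * (r : ℝ) ^ r) ^ k *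
          (((2 : ℝ) ^ k) ^ r) ^ k := by
          apply mul_le_mul_of_nonneg_right _ (by positivity)
          apply mul_le_mul_of_nonneg_right _ (by positivity)
          exact le_self_pow₀ (by norm_num) (by omega)
      _ = D ^ k * (((2 : ℝ) ^ k) ^ r) ^ k := by
          rw [hD, mul_pow 2]
  have e4 : φ * k * 2 ^ j ≤ D :=
    le_of_pow_le_pow_left₀ (by omega) hD0.le e3
  have e5 := root_bd hr hj2
  have hr1 : (0 : ℝ) < (r : ℝ) - 1 := by
    have : (2 : ℝ) ≤ r := by exact_mod_cast hr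
    linarith
  have e6 : (k : ℝ) ^ ((r : ℝ) / ((r : ℝ) - 1)) = k * (k : ℝ) ^ (1 / ((r : ℝ) - 1)) := by
    have h1 : (r : ℝ) / ((r : ℝ) - 1) = 1 + 1 / ((r : ℝ) - 1) := by
      field_simp
      ring
    rw [h1, Real.rpow_add hkp, Real.rpow_one]
  rw [Real.rpow_neg hkp.le, ← div_eq_mul_inv, le_div_iff₀ (Real.rpow_pos_of_pos hkp _), e6]
  calc φ * (k * (k : ℝ) ^ (1 / ((r : ℝ) - 1)))
      = φ * k * (k : ℝ) ^ (1 / ((r : ℝ) - 1)) := by ring
    _ ≤ φ * k * (2 * 2 ^ j) := mul_le_mul_of_nonneg_left e5 (by positivity)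
    _ = 2 * (φ * k * 2 ^ j) := by ring
    _ ≤ 2 * D := by linarith

end Pool.Agent.Work.MP_7d1693_pr.FX
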