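import Pool.Agent.Work.MP_7d1693_pr.FX.Defs
import Pool.Agent.Work.MP_7d1693_pr.FX.Ev
import Pool.Agent.Work.MP_7d1693_pr.FX.MisUb
import Pool.Agent.Work.MP_7d1693_pr.FX.MisLb
import Pool.Agent.Work.MP_7d1693_pr.FX.AllTrans
import Pool.Agent.Work.MP_7d1693_pr.FX.WdType

/-! # Module OrdMis (S-M): all but one `r`-partite words, `r ≥ 3`: order `t^(1-1/r)`

`p = r/(r-1) ∈ (1, 2)` for `r ≥ 3`, `1/p = 1 - 1/r`. `mis_ub` and `all_trans`: `Ub r P lam p` for all types; `(n (t/n)^(λ_1))^(1/p) ≤ t^(1/p)` (`n (t/n)^a ≤ t` for `a ≥ 1`). Lower: `mis_lb`; `List.replicate r 1` is admissible: there is an `r`-partite word in `P` (`s` with `s 0 = true` different from `u`, `r ≥ 2`), `wd_hasType`. -/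

namespace Pool.Agent.Work.MP_7d1693_pr.FX

open Finset FM

private lemma om_le (n t a : ℕ) (ht : 1 ≤ t) (htn : t ≤ n) (ha : 1 ≤ a) :
    (n : ℝ) * ((t : ℝ) / n) ^ a ≤ t := by
  have hn : (0 : ℝ) < n := by exact_mod_cast (by omega : 0 < n)
  have h0 : (0 : ℝ) ≤ (t : ℝ) / n := by positivity
  have h1 : (t : ℝ) / n ≤ 1 := by
    rw [div_le_one hn]
    exact_mod_cast htn
  have h2 : ((t : ℝ) / n) ^ a ≤ (t : ℝ) / n := by
    calc ((t : ℝ) / n) ^ a ≤ ((t : ℝ) / n) ^ 1 := pow_le_pow_of_le_one h0 h1 ha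
      _ = (t : ℝ) / n := pow_one _
  calc (n : ℝ) * ((t : ℝ) / n) ^ a ≤ (n : ℝ) * ((t : ℝ) / n) :=
        mul_le_mul_of_nonneg_left h2 hn.le
    _ = t := by field_simp

theorem order_mis {r : ℕ} (hr : 3 ≤ r) {P : Set (List Bool)} (u : ℕ → Bool) (hu : u 0 = true)
    (h : ∀ s : ℕ → Bool, s 0 = true → (wd r s ∈ P ↔ ∃ i < r, s i ≠ u i)) :
    HasOrder r P (fun _ t => (t : ℝ) ^ (1 - 1 / (r : ℝ))) := by
  have hR : (3 : ℝ) ≤ r := by exact_mod_cast hr
  have hR1 : (0 : ℝ) < (r : ℝ) - 1 := by linarith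
  have hR0 : (0 : ℝ) < r := by linarith
  set p : ℝ := (r : ℝ) / ((r : ℝ) - 1) with hp
  have hp0 : 0 < p := div_pos hR0 hR1
  have hp1 : 1 ≤ p := by
    rw [hp, le_div_iff₀ hR1]
    linarith
  have hp2 : p < 2 := by
    rw [hp, div_lt_iff₀ hR1]
    linarith
  have hpi : 1 / p = 1 - 1 / (r : ℝ) := by
    rw [hp]
    field_simp
  have hnot : wd r u ∉ P := by
    intro h1
    obtain ⟨i, _, hi⟩ := (h u hu).1 h1
    exact hi rfl
  -- a word in `P`
  obtain ⟨s, hs0, hs⟩ : ∃ s : ℕ → Bool, s 0 = true ∧ wd r s ∈ P := by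
    refine ⟨fun i => if i = 1 then !(u 1) else u i, ?_, ?_⟩
    · simp [hu]
    · refine (h _ (by simp [hu])).2 ⟨1, by omega, ?_⟩
      simp
  have hAdm : Adm r P (List.replicate r 1) := by
    refine ⟨by simp, wd r s, hs, wd_hasType (by omega) hs0⟩
  have hlb : Lb r P (List.replicate r 1) p :=
    mis_lb (by omega) u hu (fun s' h1 h2 => (h s' h1).2 h2)
  have hub : Ub r P (List.replicate r 1) p := mis_ub (by omega) u hu hnot
  refine ev (by omega) ⟨_, hAdm⟩ _ (fun n t => Real.rpow_nonneg (Nat.cast_nonneg _) _) ?_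
    [(List.replicate r 1, p)] ?_ ?_
  · intro lam hlam
    refine ⟨p, hp0, all_trans (by omega) hp1 hp2 hub (adm_comp hlam), 1, one_pos, ?_⟩
    intro n t ht htn
    have hc := adm_comp hlam
    have ha : 1 ≤ lam.headD 0 := by
      cases lam with
      | nil =>
        have h1 := hc.1
        simp at h1
        omega
      | cons a l =>
        exact hc.2 a (by simp)
    have h1 := om_le n t _ ht htn ha
    have h2 : ((n : ℝ) * ((t : ℝ) / n) ^ (lam.headD 0)) ^ (1 / p) ≤ (t : ℝ) ^ (1 / p) :=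
      Real.rpow_le_rpow (by positivity) h1 (by positivity)
    rw [← hpi]
    linarith
  · intro x hx
    rw [List.mem_singleton] at hx
    subst hx
    exact ⟨hAdm, hp0, hlb⟩
  · refine ⟨1, one_pos, fun n t ht htn => Or.inr ⟨_, List.mem_singleton.2 rfl, ?_⟩⟩
    have hn : (0 : ℝ) < n := by exact_mod_cast (by omega : 0 < n)
    have hh : (List.replicate r 1).headD 0 = 1 := by
      obtain ⟨r', rfl⟩ : ∃ r', r = r' + 1 := ⟨r - 1, by omega⟩
      simp [List.replicate_succ]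
    have h1 : (n : ℝ) * ((t : ℝ) / n) ^ (1 : ℕ) = t := by
      rw [pow_one]
      field_simp
    simp only
    rw [hh, h1, hpi, one_mul]

end Pool.Agent.Work.MP_7d1693_pr.FX
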