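import Pool.Agent.Work.MP_7d1693_pr.FX.Defs
import Pool.Agent.Work.MP_7d1693_pr.FM.ECard
import Pool.Agent.Work.MP_7d1693_pr.FM.DefsK
import Pool.Agent.Work.MP_7d1693_pr.FM.PhiReg
import Pool.Agent.Work.MP_7d1693_pr.AVOID
import Pool.Agent.Work.MP_7d1693_pr.CNT1
import Pool.Agent.Work.MP_7d1693_pr.MT2

/-! # Module ThinUb (S): thin sets

`avoid` gives `τ` with no `Occ j τ K` for `P`-cliques, `count_le`: the number of `P`-cliques `K` in `PMs r (range (r k))` is at most `r^(rk) (avc τ k)^(r-1)`, `marcus_tardos`: `avc τ k ≤ C^k`. `Cl r P (stdBox k 0 lam) k` is a set of such cliques: the edges are disjoint `r`-sets inside `range (r k)`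
(`std_vert`, `lam.sum = r`) and there are `k` of them, so their union is `range (r k)`. So `ac k ≤ D^k` and `phi k = (ac k)^(1/k)/k^r ≤ D k^(-r)`. -/

namespace Pool.Agent.Work.MP_7d1693_pr.FX

open Finset FM

private theorem cl_pms {r : ℕ} {P : Set (List Bool)} {lam : List ℕ} (hs : lam.sum = r) {k : ℕ}
    {K : Finset (Finset ℕ)} (h : K ∈ Cl r P (stdBox k 0 lam) k) :
    K ∈ PMs r (range (r * k)) ∧ Fam r K ∧ IsClique P K := by
  classical
  unfold Cl at h
  rw [mem_filter, mem_powersetCard] at h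
  obtain ⟨⟨h1, h2⟩, h3, h4⟩ := h
  have hsub : ∀ e ∈ K, e ⊆ range (r * k) := by
    intro e he
    have h5 := h1 he
    unfold Ebox at h5
    rw [mem_filter, mem_powersetCard, std_vert, hs] at h5
    intro x hx
    have h6 := h5.1.1 hx
    rw [mem_Ico] at h6
    rw [mem_range, mul_comm]
    omega
  refine ⟨?_, h3, h4⟩
  unfold PMs
  rw [mem_filter]
  refine ⟨?_, h3, ?_⟩
  · rw [mem_powerset]
    intro e he
    rw [mem_powerset]
    exact hsub e he
  · apply Finset.eq_of_subset_of_card_le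
    · intro x hx
      rw [Finset.mem_sup] at hx
      obtain ⟨e, he, hxe⟩ := hx
      exact hsub e he hxe
    · rw [card_range, Finset.sup_eq_biUnion, Finset.card_biUnion]
      · simp only [id_eq]
        rw [Finset.sum_congr rfl (fun e he => h3.1 e he), Finset.sum_const, smul_eq_mul, h2,
          mul_comm]
      · intro e he f hf hne
        exact h3.2 e he f hf hne

theorem thin_ub {r : ℕ} (hr : 2 ≤ r) {P : Set (List Bool)} (hP : Thin r P) {lam : List ℕ}
    (hc : Comp r lam) : Ub r P lam r := by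
  classical
  obtain ⟨l, τ, hτ⟩ := avoid r hr P hP
  obtain ⟨C, hC⟩ := marcus_tardos l τ
  refine ⟨(r : ℝ) ^ r * (C : ℝ) ^ (r - 1) + 1, by positivity, ?_⟩
  intro k hk
  have hkp : (0 : ℝ) < k := by exact_mod_cast hk
  have h1 : ac r P lam k ≤ (r ^ r * C ^ (r - 1)) ^ k := by
    have h2 := count_le r k (by omega) l τ (Cl r P (stdBox k 0 lam) k) (fun K hK => by
      obtain ⟨h3, h4, h5⟩ := cl_pms hc.1 hK
      exact ⟨h3, fun j hj hj0 => hτ K h4 h5 j hj hj0⟩)
    unfold ac
    refine h2.trans ?_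
    rw [mul_pow, ← pow_mul, ← pow_mul, mul_comm (r - 1) k, pow_mul C k (r - 1)]
    exact Nat.mul_le_mul_left _ (Nat.pow_le_pow_left (hC k) _)
  have h1' : (ac r P lam k : ℝ) ≤ ((r : ℝ) ^ r * (C : ℝ) ^ (r - 1)) ^ k := by
    exact_mod_cast h1
  have h2 : (ac r P lam k : ℝ) ^ (1 / (k : ℝ)) ≤ (r : ℝ) ^ r * (C : ℝ) ^ (r - 1) := by
    refine (Real.rpow_le_rpow (Nat.cast_nonneg _) h1' (by positivity)).trans (le_of_eq ?_)
    rw [one_div]
    exact Real.pow_rpow_inv_natCast (by positivity) (by omega)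
  unfold phi
  rw [Real.rpow_neg hkp.le, Real.rpow_natCast, ← div_eq_mul_inv]
  apply div_le_div_of_nonneg_right _ (by positivity)
  linarith

end Pool.Agent.Work.MP_7d1693_pr.FX
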