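import Pool.Agent.Work.MP_7d1693_pr.FX.Defs
import Pool.Agent.Work.MP_7d1693_pr.FX.Ev
import Pool.Agent.Work.MP_7d1693_pr.FX.ThinUb
import Pool.Agent.Work.MP_7d1693_pr.FX.ClsLb
import Pool.Agent.Work.MP_7d1693_pr.FX.Adm3
import Pool.Agent.Work.MP_7d1693_pr.FX.WdType
import Pool.Agent.Work.MP_7d1693_pr.FM.NoAdm

/-! # Module R2 (S-M): the case `r = 2`

If `P` has an admissible type use `ev` with the types of `adm2`. Both of ABAB, ABBA in `P`: `g = t`; all admissible `lam` have `Ub 2 P lam 1` (`phi_reg` with `j = 1`, `phi_one`) and `(n (t/n)^(λ_1))^(1/1) ≤ t` (`λ_1 ≥ 1`, `t ≤ n`); `Lb 2 P [1,1] 1` by `cls_lb` with `κ = id` (`2 + 1 - 2 = 1`). Otherwise `Thin 2 P` (`thin2`), so `Ub 2 P lam 2` (`thin_ub`), and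
`Lb 2 P lam 2` by `phi_lb` for every admissible `lam`. If one of ABAB, ABBA is in `P`: `g = t^(1/2)`, `(n (t/n)^(λ_1))^(1/2) ≤ t^(1/2)`, lower bound with `[1,1]`. If only AABB: `g = (t^2/n)^(1/2)`, `lam = [2]`. If there is no admissible type, `g = 0`: the first bound is trivial (the event `z < 0` is impossible) and `no_adm` gives `R` with probability `0` for `z > R`; take `C = R + 1`.
(`process_eq` as in `FM/Main`.) -/

namespace Pool.Agent.Work.MP_7d1693_pr.FX

open Finset FM

private lemma nt1 {n t : ℕ} (ht : 1 ≤ t) (htn : t ≤ n) : (n : ℝ) * ((t : ℝ) / n) ^ 1 = t := by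
  have : (0 : ℝ) < n := by exact_mod_cast (by omega : 0 < n)
  rw [pow_one]
  field_simp

private lemma nt2 {n t : ℕ} (ht : 1 ≤ t) (htn : t ≤ n) :
    (n : ℝ) * ((t : ℝ) / n) ^ 2 = (t : ℝ) ^ 2 / n := by
  have : (0 : ℝ) < n := by exact_mod_cast (by omega : 0 < n)
  field_simp

private lemma nt_le {n t : ℕ} (ht : 1 ≤ t) (htn : t ≤ n) : (t : ℝ) ^ 2 / n ≤ t := by
  have h1 : (0 : ℝ) < n := by exact_mod_cast (by omega : 0 < n)
  have h2 : (t : ℝ) ≤ n := by exact_mod_cast htn
  have h3 : (0 : ℝ) ≤ t := Nat.cast_nonneg _
  rw [div_le_iff₀ h1]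
  nlinarith

private lemma g2_nonneg (P : Set (List Bool)) (n t : ℕ) : 0 ≤ g2 P n t := by
  unfold g2
  split_ifs <;> positivity

private lemma lb_two {P : Set (List Bool)} {lam : List ℕ} (h : Adm 2 P lam) : Lb 2 P lam 2 := by
  refine ⟨1, one_pos, fun k hk => ?_⟩
  have hk0 : (0 : ℝ) < k := by exact_mod_cast hk
  have := phi_lb (by norm_num) h hk
  rw [one_mul, Real.rpow_neg hk0.le, ← one_div]
  have e : (k : ℝ) ^ (2 : ℝ) = (k : ℝ) ^ 2 := by
    rw [← Real.rpow_natCast]; norm_num
  rw [e]
  exact this

theorem order2 (P : Set (List Bool)) : HasOrder 2 P (g2 P) := by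
  classical
  by_cases hA : ∃ lam, Adm 2 P lam
  · by_cases h12 : [true, false, true, false] ∈ P ∧ [true, false, false, true] ∈ P
    · -- both words
      have hg : ∀ n t, g2 P n t = t := by
        intro n t
        unfold g2
        rw [if_pos h12]
      have hadm : Adm 2 P [1, 1] := (adm2 P _).2 (Or.inl ⟨rfl, Or.inl h12.1⟩)
      have hlb : Lb 2 P [1, 1] 1 := by
        have := cls_lb (r := 2) (by norm_num) (P := P) id (fun _ => true) (by
          intro s hs _
          have e : wd 2 s = [s 0, !(s 0), s 1, !(s 1)] := by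
            simp [wd, word, List.range_succ]
          rw [e, hs]
          rcases h1 : s 1 with _ | _
          · exact h12.2
          · exact h12.1)
        have e2 : (((range 2).image (id : ℕ → ℕ)).card : ℝ) = 2 := by
          rw [image_id, card_range]
          norm_num
        rw [e2] at this
        have e3 : ((2 : ℕ) : ℝ) + 1 - 2 = 1 := by norm_num
        rw [e3] at this
        exact this
      refine ev (by norm_num) hA _ (g2_nonneg P) ?_ [([1, 1], 1)] ?_ ⟨1, one_pos, ?_⟩
      · intro lam hlam
        refine ⟨1, one_pos, ?_, 1, one_pos, ?_⟩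
        · obtain ⟨C, hC, hr⟩ := phi_reg (by norm_num) hlam
          refine ⟨C, by linarith, fun k hk => ?_⟩
          have := (hr 1 k le_rfl hk).1
          rw [phi_one P hlam.1] at this
          have hk0 : (0 : ℝ) < k := by exact_mod_cast hk
          rw [Real.rpow_neg hk0.le, Real.rpow_one]
          push_cast at this
          rw [mul_one, one_div] at this
          exact this
        · intro n t ht htn
          rw [hg, div_one, Real.rpow_one, one_mul]
          have h3 : (0 : ℝ) ≤ t := Nat.cast_nonneg _
          rcases (adm2 P lam).1 hlam with ⟨rfl, -⟩ | ⟨rfl, -⟩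
          · simp only [List.headD_cons]
            rw [nt1 ht htn]
            linarith
          · simp only [List.headD_cons]
            rw [nt2 ht htn]
            have := nt_le ht htn
            linarith
      · intro x hx
        rw [List.mem_singleton] at hx
        subst hx
        exact ⟨hadm, one_pos, hlb⟩
      · intro n t ht htn
        right
        refine ⟨_, List.mem_singleton.2 rfl, ?_⟩
        simp only [List.headD_cons]
        rw [hg, nt1 ht htn, div_one, Real.rpow_one, one_mul]
    · have hthin := thin2 h12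
      have hub : ∀ lam, Adm 2 P lam → Ub 2 P lam 2 := by
        intro lam hlam
        have := thin_ub (by norm_num) hthin (adm_comp hlam)
        exact_mod_cast this
      by_cases h1 : [true, false, true, false] ∈ P ∨ [true, false, false, true] ∈ P
      · have hg : ∀ n t, g2 P n t = (t : ℝ) ^ (1 / 2 : ℝ) := by
          intro n t
          unfold g2
          rw [if_neg h12, if_pos h1]
        have hadm : Adm 2 P [1, 1] := (adm2 P _).2 (Or.inl ⟨rfl, h1⟩)
        refine ev (by norm_num) hA _ (g2_nonneg P) ?_ [([1, 1], 2)] ?_ ⟨1, one_pos, ?_⟩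
        · intro lam hlam
          refine ⟨2, two_pos, hub lam hlam, 1, one_pos, ?_⟩
          intro n t ht htn
          rw [hg, one_mul]
          rcases (adm2 P lam).1 hlam with ⟨rfl, -⟩ | ⟨rfl, -⟩
          · simp only [List.headD_cons]
            rw [nt1 ht htn]
            linarith
          · simp only [List.headD_cons]
            rw [nt2 ht htn]
            have := Real.rpow_le_rpow (by positivity) (nt_le ht htn) (by norm_num : (0 : ℝ) ≤ 1 / 2)
            linarith
        · intro x hx
          rw [List.mem_singleton] at hx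
          subst hx
          exact ⟨hadm, two_pos, lb_two hadm⟩
        · intro n t ht htn
          right
          refine ⟨_, List.mem_singleton.2 rfl, ?_⟩
          simp only [List.headD_cons]
          rw [hg, nt1 ht htn, one_mul]
      · have h3 : [true, true, false, false] ∈ P := by
          obtain ⟨lam, hlam⟩ := hA
          rcases (adm2 P lam).1 hlam with ⟨-, h⟩ | ⟨-, h⟩
          · exact absurd h h1
          · exact h
        have hg : ∀ n t, g2 P n t = ((t : ℝ) ^ 2 / n) ^ (1 / 2 : ℝ) := by
          intro n t
          unfold g2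
          rw [if_neg h12, if_neg h1, if_pos h3]
        have hadm : Adm 2 P [2] := (adm2 P _).2 (Or.inr ⟨rfl, h3⟩)
        refine ev (by norm_num) hA _ (g2_nonneg P) ?_ [([2], 2)] ?_ ⟨1, one_pos, ?_⟩
        · intro lam hlam
          refine ⟨2, two_pos, hub lam hlam, 1, one_pos, ?_⟩
          intro n t ht htn
          rw [hg, one_mul]
          rcases (adm2 P lam).1 hlam with ⟨-, h⟩ | ⟨rfl, -⟩
          · exact absurd h h1
          · simp only [List.headD_cons]
            rw [nt2 ht htn]
            linarith
        · intro x hx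
          rw [List.mem_singleton] at hx
          subst hx
          exact ⟨hadm, two_pos, lb_two hadm⟩
        · intro n t ht htn
          right
          refine ⟨_, List.mem_singleton.2 rfl, ?_⟩
          simp only [List.headD_cons]
          rw [hg, nt2 ht htn, one_mul]
  · obtain ⟨R, hR⟩ := no_adm (le_refl 2) hA
    have hg : ∀ n t, g2 P n t = 0 := by
      intro n t
      unfold g2
      rw [if_neg, if_neg, if_neg]
      · intro h
        exact hA ⟨[2], (adm2 P _).2 (Or.inr ⟨rfl, h⟩)⟩
      · intro h
        exact hA ⟨[1, 1], (adm2 P _).2 (Or.inl ⟨rfl, h⟩)⟩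
      · intro h
        exact hA ⟨[1, 1], (adm2 P _).2 (Or.inl ⟨rfl, Or.inl h.1⟩)⟩
    refine ⟨1, (R : ℝ) + 1, one_pos, by positivity, ?_⟩
    intro n t ht htn
    have hcard : 2 * t ≤ (range (2 * n)).card := by
      rw [card_range]; omega
    constructor
    · have : {M | (z P M : ℝ) < 1 * g2 P n t} = (∅ : Set (Finset (Finset ℕ))) := by
        ext M
        rw [hg]
        simp
      rw [this]
      simp
    · intro m hm
      have h0 : (process 2 t (range (2 * n))).toOuterMeasure {M | m * (g2 P n t + 1) ≤ (z P M : ℝ)} =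
          0 := by
        rw [process_eq 2 t two_pos _ hcard]
        rw [ENNReal.ofReal_eq_zero, ← hR n t ht htn]
        apply pr_mono
        intro M _ hM
        rw [hg, zero_add, mul_one] at hM
        have : ((R : ℝ) + 1) ≤ z P M := hm.trans hM
        have h2 : ((R + 1 : ℕ) : ℝ) ≤ z P M := by push_cast; exact this
        have h3 : R + 1 ≤ z P M := by exact_mod_cast h2
        omega
      rw [h0]
      exact bot_le

end Pool.Agent.Work.MP_7d1693_pr.FX
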