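import Pool.Agent.Work.MP_7d1693_pr.FX.Defs
import Pool.Agent.Work.MP_7d1693_pr.FX.LbGre
import Pool.Agent.Work.MP_7d1693_pr.FX.PatBox
import Pool.Agent.Work.MP_7d1693_pr.PAT

/-! # Module Lb12 (S-M): lower bound for the two words of type (1,2)

`k ≥ 1`, `N = 16 k` , box `B = nBox N 0 [1,2] = [(1,0,N),(2,N,2N)]`, `S` = the set of `{a, N + 2i, N + 2i + 1}`, `a < N`, `2i + 1 < N`: `S.card = N (N/2)`. Two different elements that are disjoint have different `a`, `i`; the word (smaller `a` first) is `AB` followed by `AABB` or `BBAA` (`pat_union`, `pat_lt`, `pat_gt`): `W12 0` or `W12 1`, in `P`. So the conflicts of an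
element are the elements with the same `a` or the same `i`: at most `N/2 + N`. `2 k (2N + 1) ≤ N^2/2`. `lb_gre`: `phi k ≥ (N^2/2)/(2 e^3 k N^3) = c/k^2`. (`nbox_ord`, `nbox_shape`, `nbox_vol` in `PatBox`.) -/

namespace Pool.Agent.Work.MP_7d1693_pr.FX

open Finset FM

private def ed (N a i : ℕ) : Finset ℕ := {a} ∪ {N + 2 * i, N + 2 * i + 1}

private theorem mem_ed {N a i x : ℕ} : x ∈ ed N a i ↔ x = a ∨ x = N + 2 * i ∨ x = N + 2 * i + 1 := by
  unfold ed
  simp only [Finset.mem_union, Finset.mem_singleton, Finset.mem_insert]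

private theorem ed_card {N a i : ℕ} (ha : a < N) : (ed N a i).card = 3 := by
  unfold ed
  rw [Finset.card_union_of_disjoint, Finset.card_singleton, Finset.card_pair (by omega)]
  rw [Finset.disjoint_left]
  intro x hx hy
  simp only [Finset.mem_singleton, Finset.mem_insert] at hx hy
  omega

private theorem ed_lt {N a i a' i' : ℕ} (ha : a < N) (_ : a' < N) (_ : a ≠ a')
    (h : (ed N a i).min < (ed N a' i').min) : a < a' := by
  by_contra hlt
  have h1 : WithTop.some a ≤ (ed N a i).min := by
    apply Finset.le_min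
    intro b hb
    rw [mem_ed] at hb
    exact WithTop.coe_le_coe.2 (by omega)
  have h2 : (ed N a' i').min ≤ WithTop.some a' := Finset.min_le (mem_ed.2 (Or.inl rfl))
  exact hlt (WithTop.coe_lt_coe.1 (h1.trans_lt (h.trans_le h2)))

private theorem ed_pat {P : Set (List Bool)} (h : ∀ i, W12 i ∈ P) {N a i a' i' : ℕ} (_ : a < N)
    (_ : a' < N) (haa : a < a') (hi : i ≠ i') : pat (ed N a i) (ed N a' i') ∈ P := by
  unfold ed
  rw [pat_union]
  · rw [pat_lt {a} {a'} (by simpa using haa)]
    rcases lt_or_gt_of_ne hi with hlt | hlt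
    · rw [pat_lt]
      · rw [Finset.card_pair (by omega), Finset.card_pair (by omega), Finset.card_singleton,
          Finset.card_singleton]
        exact h 0
      · intro x hx y hy
        simp only [Finset.mem_singleton, Finset.mem_insert] at hx hy
        omega
    · rw [pat_gt]
      · rw [Finset.card_pair (by omega), Finset.card_pair (by omega), Finset.card_singleton,
          Finset.card_singleton]
        exact h 1
      · intro x hx y hy
        simp only [Finset.mem_singleton, Finset.mem_insert] at hx hy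
        omega
  · intro x hx y hy
    simp only [Finset.mem_union, Finset.mem_singleton, Finset.mem_insert] at hx hy
    omega

private theorem ed_conf {P : Set (List Bool)} (h : ∀ i, W12 i ∈ P) {N a i a' i' : ℕ} (ha : a < N)
    (ha' : a' < N) (haa : a ≠ a') (hi : i ≠ i') : ¬ conf P (ed N a i) (ed N a' i') := by
  unfold conf
  rintro (hc | ⟨hc, hc'⟩ | ⟨hc, hc'⟩)
  · apply hc
    rw [Finset.disjoint_left]
    intro x hx hy
    rw [mem_ed] at hx hy
    omega
  · exact hc' (ed_pat h ha ha' (ed_lt ha ha' haa hc) hi)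
  · exact hc' (ed_pat h ha' ha (ed_lt ha' ha haa.symm hc) hi.symm)

open Classical in
private noncomputable def edS (k : ℕ) : Finset (Finset ℕ) :=
  (Finset.range (16 * k) ×ˢ Finset.range (8 * k)).image fun p => ed (16 * k) p.1 p.2

private theorem edS_card (k : ℕ) : (edS k).card = 128 * k ^ 2 := by
  classical
  unfold edS
  rw [Finset.card_image_of_injOn]
  · rw [Finset.card_product, Finset.card_range, Finset.card_range]
    ring
  · rintro ⟨a, i⟩ hx ⟨a', i'⟩ hy he
    simp only [Finset.coe_product, Finset.coe_range, Set.mem_prod, Set.mem_Iio] at hx hy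
    simp only at he
    have h1 : a ∈ ed (16 * k) a' i' := by
      rw [← he]
      exact mem_ed.2 (Or.inl rfl)
    have h2 : 16 * k + 2 * i ∈ ed (16 * k) a' i' := by
      rw [← he]
      exact mem_ed.2 (Or.inr (Or.inl rfl))
    rw [mem_ed] at h1 h2
    ext
    · simp only
      omega
    · simp only
      omega

private theorem edS_deg {P : Set (List Bool)} (h : ∀ i, W12 i ∈ P) (k : ℕ) (v : Finset ℕ)
    (hv : v ∈ edS k) : deg (conf P) (edS k) v ≤ 24 * k := by
  classical
  obtain ⟨⟨a, i⟩, hp, rfl⟩ := Finset.mem_image.1 hv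
  simp only [Finset.mem_product, Finset.mem_range] at hp
  have hsub : ((edS k).filter (fun w => w ≠ ed (16 * k) a i ∧ conf P (ed (16 * k) a i) w)) ⊆
      (Finset.range (8 * k)).image (fun j => ed (16 * k) a j) ∪
        (Finset.range (16 * k)).image (fun b => ed (16 * k) b i) := by
    intro w hw
    rw [Finset.mem_filter] at hw
    obtain ⟨hw1, -, hw2⟩ := hw
    obtain ⟨⟨a', i'⟩, hq, rfl⟩ := Finset.mem_image.1 hw1
    simp only [Finset.mem_product, Finset.mem_range] at hq
    rw [Finset.mem_union]
    by_cases haa : a = a'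
    · left
      subst haa
      exact Finset.mem_image.2 ⟨i', Finset.mem_range.2 hq.2, rfl⟩
    · by_cases hii : i = i'
      · right
        subst hii
        exact Finset.mem_image.2 ⟨a', Finset.mem_range.2 hq.1, rfl⟩
      · exact absurd hw2 (ed_conf h hp.1 hq.1 haa hii)
  have h1 : deg (conf P) (edS k) (ed (16 * k) a i) =
      ((edS k).filter (fun w => w ≠ ed (16 * k) a i ∧ conf P (ed (16 * k) a i) w)).card := by
    unfold deg
    congr!
  rw [h1]
  refine (Finset.card_le_card hsub).trans ((Finset.card_union_le _ _).trans ?_)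
  have c1 := Finset.card_image_le (s := Finset.range (8 * k)) (f := fun j => ed (16 * k) a j)
  have c2 := Finset.card_image_le (s := Finset.range (16 * k)) (f := fun b => ed (16 * k) b i)
  rw [Finset.card_range] at c1 c2
  omega

private theorem edS_sub (k : ℕ) : edS k ⊆ Ebox 3 (nBox (16 * k) 0 [1, 2]) := by
  classical
  intro e he
  obtain ⟨⟨a, i⟩, hp, rfl⟩ := Finset.mem_image.1 he
  simp only [Finset.mem_product, Finset.mem_range] at hp
  obtain ⟨ha, hi⟩ := hp
  simp only
  unfold Ebox
  rw [Finset.mem_filter, Finset.mem_powersetCard]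
  refine ⟨⟨?_, ed_card ha⟩, ?_⟩
  · intro x hx
    rw [mem_ed] at hx
    unfold vert
    rw [Finset.mem_biUnion]
    by_cases hxN : x < 16 * k
    · refine ⟨(1, 0, 0 + 16 * k), ?_, ?_⟩
      · rw [List.mem_toFinset]
        exact List.mem_cons_self
      · rw [Finset.mem_Ico]
        simp only
        omega
    · refine ⟨(2, 0 + 16 * k, 0 + 16 * k + 16 * k), ?_, ?_⟩
      · rw [List.mem_toFinset]
        exact List.mem_cons_of_mem _ List.mem_cons_self
      · rw [Finset.mem_Ico]
        simp only
        omega
  · intro b hb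
    have hb' : b = (1, 0, 0 + 16 * k) ∨ b = (2, 0 + 16 * k, 0 + 16 * k + 16 * k) := by
      simpa [nBox] using hb
    rcases hb' with rfl | rfl
    · have e1 : ((ed (16 * k) a i).filter (fun v => 0 ≤ v ∧ v < 0 + 16 * k)) = {a} := by
        ext x
        rw [Finset.mem_filter, mem_ed, Finset.mem_singleton]
        omega
      simp only
      rw [e1, Finset.card_singleton]
    · have e1 : ((ed (16 * k) a i).filter
          (fun v => 0 + 16 * k ≤ v ∧ v < 0 + 16 * k + 16 * k)) =
          {16 * k + 2 * i, 16 * k + 2 * i + 1} := by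
        ext x
        rw [Finset.mem_filter, mem_ed, Finset.mem_insert, Finset.mem_singleton]
        omega
      simp only
      rw [e1, Finset.card_pair (by omega)]

theorem lb12 {P : Set (List Bool)} (h : ∀ i, W12 i ∈ P) : Lb 3 P [1, 2] 2 := by
  refine ⟨1 / (64 * Real.exp 3), by positivity, ?_⟩
  intro k hk
  have hk0 : (0 : ℝ) < k := by exact_mod_cast hk
  have hC : Comp 3 (shape (nBox (16 * k) 0 [1, 2])) := by
    rw [nbox_shape]
    refine ⟨by simp, ?_⟩
    intro a ha
    simp only [List.mem_cons, List.not_mem_nil, or_false] at ha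
    omega
  have hj : 2 * k * (24 * k + 1) ≤ (edS k).card := by
    rw [edS_card]
    nlinarith
  have key := lb_gre (r := 3) (by norm_num) (nbox_ord (16 * k) 0 [1, 2]) hC hk (edS_sub k)
    (edS_deg h k) hj
  rw [nbox_shape, nbox_vol, edS_card] at key
  refine le_trans (le_of_eq ?_) key
  rw [Real.rpow_neg hk0.le]
  have e2 : (k : ℝ) ^ (2 : ℝ) = (k : ℝ) ^ 2 := by
    rw [← Real.rpow_natCast]
    norm_num
  rw [e2]
  have he := Real.exp_pos 3
  push_cast
  simp only [List.sum_cons, List.sum_nil]
  norm_num
  field_simp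
  ring

end Pool.Agent.Work.MP_7d1693_pr.FX
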