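import Pool.Agent.Work.MP_7d1693_pr.FX.Defs
import Pool.Agent.Work.MP_7d1693_pr.FX.LbGre
import Pool.Agent.Work.MP_7d1693_pr.FX.PatBox
import Pool.Agent.Work.MP_7d1693_pr.PAT

/-! # Module Lb21 (S-M): lower bound for the two words of type (2,1)

`k ≥ 1`, `N = 16 k` , box `B = nBox N 0 [2,1] = [(2,0,N),(1,N,2N)]`, `S` = the set of `{2i, 2i + 1, N + a}`, `a < N`, `2i + 1 < N`: `S.card = N (N/2)`. Two different elements that are disjoint have different `a`, `i`; the word (smaller `i` first) is `AABB` followed by `AB` or `BA` (`pat_union`, `pat_lt`, `pat_gt`): `W21 0` or `W21 1`, in `P`. So the conflicts of an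
element are the elements with the same `a` or the same `i`: at most `N/2 + N`. `2 k (2N + 1) ≤ N^2/2`. `lb_gre`: `phi k ≥ (N^2/2)/(2 e^3 k N^3) = c/k^2`. (`nbox_ord`, `nbox_shape`, `nbox_vol` in `PatBox`.) -/

namespace Pool.Agent.Work.MP_7d1693_pr.FX

open Finset FM

/-- the edge with the vertices `2 i`, `2 i + 1`, `N + a` -/
private def E (N i a : ℕ) : Finset ℕ := {2 * i, 2 * i + 1} ∪ {N + a}

private theorem mem_E {N i a x : ℕ} : x ∈ E N i a ↔ x = 2 * i ∨ x = 2 * i + 1 ∨ x = N + a := by
  simp [E]

private theorem E_min {N i a : ℕ} (h : 2 * i + 1 < N) :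
    (E N i a).min = ((2 * i : ℕ) : WithTop ℕ) := by
  apply le_antisymm
  · exact Finset.min_le (mem_E.2 (Or.inl rfl))
  · refine Finset.le_min (fun x hx => ?_)
    have hx' := mem_E.1 hx
    have : 2 * i ≤ x := by omega
    exact WithTop.coe_le_coe.2 this

private theorem E_inj {N i a i' a' : ℕ} (h : 2 * i + 1 < N) (h' : 2 * i' + 1 < N)
    (he : E N i a = E N i' a') : i = i' ∧ a = a' := by
  have h1 := E_min (a := a) h
  rw [he, E_min h'] at h1
  have h2 : 2 * i' = 2 * i := by exact_mod_cast h1
  have h3 : N + a ∈ E N i' a' := by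
    rw [← he]
    exact mem_E.2 (Or.inr (Or.inr rfl))
  have h4 := mem_E.1 h3
  omega

private theorem E_card {N i a : ℕ} (h : 2 * i + 1 < N) : (E N i a).card = 3 := by
  have e : E N i a = {2 * i, 2 * i + 1, N + a} := by
    ext x
    rw [mem_E]
    simp
  rw [e, Finset.card_eq_three]
  exact ⟨2 * i, 2 * i + 1, N + a, by omega, by omega, by omega, rfl⟩

private theorem E_box {N i a : ℕ} (h : 2 * i + 1 < N) (ha : a < N) :
    E N i a ∈ Ebox 3 (nBox N 0 [2, 1]) := by
  classical
  unfold Ebox
  rw [mem_filter, mem_powersetCard]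
  refine ⟨⟨?_, E_card h⟩, ?_⟩
  · intro x hx
    have hx' := mem_E.1 hx
    unfold vert
    rw [mem_biUnion]
    by_cases hxN : x < N
    · refine ⟨(2, 0, 0 + N), by simp [nBox], ?_⟩
      rw [mem_Ico]
      constructor
      · exact Nat.zero_le _
      · show x < 0 + N
        omega
    · refine ⟨(1, 0 + N, 0 + N + N), by simp [nBox], ?_⟩
      rw [mem_Ico]
      constructor
      · show 0 + N ≤ x
        omega
      · show x < 0 + N + N
        omega
  · intro b hb
    simp only [nBox, List.mem_cons, List.not_mem_nil, or_false] at hb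
    rcases hb with rfl | rfl
    · have e : (E N i a).filter (fun v => 0 ≤ v ∧ v < 0 + N) = {2 * i, 2 * i + 1} := by
        ext x
        rw [mem_filter, mem_E]
        simp only [mem_insert, mem_singleton]
        omega
      rw [e, Finset.card_pair (by omega)]
      rfl
    · have e : (E N i a).filter (fun v => 0 + N ≤ v ∧ v < 0 + N + N) = {N + a} := by
        ext x
        rw [mem_filter, mem_E]
        simp only [mem_singleton]
        omega
      rw [e, Finset.card_singleton]
      rfl

private theorem E_pat {P : Set (List Bool)} (h : ∀ i, W21 i ∈ P) {N i a i' a' : ℕ}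
    (hi : i < i') (hN : 2 * i' + 1 < N) (ha : a ≠ a') : pat (E N i a) (E N i' a') ∈ P := by
  have h1 : pat (E N i a) (E N i' a') =
      pat {2 * i, 2 * i + 1} {2 * i', 2 * i' + 1} ++ pat {N + a} {N + a'} := by
    unfold E
    apply pat_union
    intro x hx y hy
    simp only [mem_union, mem_insert, mem_singleton] at hx hy
    omega
  have h2 : pat {2 * i, 2 * i + 1} {2 * i', 2 * i' + 1} =
      List.replicate 2 true ++ List.replicate 2 false := by
    rw [pat_lt]
    · rw [Finset.card_pair (by omega), Finset.card_pair (by omega)]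
    · intro x hx y hy
      simp only [mem_insert, mem_singleton] at hx hy
      omega
  rcases lt_or_gt_of_ne ha with hlt | hgt
  · have h3 : pat {N + a} {N + a'} = List.replicate 1 true ++ List.replicate 1 false := by
      rw [pat_lt]
      · rw [Finset.card_singleton, Finset.card_singleton]
      · intro x hx y hy
        simp only [mem_singleton] at hx hy
        omega
    rw [h1, h2, h3]
    exact h 0
  · have h3 : pat {N + a} {N + a'} = List.replicate 1 false ++ List.replicate 1 true := by
      rw [pat_gt]
      · rw [Finset.card_singleton, Finset.card_singleton]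
      · intro x hx y hy
        simp only [mem_singleton] at hx hy
        omega
    rw [h1, h2, h3]
    exact h 1

private theorem E_conf {P : Set (List Bool)} (h : ∀ i, W21 i ∈ P) {N i a i' a' : ℕ}
    (hi : 2 * i + 1 < N) (hi' : 2 * i' + 1 < N) (hc : conf P (E N i a) (E N i' a')) :
    i = i' ∨ a = a' := by
  by_contra hne
  push Not at hne
  obtain ⟨h1, h2⟩ := hne
  rcases hc with hc | ⟨hm, hp⟩ | ⟨hm, hp⟩
  · apply hc
    rw [Finset.disjoint_left]
    intro x hx hx'
    have := mem_E.1 hx
    have := mem_E.1 hx'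
    omega
  · rw [E_min hi, E_min hi'] at hm
    have hm' : 2 * i < 2 * i' := by exact_mod_cast hm
    exact hp (E_pat h (by omega) hi' h2)
  · rw [E_min hi, E_min hi'] at hm
    have hm' : 2 * i' < 2 * i := by exact_mod_cast hm
    exact hp (E_pat h (by omega) hi (Ne.symm h2))

theorem lb21 {P : Set (List Bool)} (h : ∀ i, W21 i ∈ P) : Lb 3 P [2, 1] 2 := by
  classical
  refine ⟨1 / (64 * Real.exp 3), by positivity, ?_⟩
  intro k hk
  have hkR : (0 : ℝ) < k := by exact_mod_cast hk
  set N := 16 * k with hN
  set S : Finset (Finset ℕ) := (range (8 * k) ×ˢ range (16 * k)).image (fun p => E N p.1 p.2)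
    with hS
  have hScard : S.card = 8 * k * (16 * k) := by
    rw [hS, Finset.card_image_of_injOn, Finset.card_product, Finset.card_range, Finset.card_range]
    rintro ⟨i, a⟩ hp ⟨i', a'⟩ hp' he
    rw [Finset.mem_coe, Finset.mem_product, Finset.mem_range, Finset.mem_range] at hp hp'
    simp only at hp hp' he
    obtain ⟨h1, h2⟩ := E_inj (by omega) (by omega) he
    rw [h1, h2]
  have hSbox : S ⊆ Ebox 3 (nBox N 0 [2, 1]) := by
    intro e he
    rw [hS, Finset.mem_image] at he
    obtain ⟨⟨i, a⟩, hp, rfl⟩ := he
    rw [Finset.mem_product, Finset.mem_range, Finset.mem_range] at hp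
    simp only at hp
    exact E_box (by omega) (by omega)
  have hdeg : ∀ v ∈ S, deg (conf P) S v ≤ 24 * k := by
    intro v hv
    rw [hS, Finset.mem_image] at hv
    obtain ⟨⟨i, a⟩, hp, rfl⟩ := hv
    rw [Finset.mem_product, Finset.mem_range, Finset.mem_range] at hp
    simp only at hp ⊢
    unfold deg
    have hsub : (S.filter (fun w => w ≠ E N i a ∧ conf P (E N i a) w)) ⊆
        (range (16 * k)).image (fun a' => E N i a') ∪ (range (8 * k)).image (fun i' => E N i' a) := by
      intro w hw
      rw [Finset.mem_filter] at hw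
      obtain ⟨hwS, -, hc⟩ := hw
      rw [hS, Finset.mem_image] at hwS
      obtain ⟨⟨i', a'⟩, hp', rfl⟩ := hwS
      rw [Finset.mem_product, Finset.mem_range, Finset.mem_range] at hp'
      simp only at hp' hc ⊢
      rw [Finset.mem_union, Finset.mem_image, Finset.mem_image]
      rcases E_conf h (by omega) (by omega) hc with h1 | h1
      · left
        exact ⟨a', Finset.mem_range.2 hp'.2, by rw [h1]⟩
      · right
        exact ⟨i', Finset.mem_range.2 hp'.1, by rw [h1]⟩
    have h1 := Finset.card_le_card hsub
    have h2 := Finset.card_union_le ((range (16 * k)).image (fun a' => E N i a'))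
      ((range (8 * k)).image (fun i' => E N i' a))
    have h3 : ((range (16 * k)).image (fun a' => E N i a')).card ≤ 16 * k := by
      refine Finset.card_image_le.trans ?_
      rw [Finset.card_range]
    have h4 : ((range (8 * k)).image (fun i' => E N i' a)).card ≤ 8 * k := by
      refine Finset.card_image_le.trans ?_
      rw [Finset.card_range]
    omega
  have hj : 2 * k * (24 * k + 1) ≤ S.card := by
    rw [hScard]
    nlinarith
  have hord : BOrd 0 (nBox N 0 [2, 1]) := nbox_ord N 0 [2, 1]
  have hshape : shape (nBox N 0 [2, 1]) = [2, 1] := nbox_shape N 0 [2, 1]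
  have hcomp : Comp 3 (shape (nBox N 0 [2, 1])) := by
    rw [hshape]
    refine ⟨rfl, ?_⟩
    intro a ha
    simp only [List.mem_cons, List.not_mem_nil, or_false] at ha
    omega
  have hmain := lb_gre (by norm_num) hord hcomp hk hSbox hdeg hj
  rw [hshape, nbox_vol, hScard] at hmain
  refine le_trans (le_of_eq ?_) hmain
  have hrp : (k : ℝ) ^ (-(2 : ℝ)) = 1 / (k : ℝ) ^ 2 := by
    rw [Real.rpow_neg hkR.le, one_div]
    congr 1
    exact_mod_cast Real.rpow_natCast (k : ℝ) 2
  rw [hrp]
  have hsum : [2, 1].sum = 3 := rfl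
  rw [hsum, hN]
  have he := Real.exp_pos 3
  push_cast
  field_simp
  ring

end Pool.Agent.Work.MP_7d1693_pr.FX
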