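import Pool.Agent.Work.MP_7d1693_pr.FX.Defs
import Pool.Agent.Work.MP_7d1693_pr.FX.ClsLb
import Pool.Agent.Work.MP_7d1693_pr.FX.MisLb
import Pool.Agent.Work.MP_7d1693_pr.FX.Lb12
import Pool.Agent.Work.MP_7d1693_pr.FX.Lb21
import Pool.Agent.Work.MP_7d1693_pr.FX.Adm3
import Pool.Agent.Work.MP_7d1693_pr.FX.WdType

/-! # Module R3Low (S-M): lower bounds for `r = 3`

`W3 i = wd 3 u` for the sign vectors `(t,t,t)`, `(t,t,f)`, `(t,f,t)`, `(t,f,f)` (evaluation); every `wd 3 s` with `s 0 = true` is one of the `W3 i`. `List.replicate 3 1 = [1,1,1]`.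
* `low_a`: `cls_lb` with `κ = id`: exponent `3 + 1 - 3 = 1`.
* `low_b`: all but one: `mis_lb` with `u` the signs of the word `W3 i` (if `W3 i ∈ P` as well the hypothesis of `mis_lb` still holds), exponent `3/2`.
* `low_c`: two words `W3 i`, `W3 j`, `i ≠ j`, with signs `u`, `v`: `cls_lb` with `κ m = 0` if `u m = v m`, `1` otherwise (`2` classes), twist `u`: a sign vector with `s 0 = true` and `s a = s b ↔ u a = u b` for `κ a = κ b` is `u` or `v`. Exponent `2`.
* `low_d`: `phi_lb`. -/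

namespace Pool.Agent.Work.MP_7d1693_pr.FX

open Finset FM

/-- signs of the words -/
private def sg : Fin 4 → ℕ → Bool
  | 0, _ => true
  | 1, 2 => false
  | 1, _ => true
  | 2, 1 => false
  | 2, _ => true
  | 3, 0 => true
  | 3, _ => false

private theorem wd3 (s : ℕ → Bool) :
    wd 3 s = [s 0, !s 0, s 1, !s 1, s 2, !s 2] := by
  simp [wd, word, List.range_succ]

private theorem sg_wd (j : Fin 4) : wd 3 (sg j) = W3 j := by
  rw [wd3]
  fin_cases j <;> rfl

private theorem sg_zero (j : Fin 4) : sg j 0 = true := by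
  fin_cases j <;> rfl

private theorem wd_cases (s : ℕ → Bool) (hs : s 0 = true) :
    ∃ j, wd 3 s = W3 j ∧ s 1 = sg j 1 ∧ s 2 = sg j 2 := by
  rw [wd3, hs]
  cases h1 : s 1 <;> cases h2 : s 2
  · exact ⟨3, rfl, rfl, rfl⟩
  · exact ⟨2, rfl, rfl, rfl⟩
  · exact ⟨1, rfl, rfl, rfl⟩
  · exact ⟨0, rfl, rfl, rfl⟩

theorem low_a {P : Set (List Bool)} (h : ∀ i, W3 i ∈ P) : Lb 3 P [1, 1, 1] 1 := by
  have h1 := cls_lb (r := 3) (by norm_num) (P := P) id (fun _ => true) (by
    intro s hs _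
    obtain ⟨j, hj, -⟩ := wd_cases s hs
    rw [hj]
    exact h j)
  have h2 : ((3 : ℕ) : ℝ) + 1 - (((range 3).image id).card : ℝ) = 1 := by
    rw [image_id, card_range]
    norm_num
  rw [h2] at h1
  exact h1

theorem low_b {P : Set (List Bool)} (i : Fin 4) (h : ∀ j, j ≠ i → W3 j ∈ P) :
    Lb 3 P [1, 1, 1] (3 / 2) := by
  have h1 := mis_lb (r := 3) (by norm_num) (P := P) (sg i) (sg_zero i) (by
    intro s hs h0
    obtain ⟨j, hj, hj1, hj2⟩ := wd_cases s hs
    rw [hj]
    refine h j ?_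
    rintro rfl
    obtain ⟨m, hm, hne⟩ := h0
    interval_cases m
    · exact hne (by rw [hs, sg_zero])
    · exact hne hj1
    · exact hne hj2)
  have h2 : ((3 : ℕ) : ℝ) / (((3 : ℕ) : ℝ) - 1) = 3 / 2 := by norm_num
  rw [h2] at h1
  exact h1

theorem low_c {P : Set (List Bool)} {i j : Fin 4} (hij : i ≠ j) (hi : W3 i ∈ P) (hj : W3 j ∈ P) :
    Lb 3 P [1, 1, 1] 2 := by
  have h1 := cls_lb (r := 3) (by norm_num) (P := P) (fun m => if sg i m = sg j m then 0 else 1)
    (sg i) (by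
    intro s hs hk
    obtain ⟨l, hl, hl1, hl2⟩ := wd_cases s hs
    rw [hl]
    have k01 := hk 0 (by norm_num) 1 (by norm_num)
    have k02 := hk 0 (by norm_num) 2 (by norm_num)
    have k12 := hk 1 (by norm_num) 2 (by norm_num)
    rw [hs, hl1] at k01
    rw [hs, hl2] at k02
    rw [hl1, hl2] at k12
    have hlij : l = i ∨ l = j := by
      clear hk hs hl hl1 hl2 hi hj
      revert i j l
      decide
    rcases hlij with rfl | rfl
    · exact hi
    · exact hj)
  have h2 : ((range 3).image (fun m => if sg i m = sg j m then 0 else 1)).card = 2 := by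
    clear h1 hi hj
    revert i j
    decide
  have h3 : ((3 : ℕ) : ℝ) + 1 - (((range 3).image
      (fun m => if sg i m = sg j m then 0 else 1)).card : ℝ) = 2 := by
    rw [h2]
    norm_num
  rw [h3] at h1
  exact h1

theorem low_d {P : Set (List Bool)} {lam : List ℕ} (h : Adm 3 P lam) : Lb 3 P lam 3 := by
  refine ⟨1, one_pos, fun k hk => ?_⟩
  have h1 := phi_lb (by norm_num : 1 ≤ 3) h hk
  have h2 : (k : ℝ) ^ (-3 : ℝ) = 1 / (k : ℝ) ^ 3 := by
    rw [Real.rpow_neg (Nat.cast_nonneg k), one_div]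
    congr 1
    exact_mod_cast Real.rpow_natCast (k : ℝ) 3
  rw [h2, one_mul]
  exact h1

end Pool.Agent.Work.MP_7d1693_pr.FX
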