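import Pool.Agent.Work.MP_7d1693_pr.FX.Defs
import Pool.Agent.Work.MP_7d1693_pr.FX.PatBox
import Pool.Agent.Work.MP_7d1693_pr.FM.ECard
import Pool.Agent.Work.MP_7d1693_pr.FM.PhiReg

/-! # Module ClsUb (M): upper bound for class patterns

`stdBox k 0 (List.replicate r 1) = nBox k 0 (List.replicate r 1)` (induction, all starting points). A clique `K` counted by `ac` has `k` pairwise disjoint edges, all in the box, so for every `j < r` the map `e ↦ ρ_j(e) = el e j - j k` is injective from `K` to `{0,...,k-1}`, hence bijective. If `κ i = κ j` then for `e ≠ f` in `K`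
(`el e 0 < el f 0`) the word `pat e f = wd r s`, `s m = (el e m < el f m)`, is in `P`, so `s i = s j ↔ u i = u j`: the orders of `ρ_i` and `ρ_j` on `K` agree if `u i = u j`, and are opposite otherwise. As both are bijections onto `{0,...,k-1}`, `ρ_j = ρ_i`, resp. `ρ_j = k - 1 - ρ_i`
(the number of `f ∈ K` with `ρ_i(f) < ρ_i(e)` is `ρ_i(e)`). So `K` is determined by the maps `ρ_0(e) ↦ ρ_j(e)` for one representative `j` of each class different from the class of `0`: these are `q - 1` functions from `Fin k` to `Fin k` (e.g. the injection into functions `classes.erase (κ 0) → Fin k → Fin k`).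
So `ac k ≤ (k^k)^(q-1)`, and `phi k = (ac k)^(1/k)/k^r ≤ k^(q-1-r)`. -/

namespace Pool.Agent.Work.MP_7d1693_pr.FX

open Finset FM

private theorem std_eq (k : ℕ) (m : ℕ) (c : ℕ) :
    stdBox k c (List.replicate m 1) = nBox k c (List.replicate m 1) := by
  induction m generalizing c with
  | zero => rfl
  | succ m ih => rw [List.replicate_succ, stdBox, nBox, mul_one, ih]

private theorem cl_facts {r : ℕ} {P : Set (List Bool)} {k : ℕ} {K : Finset (Finset ℕ)}
    (h : K ∈ Cl r P (stdBox k 0 (List.replicate r 1)) k) :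
    (∀ e ∈ K, e ∈ Ebox r (nBox k 0 (List.replicate r 1))) ∧ K.card = k ∧ Fam r K ∧
      IsClique P K := by
  classical
  rw [std_eq] at h
  unfold Cl at h
  rw [mem_filter, mem_powersetCard] at h
  exact ⟨fun e he => h.1.1 he, h.1.2, h.2.1, h.2.2⟩

private def rho (k j : ℕ) (e : Finset ℕ) : ℕ := el e j - j * k

private theorem rho_lt {r k j : ℕ} (hj : j < r) {e : Finset ℕ}
    (he : e ∈ Ebox r (nBox k 0 (List.replicate r 1))) : rho k j e < k := by
  have h := (enc_surj he).1 j hj
  unfold rho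
  omega

private theorem el_inj_K {r j : ℕ} (hj : j < r) {K : Finset (Finset ℕ)} (hF : Fam r K)
    {e f : Finset ℕ} (he : e ∈ K) (hf : f ∈ K) (h : el e j = el f j) : e = f := by
  by_contra hne
  have hd := hF.2 e he f hf hne
  have h1 : el e j ∈ e := el_mem e j (by rw [hF.1 e he]; exact hj)
  have h2 : el f j ∈ f := el_mem f j (by rw [hF.1 f hf]; exact hj)
  rw [← h] at h2
  exact (Finset.disjoint_left.1 hd) h1 h2

private theorem rho_inj {r k j : ℕ} (hj : j < r) {K : Finset (Finset ℕ)} (hF : Fam r K)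
    (hE : ∀ e ∈ K, e ∈ Ebox r (nBox k 0 (List.replicate r 1))) {e f : Finset ℕ}
    (he : e ∈ K) (hf : f ∈ K) (h : rho k j e = rho k j f) : e = f := by
  apply el_inj_K hj hF he hf
  have h1 := (enc_surj (hE e he)).1 j hj
  have h2 := (enc_surj (hE f hf)).1 j hj
  unfold rho at h
  omega

private theorem rho_lt_iff {r k j : ℕ} (hj : j < r) {e f : Finset ℕ}
    (he : e ∈ Ebox r (nBox k 0 (List.replicate r 1)))
    (hf : f ∈ Ebox r (nBox k 0 (List.replicate r 1))) :
    rho k j e < rho k j f ↔ el e j < el f j := by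
  have h1 := (enc_surj he).1 j hj
  have h2 := (enc_surj hf).1 j hj
  unfold rho
  omega

private theorem rho_image {r k j : ℕ} (hj : j < r) {K : Finset (Finset ℕ)} (hF : Fam r K)
    (hE : ∀ e ∈ K, e ∈ Ebox r (nBox k 0 (List.replicate r 1))) (hc : K.card = k) :
    K.image (rho k j) = range k := by
  apply Finset.eq_of_subset_of_card_le
  · intro x hx
    rw [mem_image] at hx
    obtain ⟨e, he, rfl⟩ := hx
    rw [mem_range]
    exact rho_lt hj (hE e he)
  · rw [card_range, card_image_of_injOn, hc]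
    intro e he f hf h
    exact rho_inj hj hF hE he hf h

private theorem rho_exists {r k j : ℕ} (hj : j < r) {K : Finset (Finset ℕ)} (hF : Fam r K)
    (hE : ∀ e ∈ K, e ∈ Ebox r (nBox k 0 (List.replicate r 1))) (hc : K.card = k) {a : ℕ}
    (ha : a < k) : ∃ e ∈ K, rho k j e = a := by
  have h : a ∈ K.image (rho k j) := by
    rw [rho_image hj hF hE hc, mem_range]
    exact ha
  rw [mem_image] at h
  exact h

private theorem rank_lt {r k j : ℕ} (hj : j < r) {K : Finset (Finset ℕ)} (hF : Fam r K)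
    (hE : ∀ e ∈ K, e ∈ Ebox r (nBox k 0 (List.replicate r 1))) (hc : K.card = k)
    {e : Finset ℕ} (he : e ∈ K) :
    (K.filter (fun f => el f j < el e j)).card = rho k j e := by
  have h1 : (K.filter (fun f => el f j < el e j)).image (rho k j) = range (rho k j e) := by
    ext x
    rw [mem_image, mem_range]
    constructor
    · rintro ⟨f, hf, rfl⟩
      rw [mem_filter] at hf
      exact (rho_lt_iff hj (hE f hf.1) (hE e he)).2 hf.2
    · intro hx
      obtain ⟨f, hf, rfl⟩ := rho_exists hj hF hE hc (hx.trans (rho_lt hj (hE e he)))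
      refine ⟨f, ?_, rfl⟩
      rw [mem_filter]
      exact ⟨hf, (rho_lt_iff hj (hE f hf) (hE e he)).1 hx⟩
  have h2 := congrArg Finset.card h1
  rw [card_range, card_image_of_injOn] at h2
  · exact h2
  · intro f hf g hg h
    rw [mem_coe, mem_filter] at hf hg
    exact rho_inj hj hF hE hf.1 hg.1 h

private theorem rank_gt {r k j : ℕ} (hj : j < r) {K : Finset (Finset ℕ)} (hF : Fam r K)
    (hE : ∀ e ∈ K, e ∈ Ebox r (nBox k 0 (List.replicate r 1))) (hc : K.card = k)
    {e : Finset ℕ} (he : e ∈ K) :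
    (K.filter (fun f => el e j < el f j)).card = k - 1 - rho k j e := by
  have h1 : (K.filter (fun f => el e j < el f j)).image (rho k j) = Ioo (rho k j e) k := by
    ext x
    rw [mem_image, mem_Ioo]
    constructor
    · rintro ⟨f, hf, rfl⟩
      rw [mem_filter] at hf
      exact ⟨(rho_lt_iff hj (hE e he) (hE f hf.1)).2 hf.2, rho_lt hj (hE f hf.1)⟩
    · rintro ⟨hx, hxk⟩
      obtain ⟨f, hf, rfl⟩ := rho_exists hj hF hE hc hxk
      refine ⟨f, ?_, rfl⟩
      rw [mem_filter]
      exact ⟨hf, (rho_lt_iff hj (hE e he) (hE f hf)).1 hx⟩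
  have h2 := congrArg Finset.card h1
  rw [Nat.card_Ioo, card_image_of_injOn] at h2
  · rw [h2]
    omega
  · intro f hf g hg h
    rw [mem_coe, mem_filter] at hf hg
    exact rho_inj hj hF hE hf.1 hg.1 h

private theorem el_ne_K {r j : ℕ} (hj : j < r) {K : Finset (Finset ℕ)} (hF : Fam r K)
    {e f : Finset ℕ} (he : e ∈ K) (hf : f ∈ K) (hne : e ≠ f) : el e j ≠ el f j :=
  fun h => hne (el_inj_K hj hF he hf h)

/-- the order condition from the words, first for `el e 0 < el f 0` -/
private theorem ord_pair1 {r k : ℕ} (hr : 1 ≤ r) {P : Set (List Bool)} {κ : ℕ → ℕ} {u : ℕ → Bool}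
    (h : ∀ s : ℕ → Bool, s 0 = true → wd r s ∈ P →
      ∀ i < r, ∀ j < r, κ i = κ j → (s i = s j ↔ u i = u j))
    {K : Finset (Finset ℕ)} (hF : Fam r K)
    (hE : ∀ e ∈ K, e ∈ Ebox r (nBox k 0 (List.replicate r 1))) (hC : IsClique P K)
    {e f : Finset ℕ} (he : e ∈ K) (hf : f ∈ K) (hlt : el e 0 < el f 0)
    {i j : ℕ} (hi : i < r) (hj : j < r) (hκ : κ i = κ j) :
    ((el e i < el f i ↔ el e j < el f j) ↔ u i = u j) := by
  have hne : e ≠ f := by
    rintro rfl
    exact lt_irrefl _ hlt
  have hd := hF.2 e he f hf hne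
  have hne1 : e.Nonempty := by rw [← card_pos, hF.1 e he]; omega
  have hne2 : f.Nonempty := by rw [← card_pos, hF.1 f hf]; omega
  have hmin : e.min < f.min := by
    rw [(mn_eq e hne1).2, (mn_eq f hne2).2, (mn_eq e hne1).1, (mn_eq f hne2).1]
    exact_mod_cast hlt
  have hP := hC e he f hf hmin
  rw [pat_box hr (hE e he) (hE f hf) hd] at hP
  have h1 := h (fun j => decide (el e j < el f j)) (by simpa using hlt) hP i hi j hj hκ
  simp only [decide_eq_decide] at h1
  exact h1

private theorem ord_pair {r k : ℕ} (hr : 1 ≤ r) {P : Set (List Bool)} {κ : ℕ → ℕ} {u : ℕ → Bool}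
    (h : ∀ s : ℕ → Bool, s 0 = true → wd r s ∈ P →
      ∀ i < r, ∀ j < r, κ i = κ j → (s i = s j ↔ u i = u j))
    {K : Finset (Finset ℕ)} (hF : Fam r K)
    (hE : ∀ e ∈ K, e ∈ Ebox r (nBox k 0 (List.replicate r 1))) (hC : IsClique P K)
    {e f : Finset ℕ} (he : e ∈ K) (hf : f ∈ K) (hne : e ≠ f)
    {i j : ℕ} (hi : i < r) (hj : j < r) (hκ : κ i = κ j) :
    ((el f i < el e i ↔ el f j < el e j) ↔ u i = u j) := by
  have h0 := el_ne_K (j := 0) (by omega) hF he hf hne
  rcases lt_or_gt_of_ne h0 with hlt | hlt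
  · have h1 := ord_pair1 hr h hF hE hC he hf hlt hi hj hκ
    have h2 := el_ne_K hi hF he hf hne
    have h3 := el_ne_K hj hF he hf hne
    have e1 : el f i < el e i ↔ ¬ el e i < el f i := by omega
    have e2 : el f j < el e j ↔ ¬ el e j < el f j := by omega
    rw [e1, e2, not_iff_not]
    exact h1
  · exact ord_pair1 hr h hF hE hC hf he hlt hi hj hκ

private theorem rho_class {r k : ℕ} (hr : 1 ≤ r) {P : Set (List Bool)} {κ : ℕ → ℕ} {u : ℕ → Bool}
    (h : ∀ s : ℕ → Bool, s 0 = true → wd r s ∈ P →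
      ∀ i < r, ∀ j < r, κ i = κ j → (s i = s j ↔ u i = u j))
    {K : Finset (Finset ℕ)} (hF : Fam r K)
    (hE : ∀ e ∈ K, e ∈ Ebox r (nBox k 0 (List.replicate r 1))) (hc : K.card = k)
    (hC : IsClique P K) {e : Finset ℕ} (he : e ∈ K)
    {i j : ℕ} (hi : i < r) (hj : j < r) (hκ : κ i = κ j) :
    rho k j e = if u i = u j then rho k i e else k - 1 - rho k i e := by
  by_cases hu : u i = u j
  · rw [if_pos hu, ← rank_lt hj hF hE hc he, ← rank_lt hi hF hE hc he]
    congr 1
    apply Finset.filter_congr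
    intro f hf
    by_cases hne : e = f
    · subst hne
      simp
    · exact ((ord_pair hr h hF hE hC he hf hne hi hj hκ).2 hu).symm
  · rw [if_neg hu, ← rank_lt hj hF hE hc he, ← rank_gt hi hF hE hc he]
    congr 1
    apply Finset.filter_congr
    intro f hf
    by_cases hne : e = f
    · subst hne
      simp
    · have h1 : ¬ (el f i < el e i ↔ el f j < el e j) :=
        fun h' => hu ((ord_pair hr h hF hE hC he hf hne hi hj hκ).1 h')
      have h2 := el_ne_K hi hF he hf hne
      have e1 : el e i < el f i ↔ ¬ el f i < el e i := by omega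
      rw [e1]
      tauto

private theorem card_cl {r : ℕ} (hr : 1 ≤ r) {P : Set (List Bool)} (κ : ℕ → ℕ) (u : ℕ → Bool)
    (h : ∀ s : ℕ → Bool, s 0 = true → wd r s ∈ P →
      ∀ i < r, ∀ j < r, κ i = κ j → (s i = s j ↔ u i = u j)) (k : ℕ) :
    ac r P (List.replicate r 1) k ≤ (k ^ k) ^ (((range r).image κ).card - 1) := by
  classical
  set S := ((range r).image κ).erase (κ 0) with hS
  have hScard : S.card = ((range r).image κ).card - 1 := by
    rw [hS, card_erase_of_mem]
    exact mem_image_of_mem _ (mem_range.2 (by omega))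
  have hrep : ∀ c : {c // c ∈ S}, ∃ j < r, κ j = c.1 := by
    intro c
    have hc : c.1 ∈ ((range r).image κ).erase (κ 0) := c.2
    rw [mem_erase, mem_image] at hc
    obtain ⟨-, j, hj, hjc⟩ := hc
    exact ⟨j, mem_range.1 hj, hjc⟩
  choose rep hrep1 hrep2 using hrep
  let g : Finset (Finset ℕ) → ({c // c ∈ S} → Fin k → ℕ) :=
    fun K c a => ∑ e ∈ K.filter (fun e => rho k 0 e = (a : ℕ)), rho k (rep c) e
  have hg : ∀ K ∈ Cl r P (stdBox k 0 (List.replicate r 1)) k, ∀ (c : {c // c ∈ S}) (a : Fin k),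
      ∀ e ∈ K, rho k 0 e = (a : ℕ) → g K c a = rho k (rep c) e := by
    intro K hK c a e he hea
    obtain ⟨hE, hc, hF, hC⟩ := cl_facts hK
    have h1 : K.filter (fun e => rho k 0 e = (a : ℕ)) = {e} := by
      ext f
      rw [mem_filter, mem_singleton]
      constructor
      · rintro ⟨hf, hfa⟩
        exact rho_inj (j := 0) (by omega) hF hE hf he (by rw [hfa, hea])
      · rintro rfl
        exact ⟨he, hea⟩
    show ∑ e ∈ K.filter (fun e => rho k 0 e = (a : ℕ)), rho k (rep c) e = rho k (rep c) e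
    rw [h1, sum_singleton]
  have hcard : (Cl r P (stdBox k 0 (List.replicate r 1)) k).card ≤
      (Fintype.piFinset (fun _ : {c // c ∈ S} =>
        Fintype.piFinset (fun _ : Fin k => range k))).card := by
    apply Finset.card_le_card_of_injOn g
    · intro K hK
      rw [mem_coe] at hK
      obtain ⟨hE, hc, hF, hC⟩ := cl_facts hK
      rw [mem_coe, Fintype.mem_piFinset]
      intro c
      rw [Fintype.mem_piFinset]
      intro a
      obtain ⟨e, he, hea⟩ := rho_exists (j := 0) (by omega) hF hE hc a.2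
      rw [hg K hK c a e he hea, mem_range]
      exact rho_lt (hrep1 c) (hE e he)
    · intro K hK K' hK' hgg
      rw [mem_coe] at hK hK'
      obtain ⟨hE, hc, hF, hC⟩ := cl_facts hK
      obtain ⟨hE', hc', hF', hC'⟩ := cl_facts hK'
      apply Finset.eq_of_subset_of_card_le _ (by rw [hc, hc'])
      intro e he
      have ha := rho_lt (k := k) (j := 0) (by omega) (hE e he)
      obtain ⟨e', he', hea⟩ := rho_exists (j := 0) (by omega) hF' hE' hc' ha
      have hrho : ∀ j < r, rho k j e = rho k j e' := by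
        intro j hj
        by_cases hκ : κ 0 = κ j
        · rw [rho_class hr h hF hE hc hC he (i := 0) (by omega) hj hκ,
            rho_class hr h hF' hE' hc' hC' he' (i := 0) (by omega) hj hκ, hea]
        · have hmem : κ j ∈ S := by
            rw [hS, mem_erase]
            exact ⟨fun hh => hκ hh.symm, mem_image_of_mem _ (mem_range.2 hj)⟩
          have h1 := hg K hK ⟨κ j, hmem⟩ ⟨rho k 0 e, ha⟩ e he rfl
          have h2 := hg K' hK' ⟨κ j, hmem⟩ ⟨rho k 0 e, ha⟩ e' he' hea
          have hgg' : g K = g K' := hgg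
          rw [hgg', h2] at h1
          have h3 := hrep2 ⟨κ j, hmem⟩
          rw [rho_class hr h hF hE hc hC he (hrep1 ⟨κ j, hmem⟩) hj h3,
            rho_class hr h hF' hE' hc' hC' he' (hrep1 ⟨κ j, hmem⟩) hj h3, h1]
      have hee : e = e' := by
        rw [(enc_surj (hE e he)).2, (enc_surj (hE' e' he')).2]
        congr 1
        funext j
        exact hrho j j.2
      rw [hee]
      exact he'
  unfold ac
  refine hcard.trans (le_of_eq ?_)
  rw [Fintype.card_piFinset, prod_const, Fintype.card_piFinset, prod_const, card_range, card_univ,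
    card_univ, Fintype.card_fin, Fintype.card_coe, hScard]

theorem cls_ub {r : ℕ} (hr : 1 ≤ r) {P : Set (List Bool)} (κ : ℕ → ℕ) (u : ℕ → Bool)
    (h : ∀ s : ℕ → Bool, s 0 = true → wd r s ∈ P →
      ∀ i < r, ∀ j < r, κ i = κ j → (s i = s j ↔ u i = u j)) :
    Ub r P (List.replicate r 1) ((r : ℝ) + 1 - ((range r).image κ).card) := by
  refine ⟨1, one_pos, ?_⟩
  intro k hk
  set q := ((range r).image κ).card with hq
  have hq1 : 1 ≤ q := by
    rw [hq, Nat.one_le_iff_ne_zero, ← Nat.pos_iff_ne_zero, card_pos]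
    exact ⟨κ 0, mem_image_of_mem _ (mem_range.2 (by omega))⟩
  have hkp : (0 : ℝ) < k := by exact_mod_cast hk
  have hac := card_cl hr κ u h k
  rw [← hq] at hac
  have hac' : (ac r P (List.replicate r 1) k : ℝ) ≤ (((k : ℝ) ^ (q - 1)) ^ k) := by
    have h1 : ((ac r P (List.replicate r 1) k : ℕ) : ℝ) ≤ (((k ^ k) ^ (q - 1) : ℕ) : ℝ) := by
      exact_mod_cast hac
    refine h1.trans (le_of_eq ?_)
    push_cast
    rw [← pow_mul, ← pow_mul, mul_comm]
  have h2 : (ac r P (List.replicate r 1) k : ℝ) ^ (1 / (k : ℝ)) ≤ (k : ℝ) ^ (q - 1) := by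
    refine (Real.rpow_le_rpow (Nat.cast_nonneg _) hac' (by positivity)).trans (le_of_eq ?_)
    rw [one_div]
    exact Real.pow_rpow_inv_natCast (by positivity) (by omega)
  have h3 : (k : ℝ) ^ (-((r : ℝ) + 1 - (q : ℝ))) = (k : ℝ) ^ (q - 1) / (k : ℝ) ^ r := by
    have e1 : -((r : ℝ) + 1 - (q : ℝ)) = ((q - 1 : ℕ) : ℝ) - (r : ℝ) := by
      rw [Nat.cast_sub hq1]
      push_cast
      ring
    rw [e1, Real.rpow_sub hkp, Real.rpow_natCast, Real.rpow_natCast]
  rw [one_mul, h3]
  unfold phi
  exact div_le_div_of_nonneg_right h2 (by positivity)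

end Pool.Agent.Work.MP_7d1693_pr.FX
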