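import Pool.Agent.Work.MP_7d1693_pr.FX.Defs
import Pool.Agent.Work.MP_7d1693_pr.FX.ClsUb

/-! # Module Ub111 (S): the shape (1,1,1) with two 3-partite words missing -/

namespace Pool.Agent.Work.MP_7d1693_pr.FX

open Finset FM

private def sv (a : Fin 4) (m : ℕ) : Bool :=
  if m = 0 then true else if m = 1 then decide (a.val < 2) else decide (a.val % 2 = 0)

private theorem sv_spec (s : ℕ → Bool) (h0 : s 0 = true) :
    ∃ x : Fin 4, wd 3 s = W3 x ∧ ∀ m < 3, s m = sv x m := by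
  have key : ∀ x : Fin 4, s 1 = sv x 1 → s 2 = sv x 2 → ∀ m < 3, s m = sv x m := by
    intro x h1 h2 m hm
    interval_cases m
    · rw [h0]; rfl
    · exact h1
    · exact h2
  have hw : wd 3 s = word [(1, s 0), (1, s 1), (1, s 2)] := rfl
  cases h1 : s 1 <;> cases h2 : s 2
  · exact ⟨3, by rw [hw, h0, h1, h2]; rfl, key 3 (by rw [h1]; rfl) (by rw [h2]; rfl)⟩
  · exact ⟨2, by rw [hw, h0, h1, h2]; rfl, key 2 (by rw [h1]; rfl) (by rw [h2]; rfl)⟩
  · exact ⟨1, by rw [hw, h0, h1, h2]; rfl, key 1 (by rw [h1]; rfl) (by rw [h2]; rfl)⟩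
  · exact ⟨0, by rw [hw, h0, h1, h2]; rfl, key 0 (by rw [h1]; rfl) (by rw [h2]; rfl)⟩

theorem ub111 {P : Set (List Bool)} {i j : Fin 4} (hij : i ≠ j) (hi : W3 i ∉ P) (hj : W3 j ∉ P) :
    Ub 3 P [1, 1, 1] 2 := by
  have hex : ∀ i j : Fin 4, i ≠ j → ∃ a b : Fin 4, a ≠ b ∧ ∀ x, x ≠ i → x ≠ j → x = a ∨ x = b := by
    decide
  obtain ⟨a, b, hab, hx⟩ := hex i j hij
  have hcard : ∀ a b : Fin 4, a ≠ b →
      ((range 3).image fun m => if sv a m = sv b m then 0 else 1).card = 2 := by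
    decide
  have h := cls_ub (r := 3) (by norm_num) (P := P) (fun m => if sv a m = sv b m then 0 else 1)
    (sv a) (by
      intro s h0 hs i' hi' j' hj' hk
      obtain ⟨x, hwx, hsx⟩ := sv_spec s h0
      have hx1 : x ≠ i := by
        rintro rfl; exact hi (hwx ▸ hs)
      have hx2 : x ≠ j := by
        rintro rfl; exact hj (hwx ▸ hs)
      rw [hsx i' hi', hsx j' hj']
      rcases hx x hx1 hx2 with rfl | rfl
      · exact Iff.rfl
      · clear hs hwx hsx hx hx1 hx2
        revert hk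
        generalize sv a i' = p
        generalize sv x i' = q
        generalize sv a j' = p'
        generalize sv x j' = q'
        revert p q p' q'
        decide)
  rw [hcard a b hab] at h
  have e : ((3 : ℕ) : ℝ) + 1 - ((2 : ℕ) : ℝ) = 2 := by norm_num
  rw [e] at h
  exact h

end Pool.Agent.Work.MP_7d1693_pr.FX
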