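import Pool.Agent.Work.MP_7d1693_pr.FX.Defs
import Pool.Agent.Work.MP_7d1693_pr.FX.ArcA
import Pool.Agent.Work.MP_7d1693_pr.FX.ArcB
import Pool.Agent.Work.MP_7d1693_pr.FX.ArcSym
import Pool.Agent.Work.MP_7d1693_pr.FM.ECard
import Pool.Agent.Work.MP_7d1693_pr.FM.Vert
import Pool.Agent.Work.MP_7d1693_pr.PAT

/-! # Module Ub21 (M): the shape (2,1) with two 3-partite words missing

A clique `K` counted by `ac 3 P [2,1] k` (box `[(2,0,2k),(1,2k,3k)]`) has `k` disjoint edges `e = {el e 0 < el e 1 < el e 2}` with `el e 1 < 2k ≤ el e 2`, together they cover `range (3k)`. Map `K` to `F = K.image (fun e => (el e 2, el e 0, el e 1))`: `IsArcs (Ico (2k) (3k)) (range (2k)) F`, injective. For `e, f ∈ K` with `el e 0 < el f 0`, writing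
`x = el 0`, `y = el 1`, `a = el 2`: `x_f < y_e < y_f` (crossing), `a_e < a_f`: word `W3 0`; crossing, `a_f < a_e`: `W3 1`; `y_f < y_e` (nesting), `a_e < a_f`: `W3 2`; nesting, `a_f < a_e`: `W3 3` (prove a lemma: disjoint 3-sets with given relations between the elements have the given word). The hypothesis: two of the words are missing, so the allowed words among `W3` are
in the complementary pair: `{0,1}`: no nesting, `Qa`; `{2,3}`: no crossing, `Qb`; `{0,2}`: `Qc`; `{1,3}`: `Qd`; `{0,3}`: `Qe`; `{1,2}`: `Qf` (for all ordered pairs `p, q ∈ F`, check). So `ac k ≤ (4k)^k` by the six bounds (`catalan k ≤ 4^k`, `k! ≤ k^k`), and `phi k ≤ 4 k^(-2)`. -/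

namespace Pool.Agent.Work.MP_7d1693_pr.FX

open Finset FM

/-- the arc of a 3-set -/
private noncomputable def g (e : Finset ℕ) : ℕ × ℕ × ℕ := (el e 2, el e 0, el e 1)

private theorem three {e : Finset ℕ} (h : e.card = 3) :
    el e 0 < el e 1 ∧ el e 1 < el e 2 ∧ ∀ v, v ∈ e ↔ v = el e 0 ∨ v = el e 1 ∨ v = el e 2 := by
  refine ⟨el_lt e 0 1 (by omega) (by omega), el_lt e 1 2 (by omega) (by omega), ?_⟩
  intro v
  constructor
  · intro hv
    obtain ⟨i, hi, hiv⟩ := exists_el e v hv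
    rw [h] at hi
    interval_cases i
    · exact Or.inl hiv.symm
    · exact Or.inr (Or.inl hiv.symm)
    · exact Or.inr (Or.inr hiv.symm)
  · rintro (rfl | rfl | rfl)
    · exact el_mem e 0 (by omega)
    · exact el_mem e 1 (by omega)
    · exact el_mem e 2 (by omega)

private theorem pat_list {e f : Finset ℕ} (l : List ℕ) (h : l.Pairwise (· < ·))
    (hl : ∀ x, x ∈ l ↔ x ∈ e ∪ f) : pat e f = l.map fun v => decide (v ∈ e) := by
  unfold pat
  rw [sort_eq_of h hl]

private theorem words {e f : Finset ℕ} {x y a x' y' a' : ℕ}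
    (he : ∀ v, v ∈ e ↔ v = x ∨ v = y ∨ v = a) (hf : ∀ v, v ∈ f ↔ v = x' ∨ v = y' ∨ v = a')
    (h1 : x < x') (h2 : x' < y) (h3 : x' < y') (h4 : y < a) (h5 : y' < a) (h6 : y < a')
    (h7 : y' < a') :
    (y < y' → a < a' → pat e f = W3 0) ∧ (y < y' → a' < a → pat e f = W3 1) ∧
    (y' < y → a < a' → pat e f = W3 2) ∧ (y' < y → a' < a → pat e f = W3 3) := by
  have dx : decide (x ∈ e) = true := by rw [decide_eq_true_iff, he]; omega
  have dy : decide (y ∈ e) = true := by rw [decide_eq_true_iff, he]; omega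
  have da : decide (a ∈ e) = true := by rw [decide_eq_true_iff, he]; omega
  refine ⟨?_, ?_, ?_, ?_⟩
  · intro h8 h9
    rw [pat_list [x, x', y, y', a, a']]
    · have dx' : decide (x' ∈ e) = false := by rw [decide_eq_false_iff_not, he]; omega
      have dy' : decide (y' ∈ e) = false := by rw [decide_eq_false_iff_not, he]; omega
      have da' : decide (a' ∈ e) = false := by rw [decide_eq_false_iff_not, he]; omega
      simp only [List.map_cons, List.map_nil, W3, dx, dy, da, dx', dy', da']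
    · simp only [List.pairwise_cons, List.mem_cons, List.not_mem_nil, or_false, forall_eq_or_imp,
        forall_eq, List.Pairwise.nil, and_true, false_imp_iff, imp_true_iff]
      omega
    · intro v
      rw [mem_union, he, hf]
      simp only [List.mem_cons, List.not_mem_nil, or_false]
      tauto
  · intro h8 h9
    rw [pat_list [x, x', y, y', a', a]]
    · have dx' : decide (x' ∈ e) = false := by rw [decide_eq_false_iff_not, he]; omega
      have dy' : decide (y' ∈ e) = false := by rw [decide_eq_false_iff_not, he]; omega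
      have da' : decide (a' ∈ e) = false := by rw [decide_eq_false_iff_not, he]; omega
      simp only [List.map_cons, List.map_nil, W3, dx, dy, da, dx', dy', da']
    · simp only [List.pairwise_cons, List.mem_cons, List.not_mem_nil, or_false, forall_eq_or_imp,
        forall_eq, List.Pairwise.nil, and_true, false_imp_iff, imp_true_iff]
      omega
    · intro v
      rw [mem_union, he, hf]
      simp only [List.mem_cons, List.not_mem_nil, or_false]
      tauto
  · intro h8 h9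
    rw [pat_list [x, x', y', y, a, a']]
    · have dx' : decide (x' ∈ e) = false := by rw [decide_eq_false_iff_not, he]; omega
      have dy' : decide (y' ∈ e) = false := by rw [decide_eq_false_iff_not, he]; omega
      have da' : decide (a' ∈ e) = false := by rw [decide_eq_false_iff_not, he]; omega
      simp only [List.map_cons, List.map_nil, W3, dx, dy, da, dx', dy', da']
    · simp only [List.pairwise_cons, List.mem_cons, List.not_mem_nil, or_false, forall_eq_or_imp,
        forall_eq, List.Pairwise.nil, and_true, false_imp_iff, imp_true_iff]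
      omega
    · intro v
      rw [mem_union, he, hf]
      simp only [List.mem_cons, List.not_mem_nil, or_false]
      tauto
  · intro h8 h9
    rw [pat_list [x, x', y', y, a', a]]
    · have dx' : decide (x' ∈ e) = false := by rw [decide_eq_false_iff_not, he]; omega
      have dy' : decide (y' ∈ e) = false := by rw [decide_eq_false_iff_not, he]; omega
      have da' : decide (a' ∈ e) = false := by rw [decide_eq_false_iff_not, he]; omega
      simp only [List.map_cons, List.map_nil, W3, dx, dy, da, dx', dy', da']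
    · simp only [List.pairwise_cons, List.mem_cons, List.not_mem_nil, or_false, forall_eq_or_imp,
        forall_eq, List.Pairwise.nil, and_true, false_imp_iff, imp_true_iff]
      omega
    · intro v
      rw [mem_union, he, hf]
      simp only [List.mem_cons, List.not_mem_nil, or_false]
      tauto

private theorem mem_Cl {r : ℕ} {P : Set (List Bool)} {B : Box} {k : ℕ} {K : Finset (Finset ℕ)} :
    K ∈ Cl r P B k ↔ ((∀ e ∈ K, e ⊆ vert B ∧ e.card = r ∧ InB B 1 e) ∧ K.card = k) ∧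
      Fam r K ∧ IsClique P K := by
  classical
  unfold Cl Ebox
  rw [mem_filter, mem_powersetCard]
  have : (K ⊆ ((vert B).powersetCard r).filter (fun e => InB B 1 e)) ↔
      ∀ e ∈ K, e ⊆ vert B ∧ e.card = r ∧ InB B 1 e := by
    constructor
    · intro h e he
      have := h he
      rw [mem_filter, mem_powersetCard] at this
      exact ⟨this.1.1, this.1.2, this.2⟩
    · intro h e he
      rw [mem_filter, mem_powersetCard]
      exact ⟨⟨(h e he).1, (h e he).2.1⟩, (h e he).2.2⟩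
  rw [this]

/-- position of the three elements of an edge -/
private theorem pos {k : ℕ} {e : Finset ℕ} (h1 : e ⊆ vert (stdBox k 0 [2, 1])) (h2 : e.card = 3)
    (h3 : InB (stdBox k 0 [2, 1]) 1 e) : el e 1 < 2 * k ∧ 2 * k ≤ el e 2 ∧ el e 2 < 3 * k := by
  obtain ⟨hxy, hya, hm⟩ := three h2
  have hv := std_vert k [2, 1] 0
  have ha : el e 2 < 3 * k := by
    have h4 := h1 ((hm _).2 (Or.inr (Or.inr rfl)))
    rw [hv, mem_Ico] at h4
    have h5 := h4.2
    simp at h5
    omega
  have hb := h3 (2, 0, 0 + k * 2) (by simp [stdBox])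
  simp only at hb
  have hsub1 : ¬ (2 * k ≤ el e 1) := by
    intro h5
    have h6 : e.filter (fun v => 0 ≤ v ∧ v < 0 + k * 2) ⊆ {el e 0} := by
      intro v hv
      rw [mem_filter, hm] at hv
      rw [mem_singleton]
      rcases hv.1 with h | h | h
      · exact h
      · omega
      · omega
    have h7 := card_le_card h6
    rw [hb, card_singleton] at h7
    omega
  have hsub2 : ¬ (el e 2 < 2 * k) := by
    intro h5
    have h6 : e.filter (fun v => 0 ≤ v ∧ v < 0 + k * 2) = e := by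
      apply filter_true_of_mem
      intro v hv
      rw [hm] at hv
      omega
    rw [h6, h2] at hb
    omega
  omega

private theorem cat_le (k : ℕ) : catalan k ≤ 4 ^ k := by
  rw [catalan_eq_centralBinom_div]
  refine (Nat.div_le_self _ _).trans ?_
  rw [Nat.centralBinom]
  refine (Nat.choose_le_two_pow _ _).trans ?_
  rw [pow_mul]
  norm_num

private theorem facat_le (k : ℕ) : k.factorial * catalan k ≤ (4 * k) ^ k := by
  rw [mul_pow, mul_comm]
  exact Nat.mul_le_mul (cat_le k) (Nat.factorial_le_pow k)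

private theorem arc_le {A V : Finset ℕ} (h : V.card = 2 * A.card) :
    arcN A V Qa ≤ (4 * A.card) ^ A.card ∧ arcN A V Qb ≤ (4 * A.card) ^ A.card ∧
    arcN A V Qc ≤ (4 * A.card) ^ A.card ∧ arcN A V Qd ≤ (4 * A.card) ^ A.card ∧
    arcN A V Qe ≤ (4 * A.card) ^ A.card ∧ arcN A V Qf ≤ (4 * A.card) ^ A.card := by
  refine ⟨(arc_a h).trans (Nat.pow_le_pow_left (by omega) _), (arc_b h).trans (facat_le _),
    (arc_c h).trans (facat_le _), (arc_d h).trans (facat_le _), (arc_e h).trans (facat_le _),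
    (arc_f h).trans (facat_le _)⟩

/-- the image of a clique is a set of arcs -/
private theorem arcs {P : Set (List Bool)} {k : ℕ} {K : Finset (Finset ℕ)}
    (hK : K ∈ Cl 3 P (stdBox k 0 [2, 1]) k) :
    IsArcs (Ico (2 * k) (3 * k)) (range (2 * k)) (K.image g) := by
  classical
  rw [mem_Cl] at hK
  obtain ⟨⟨hK1, hK2⟩, ⟨hK3, hK4⟩, hK5⟩ := hK
  have hcov : ∀ v < 3 * k, ∃ e ∈ K, v ∈ e := by
    have h1 : (K.biUnion id).card = 3 * k := by
      have h0 : (K.biUnion id).card = ∑ e ∈ K, (id e).card :=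
        card_biUnion (fun e he f hf hef => hK4 e he f hf hef)
      have h9 : ∑ e ∈ K, (id e).card = ∑ _e ∈ K, 3 := Finset.sum_congr rfl (fun e he => hK3 e he)
      rw [h0, h9]
      rw [sum_const, hK2, smul_eq_mul, mul_comm]
    have h2 : K.biUnion id ⊆ range (3 * k) := by
      intro v hv
      rw [mem_biUnion] at hv
      obtain ⟨e, he, hve⟩ := hv
      have h3 := (hK1 e he).1 hve
      rw [std_vert, mem_Ico] at h3
      have h5 := h3.2
      simp at h5
      rw [mem_range]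
      omega
    have h3 : K.biUnion id = range (3 * k) :=
      eq_of_subset_of_card_le h2 (by rw [h1, card_range])
    intro v hv
    have h4 : v ∈ K.biUnion id := by rw [h3, mem_range]; exact hv
    rw [mem_biUnion] at h4
    exact h4
  refine ⟨?_, ?_, ?_, ?_⟩
  · intro p hp
    obtain ⟨e, he, rfl⟩ := mem_image.1 hp
    obtain ⟨h1, h2, h3⟩ := three (hK3 e he)
    obtain ⟨h4, h5, h6⟩ := pos (hK1 e he).1 (hK3 e he) (hK1 e he).2.2
    simp only [g, mem_Ico, mem_range]
    omega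
  · intro a ha
    rw [mem_Ico] at ha
    obtain ⟨e, he, hae⟩ := hcov a ha.2
    refine ⟨g e, mem_image_of_mem _ he, ?_⟩
    obtain ⟨h1, h2, h3⟩ := three (hK3 e he)
    obtain ⟨h4, h5, h6⟩ := pos (hK1 e he).1 (hK3 e he) (hK1 e he).2.2
    rw [h3] at hae
    simp only [g]
    omega
  · intro v hv
    rw [mem_range] at hv
    obtain ⟨e, he, hae⟩ := hcov v (by omega)
    refine ⟨g e, mem_image_of_mem _ he, ?_⟩
    obtain ⟨h1, h2, h3⟩ := three (hK3 e he)
    obtain ⟨h4, h5, h6⟩ := pos (hK1 e he).1 (hK3 e he) (hK1 e he).2.2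
    rw [h3] at hae
    simp only [g]
    omega
  · intro p hp q hq hpq
    obtain ⟨e, he, rfl⟩ := mem_image.1 hp
    obtain ⟨f, hf, rfl⟩ := mem_image.1 hq
    have hef : e ≠ f := fun h => hpq (by rw [h])
    have hd := hK4 e he f hf hef
    obtain ⟨h1, h2, h3⟩ := three (hK3 e he)
    obtain ⟨h1', h2', h3'⟩ := three (hK3 f hf)
    have hne : ∀ v w, v ∈ e → w ∈ f → v ≠ w := by
      intro v w hv hw hvw
      rw [hvw] at hv
      exact disjoint_left.1 hd hv hw
    have e0 : el e 0 ∈ e := (h3 _).2 (Or.inl rfl)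
    have e1 : el e 1 ∈ e := (h3 _).2 (Or.inr (Or.inl rfl))
    have e2 : el e 2 ∈ e := (h3 _).2 (Or.inr (Or.inr rfl))
    have f0 : el f 0 ∈ f := (h3' _).2 (Or.inl rfl)
    have f1 : el f 1 ∈ f := (h3' _).2 (Or.inr (Or.inl rfl))
    have f2 : el f 2 ∈ f := (h3' _).2 (Or.inr (Or.inr rfl))
    exact ⟨hne _ _ e2 f2, hne _ _ e0 f0, hne _ _ e0 f1, hne _ _ e1 f0, hne _ _ e1 f1⟩

/-- words of the pairs of edges of a clique -/
private theorem pairs {P : Set (List Bool)} {k : ℕ} {K : Finset (Finset ℕ)}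
    (hK : K ∈ Cl 3 P (stdBox k 0 [2, 1]) k) {p q : ℕ × ℕ × ℕ} (hp : p ∈ K.image g)
    (hq : q ∈ K.image g) (h : p.2.1 < q.2.1) (h' : q.2.1 < p.2.2) :
    (p.2.2 < q.2.2 → p.1 < q.1 → W3 0 ∈ P) ∧ (p.2.2 < q.2.2 → q.1 < p.1 → W3 1 ∈ P) ∧
    (q.2.2 < p.2.2 → p.1 < q.1 → W3 2 ∈ P) ∧ (q.2.2 < p.2.2 → q.1 < p.1 → W3 3 ∈ P) := by
  classical
  rw [mem_Cl] at hK
  obtain ⟨⟨hK1, hK2⟩, ⟨hK3, hK4⟩, hK5⟩ := hK
  obtain ⟨e, he, rfl⟩ := mem_image.1 hp
  obtain ⟨f, hf, rfl⟩ := mem_image.1 hq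
  simp only [g] at h h' ⊢
  obtain ⟨h1, h2, h3⟩ := three (hK3 e he)
  obtain ⟨h1', h2', h3'⟩ := three (hK3 f hf)
  obtain ⟨h4, h5, h6⟩ := pos (hK1 e he).1 (hK3 e he) (hK1 e he).2.2
  obtain ⟨h4', h5', h6'⟩ := pos (hK1 f hf).1 (hK3 f hf) (hK1 f hf).2.2
  have hmin : e.min < f.min := by
    have hen : e.Nonempty := card_pos.1 (by rw [hK3 e he]; omega)
    have hfn : f.Nonempty := card_pos.1 (by rw [hK3 f hf]; omega)
    obtain ⟨m1, m2⟩ := mn_eq e hen
    obtain ⟨m3, m4⟩ := mn_eq f hfn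
    rw [m2, m4, m1, m3]
    exact_mod_cast h
  have hP := hK5 e he f hf hmin
  obtain ⟨w0, w1, w2, w3⟩ := words h3 h3' h h' h1' h2 (by omega) (by omega) h2'
  refine ⟨?_, ?_, ?_, ?_⟩
  · intro a b
    rw [← w0 a b]
    exact hP
  · intro a b
    rw [← w1 a b]
    exact hP
  · intro a b
    rw [← w2 a b]
    exact hP
  · intro a b
    rw [← w3 a b]
    exact hP

private theorem ac_le_arc {P : Set (List Bool)} {k : ℕ} {Q : ℕ × ℕ × ℕ → ℕ × ℕ × ℕ → Prop}
    (hQ : ∀ K ∈ Cl 3 P (stdBox k 0 [2, 1]) k, ∀ p ∈ K.image g, ∀ q ∈ K.image g, Q p q) :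
    ac 3 P [2, 1] k ≤ arcN (Ico (2 * k) (3 * k)) (range (2 * k)) Q := by
  classical
  unfold ac arcN
  apply card_le_card_of_injOn (fun K => K.image g)
  · intro K hK
    have hK' : K ∈ Cl 3 P (stdBox k 0 [2, 1]) k := hK
    have hA := arcs hK'
    simp only [coe_filter, mem_powerset, Set.mem_ofPred_eq]
    refine ⟨?_, hA, hQ K hK'⟩
    intro p hp
    obtain ⟨h1, h2, h3, -⟩ := hA.1 p hp
    rw [mem_product, mem_product]
    exact ⟨h1, h2, h3⟩
  · intro K hK K' hK' hKK
    have hK1 : K ∈ Cl 3 P (stdBox k 0 [2, 1]) k := hK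
    have hK2 : K' ∈ Cl 3 P (stdBox k 0 [2, 1]) k := hK'
    have key : ∀ L ∈ Cl 3 P (stdBox k 0 [2, 1]) k,
        (L.image g).image (fun p => ({p.2.1, p.2.2, p.1} : Finset ℕ)) = L := by
      intro L hL
      rw [mem_Cl] at hL
      rw [image_image]
      conv_rhs => rw [← image_id (s := L)]
      apply image_congr
      intro e he
      obtain ⟨-, -, h3⟩ := three (hL.2.1.1 e he)
      ext v
      simp only [Function.comp, g, mem_insert, mem_singleton, id]
      exact (h3 v).symm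
    have h1 := key K hK1
    have h2 := key K' hK2
    simp only at hKK
    rw [← h1, ← h2, hKK]

private theorem ac_bd {P : Set (List Bool)} {i j : Fin 4} (hij : i ≠ j) (hi : W3 i ∉ P)
    (hj : W3 j ∉ P) (k : ℕ) : ac 3 P [2, 1] k ≤ (4 * k) ^ k := by
  classical
  have hV : (range (2 * k)).card = 2 * (Ico (2 * k) (3 * k)).card := by
    rw [card_range, Nat.card_Ico]
    omega
  obtain ⟨b1, b2, b3, b4, b5, b6⟩ := arc_le hV
  have hA : (Ico (2 * k) (3 * k)).card = k := by
    rw [Nat.card_Ico]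
    omega
  rw [hA] at b1 b2 b3 b4 b5 b6
  have main : (W3 0 ∉ P ∧ W3 1 ∉ P) ∨ (W3 2 ∉ P ∧ W3 3 ∉ P) ∨ (W3 1 ∉ P ∧ W3 3 ∉ P) ∨
      (W3 0 ∉ P ∧ W3 2 ∉ P) ∨ (W3 1 ∉ P ∧ W3 2 ∉ P) ∨ (W3 0 ∉ P ∧ W3 3 ∉ P) := by
    fin_cases i <;> fin_cases j <;> simp_all
  have hne : ∀ K ∈ Cl 3 P (stdBox k 0 [2, 1]) k, ∀ p ∈ K.image g, ∀ q ∈ K.image g, p ≠ q →
      p.1 ≠ q.1 ∧ p.2.1 ≠ q.2.1 ∧ p.2.1 ≠ q.2.2 ∧ p.2.2 ≠ q.2.1 ∧ p.2.2 ≠ q.2.2 :=
    fun K hK => (arcs hK).2.2.2
  have hlt : ∀ K ∈ Cl 3 P (stdBox k 0 [2, 1]) k, ∀ p ∈ K.image g, p.2.1 < p.2.2 :=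
    fun K hK p hp => ((arcs hK).1 p hp).2.2.2
  rcases main with h | h | h | h | h | h
  · refine (ac_le_arc (Q := Qb) ?_).trans b2
    intro K hK p hp q hq hc
    have hpq : p ≠ q := by rintro rfl; omega
    have h1 := hne K hK p hp q hq hpq
    obtain ⟨w0, w1, w2, w3⟩ := pairs hK hp hq hc.1 hc.2.1
    rcases lt_or_gt_of_ne h1.1 with h2 | h2
    · exact h.1 (w0 hc.2.2 h2)
    · exact h.2 (w1 hc.2.2 h2)
  · refine (ac_le_arc (Q := Qa) ?_).trans b1
    intro K hK p hp q hq hc
    have hpq : p ≠ q := by rintro rfl; omega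
    have h1 := hne K hK p hp q hq hpq
    have h3 := hlt K hK q hq
    obtain ⟨w0, w1, w2, w3⟩ := pairs hK hp hq hc.1 (by omega)
    rcases lt_or_gt_of_ne h1.1 with h2 | h2
    · exact h.1 (w2 hc.2 h2)
    · exact h.2 (w3 hc.2 h2)
  · refine (ac_le_arc (Q := Qc) ?_).trans b3
    intro K hK p hp q hq hc
    have hpq : p ≠ q := by rintro rfl; omega
    have h1 := hne K hK p hp q hq hpq
    obtain ⟨w0, w1, w2, w3⟩ := pairs hK hq hp hc.2.1 hc.2.2
    rcases lt_or_gt_of_ne h1.2.2.2.2 with h2 | h2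
    · exact h.2 (w3 h2 hc.1)
    · exact h.1 (w1 h2 hc.1)
  · refine (ac_le_arc (Q := Qd) ?_).trans b4
    intro K hK p hp q hq hc
    have hpq : p ≠ q := by rintro rfl; omega
    have h1 := hne K hK p hp q hq hpq
    obtain ⟨w0, w1, w2, w3⟩ := pairs hK hp hq hc.2.1 hc.2.2
    rcases lt_or_gt_of_ne h1.2.2.2.2 with h2 | h2
    · exact h.1 (w0 h2 hc.1)
    · exact h.2 (w2 h2 hc.1)
  · refine (ac_le_arc (Q := Qe) ?_).trans b5
    intro K hK p hp q hq hc
    have hpq : p ≠ q := by rintro rfl; omega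
    have h1 := hne K hK p hp q hq hpq
    have h3 := hlt K hK p hp
    have h4 := hlt K hK q hq
    rcases lt_or_gt_of_ne h1.2.1 with h2 | h2
    · obtain ⟨w0, w1, w2, w3⟩ := pairs hK hp hq h2 (by omega)
      exact h.2 (w2 hc.2.1 hc.1)
    · obtain ⟨w0, w1, w2, w3⟩ := pairs hK hq hp h2 hc.2.2
      exact h.1 (w1 hc.2.1 hc.1)
  · refine (ac_le_arc (Q := Qf) ?_).trans b6
    intro K hK p hp q hq hc
    have hpq : p ≠ q := by rintro rfl; omega
    have h1 := hne K hK p hp q hq hpq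
    have h3 := hlt K hK p hp
    have h4 := hlt K hK q hq
    rcases lt_or_gt_of_ne h1.2.1 with h2 | h2
    · obtain ⟨w0, w1, w2, w3⟩ := pairs hK hp hq h2 hc.2.2
      exact h.1 (w0 hc.2.1 hc.1)
    · obtain ⟨w0, w1, w2, w3⟩ := pairs hK hq hp h2 (by omega)
      exact h.2 (w3 hc.2.1 hc.1)

theorem ub21 {P : Set (List Bool)} {i j : Fin 4} (hij : i ≠ j) (hi : W3 i ∉ P) (hj : W3 j ∉ P) :
    Ub 3 P [2, 1] 2 := by
  refine ⟨4, by norm_num, ?_⟩
  intro k hk
  have hkp : (0 : ℝ) < k := by exact_mod_cast hk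
  have h1 : ((ac 3 P [2, 1] k : ℕ) : ℝ) ≤ (4 * (k : ℝ)) ^ k := by
    exact_mod_cast ac_bd hij hi hj k
  have h2 : ((ac 3 P [2, 1] k : ℕ) : ℝ) ^ (1 / (k : ℝ)) ≤ 4 * (k : ℝ) := by
    refine (Real.rpow_le_rpow (Nat.cast_nonneg _) h1 (by positivity)).trans ?_
    rw [← Real.rpow_natCast, ← Real.rpow_mul (by positivity), mul_one_div_cancel hkp.ne',
      Real.rpow_one]
  unfold phi
  rw [div_le_iff₀ (by positivity)]
  refine h2.trans (le_of_eq ?_)
  rw [Real.rpow_neg hkp.le, show (2 : ℝ) = ((2 : ℕ) : ℝ) by norm_num, Real.rpow_natCast]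
  field_simp

end Pool.Agent.Work.MP_7d1693_pr.FX
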