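import Pool.Agent.Work.MP_7d1693_pr.FX.Defs
import Pool.Agent.Work.MP_7d1693_pr.PAT
import Pool.Agent.Work.MP_7d1693_pr.FM.Vert
import Pool.Agent.Work.MP_7d1693_pr.FM.ECard

/-! # Module UbOne (S): only words starting with AB matter if the first part is 1

If `e ≠ f` are edges of a clique counted by `ac r P (1 :: l) k`, `mn e < mn f`: each has exactly one vertex in the first interval `[0, k)`, the minimum, all others are `≥ k`. `pat_union` with `e = {mn e} ∪ e2`, `f = {mn f} ∪ f2`: `pat e f = [true, false] ++ pat e2 f2`. So every such clique is also a clique for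
`{w ∈ P | ∃ v, w = true :: false :: v}`, `ac r P (1 :: l) k ≤ ac r P' (1 :: l) k`, `phi` is monotone in `ac`. -/

namespace Pool.Agent.Work.MP_7d1693_pr.FX

open Finset FM

/-- the first vertex of an edge with one vertex in the first interval -/
private theorem first_vertex {r k : ℕ} {l : List ℕ} {e : Finset ℕ}
    (he : e ∈ Ebox r (stdBox k 0 (1 :: l))) :
    ∃ e2 : Finset ℕ, e = {mn e} ∪ e2 ∧ e.Nonempty ∧ mn e < k ∧ ∀ x ∈ e2, k ≤ x := by
  classical
  unfold Ebox at he
  rw [mem_filter] at he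
  have h1 := he.2 (1, 0, 0 + k * 1) (by rw [stdBox]; exact List.mem_cons_self)
  simp only [Nat.zero_add, Nat.mul_one, Nat.zero_le, true_and] at h1
  obtain ⟨a, ha⟩ := card_eq_one.1 h1
  have ha1 : a ∈ e.filter (fun v => v < k) := by rw [ha]; exact mem_singleton_self a
  rw [mem_filter] at ha1
  have hne : e.Nonempty := ⟨a, ha1.1⟩
  have hm1 := mn_mem e hne
  have hm2 := mn_le e a ha1.1
  have hm3 : mn e ∈ e.filter (fun v => v < k) := mem_filter.2 ⟨hm1, lt_of_le_of_lt hm2 ha1.2⟩
  rw [ha, mem_singleton] at hm3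
  refine ⟨e.filter (fun v => ¬ v < k), ?_, hne, ?_, ?_⟩
  · rw [hm3, ← ha, filter_union_filter_not_eq]
  · rw [hm3]; exact ha1.2
  · intro x hx
    exact not_lt.1 (mem_filter.1 hx).2

private theorem pat_start {r k : ℕ} {l : List ℕ} {e f : Finset ℕ}
    (he : e ∈ Ebox r (stdBox k 0 (1 :: l))) (hf : f ∈ Ebox r (stdBox k 0 (1 :: l)))
    (h : e.min < f.min) : ∃ v, pat e f = true :: false :: v := by
  obtain ⟨e2, he1, hen, hek, he3⟩ := first_vertex he
  obtain ⟨f2, hf1, hfn, hfk, hf3⟩ := first_vertex hf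
  have hlt : mn e < mn f := by
    rw [(mn_eq e hen).2, (mn_eq f hfn).2] at h
    exact_mod_cast h
  refine ⟨pat e2 f2, ?_⟩
  have h1 : pat e f = pat ({mn e} ∪ e2) ({mn f} ∪ f2) := by
    rw [← he1, ← hf1]
  rw [h1, pat_union, pat_lt]
  · simp
  · intro x hx y hy
    rw [mem_singleton] at hx hy
    rw [hx, hy]
    exact hlt
  · intro x hx y hy
    have hxk : x < k := by
      rcases mem_union.1 hx with hx | hx <;> rw [mem_singleton] at hx <;> rw [hx] <;> assumption
    have hyk : k ≤ y := by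
      rcases mem_union.1 hy with hy | hy
      · exact he3 y hy
      · exact hf3 y hy
    omega

private theorem ac_le {r : ℕ} (P : Set (List Bool)) (l : List ℕ) (k : ℕ) :
    ac r P (1 :: l) k ≤ ac r {w | w ∈ P ∧ ∃ v, w = true :: false :: v} (1 :: l) k := by
  classical
  unfold ac
  apply card_le_card
  intro K hK
  unfold Cl at hK ⊢
  rw [mem_filter] at hK ⊢
  refine ⟨hK.1, hK.2.1, ?_⟩
  intro e he f hf hef
  have hsub := (mem_powersetCard.1 hK.1).1
  exact ⟨hK.2.2 e he f hf hef, pat_start (hsub he) (hsub hf) hef⟩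

theorem ub_one {r : ℕ} {P : Set (List Bool)} {l : List ℕ} (hc : Comp r (1 :: l)) {p : ℝ}
    (h : Ub r {w | w ∈ P ∧ ∃ v, w = true :: false :: v} (1 :: l) p) : Ub r P (1 :: l) p := by
  obtain ⟨C, hC, h⟩ := h
  refine ⟨C, hC, fun k hk => le_trans ?_ (h k hk)⟩
  unfold phi
  apply div_le_div_of_nonneg_right _ (by positivity)
  apply Real.rpow_le_rpow (by positivity) _ (by positivity)
  exact_mod_cast ac_le P l k

end Pool.Agent.Work.MP_7d1693_pr.FX
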