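import Pool.Agent.Work.MP_7d1693_pr.FX.Defs
import Pool.Agent.Work.MP_7d1693_pr.FX.AllTrans
import Pool.Agent.Work.MP_7d1693_pr.FX.MisUb
import Pool.Agent.Work.MP_7d1693_pr.FX.ThinUb
import Pool.Agent.Work.MP_7d1693_pr.FX.UbOne
import Pool.Agent.Work.MP_7d1693_pr.FX.Ub12
import Pool.Agent.Work.MP_7d1693_pr.FX.Ub21
import Pool.Agent.Work.MP_7d1693_pr.FX.Ub111
import Pool.Agent.Work.MP_7d1693_pr.FX.Adm3
import Pool.Agent.Work.MP_7d1693_pr.FX.WdType

/-! # Module R3Up (S-M): upper bounds for `r = 3`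

* `up_a`: `phi_reg` needs an admissible type, here directly: `lam` is admissible; `phi k ≤ C (1/k) phi 1 = C/k`.
* `up_b`: one of the words is missing: `mis_ub` with `r = 3`, `u` the signs of `W3 i` (`W3 i = wd 3 u` by evaluation), exponent `3/(3-1) = 3/2`, and `all_trans` (`3/2 < 2`).
* `up_c`: `ub111`, `ub12`, `ub21` for the shapes with at least two parts, and `trans` with `l1 = l2 = []`, `s = 3`, `p = 2 < 3` for `[3]` (`Comp 3 lam` gives the four cases).
* `up_d`: `ub_one` and `thin_ub` for the subset of the words starting with AB, which is thin by `thin3` (the words `W21`, `W30` do not start with AB).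
* `up_e`: `thin_ub`, `thin3`. -/

namespace Pool.Agent.Work.MP_7d1693_pr.FX

open Finset FM

private theorem comp3 {lam : List ℕ} (hc : Comp 3 lam) :
    lam = [1, 1, 1] ∨ lam = [1, 2] ∨ lam = [2, 1] ∨ lam = [3] := by
  obtain ⟨h1, h2⟩ := hc
  match lam, h1, h2 with
  | [], h1, _ => simp at h1
  | [a], h1, _ =>
    simp only [List.sum_cons, List.sum_nil] at h1
    have : a = 3 := by omega
    subst this
    simp
  | [a, b], h1, h2 =>
    simp only [List.sum_cons, List.sum_nil] at h1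
    have ha := h2 a (by simp)
    have hb := h2 b (by simp)
    have h : (a = 1 ∧ b = 2) ∨ (a = 2 ∧ b = 1) := by omega
    rcases h with ⟨rfl, rfl⟩ | ⟨rfl, rfl⟩ <;> simp
  | [a, b, c], h1, h2 =>
    simp only [List.sum_cons, List.sum_nil] at h1
    have ha := h2 a (by simp)
    have hb := h2 b (by simp)
    have hc := h2 c (by simp)
    have h : a = 1 ∧ b = 1 ∧ c = 1 := by omega
    obtain ⟨rfl, rfl, rfl⟩ := h
    simp
  | a :: b :: c :: d :: l, h1, h2 =>
    simp only [List.sum_cons] at h1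
    have ha := h2 a (by simp)
    have hb := h2 b (by simp)
    have hc := h2 c (by simp)
    have hd := h2 d (by simp)
    omega

theorem up_a {P : Set (List Bool)} {lam : List ℕ} (h : Adm 3 P lam) : Ub 3 P lam 1 := by
  obtain ⟨C, hC, hreg⟩ := phi_reg (by norm_num : 1 ≤ 3) h
  refine ⟨C, by linarith, fun k hk => ?_⟩
  have h1 := (hreg 1 k le_rfl hk).1
  rw [phi_one P h.1] at h1
  rw [Real.rpow_neg_one]
  calc phi 3 P lam k ≤ C * (((1 : ℕ) : ℝ) / k) * 1 := h1
    _ = C * (k : ℝ)⁻¹ := by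
      rw [Nat.cast_one, mul_one, one_div]

theorem up_b {P : Set (List Bool)} {i : Fin 4} (hi : W3 i ∉ P) {lam : List ℕ}
    (hc : Comp 3 lam) : Ub 3 P lam (3 / 2) := by
  have key : ∀ u : ℕ → Bool, u 0 = true → wd 3 u ∉ P → Ub 3 P lam (3 / 2) := by
    intro u hu h
    have h1 := mis_ub (by norm_num : 2 ≤ 3) u hu h
    have e : (((3 : ℕ) : ℝ) / (((3 : ℕ) : ℝ) - 1)) = 3 / 2 := by norm_num
    rw [e] at h1
    exact all_trans (by norm_num) (by norm_num) (by norm_num) h1 hc
  fin_cases i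
  · exact key (fun _ => true) rfl hi
  · exact key (fun j => decide (j ≠ 2)) rfl hi
  · exact key (fun j => decide (j ≠ 1)) rfl hi
  · exact key (fun j => decide (j = 0)) rfl hi

theorem up_c {P : Set (List Bool)} {i j : Fin 4} (hij : i ≠ j) (hi : W3 i ∉ P) (hj : W3 j ∉ P)
    {lam : List ℕ} (hc : Comp 3 lam) : Ub 3 P lam 2 := by
  rcases comp3 hc with rfl | rfl | rfl | rfl
  · exact ub111 hij hi hj
  · exact ub12 hij hi hj
  · exact ub21 hij hi hj
  · refine trans (by norm_num) (l1 := []) (l2 := []) (s := 3) (by norm_num) hc (by norm_num)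
      (by norm_num) ?_
    intro q hq hq3
    have h : q = 1 ∨ q = 2 := by omega
    rcases h with rfl | rfl
    · exact ub12 hij hi hj
    · exact ub21 hij hi hj

theorem up_d {P : Set (List Bool)} (h1 : ∀ i j, W3 i ∈ P → W3 j ∈ P → i = j)
    (h2 : ∀ i j, W12 i ∈ P → W12 j ∈ P → i = j) {l : List ℕ} (hc : Comp 3 (1 :: l)) :
    Ub 3 P (1 :: l) 3 := by
  apply ub_one hc
  have ht : Thin 3 {w | w ∈ P ∧ ∃ v, w = true :: false :: v} := by
    apply thin3
    · intro i j hi hj
      exact h1 i j hi.1 hj.1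
    · intro i j hi hj
      exact h2 i j hi.1 hj.1
    · intro i j hi hj
      exfalso
      obtain ⟨_, v, hv⟩ := hi
      fin_cases i <;> simp [W21] at hv
  have h := thin_ub (by norm_num : 2 ≤ 3) ht hc
  exact_mod_cast h

theorem up_e {P : Set (List Bool)} (h1 : ∀ i j, W3 i ∈ P → W3 j ∈ P → i = j)
    (h2 : ∀ i j, W12 i ∈ P → W12 j ∈ P → i = j) (h3 : ∀ i j, W21 i ∈ P → W21 j ∈ P → i = j)
    {lam : List ℕ} (hc : Comp 3 lam) : Ub 3 P lam 3 := by
  have h := thin_ub (by norm_num : 2 ≤ 3) (thin3 h1 h2 h3) hc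
  exact_mod_cast h

end Pool.Agent.Work.MP_7d1693_pr.FX
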