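import Pool.Agent.Work.MP_7d1693_pr.FX.Defs
import Pool.Agent.Work.MP_7d1693_pr.FX.Ev
import Pool.Agent.Work.MP_7d1693_pr.FX.R3Up
import Pool.Agent.Work.MP_7d1693_pr.FX.R3Low
import Pool.Agent.Work.MP_7d1693_pr.FX.Adm3
import Pool.Agent.Work.MP_7d1693_pr.FM.NoAdm

/-! # Module R3 (M): the order of magnitude for `r = 3`, every `P`

If there is no admissible type then by `adm3` all counts are `0` and `g3 = 0`: the first bound is trivial (the event `z < 0` is impossible, `C/0 = 0`) and `no_adm` gives `R` with probability `0` for `z > R`; take `C = R + 1`. Otherwise `ev` with `g = g3 P`. `n (t/n)^1 = t`, `n (t/n)^2 = t^2/n`, `n (t/n)^3 = t^3/n^2`, and `t^3/n^2 ≤ t^2/n ≤ t`. Cases: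
* `cnt P W3 = 4`: `g3 ≥ t`; upper: `up_a`, `p = 1` for all types. Lower list `L = [([1,1,1],1)]` (`g3 = t`: all other terms are at most `t`, as `t ≥ 1`).
* `cnt P W3 = 3`: `g3 ≥ t^(2/3)`; upper: `up_b`, `p = 3/2`: `(t^2/n)^(2/3) ≤ t^(2/3)` etc. Lower: `low_b`, `L = [([1,1,1],3/2)]`, the other terms of `g3` are `(t^2/n)^(1/2) ≤ t^(1/2) ≤ t^(2/3)` etc. (`t ≥ 1`).
* `cnt P W3 = 2`: `g3 = t^(1/2)`; upper: `up_c`, `p = 2`; lower: `low_c`.
* `cnt P W3 ≤ 1`, `cnt P W12 = 2`: `g3 = t^(1/2)`; upper: `up_c` (`p = 2`); lower: `lb12`.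
* `cnt P W3 ≤ 1`, `cnt P W12 ≤ 1`, `cnt P W21 = 2`: upper: types `[1,1,1]`, `[1,2]`: `up_d`, `p = 3` and `t^(1/3) ≤ g3` when such a type is admissible; types `[2,1]`, `[3]`: `up_c`, `p = 2`: `(t^3/n^2)^(1/2) ≤ (t^2/n)^(1/2) ≤ g3`. Lower: `L` contains `([2,1],2)` (`lb21`), `([1,1,1],3)` or `([1,2],3)` if admissible, `([3],3)` if admissible.
* all three at most `1`: `up_e`, `p = 3` for all types, `low_d` for all types, each term of `g3` is the term of an admissible type.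
The counts: `cnt P W3 = 4` iff all `W3 i ∈ P`; `≤ 3`: some missing; `= 3`: exactly one missing; `≤ 2`: two different are missing; `= 2`: two different present; `≤ 1`: any two present are equal (`Finset.card_le_one`, `Finset.one_lt_card`, complement cardinal; `Fin 4` is small: `Fin` case analysis with `simp [cnt, Finset.univ, ...]` also works). -/

namespace Pool.Agent.Work.MP_7d1693_pr.FX

open Finset FM

/-! counting -/

private theorem r3_all {m : ℕ} {P : Set (List Bool)} {w : Fin m → List Bool}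
    (h : cnt P w = m) : ∀ i, w i ∈ P := by
  classical
  intro i
  unfold cnt at h
  have h1 : (Finset.univ.filter fun i => w i ∈ P) = Finset.univ := by
    apply Finset.eq_univ_of_card
    rw [Fintype.card_fin]
    exact h
  have h2 : i ∈ (Finset.univ.filter fun i => w i ∈ P) := by
    rw [h1]
    exact Finset.mem_univ i
  exact (Finset.mem_filter.1 h2).2

private theorem r3_le {m : ℕ} (P : Set (List Bool)) (w : Fin m → List Bool) : cnt P w ≤ m := by
  classical
  unfold cnt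
  have h1 := Finset.card_le_univ (Finset.univ.filter fun i => w i ∈ P)
  rw [Fintype.card_fin] at h1
  exact h1

private theorem r3_pos {m : ℕ} {P : Set (List Bool)} {w : Fin m → List Bool}
    (h : 0 < cnt P w) : ∃ i, w i ∈ P := by
  classical
  unfold cnt at h
  obtain ⟨i, hi⟩ := Finset.card_pos.1 h
  exact ⟨i, (Finset.mem_filter.1 hi).2⟩

private theorem r3_zero {m : ℕ} {P : Set (List Bool)} {w : Fin m → List Bool}
    (h : ∀ i, w i ∉ P) : cnt P w = 0 := by
  by_contra h1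
  obtain ⟨i, hi⟩ := r3_pos (Nat.pos_of_ne_zero h1)
  exact h i hi

private theorem r3_two {m : ℕ} {P : Set (List Bool)} {w : Fin m → List Bool}
    (h : 1 < cnt P w) : ∃ i j, i ≠ j ∧ w i ∈ P ∧ w j ∈ P := by
  classical
  unfold cnt at h
  obtain ⟨i, hi, j, hj, hij⟩ := Finset.one_lt_card.1 h
  exact ⟨i, j, hij, (Finset.mem_filter.1 hi).2, (Finset.mem_filter.1 hj).2⟩

private theorem r3_one {m : ℕ} {P : Set (List Bool)} {w : Fin m → List Bool}
    (h : cnt P w ≤ 1) : ∀ i j, w i ∈ P → w j ∈ P → i = j := by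
  classical
  intro i j hi hj
  unfold cnt at h
  exact Finset.card_le_one.1 h i (Finset.mem_filter.2 ⟨Finset.mem_univ _, hi⟩) j
    (Finset.mem_filter.2 ⟨Finset.mem_univ _, hj⟩)

private theorem r3_compl {m : ℕ} (P : Set (List Bool)) (w : Fin m → List Bool) :
    ∃ S : Finset (Fin m), (∀ i, i ∈ S ↔ w i ∉ P) ∧ cnt P w + S.card = m := by
  classical
  refine ⟨(Finset.univ.filter fun i => w i ∈ P)ᶜ, fun i => ?_, ?_⟩
  · rw [Finset.mem_compl, Finset.mem_filter]
    simp
  · have h1 := Finset.card_add_card_compl (Finset.univ.filter fun i => w i ∈ P)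
    rw [Fintype.card_fin] at h1
    unfold cnt
    exact h1

private theorem r3_missing {P : Set (List Bool)} (h : cnt P W3 ≤ 3) : ∃ i, W3 i ∉ P := by
  obtain ⟨S, hS, hc⟩ := r3_compl P W3
  have h1 : 0 < S.card := by omega
  obtain ⟨i, hi⟩ := Finset.card_pos.1 h1
  exact ⟨i, (hS i).1 hi⟩

private theorem r3_missing_two {P : Set (List Bool)} (h : cnt P W3 ≤ 2) :
    ∃ i j, i ≠ j ∧ W3 i ∉ P ∧ W3 j ∉ P := by
  obtain ⟨S, hS, hc⟩ := r3_compl P W3
  have h1 : 1 < S.card := by omega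
  obtain ⟨i, hi, j, hj, hij⟩ := Finset.one_lt_card.1 h1
  exact ⟨i, j, hij, (hS i).1 hi, (hS j).1 hj⟩

private theorem r3_three {P : Set (List Bool)} (h : cnt P W3 = 3) :
    ∃ i, ∀ j, j ≠ i → W3 j ∈ P := by
  obtain ⟨S, hS, hc⟩ := r3_compl P W3
  have h1 : S.card = 1 := by omega
  obtain ⟨i, hi⟩ := Finset.card_eq_one.1 h1
  refine ⟨i, fun j hj => ?_⟩
  by_contra h2
  have h3 := (hS j).2 h2
  rw [hi, Finset.mem_singleton] at h3
  exact hj h3

/-! real inequalities -/

private theorem r3_nu {n t : ℕ} (ht : 1 ≤ t) (htn : t ≤ n) :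
    (n : ℝ) * ((t : ℝ) / n) ^ 1 = t ∧ (n : ℝ) * ((t : ℝ) / n) ^ 2 = (t : ℝ) ^ 2 / n ∧
      (n : ℝ) * ((t : ℝ) / n) ^ 3 = (t : ℝ) ^ 3 / (n : ℝ) ^ 2 ∧
      (t : ℝ) ^ 2 / n ≤ t ∧ (t : ℝ) ^ 3 / (n : ℝ) ^ 2 ≤ (t : ℝ) ^ 2 / n ∧
      0 ≤ (t : ℝ) ^ 2 / n ∧ 0 ≤ (t : ℝ) ^ 3 / (n : ℝ) ^ 2 := by
  have ht0 : (0 : ℝ) < t := by exact_mod_cast ht
  have hn0 : (0 : ℝ) < n := by exact_mod_cast (ht.trans htn)
  have htn' : (t : ℝ) ≤ n := by exact_mod_cast htn
  refine ⟨by field_simp, by field_simp, by field_simp, ?_, ?_, by positivity, by positivity⟩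
  · rw [div_le_iff₀ hn0]
    nlinarith
  · rw [div_le_div_iff₀ (by positivity) hn0]
    have h1 : (t : ℝ) ^ 3 * n ≤ (t : ℝ) ^ 2 * (n : ℝ) * n := by
      have h2 : (t : ℝ) ^ 3 = (t : ℝ) ^ 2 * t := by ring
      rw [h2]
      have h3 : 0 ≤ (t : ℝ) ^ 2 := by positivity
      have h4 : (t : ℝ) ^ 2 * t ≤ (t : ℝ) ^ 2 * n := mul_le_mul_of_nonneg_left htn' h3
      exact mul_le_mul_of_nonneg_right h4 hn0.le
    calc (t : ℝ) ^ 3 * n ≤ (t : ℝ) ^ 2 * (n : ℝ) * n := h1
      _ = (t : ℝ) ^ 2 * (n : ℝ) ^ 2 := by ring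

open Classical in
/-- the three terms of `g3` -/
private noncomputable def r3A (P : Set (List Bool)) (t : ℕ) : ℝ :=
  if cnt P W3 = 4 then (t : ℝ) else
      if cnt P W3 = 3 then (t : ℝ) ^ (2 / 3 : ℝ) else
      if cnt P W3 = 2 ∨ cnt P W12 = 2 then (t : ℝ) ^ (1 / 2 : ℝ) else
      if cnt P W3 = 1 ∨ cnt P W12 = 1 then (t : ℝ) ^ (1 / 3 : ℝ) else 0

open Classical in
private noncomputable def r3B (P : Set (List Bool)) (n t : ℕ) : ℝ :=
  if cnt P W21 = 2 then ((t : ℝ) ^ 2 / n) ^ (1 / 2 : ℝ) else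
        if cnt P W21 = 1 then ((t : ℝ) ^ 2 / n) ^ (1 / 3 : ℝ) else 0

open Classical in
private noncomputable def r3C (P : Set (List Bool)) (n t : ℕ) : ℝ :=
  if W30 ∈ P then ((t : ℝ) ^ 3 / (n : ℝ) ^ 2) ^ (1 / 3 : ℝ) else 0

private theorem r3_g3 (P : Set (List Bool)) (n t : ℕ) :
    g3 P n t = max (r3A P t) (max (r3B P n t) (r3C P n t)) := by
  unfold g3 r3A r3B r3C
  rfl

private theorem r3A_le (P : Set (List Bool)) (n t : ℕ) : r3A P t ≤ g3 P n t := by
  rw [r3_g3]
  exact le_max_left _ _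

private theorem r3B_le (P : Set (List Bool)) (n t : ℕ) : r3B P n t ≤ g3 P n t := by
  rw [r3_g3]
  exact (le_max_left _ _).trans (le_max_right _ _)

private theorem r3C_le (P : Set (List Bool)) (n t : ℕ) : r3C P n t ≤ g3 P n t := by
  rw [r3_g3]
  exact (le_max_right _ _).trans (le_max_right _ _)

private theorem r3A_nonneg (P : Set (List Bool)) (t : ℕ) : 0 ≤ r3A P t := by
  unfold r3A
  split_ifs <;> positivity

private theorem r3_nonneg (P : Set (List Bool)) (n t : ℕ) : 0 ≤ g3 P n t :=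
  (r3A_nonneg P t).trans (r3A_le P n t)

/-- the upper bounds -/
private theorem r3_up {P : Set (List Bool)} {lam : List ℕ} (h : Adm 3 P lam) :
    ∃ p : ℝ, 0 < p ∧ Ub 3 P lam p ∧ ∃ C : ℝ, 0 < C ∧
      ∀ n t : ℕ, 1 ≤ t → t ≤ n →
        ((n : ℝ) * ((t : ℝ) / n) ^ (lam.headD 0)) ^ (1 / p) ≤ C * (g3 P n t + 1) := by
  have hcomp := adm_comp h
  have hadm := (adm3 P lam).1 h
  -- reduction
  have red : ∀ p : ℝ, 0 < p → Ub 3 P lam p → (∀ n t : ℕ, 1 ≤ t → t ≤ n →
      ((n : ℝ) * ((t : ℝ) / n) ^ (lam.headD 0)) ^ (1 / p) ≤ g3 P n t) →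
      ∃ p : ℝ, 0 < p ∧ Ub 3 P lam p ∧ ∃ C : ℝ, 0 < C ∧
      ∀ n t : ℕ, 1 ≤ t → t ≤ n →
        ((n : ℝ) * ((t : ℝ) / n) ^ (lam.headD 0)) ^ (1 / p) ≤ C * (g3 P n t + 1) := by
    intro p hp hub hle
    refine ⟨p, hp, hub, 1, one_pos, fun n t ht htn => ?_⟩
    have := hle n t ht htn
    linarith
  -- `ν ≤ t` for all types
  have hnu : ∀ n t : ℕ, 1 ≤ t → t ≤ n →
      0 ≤ (n : ℝ) * ((t : ℝ) / n) ^ (lam.headD 0) ∧
      (n : ℝ) * ((t : ℝ) / n) ^ (lam.headD 0) ≤ t := by
    intro n t ht htn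
    obtain ⟨e1, e2, e3, l1, l2, p1, p2⟩ := r3_nu ht htn
    rcases hadm with ⟨rfl, _⟩ | ⟨rfl, _⟩ | ⟨rfl, _⟩ | ⟨rfl, _⟩
    · simp only [List.headD_cons]
      rw [e1]
      exact ⟨Nat.cast_nonneg _, le_rfl⟩
    · simp only [List.headD_cons]
      rw [e1]
      exact ⟨Nat.cast_nonneg _, le_rfl⟩
    · simp only [List.headD_cons]
      rw [e2]
      exact ⟨p1, l1⟩
    · simp only [List.headD_cons]
      rw [e3]
      exact ⟨p2, l2.trans l1⟩
  have hA4 := r3_le P W3
  have hB2 := r3_le P W12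
  have hC2 := r3_le P W21
  by_cases h4 : cnt P W3 = 4
  · refine red 1 one_pos (up_a h) fun n t ht htn => ?_
    have h1 := r3A_le P n t
    unfold r3A at h1
    rw [if_pos h4] at h1
    rw [div_one, Real.rpow_one]
    exact (hnu n t ht htn).2.trans h1
  by_cases h3 : cnt P W3 = 3
  · obtain ⟨i, hi⟩ := r3_missing (P := P) (by omega)
    refine red (3 / 2) (by norm_num) (up_b hi hcomp) fun n t ht htn => ?_
    have h1 := r3A_le P n t
    unfold r3A at h1
    rw [if_neg h4, if_pos h3] at h1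
    refine le_trans ?_ h1
    have h5 : (1 / (3 / 2) : ℝ) = 2 / 3 := by norm_num
    rw [h5]
    exact Real.rpow_le_rpow (hnu n t ht htn).1 (hnu n t ht htn).2 (by norm_num)
  obtain ⟨i, j, hij, hi, hj⟩ := r3_missing_two (P := P) (by omega)
  by_cases h2 : cnt P W3 = 2 ∨ cnt P W12 = 2
  · refine red 2 (by norm_num) (up_c hij hi hj hcomp) fun n t ht htn => ?_
    have h1 := r3A_le P n t
    unfold r3A at h1
    rw [if_neg h4, if_neg h3, if_pos h2] at h1
    refine le_trans ?_ h1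
    exact Real.rpow_le_rpow (hnu n t ht htn).1 (hnu n t ht htn).2 (by norm_num)
  have u1 := r3_one (P := P) (w := W3) (by omega)
  have u2 := r3_one (P := P) (w := W12) (by omega)
  -- the types starting with `1`
  have hone : (cnt P W3 = 1 ∨ cnt P W12 = 1) → ∀ n t : ℕ,
      (t : ℝ) ^ (1 / 3 : ℝ) ≤ g3 P n t := by
    intro h1 n t
    have h5 := r3A_le P n t
    unfold r3A at h5
    rw [if_neg h4, if_neg h3, if_neg h2, if_pos h1] at h5
    exact h5
  by_cases hc : cnt P W21 = 2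
  · have hB : ∀ n t : ℕ, ((t : ℝ) ^ 2 / n) ^ (1 / 2 : ℝ) ≤ g3 P n t := by
      intro n t
      have h5 := r3B_le P n t
      unfold r3B at h5
      rw [if_pos hc] at h5
      exact h5
    rcases hadm with ⟨rfl, i', hi'⟩ | ⟨rfl, i', hi'⟩ | ⟨rfl, _⟩ | ⟨rfl, _⟩
    · have h1 : cnt P W3 = 1 := by
        have : cnt P W3 ≠ 0 := fun h0 => by
          have := r3_compl P W3
          obtain ⟨S, hS, hc⟩ := this
          have h6 : S = Finset.univ := Finset.eq_univ_of_card _ (by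
            rw [Fintype.card_fin]
            omega)
          have h7 := (hS i').1 (h6 ▸ Finset.mem_univ i')
          exact h7 hi'
        omega
      refine red 3 (by norm_num) (up_d u1 u2 hcomp) fun n t ht htn => ?_
      refine le_trans ?_ (hone (Or.inl h1) n t)
      exact Real.rpow_le_rpow (hnu n t ht htn).1 (hnu n t ht htn).2 (by norm_num)
    · have h1 : cnt P W12 = 1 := by
        have : cnt P W12 ≠ 0 := fun h0 => by
          have := r3_compl P W12
          obtain ⟨S, hS, hc⟩ := this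
          have h6 : S = Finset.univ := Finset.eq_univ_of_card _ (by
            rw [Fintype.card_fin]
            omega)
          have h7 := (hS i').1 (h6 ▸ Finset.mem_univ i')
          exact h7 hi'
        omega
      refine red 3 (by norm_num) (up_d u1 u2 hcomp) fun n t ht htn => ?_
      refine le_trans ?_ (hone (Or.inr h1) n t)
      exact Real.rpow_le_rpow (hnu n t ht htn).1 (hnu n t ht htn).2 (by norm_num)
    · refine red 2 (by norm_num) (up_c hij hi hj hcomp) fun n t ht htn => ?_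
      obtain ⟨e1, e2, e3, l1, l2, p1, p2⟩ := r3_nu ht htn
      refine le_trans ?_ (hB n t)
      simp only [List.headD_cons]
      rw [e2]
    · refine red 2 (by norm_num) (up_c hij hi hj hcomp) fun n t ht htn => ?_
      obtain ⟨e1, e2, e3, l1, l2, p1, p2⟩ := r3_nu ht htn
      refine le_trans ?_ (hB n t)
      simp only [List.headD_cons]
      rw [e3]
      exact Real.rpow_le_rpow p2 l2 (by norm_num)
  · have u3 := r3_one (P := P) (w := W21) (by omega)
    refine red 3 (by norm_num) (up_e u1 u2 u3 hcomp) fun n t ht htn => ?_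
    obtain ⟨e1, e2, e3, l1, l2, p1, p2⟩ := r3_nu ht htn
    rcases hadm with ⟨rfl, i', hi'⟩ | ⟨rfl, i', hi'⟩ | ⟨rfl, i', hi'⟩ | ⟨rfl, h30⟩
    · have h1 : cnt P W3 = 1 := by
        have : cnt P W3 ≠ 0 := fun h0 => by
          have := r3_compl P W3
          obtain ⟨S, hS, hc⟩ := this
          have h6 : S = Finset.univ := Finset.eq_univ_of_card _ (by
            rw [Fintype.card_fin]
            omega)
          have h7 := (hS i').1 (h6 ▸ Finset.mem_univ i')
          exact h7 hi'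
        omega
      refine le_trans ?_ (hone (Or.inl h1) n t)
      exact Real.rpow_le_rpow (hnu n t ht htn).1 (hnu n t ht htn).2 (by norm_num)
    · have h1 : cnt P W12 = 1 := by
        have : cnt P W12 ≠ 0 := fun h0 => by
          have := r3_compl P W12
          obtain ⟨S, hS, hc⟩ := this
          have h6 : S = Finset.univ := Finset.eq_univ_of_card _ (by
            rw [Fintype.card_fin]
            omega)
          have h7 := (hS i').1 (h6 ▸ Finset.mem_univ i')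
          exact h7 hi'
        omega
      refine le_trans ?_ (hone (Or.inr h1) n t)
      exact Real.rpow_le_rpow (hnu n t ht htn).1 (hnu n t ht htn).2 (by norm_num)
    · have h1 : cnt P W21 = 1 := by
        have : cnt P W21 ≠ 0 := fun h0 => by
          have := r3_compl P W21
          obtain ⟨S, hS, hc⟩ := this
          have h6 : S = Finset.univ := Finset.eq_univ_of_card _ (by
            rw [Fintype.card_fin]
            omega)
          have h7 := (hS i').1 (h6 ▸ Finset.mem_univ i')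
          exact h7 hi'
        omega
      have h5 := r3B_le P n t
      unfold r3B at h5
      rw [if_neg hc, if_pos h1] at h5
      refine le_trans ?_ h5
      simp only [List.headD_cons]
      rw [e2]
    · have h5 := r3C_le P n t
      unfold r3C at h5
      rw [if_pos h30] at h5
      refine le_trans ?_ h5
      simp only [List.headD_cons]
      rw [e3]

/-- the lower bounds -/
private theorem r3_low {P : Set (List Bool)} {n t : ℕ} (ht : 1 ≤ t) (htn : t ≤ n) :
    g3 P n t ≤ 1 ∨ ∃ x ∈ ([([1, 1, 1], 1), ([1, 1, 1], 3 / 2), ([1, 1, 1], 2), ([1, 1, 1], 3),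
      ([1, 2], 2), ([1, 2], 3), ([2, 1], 2), ([2, 1], 3), ([3], 3)] : List (List ℕ × ℝ)),
      (Adm 3 P x.1 ∧ 0 < x.2 ∧ Lb 3 P x.1 x.2) ∧
      g3 P n t ≤ ((n : ℝ) * ((t : ℝ) / n) ^ (x.1.headD 0)) ^ (1 / x.2) := by
  obtain ⟨e1, e2, e3, l1, l2, p1, p2⟩ := r3_nu ht htn
  have hB2 := r3_le P W12
  have hA4 := r3_le P W3
  have hC2 := r3_le P W21
  -- one term
  have key : ∀ τ : ℝ, g3 P n t = τ → (τ ≤ 1 ∨ ∃ x ∈ ([([1, 1, 1], 1), ([1, 1, 1], 3 / 2),
      ([1, 1, 1], 2), ([1, 1, 1], 3),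
      ([1, 2], 2), ([1, 2], 3), ([2, 1], 2), ([2, 1], 3), ([3], 3)] : List (List ℕ × ℝ)),
      (Adm 3 P x.1 ∧ 0 < x.2 ∧ Lb 3 P x.1 x.2) ∧
      τ ≤ ((n : ℝ) * ((t : ℝ) / n) ^ (x.1.headD 0)) ^ (1 / x.2)) →
      g3 P n t ≤ 1 ∨ ∃ x ∈ ([([1, 1, 1], 1), ([1, 1, 1], 3 / 2), ([1, 1, 1], 2), ([1, 1, 1], 3),
      ([1, 2], 2), ([1, 2], 3), ([2, 1], 2), ([2, 1], 3), ([3], 3)] : List (List ℕ × ℝ)),
      (Adm 3 P x.1 ∧ 0 < x.2 ∧ Lb 3 P x.1 x.2) ∧
      g3 P n t ≤ ((n : ℝ) * ((t : ℝ) / n) ^ (x.1.headD 0)) ^ (1 / x.2) := by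
    intro τ hτ h
    rw [hτ]
    exact h
  have a111 : ∀ i, W3 i ∈ P → Adm 3 P [1, 1, 1] := fun i hi =>
    (adm3 P _).2 (Or.inl ⟨rfl, i, hi⟩)
  have a12 : ∀ i, W12 i ∈ P → Adm 3 P [1, 2] := fun i hi =>
    (adm3 P _).2 (Or.inr (Or.inl ⟨rfl, i, hi⟩))
  have a21 : ∀ i, W21 i ∈ P → Adm 3 P [2, 1] := fun i hi =>
    (adm3 P _).2 (Or.inr (Or.inr (Or.inl ⟨rfl, i, hi⟩)))
  have a30 : W30 ∈ P → Adm 3 P [3] := fun hi =>
    (adm3 P _).2 (Or.inr (Or.inr (Or.inr ⟨rfl, hi⟩)))
  have hmax : g3 P n t = r3A P t ∨ g3 P n t = r3B P n t ∨ g3 P n t = r3C P n t := by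
    rw [r3_g3]
    rcases max_choice (r3A P t) (max (r3B P n t) (r3C P n t)) with h | h
    · exact Or.inl h
    · rcases max_choice (r3B P n t) (r3C P n t) with h' | h'
      · exact Or.inr (Or.inl (h.trans h'))
      · exact Or.inr (Or.inr (h.trans h'))
  rcases hmax with hm | hm | hm
  · refine key _ hm ?_
    unfold r3A
    split_ifs with h4 h3 h2 h1
    · have hall := r3_all h4
      refine Or.inr ⟨([1, 1, 1], 1), by simp, ⟨a111 0 (hall 0), one_pos, low_a hall⟩, ?_⟩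
      simp only [List.headD_cons]
      rw [e1, div_one, Real.rpow_one]
    · obtain ⟨i, hi⟩ := r3_three h3
      obtain ⟨j, hj⟩ := r3_pos (P := P) (w := W3) (by omega)
      refine Or.inr ⟨([1, 1, 1], 3 / 2), by simp, ⟨a111 j hj, by norm_num, low_b i hi⟩, ?_⟩
      simp only [List.headD_cons]
      rw [e1]
      have h5 : (1 / (3 / 2) : ℝ) = 2 / 3 := by norm_num
      rw [h5]
    · rcases h2 with h2 | h2
      · obtain ⟨i, j, hij, hi, hj⟩ := r3_two (P := P) (w := W3) (by omega)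
        refine Or.inr ⟨([1, 1, 1], 2), by simp, ⟨a111 j hj, by norm_num, low_c hij hi hj⟩, ?_⟩
        simp only [List.headD_cons]
        rw [e1]
      · have hall := r3_all h2
        refine Or.inr ⟨([1, 2], 2), by simp, ⟨a12 0 (hall 0), by norm_num, lb12 hall⟩, ?_⟩
        simp only [List.headD_cons]
        rw [e1]
    · rcases h1 with h1 | h1
      · obtain ⟨j, hj⟩ := r3_pos (P := P) (w := W3) (by omega)
        refine Or.inr ⟨([1, 1, 1], 3), by simp, ⟨a111 j hj, by norm_num, low_d (a111 j hj)⟩, ?_⟩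
        simp only [List.headD_cons]
        rw [e1]
      · obtain ⟨j, hj⟩ := r3_pos (P := P) (w := W12) (by omega)
        refine Or.inr ⟨([1, 2], 3), by simp, ⟨a12 j hj, by norm_num, low_d (a12 j hj)⟩, ?_⟩
        simp only [List.headD_cons]
        rw [e1]
    · exact Or.inl zero_le_one
  · refine key _ hm ?_
    unfold r3B
    split_ifs with h2 h1
    · have hall := r3_all h2
      refine Or.inr ⟨([2, 1], 2), by simp, ⟨a21 0 (hall 0), by norm_num, lb21 hall⟩, ?_⟩
      simp only [List.headD_cons]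
      rw [e2]
    · obtain ⟨j, hj⟩ := r3_pos (P := P) (w := W21) (by omega)
      refine Or.inr ⟨([2, 1], 3), by simp, ⟨a21 j hj, by norm_num, low_d (a21 j hj)⟩, ?_⟩
      simp only [List.headD_cons]
      rw [e2]
    · exact Or.inl zero_le_one
  · refine key _ hm ?_
    unfold r3C
    split_ifs with h1
    · refine Or.inr ⟨([3], 3), by simp, ⟨a30 h1, by norm_num, low_d (a30 h1)⟩, ?_⟩
      simp only [List.headD_cons]
      rw [e3]
    · exact Or.inl zero_le_one

theorem order3 (P : Set (List Bool)) : HasOrder 3 P (g3 P) := by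
  classical
  by_cases hP : ∃ lam, Adm 3 P lam
  · refine ev (by norm_num) hP (g3 P) (r3_nonneg P) (fun lam h => r3_up h)
      (([([1, 1, 1], 1), ([1, 1, 1], 3 / 2), ([1, 1, 1], 2), ([1, 1, 1], 3),
      ([1, 2], 2), ([1, 2], 3), ([2, 1], 2), ([2, 1], 3), ([3], 3)] : List (List ℕ × ℝ)).filter
        (fun x => decide (Adm 3 P x.1 ∧ 0 < x.2 ∧ Lb 3 P x.1 x.2))) ?_ ?_
    · intro x hx
      exact of_decide_eq_true (List.mem_filter.1 hx).2
    · refine ⟨1, one_pos, fun n t ht htn => ?_⟩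
      rcases r3_low (P := P) ht htn with h | ⟨x, hx, hgood, hle⟩
      · exact Or.inl h
      · refine Or.inr ⟨x, List.mem_filter.2 ⟨hx, decide_eq_true hgood⟩, ?_⟩
        rw [one_mul]
        exact hle
  · have h3 : ∀ i, W3 i ∉ P := fun i hi => hP ⟨_, (adm3 P _).2 (Or.inl ⟨rfl, i, hi⟩)⟩
    have h12 : ∀ i, W12 i ∉ P := fun i hi =>
      hP ⟨_, (adm3 P _).2 (Or.inr (Or.inl ⟨rfl, i, hi⟩))⟩
    have h21 : ∀ i, W21 i ∉ P := fun i hi =>
      hP ⟨_, (adm3 P _).2 (Or.inr (Or.inr (Or.inl ⟨rfl, i, hi⟩)))⟩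
    have h30 : W30 ∉ P := fun hi =>
      hP ⟨_, (adm3 P _).2 (Or.inr (Or.inr (Or.inr ⟨rfl, hi⟩)))⟩
    have hg : ∀ n t, g3 P n t = 0 := by
      intro n t
      rw [r3_g3]
      unfold r3A r3B r3C
      rw [r3_zero h3, r3_zero h12, r3_zero h21]
      simp [h30]
    obtain ⟨R, hR⟩ := no_adm (r := 3) (by norm_num) hP
    refine ⟨1, (R : ℝ) + 1, one_pos, by positivity, fun n t ht htn => ?_⟩
    have hcard : 3 * t ≤ (range (3 * n)).card := by
      rw [card_range]
      exact Nat.mul_le_mul_left _ htn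
    rw [hg]
    constructor
    · have h1 : {M : Finset (Finset ℕ) | (z P M : ℝ) < 1 * 0} = ∅ := by
        ext M
        simp
      rw [h1]
      simp
    · intro m hm
      have h1 : {M : Finset (Finset ℕ) | m * (0 + 1) ≤ (z P M : ℝ)} ⊆ {M | R < z P M} := by
        intro M hM
        simp only [Set.mem_ofPred_eq] at hM ⊢
        have h2 : (R : ℝ) < z P M := by linarith
        exact_mod_cast h2
      refine (MeasureTheory.measure_mono h1).trans ?_
      rw [process_eq 3 t (by norm_num) _ hcard, hR n t ht htn, ENNReal.ofReal_zero]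
      exact zero_le

end Pool.Agent.Work.MP_7d1693_pr.FX
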