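import Pool.Agent.Work.MP_7d1693_pr.FX.Defs
import Pool.Agent.Work.MP_7d1693_pr.FM.DefsK
import Pool.Agent.Work.MP_7d1693_pr.FM.PhiReg
import Pool.Agent.Work.MP_7d1693_pr.FM.ECard
import Pool.Agent.Work.MP_7d1693_pr.FM.Vert
import Pool.Agent.Work.MP_7d1693_pr.BAD

/-! # Module RhoLe (S-M): `rho` and the first parts

* `rho_head`: `ac_pos`: there is `K ∈ Cl r P (stdBox k 0 lam) k`. Its edges are disjoint `r`-sets inside `range (r k)` (`std_vert`) and there are `k` of them, so their union is `range (r k)` and `K ∈ CK r P k`. Let `a = lam.headD 0` (`lam ≠ []` as `r ≥ 1`). The first interval is `[0, k a)`; every edge has exactly `a ≥ 1` vertices in it, so all minima are `< k a` and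
`{v ∈ e : ∃ f ∈ K, v ≤ mn f} ⊆ e ∩ [0, k a)`: `hh K e ≤ a`; so `rho ≤ a` (`Nat.sInf_le`). (For `k = 0` the set contains every number, `CK` contains `∅`.)
* `rho_ge`: `R` from `few_bad`. Let `k > R`, `K ∈ CK r P k` with `hh K e ≤ rho` for all `e` (`Nat.sInf_mem`), `L = K.sup mn + 1`. `few_bad`: at most `R < k` edges have fewer than `a` vertices below `L`, so some `e ∈ K` has at least `a`, and `v < L` implies `v ≤ mn f` for the `f` with the largest minimum: `hh K e ≥ a`. -/

namespace Pool.Agent.Work.MP_7d1693_pr.FX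

open Finset FM

private theorem card_sup {r : ℕ} {K : Finset (Finset ℕ)} (hF : Fam r K) :
    (K.sup id).card = K.card * r := by
  classical
  rw [Finset.sup_eq_biUnion, Finset.card_biUnion]
  · have h1 : ∑ u ∈ K, (id u).card = ∑ _u ∈ K, r := Finset.sum_congr rfl (fun e he => hF.1 e he)
    rw [h1, Finset.sum_const, smul_eq_mul]
  · intro e he f hf hef
    exact hF.2 e he f hf hef

private theorem mem_CK {r : ℕ} {P : Set (List Bool)} {k : ℕ} {K : Finset (Finset ℕ)} :
    K ∈ CK r P k ↔ Fam r K ∧ K.sup id = range (r * k) ∧ IsClique P K := by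
  classical
  unfold CK PMs
  rw [mem_filter, mem_filter, mem_powerset]
  constructor
  · rintro ⟨⟨_, h1, h2⟩, h3⟩
    exact ⟨h1, h2, h3⟩
  · rintro ⟨h1, h2, h3⟩
    refine ⟨⟨fun e he => ?_, h1, h2⟩, h3⟩
    rw [mem_powerset, ← h2]
    exact Finset.le_sup (f := id) he

theorem rho_head {r : ℕ} (hr : 1 ≤ r) {P : Set (List Bool)} {lam : List ℕ} (h : Adm r P lam)
    (k : ℕ) : (CK r P k).Nonempty ∧ rho r P k ≤ lam.headD 0 := by
  classical
  have hpos := ac_pos hr h k
  unfold ac at hpos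
  obtain ⟨K, hK⟩ := Finset.card_pos.1 hpos
  unfold Cl at hK
  rw [mem_filter, mem_powersetCard] at hK
  obtain ⟨⟨hKE, hKc⟩, hF, hC⟩ := hK
  have hE : ∀ e ∈ K, e ⊆ range (r * k) ∧ InB (stdBox k 0 lam) 1 e := by
    intro e he
    have h1 := hKE he
    unfold Ebox at h1
    rw [mem_filter, mem_powersetCard, std_vert, h.1, zero_add, mul_comm k r,
      ← Finset.range_eq_Ico] at h1
    exact ⟨h1.1.1, h1.2⟩
  have hsup : K.sup id = range (r * k) := by
    apply Finset.eq_of_subset_of_card_le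
    · apply Finset.sup_le
      intro e he
      exact (hE e he).1
    · rw [card_sup hF, card_range, hKc, mul_comm]
  have hKCK : K ∈ CK r P k := mem_CK.2 ⟨hF, hsup, hC⟩
  refine ⟨⟨K, hKCK⟩, ?_⟩
  unfold rho
  apply Nat.sInf_le
  refine ⟨K, hKCK, ?_⟩
  have hcomp := adm_comp h
  cases lam with
  | nil =>
    have := h.1
    simp at this
    omega
  | cons a l =>
    have ha : 0 < a := hcomp.2 a (by simp)
    have hb : ∀ e ∈ K, (e.filter (fun v => 0 ≤ v ∧ v < 0 + k * a)).card = a := by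
      intro e he
      have h1 := (hE e he).2 (a, 0, 0 + k * a) (by simp [stdBox])
      simpa using h1
    have hmn : ∀ f ∈ K, mn f < k * a := by
      intro f hf
      have h1 : 0 < (f.filter (fun v => 0 ≤ v ∧ v < 0 + k * a)).card := by rw [hb f hf]; exact ha
      obtain ⟨v, hv⟩ := Finset.card_pos.1 h1
      rw [mem_filter] at hv
      have h2 := mn_le f v hv.1
      omega
    intro e he
    unfold hh
    rw [List.headD_cons, ← hb e he]
    apply Finset.card_le_card
    intro v hv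
    rw [mem_filter] at hv ⊢
    obtain ⟨hve, f, hf, hvf⟩ := hv
    have := hmn f hf
    exact ⟨hve, Nat.zero_le _, by omega⟩

theorem rho_ge {r : ℕ} (hr : 2 ≤ r) {P : Set (List Bool)} {a : ℕ}
    (ha : ∀ lam, Adm r P lam → a ≤ lam.headD 0) :
    ∃ R : ℕ, ∀ k, R < k → (CK r P k).Nonempty → a ≤ rho r P k := by
  classical
  obtain ⟨R, hR⟩ := few_bad r hr P a (by
    intro w hw lam a' hsum hty
    exact ha (a' :: lam) ⟨hsum, w, hw, hty⟩)
  refine ⟨R, fun k hk hne => ?_⟩
  have hset : {ρ : ℕ | ∃ K ∈ CK r P k, ∀ e ∈ K, hh K e ≤ ρ}.Nonempty := by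
    obtain ⟨K, hK⟩ := hne
    exact ⟨K.sup (hh K), K, hK, fun e he => Finset.le_sup he⟩
  obtain ⟨K, hK, hKr⟩ := Nat.sInf_mem hset
  change ∀ e ∈ K, hh K e ≤ rho r P k at hKr
  obtain ⟨hF, hsup, hC⟩ := mem_CK.1 hK
  have hcard : K.card = k := by
    have h1 := card_sup hF
    rw [hsup, card_range, mul_comm] at h1
    exact (Nat.eq_of_mul_eq_mul_right (by omega) h1).symm
  have hKne : K.Nonempty := by
    rw [← Finset.card_pos, hcard]
    omega
  obtain ⟨f, hf, hfs⟩ := Finset.exists_mem_eq_sup K hKne mn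
  have hbad := hR K (K.sup mn + 1) hF hC (fun e he => Nat.lt_succ_of_le (Finset.le_sup he))
  obtain ⟨e, he, hea⟩ : ∃ e ∈ K, a ≤ (e.filter (fun x => x < K.sup mn + 1)).card := by
    by_contra hcon
    push Not at hcon
    have h1 : K.filter (fun e => (e.filter (fun x => x < K.sup mn + 1)).card < a) = K :=
      Finset.filter_true_of_mem hcon
    rw [h1, hcard] at hbad
    omega
  refine (hea.trans ?_).trans (hKr e he)
  unfold hh
  apply Finset.card_le_card
  intro v hv
  rw [mem_filter] at hv ⊢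
  exact ⟨hv.1, f, hf, by rw [← hfs]; omega⟩

end Pool.Agent.Work.MP_7d1693_pr.FX
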