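import Pool.Agent.Work.MP_7d1693_pr.FX.Defs
import Pool.Agent.Work.MP_7d1693_pr.FX.GgSet

/-! # Module Sand (S): two-sided bounds for `gg`

`a` is the least first part. Lower bound: for `lam` with first part `a`, `phi_lb`: `1/(gg+1)^r ≤ phi (gg+1)`, so `gg_out` gives `n (t/n)^a < (gg+1)^r`. Upper bound: if `gg = 0` trivial; else `gg_in`
gives `lam` with `1 ≤ n (t/n)^(λ_1) phi(gg)`, `phi_reg` with `j = 1` and `phi_one`: `phi(gg) ≤ C1/gg`, `C1` the largest of the constants of the finitely many admissible types (`comps r`, `mem_comps`, `adm_comp`, as in `FM/Fin1`), and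
`(t/n)^(λ_1) ≤ (t/n)^a` because `a ≤ λ_1`, `t/n ≤ 1`: `gg ≤ C1 n (t/n)^a`. -/

namespace Pool.Agent.Work.MP_7d1693_pr.FX

open Finset FM

private theorem const {r : ℕ} (hr : 1 ≤ r) (P : Set (List Bool)) :
    ∃ C1 : ℝ, 1 ≤ C1 ∧ ∀ lam, Adm r P lam → ∀ k : ℕ, 1 ≤ k →
      phi r P lam k ≤ C1 * (1 / k) := by
  classical
  have hch : ∀ lam, ∃ C : ℝ, 1 ≤ C ∧ (Adm r P lam → ∀ k : ℕ, 1 ≤ k →
      phi r P lam k ≤ C * (1 / k)) := by
    intro lam
    by_cases h : Adm r P lam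
    · obtain ⟨C, hC, hC2⟩ := phi_reg hr h
      refine ⟨C, hC, fun _ k hk => ?_⟩
      have h1 := (hC2 1 k le_rfl hk).1
      rw [phi_one P h.1, mul_one, Nat.cast_one] at h1
      exact h1
    · exact ⟨1, le_refl _, fun h' => absurd h' h⟩
  choose g hg1 hg2 using hch
  set F := (comps r).filter (fun lam => Adm r P lam) with hF
  refine ⟨1 + ∑ lam ∈ F, g lam, ?_, ?_⟩
  · have : 0 ≤ ∑ lam ∈ F, g lam := Finset.sum_nonneg fun lam _ => by linarith [hg1 lam]
    linarith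
  · intro lam hlam k hk
    have hmem : lam ∈ F := by
      rw [hF, Finset.mem_filter]
      exact ⟨mem_comps.2 (adm_comp hlam), hlam⟩
    have hle : g lam ≤ 1 + ∑ lam ∈ F, g lam := by
      have := Finset.single_le_sum (f := g) (fun l _ => by linarith [hg1 l]) hmem
      linarith
    refine (hg2 lam hlam k hk).trans ?_
    exact mul_le_mul_of_nonneg_right hle (by positivity)

theorem sand {r : ℕ} (hr : 2 ≤ r) {P : Set (List Bool)} {a : ℕ}
    (ha : ∀ lam, Adm r P lam → a ≤ lam.headD 0) (ha2 : ∃ lam, Adm r P lam ∧ lam.headD 0 = a) :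
    ∃ C : ℝ, 0 < C ∧ ∀ n t : ℕ, 1 ≤ t → t ≤ n →
      (n : ℝ) * ((t : ℝ) / n) ^ a ≤ ((gg r P n t : ℝ) + 1) ^ r ∧
        (gg r P n t : ℝ) ≤ C * ((n : ℝ) * ((t : ℝ) / n) ^ a) := by
  have hr1 : 1 ≤ r := by omega
  obtain ⟨C1, hC1, hreg⟩ := const hr1 P
  obtain ⟨lam0, hlam0, hlam0a⟩ := ha2
  refine ⟨C1, by linarith, ?_⟩
  intro n t ht htn
  have hnp : (0 : ℝ) < n := by
    have : 0 < n := by omega
    exact_mod_cast this
  have htp : (0 : ℝ) < t := by exact_mod_cast ht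
  have htn1 : (t : ℝ) / n ≤ 1 := by
    rw [div_le_one hnp]
    exact_mod_cast htn
  have hq : 0 < (t : ℝ) / n := div_pos htp hnp
  constructor
  · have h1 := gg_out hr ⟨lam0, hlam0⟩ ht htn hlam0
    rw [hlam0a] at h1
    have h2 := phi_lb hr1 hlam0 (k := gg r P n t + 1) (by omega)
    push_cast at h2
    have hG : (0 : ℝ) < ((gg r P n t : ℝ) + 1) ^ r := by positivity
    have hx : 0 ≤ (n : ℝ) * ((t : ℝ) / n) ^ a := by positivity
    have h3 := mul_le_mul_of_nonneg_left h2 hx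
    have h4 : (n : ℝ) * ((t : ℝ) / n) ^ a * (1 / ((gg r P n t : ℝ) + 1) ^ r) < 1 :=
      lt_of_le_of_lt h3 h1
    rw [mul_one_div, div_lt_one hG] at h4
    exact h4.le
  · rcases Nat.eq_zero_or_pos (gg r P n t) with hz | hpos
    · rw [hz, Nat.cast_zero]
      have : 0 ≤ C1 := by linarith
      positivity
    · obtain ⟨lam, hlam, h1⟩ := gg_in hr ⟨lam0, hlam0⟩ ht htn hpos
      have hGp : (0 : ℝ) < gg r P n t := by exact_mod_cast hpos
      have h2 := hreg lam hlam (gg r P n t) hpos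
      have h3 : ((t : ℝ) / n) ^ (lam.headD 0) ≤ ((t : ℝ) / n) ^ a :=
        pow_le_pow_of_le_one hq.le htn1 (ha lam hlam)
      have h4 : (n : ℝ) * ((t : ℝ) / n) ^ (lam.headD 0) * phi r P lam (gg r P n t) ≤
          (n : ℝ) * ((t : ℝ) / n) ^ a * (C1 * (1 / (gg r P n t : ℝ))) := by
        apply mul_le_mul _ h2 (phi_nonneg _ _ _ _) (by positivity)
        exact mul_le_mul_of_nonneg_left h3 hnp.le
      have h5 : (1 : ℝ) ≤ (n : ℝ) * ((t : ℝ) / n) ^ a * (C1 * (1 / (gg r P n t : ℝ))) := h1.trans h4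
      have h6 : (n : ℝ) * ((t : ℝ) / n) ^ a * (C1 * (1 / (gg r P n t : ℝ))) * (gg r P n t : ℝ) =
          C1 * ((n : ℝ) * ((t : ℝ) / n) ^ a) := by
        field_simp
      rw [← h6]
      calc (gg r P n t : ℝ) = 1 * (gg r P n t : ℝ) := by ring
        _ ≤ _ := mul_le_mul_of_nonneg_right h5 hGp.le

end Pool.Agent.Work.MP_7d1693_pr.FX
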