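import Pool.Agent.Work.MP_7d1693_pr.FX.Defs
import Pool.Agent.Work.MP_7d1693_pr.FX.GgSet
import Pool.Agent.Work.MP_7d1693_pr.FX.MisUb
import Pool.Agent.Work.MP_7d1693_pr.FX.AllTrans
import Pool.Agent.Work.MP_7d1693_pr.FX.ThinUb
import Pool.Agent.Work.MP_7d1693_pr.FX.Adm3
import Pool.Agent.Work.MP_7d1693_pr.FM.Fin1
import Pool.Agent.Work.MP_7d1693_pr.FM.NoAdm

/-! # Module UpMis (S-M): some `r`-partite word missing: at most `t^(1-1/r)`

If there is an admissible type: `fin1` and `gg ≤ C' t^(1-1/r)`: as in the upper half of `ev`: `gg_in` gives `lam` with `1 ≤ ν phi(gg)`, `Ub r P lam p` with `p = r/(r-1)`: for `r ≥ 3` by `mis_ub`, `all_trans` (`p < 2`), for `r = 2` (`p = 2`): `Thin 2 P` by `thin2` (the words `wd 2 s` with `s 0 = true` are ABAB and ABBA, one is missing) and `thin_ub`; so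
`gg^p ≤ C ν ≤ C t`, `gg ≤ (C t)^(1/p)`, `1/p = 1 - 1/r`. Then `m t^(1-1/r) ≤ z` implies `(m/(2C')) (gg + 1) ≤ z` (`t ≥ 1`). Without an admissible type: `no_adm`, `z ≤ R` and `m t^(1-1/r) > R` for `m > R`. -/

namespace Pool.Agent.Work.MP_7d1693_pr.FX

open Finset FM

private theorem um_ub {r : ℕ} (hr : 2 ≤ r) {P : Set (List Bool)} (u : ℕ → Bool) (hu : u 0 = true)
    (h : wd r u ∉ P) {lam : List ℕ} (hc : Comp r lam) :
    Ub r P lam ((r : ℝ) / ((r : ℝ) - 1)) := by
  rcases Nat.lt_or_ge 2 r with h3 | h3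
  · have hr3 : (3 : ℝ) ≤ r := by exact_mod_cast h3
    refine all_trans (by omega) ?_ ?_ (mis_ub hr u hu h) hc
    · rw [le_div_iff₀ (by linarith)]; linarith
    · rw [div_lt_iff₀ (by linarith)]; linarith
  · obtain rfl : r = 2 := by omega
    have hp : ((2 : ℕ) : ℝ) / (((2 : ℕ) : ℝ) - 1) = ((2 : ℕ) : ℝ) := by norm_num
    rw [hp]
    refine thin_ub le_rfl (thin2 ?_) hc
    rintro ⟨ha, hb⟩
    apply h
    have hl : List.range 2 = [0, 1] := rfl
    rcases hu1 : u 1 with _ | _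
    · have : wd 2 u = [true, false, false, true] := by
        simp [wd, hl, word, hu, hu1]
      rw [this]; exact hb
    · have : wd 2 u = [true, false, true, false] := by
        simp [wd, hl, word, hu, hu1]
      rw [this]; exact ha

private theorem um_const {r : ℕ} (hr : 2 ≤ r) {P : Set (List Bool)} (u : ℕ → Bool)
    (hu : u 0 = true) (h : wd r u ∉ P) :
    ∃ C : ℝ, 0 < C ∧ ∀ lam, Adm r P lam → ∀ k : ℕ, 1 ≤ k →
      phi r P lam k ≤ C * (k : ℝ) ^ (-((r : ℝ) / ((r : ℝ) - 1))) := by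
  classical
  have hch : ∀ lam, ∃ C : ℝ, 0 < C ∧ (Adm r P lam → ∀ k : ℕ, 1 ≤ k →
      phi r P lam k ≤ C * (k : ℝ) ^ (-((r : ℝ) / ((r : ℝ) - 1)))) := by
    intro lam
    by_cases hA : Adm r P lam
    · obtain ⟨C, hC, hC2⟩ := um_ub hr u hu h (adm_comp hA)
      exact ⟨C, hC, fun _ => hC2⟩
    · exact ⟨1, one_pos, fun h' => absurd h' hA⟩
  choose g hg1 hg2 using hch
  set F := (comps r).filter (fun lam => Adm r P lam) with hF
  have hs : 0 ≤ ∑ lam ∈ F, g lam := Finset.sum_nonneg fun lam _ => (hg1 lam).le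
  refine ⟨1 + ∑ lam ∈ F, g lam, by linarith, ?_⟩
  intro lam hlam k hk
  have hmem : lam ∈ F := by
    rw [hF, Finset.mem_filter]
    exact ⟨mem_comps.2 (adm_comp hlam), hlam⟩
  have hle : g lam ≤ 1 + ∑ lam ∈ F, g lam := by
    have := Finset.single_le_sum (f := g) (fun l _ => (hg1 l).le) hmem
    linarith
  refine (hg2 lam hlam k hk).trans ?_
  exact mul_le_mul_of_nonneg_right hle (Real.rpow_nonneg (Nat.cast_nonneg _) _)

private theorem um_head {r : ℕ} (hr : 2 ≤ r) {lam : List ℕ} (hc : Comp r lam) :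
    1 ≤ lam.headD 0 := by
  rcases lam with _ | ⟨a, l⟩
  · have := hc.1
    simp at this
    omega
  · have := hc.2 a (by simp)
    exact this

theorem up_mis {r : ℕ} (hr : 2 ≤ r) {P : Set (List Bool)} (u : ℕ → Bool) (hu : u 0 = true)
    (h : wd r u ∉ P) : ∃ C : ℝ, 0 < C ∧ ∀ n t : ℕ, 1 ≤ t → t ≤ n → ∀ m : ℝ, C ≤ m →
      (process r t (range (r * n))).toOuterMeasure
        {M | m * (t : ℝ) ^ (1 - 1 / (r : ℝ)) ≤ (z P M : ℝ)} ≤
          ENNReal.ofReal (C / (m * (t : ℝ) ^ (1 - 1 / (r : ℝ)))) := by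
  have hr0 : 0 < r := by omega
  have hcard : ∀ n t : ℕ, t ≤ n → r * t ≤ (range (r * n)).card := fun n t h => by
    rw [card_range]; exact Nat.mul_le_mul_left _ h
  have hr2 : (2 : ℝ) ≤ r := by exact_mod_cast hr
  have hrp : (0 : ℝ) < r := by linarith
  have hr1p : (0 : ℝ) < (r : ℝ) - 1 := by linarith
  set q : ℝ := 1 - 1 / (r : ℝ) with hq
  set p : ℝ := (r : ℝ) / ((r : ℝ) - 1) with hp
  have hpp : 0 < p := div_pos hrp hr1p
  have hpq : p * q = 1 := by
    rw [hp, hq]
    field_simp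
  have hqp : 0 < q := by
    by_contra hcon
    have : p * q ≤ 0 := mul_nonpos_of_nonneg_of_nonpos hpp.le (not_lt.1 hcon)
    linarith
  by_cases hP : ∃ lam, Adm r P lam
  · obtain ⟨C0, hC0, hph⟩ := um_const hr u hu h
    obtain ⟨c1, C1, hc1, hC1, h1⟩ := fin1 hr hP
    have hCq : 0 < C0 ^ q := Real.rpow_pos_of_pos hC0 _
    have hgg : ∀ n t : ℕ, 1 ≤ t → t ≤ n → (gg r P n t : ℝ) ≤ C0 ^ q * (t : ℝ) ^ q := by
      intro n t ht htn
      rcases Nat.eq_zero_or_pos (gg r P n t) with h0 | h0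
      · rw [h0, Nat.cast_zero]
        positivity
      · obtain ⟨lam, hlam, h2⟩ := gg_in hr hP ht htn h0
        have hG : (0 : ℝ) < (gg r P n t : ℝ) := by exact_mod_cast h0
        have htp : (0 : ℝ) < t := by exact_mod_cast ht
        have hnp : (0 : ℝ) < n := by
          have : 0 < n := by omega
          exact_mod_cast this
        have htn' : (t : ℝ) / n ≤ 1 := by
          rw [div_le_one hnp]; exact_mod_cast htn
        have hnu : (n : ℝ) * ((t : ℝ) / n) ^ (lam.headD 0) ≤ t := by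
          have h3 : ((t : ℝ) / n) ^ (lam.headD 0) ≤ ((t : ℝ) / n) ^ 1 :=
            pow_le_pow_of_le_one (by positivity) htn' (um_head hr (adm_comp hlam))
          calc (n : ℝ) * ((t : ℝ) / n) ^ (lam.headD 0) ≤ n * ((t : ℝ) / n) ^ 1 :=
                mul_le_mul_of_nonneg_left h3 hnp.le
            _ = t := by field_simp
        have h3 : (1 : ℝ) ≤ t * (C0 * (gg r P n t : ℝ) ^ (-p)) := by
          refine h2.trans ?_
          exact mul_le_mul hnu (hph lam hlam _ h0) (phi_nonneg _ _ _ _) htp.le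
        have h4 : (gg r P n t : ℝ) ^ p ≤ C0 * t := by
          have h5 : (0 : ℝ) < (gg r P n t : ℝ) ^ p := Real.rpow_pos_of_pos hG _
          rw [Real.rpow_neg hG.le] at h3
          have h6 := mul_le_mul_of_nonneg_right h3 h5.le
          have h7 : (t : ℝ) * (C0 * ((gg r P n t : ℝ) ^ p)⁻¹) * (gg r P n t : ℝ) ^ p = C0 * t := by
            field_simp
          linarith
        have h5 := Real.rpow_le_rpow (by positivity) h4 hqp.le
        rwa [← Real.rpow_mul hG.le, hpq, Real.rpow_one, Real.mul_rpow hC0.le htp.le] at h5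
    set D : ℝ := C0 ^ q + 1 with hD
    have hD1 : 1 ≤ D := by linarith
    refine ⟨D * C1, by positivity, ?_⟩
    intro n t ht htn m hm
    have ht1 : (1 : ℝ) ≤ (t : ℝ) ^ q := Real.one_le_rpow (by exact_mod_cast ht) hqp.le
    have hGD : (gg r P n t : ℝ) + 1 ≤ D * (t : ℝ) ^ q := by
      have := hgg n t ht htn
      rw [hD, add_mul]
      linarith
    have hGp : (0 : ℝ) < (gg r P n t : ℝ) + 1 := by positivity
    have hmp : 0 < m := lt_of_lt_of_le (by positivity) hm
    have hT : 0 < (t : ℝ) ^ q := by linarith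
    set m' : ℝ := m * (t : ℝ) ^ q / ((gg r P n t : ℝ) + 1) with hm'
    have hm1 : m' * ((gg r P n t : ℝ) + 1) = m * (t : ℝ) ^ q := by
      rw [hm']; field_simp
    have hm2 : C1 ≤ m' := by
      rw [hm', le_div_iff₀ hGp]
      calc C1 * ((gg r P n t : ℝ) + 1) ≤ C1 * (D * (t : ℝ) ^ q) :=
            mul_le_mul_of_nonneg_left hGD hC1.le
        _ = (D * C1) * (t : ℝ) ^ q := by ring
        _ ≤ m * (t : ℝ) ^ q := mul_le_mul_of_nonneg_right hm hT.le
    rw [process_eq r t hr0 _ (hcard n t htn)]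
    apply ENNReal.ofReal_le_ofReal
    have h2 := (h1 n t ht htn).2 m' hm2
    rw [hm1] at h2
    refine h2.trans ?_
    apply div_le_div_of_nonneg_right _ (by positivity)
    nlinarith
  · obtain ⟨R, hR⟩ := no_adm hr hP
    refine ⟨(R : ℝ) + 1, by positivity, ?_⟩
    intro n t ht htn m hm
    have ht1 : (1 : ℝ) ≤ (t : ℝ) ^ q := Real.one_le_rpow (by exact_mod_cast ht) hqp.le
    have hR0 : (0 : ℝ) ≤ R := Nat.cast_nonneg _
    have hmp : 0 < m := by linarith
    rw [process_eq r t hr0 _ (hcard n t htn)]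
    apply ENNReal.ofReal_le_ofReal
    have h2 : pr r t (range (r * n)) (fun M => m * (t : ℝ) ^ q ≤ (z P M : ℝ)) ≤
        pr r t (range (r * n)) (fun M => R < z P M) := by
      refine pr_mono r t _ _ _ fun M _ hM => ?_
      have h3 : (R : ℝ) < z P M := by nlinarith
      exact_mod_cast h3
    rw [hR n t ht htn] at h2
    exact h2.trans (by positivity)

end Pool.Agent.Work.MP_7d1693_pr.FX
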