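import Pool.Agent.Work.MP_7d1693_pr.FX.Defs
import Pool.Agent.Work.MP_7d1693_pr.FM.Full
import Pool.Agent.Work.MP_7d1693_pr.FM.Ex
import Pool.Agent.Work.MP_7d1693_pr.FM.Coup
import Pool.Agent.Work.MP_7d1693_pr.INCL
import Pool.Agent.Work.MP_7d1693_pr.OUT

/-! # Module HitAll (M): several sets of possible edges are hit with positive probability

`n0 = 2k + 4`. Choose `T i ⊆ S i` with exactly `m = ⌈c n^(r-1)⌉` elements (`m ≤ (S i).card`, `m ≤ (c+1) n^(r-1)`). In the full process (`t = n`) let `X M = ∏ i, ((T i ∩ M).card : ℝ) = ∑ f ∈ Fintype.piFinset T, if (∀ i, f i ∈ M) then 1 else 0` (`Finset.prod_univ_sum`). The sets `f i` are pairwise disjoint `r`-sets, so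
`pr_full`: `ex X = m^k pj r n k ≥ m^k ((r n)^(r-1))^(-k) ≥ (c/r^(r-1))^k =: x1` (`(r (n-i) - 1).choose (r-1) ≤ (r n)^(r-1)`). `X^2 = ∑_{f,g}` of the indicator of `range f ∪ range g ⊆ M`; its expectation is `0` if the union is not a family (on the outcomes `M` is a family, `out_struct`), else at most `(A/n^(r-1))^(card of the union)` by `pr_incl`, `incl_num` (`A = (r-1)! e^(r-1)`, increase to `A ≥ 1`); the
cardinal of the union is `k + #{i : f i ≠ g i}` (elements of different `S i` are disjoint, hence different). So `ex X^2 ≤ ∑_{f,g} ∏_i (A/n^(r-1)) (if f i = g i then 1 else A/n^(r-1)) = ∏_i (m A/n^(r-1) + m (m-1) (A/n^(r-1))^2) ≤ (B + B^2)^k =: x2`, `B = A (c+1)`. Cauchy-Schwarz: for the indicator `I` of `X ≠ 0` and real `λ`: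
`0 ≤ ex (X - λ I)^2 = ex X^2 - 2 λ ex X + λ^2 pr (X ≠ 0)`; `λ = ex X^2/ex X` gives `pr (X ≠ 0) ≥ (ex X)^2/ex X^2 ≥ x1^2/x2 = ε`. If `X M ≠ 0` all `S i ∩ M` are nonempty. The event is increasing and, because all `e ∈ S i` have `mn e < t`, it holds for `M` iff it holds for `M.filter (mn < t)`: `coup` with `N = n`, `b = t`. -/

namespace Pool.Agent.Work.MP_7d1693_pr.FX

open Finset FM

private theorem ex_zero_fun (r t : ℕ) (V : Finset ℕ) : ex r t V (fun _ => 0) = 0 := by
  have h := ex_mul r t V 0 (fun _ => 0)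
  simpa using h

private theorem pr_false' (r t : ℕ) (V : Finset ℕ) : pr r t V (fun _ => False) = 0 := by
  classical
  have h := ex_ind r t V (fun _ => False)
  rw [← h]
  refine Eq.trans ?_ (ex_zero_fun r t V)
  congr 1
  funext M
  simp

private theorem ex_ind' (r t : ℕ) (V : Finset ℕ) (E : Finset (Finset ℕ) → Prop)
    [DecidablePred E] : ex r t V (fun M => if E M then 1 else 0) = pr r t V E := by
  rw [← ex_ind]
  congr 1
  funext M
  by_cases h : E M
  · rw [if_pos h, if_pos h]
  · rw [if_neg h, if_neg h]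

open Classical in
private theorem second_moment (r t : ℕ) (V : Finset ℕ) (X : Finset (Finset ℕ) → ℝ) {x1 x2 : ℝ}
    (h1 : 0 < x1) (h2 : 0 < x2) (hx1 : x1 ≤ ex r t V X)
    (hx2 : ex r t V (fun M => X M ^ 2) ≤ x2) :
    x1 ^ 2 / x2 ≤ pr r t V (fun M => X M ≠ 0) := by
  set l : ℝ := x2 / x1 with hl
  have hl0 : 0 < l := div_pos h2 h1
  have e1 : (fun M => (X M - l * (if X M ≠ 0 then 1 else 0)) ^ 2) =
      fun M => (X M ^ 2 + ((-2 * l) * X M + l ^ 2 * (if X M ≠ 0 then 1 else 0))) := by
    funext M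
    by_cases h : X M = 0
    · rw [if_neg (by simpa using h), h]
      ring
    · rw [if_pos h]
      ring
  have h0 : 0 ≤ ex r t V (fun M => (X M - l * (if X M ≠ 0 then 1 else 0)) ^ 2) := by
    rw [← ex_zero_fun r t V]
    apply ex_mono
    intro M _
    exact sq_nonneg _
  rw [e1, ex_add, ex_add, ex_mul, ex_mul, ex_ind' r t V (fun M => X M ≠ 0)] at h0
  set p := pr r t V (fun M => X M ≠ 0) with hp
  have h3 : l * x1 = x2 := by
    rw [hl]
    field_simp
  have h4 : l * x1 ≤ l * ex r t V X := mul_le_mul_of_nonneg_left hx1 hl0.le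
  have h5 : x2 ≤ l ^ 2 * p := by
    rw [h3] at h4
    nlinarith
  rw [div_le_iff₀ h2]
  have h6 : x1 ^ 2 * x2 ≤ x1 ^ 2 * (l ^ 2 * p) := mul_le_mul_of_nonneg_left h5 (by positivity)
  have h7 : x1 ^ 2 * (l ^ 2 * p) = (p * x2) * x2 := by
    have : x1 ^ 2 * (l ^ 2 * p) = (l * x1) ^ 2 * p := by ring
    rw [this, h3]
    ring
  rw [h7] at h6
  exact le_of_mul_le_mul_right h6 h2

section comb

variable {r k : ℕ} {V : Finset ℕ} {S : Fin k → Finset (Finset ℕ)}

private theorem ne_of_dis (hr : 2 ≤ r) (hS : ∀ i, S i ⊆ V.powersetCard r)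
    (hd : ∀ i j, i ≠ j → ∀ e ∈ S i, ∀ f ∈ S j, Disjoint e f) {i j : Fin k} (hij : i ≠ j)
    {e f : Finset ℕ} (he : e ∈ S i) (hf : f ∈ S j) : e ≠ f := by
  rintro rfl
  have h1 := hd i j hij e he e hf
  rw [disjoint_self] at h1
  have h2 := (mem_powersetCard.1 (hS i he)).2
  have h3 : e = ∅ := h1
  rw [h3, card_empty] at h2
  omega

private theorem img_fam (hr : 2 ≤ r) (hS : ∀ i, S i ⊆ V.powersetCard r)
    (hd : ∀ i j, i ≠ j → ∀ e ∈ S i, ∀ f ∈ S j, Disjoint e f) {f : Fin k → Finset ℕ}
    (hf : ∀ i, f i ∈ S i) :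
    Fam r (univ.image f) ∧ (univ.image f).card = k ∧ ∀ e ∈ univ.image f, e ⊆ V := by
  have hinj : Function.Injective f := by
    intro i j hij
    by_contra hne
    exact ne_of_dis hr hS hd hne (hf i) (hf j) hij
  refine ⟨⟨?_, ?_⟩, ?_, ?_⟩
  · intro e he
    rw [mem_image] at he
    obtain ⟨i, -, rfl⟩ := he
    exact (mem_powersetCard.1 (hS i (hf i))).2
  · intro e he g hg hne
    rw [mem_image] at he hg
    obtain ⟨i, -, rfl⟩ := he
    obtain ⟨j, -, rfl⟩ := hg
    exact hd i j (fun h => hne (by rw [h])) _ (hf i) _ (hf j)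
  · rw [card_image_of_injective _ hinj, card_univ, Fintype.card_fin]
  · intro e he
    rw [mem_image] at he
    obtain ⟨i, -, rfl⟩ := he
    exact (mem_powersetCard.1 (hS i (hf i))).1

private theorem union_card (hr : 2 ≤ r) (hS : ∀ i, S i ⊆ V.powersetCard r)
    (hd : ∀ i j, i ≠ j → ∀ e ∈ S i, ∀ f ∈ S j, Disjoint e f) {f g : Fin k → Finset ℕ}
    (hf : ∀ i, f i ∈ S i) (hg : ∀ i, g i ∈ S i) :
    (univ.image f ∪ univ.image g).card = ∑ i, ({f i, g i} : Finset (Finset ℕ)).card := by
  have h1 : univ.image f ∪ univ.image g =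
      univ.biUnion (fun i => ({f i, g i} : Finset (Finset ℕ))) := by
    ext e
    simp only [mem_union, mem_image, mem_biUnion, mem_univ, true_and, mem_insert, mem_singleton]
    constructor
    · rintro (⟨i, rfl⟩ | ⟨i, rfl⟩)
      · exact ⟨i, Or.inl rfl⟩
      · exact ⟨i, Or.inr rfl⟩
    · rintro ⟨i, rfl | rfl⟩
      · exact Or.inl ⟨i, rfl⟩
      · exact Or.inr ⟨i, rfl⟩
  rw [h1, card_biUnion]
  intro i _ j _ hij
  change Disjoint ({f i, g i} : Finset (Finset ℕ)) {f j, g j}
  rw [Finset.disjoint_left]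
  intro e he he'
  have hei : e ∈ S i := by
    rw [mem_insert, mem_singleton] at he
    rcases he with rfl | rfl
    · exact hf i
    · exact hg i
  have hej : e ∈ S j := by
    rw [mem_insert, mem_singleton] at he'
    rcases he' with rfl | rfl
    · exact hf j
    · exact hg j
  exact ne_of_dis hr hS hd hij hei hej rfl

end comb

private theorem pr_pair {r k n : ℕ} (hr : 2 ≤ r) (hn : 2 * k + 4 ≤ n)
    {S : Fin k → Finset (Finset ℕ)} (hS : ∀ i, S i ⊆ (range (r * n)).powersetCard r)
    (hd : ∀ i j, i ≠ j → ∀ e ∈ S i, ∀ f ∈ S j, Disjoint e f) {f g : Fin k → Finset ℕ}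
    (hf : ∀ i, f i ∈ S i) (hg : ∀ i, g i ∈ S i) {a : ℝ} (ha : 0 ≤ a)
    (haa : a = ((r - 1).factorial : ℝ) * Real.exp (r - 1) / (n : ℝ) ^ (r - 1)) :
    pr r n (range (r * n)) (fun M => univ.image f ∪ univ.image g ⊆ M) ≤
      ∏ i, ((if f i = g i then a else 0) + a ^ 2) := by
  have hcard := union_card hr hS hd hf hg
  by_cases hF : Fam r (univ.image f ∪ univ.image g)
  · have hKV : ∀ e ∈ univ.image f ∪ univ.image g, e ⊆ range (r * n) := by
      intro e he
      rw [mem_union] at he
      rcases he with he | he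
      · exact (img_fam hr hS hd hf).2.2 e he
      · exact (img_fam hr hS hd hg).2.2 e he
    have hle : (univ.image f ∪ univ.image g).card ≤ n := by
      refine (card_union_le _ _).trans ?_
      rw [(img_fam hr hS hd hf).2.1, (img_fam hr hS hd hg).2.1]
      omega
    refine (pr_incl r hr n n le_rfl (range (r * n)) (card_range _) _ hF hKV).trans ?_
    refine (incl_num r hr n _ hle).trans ?_
    rw [← haa, hcard, ← Finset.prod_pow_eq_pow_sum]
    apply Finset.prod_le_prod
    · intro i _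
      positivity
    · intro i _
      by_cases h : f i = g i
      · rw [if_pos h, h, Finset.insert_eq_of_mem (mem_singleton_self _), card_singleton, pow_one]
        nlinarith [sq_nonneg a]
      · rw [if_neg h, card_pair h, zero_add]
  · have h0 : pr r n (range (r * n)) (fun M => univ.image f ∪ univ.image g ⊆ M) ≤ 0 := by
      rw [← pr_false' r n (range (r * n))]
      apply pr_mono
      intro M hM hsub
      apply hF
      have h1 := (out_struct r n (by omega) (range (r * n)) (by rw [card_range]) M hM).2.1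
      exact ⟨fun e he => h1.1 e (hsub he), fun e he f hf => h1.2 e (hsub he) f (hsub hf)⟩
    refine h0.trans ?_
    apply Finset.prod_nonneg
    intro i _
    split_ifs
    · positivity
    · positivity

private theorem pj_low {r n k : ℕ} (hr : 2 ≤ r) (hn : 2 * k + 4 ≤ n) :
    (1 / ((r : ℝ) * n) ^ (r - 1)) ^ k ≤ pj r n k := by
  unfold pj
  have h1 : (1 / ((r : ℝ) * n) ^ (r - 1)) ^ k =
      ∏ _i ∈ range k, (1 / ((r : ℝ) * n) ^ (r - 1)) := by
    rw [prod_const, card_range]
  rw [h1]
  apply Finset.prod_le_prod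
  · intro i _
    positivity
  · intro i hi
    rw [mem_range] at hi
    have hpos : 0 < (r * (n - i) - 1).choose (r - 1) := by
      apply Nat.choose_pos
      have : r * 1 ≤ r * (n - i) := Nat.mul_le_mul_left _ (by omega)
      omega
    apply one_div_le_one_div_of_le
    · exact_mod_cast hpos
    · have h2 : (r * (n - i) - 1).choose (r - 1) ≤ (r * n) ^ (r - 1) := by
        refine (Nat.choose_le_pow _ _).trans (Nat.pow_le_pow_left ?_ _)
        have : r * (n - i) ≤ r * n := Nat.mul_le_mul_left _ (by omega)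
        omega
      exact_mod_cast h2

theorem hit_all {r : ℕ} (hr : 2 ≤ r) (k : ℕ) {c : ℝ} (hc : 0 < c) :
    ∃ ε : ℝ, 0 < ε ∧ ∃ n0 : ℕ, ∀ n t : ℕ, n0 ≤ n → 1 ≤ t → t ≤ n →
      ∀ S : Fin k → Finset (Finset ℕ), (∀ i, S i ⊆ (range (r * n)).powersetCard r) →
      (∀ i, c * (n : ℝ) ^ (r - 1) ≤ ((S i).card : ℝ)) → (∀ i, ∀ e ∈ S i, mn e < t) →
      (∀ i j, i ≠ j → ∀ e ∈ S i, ∀ f ∈ S j, Disjoint e f) →
      ε ≤ pr r t (range (r * n)) (fun M => ∀ i, (S i ∩ M).Nonempty) := by
  classical
  have hr0 : (0 : ℝ) < r := by exact_mod_cast (by omega : 0 < r)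
  set A : ℝ := ((r - 1).factorial : ℝ) * Real.exp (r - 1) with hA
  have hA0 : 0 < A := by
    rw [hA]
    have : (0 : ℝ) < ((r - 1).factorial : ℝ) := by exact_mod_cast Nat.factorial_pos _
    exact mul_pos this (Real.exp_pos _)
  set B : ℝ := A * (c + 1) with hB
  have hB0 : 0 < B := mul_pos hA0 (by linarith)
  set x1 : ℝ := (c / (r : ℝ) ^ (r - 1)) ^ k with hx1
  set x2 : ℝ := (B + B ^ 2) ^ k with hx2
  have hx1p : 0 < x1 := by positivity
  have hx2p : 0 < x2 := by positivity
  refine ⟨x1 ^ 2 / x2, by positivity, 2 * k + 4, ?_⟩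
  intro n t hn ht htn S hS hSc hSm hd
  have hn0 : (0 : ℝ) < n := by exact_mod_cast (by omega : 0 < n)
  have hn1 : (1 : ℝ) ≤ n := by exact_mod_cast (by omega : 1 ≤ n)
  set D : ℝ := (n : ℝ) ^ (r - 1) with hD
  have hD0 : 0 < D := by positivity
  have hD1 : 1 ≤ D := one_le_pow₀ hn1
  set m : ℕ := ⌈c * D⌉₊ with hm
  have hm1 : c * D ≤ m := Nat.le_ceil _
  have hm2 : (m : ℝ) ≤ (c + 1) * D := by
    have := (Nat.ceil_lt_add_one (a := c * D) (by positivity)).le
    rw [← hm] at this
    linarith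
  have hT : ∀ i, ∃ T ⊆ S i, T.card = m := fun i =>
    Finset.exists_subset_card_eq (Nat.ceil_le.2 (hSc i))
  choose T hTS hTm using hT
  have hTV : ∀ i, T i ⊆ (range (r * n)).powersetCard r := fun i => (hTS i).trans (hS i)
  have hTd : ∀ i j, i ≠ j → ∀ e ∈ T i, ∀ f ∈ T j, Disjoint e f :=
    fun i j hij e he f hf => hd i j hij e (hTS i he) f (hTS j hf)
  set a : ℝ := A / D with ha
  have ha0 : 0 ≤ a := by positivity
  set X : Finset (Finset ℕ) → ℝ :=
    fun M => ∑ f ∈ Fintype.piFinset T, (if univ.image f ⊆ M then (1 : ℝ) else 0) with hX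
  -- the first moment
  have hE1 : x1 ≤ ex r n (range (r * n)) X := by
    have e1 : ex r n (range (r * n)) X = ∑ f ∈ Fintype.piFinset T, pj r n k := by
      rw [hX, ex_sum]
      apply sum_congr rfl
      intro f hf
      rw [Fintype.mem_piFinset] at hf
      obtain ⟨h1, h2, h3⟩ := img_fam hr hTV hTd hf
      have h4 := pr_full hr n (range (r * n)) (card_range _) _ h1 h3
      rw [h2] at h4
      rw [← h4]
      exact ex_ind' r n (range (r * n)) (fun M => univ.image f ⊆ M)
    rw [e1, sum_const, nsmul_eq_mul, Fintype.card_piFinset]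
    simp only [hTm, prod_const, card_univ, Fintype.card_fin]
    push_cast
    have h5 := pj_low hr hn
    refine le_trans ?_ (mul_le_mul_of_nonneg_left h5 (by positivity))
    rw [← mul_pow, hx1]
    apply pow_le_pow_left₀ (by positivity)
    rw [mul_pow, ← hD, mul_one_div, div_le_div_iff₀ (by positivity) (by positivity)]
    have h6 : (0 : ℝ) < (r : ℝ) ^ (r - 1) := by positivity
    nlinarith [mul_le_mul_of_nonneg_right hm1 h6.le]
  -- the second moment
  have hE2 : ex r n (range (r * n)) (fun M => X M ^ 2) ≤ x2 := by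
    have e2 : (fun M => X M ^ 2) = fun M => ∑ f ∈ Fintype.piFinset T,
        ∑ g ∈ Fintype.piFinset T,
          (if univ.image f ∪ univ.image g ⊆ M then (1 : ℝ) else 0) := by
      funext M
      rw [hX, sq, sum_mul_sum]
      apply sum_congr rfl
      intro f _
      apply sum_congr rfl
      intro g _
      by_cases h1 : univ.image f ⊆ M
      · by_cases h2 : univ.image g ⊆ M
        · rw [if_pos h1, if_pos h2, if_pos (Finset.union_subset h1 h2), mul_one]
        · rw [if_neg h2, mul_zero, if_neg (fun h => h2 (Finset.union_subset_iff.1 h).2)]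
      · rw [if_neg h1, zero_mul, if_neg (fun h => h1 (Finset.union_subset_iff.1 h).1)]
    rw [e2, ex_sum]
    have hb : ∀ f ∈ Fintype.piFinset T, ex r n (range (r * n)) (fun M =>
        ∑ g ∈ Fintype.piFinset T, (if univ.image f ∪ univ.image g ⊆ M then (1 : ℝ) else 0)) ≤
        (a + m * a ^ 2) ^ k := by
      intro f hf
      rw [Fintype.mem_piFinset] at hf
      rw [ex_sum]
      have hb1 : ∀ g ∈ Fintype.piFinset T, ex r n (range (r * n)) (fun M =>
          (if univ.image f ∪ univ.image g ⊆ M then (1 : ℝ) else 0)) ≤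
          ∏ i, ((if f i = g i then a else 0) + a ^ 2) := by
        intro g hg
        rw [Fintype.mem_piFinset] at hg
        have h1 := pr_pair hr hn hTV hTd hf hg ha0 (by rw [ha, hA, hD])
        rw [← ex_ind' r n (range (r * n)) (fun M => univ.image f ∪ univ.image g ⊆ M)] at h1
        exact h1
      refine (sum_le_sum hb1).trans ?_
      have e3 : ∑ g ∈ Fintype.piFinset T, ∏ i, ((if f i = g i then a else 0) + a ^ 2) =
          ∏ i, ∑ e ∈ T i, ((if f i = e then a else 0) + a ^ 2) :=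
        (Finset.prod_univ_sum T (fun i e => (if f i = e then a else 0) + a ^ 2)).symm
      rw [e3]
      have e4 : ∀ i ∈ (univ : Finset (Fin k)), ∑ e ∈ T i, ((if f i = e then a else 0) + a ^ 2) =
          a + m * a ^ 2 := by
        intro i _
        rw [sum_add_distrib, sum_const, nsmul_eq_mul, hTm, sum_ite_eq, if_pos (hf i)]
      rw [prod_congr rfl e4, prod_const, card_univ, Fintype.card_fin]
    refine (sum_le_sum hb).trans ?_
    rw [sum_const, nsmul_eq_mul, Fintype.card_piFinset]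
    simp only [hTm, prod_const, card_univ, Fintype.card_fin]
    push_cast
    rw [← mul_pow, hx2]
    apply pow_le_pow_left₀ (by positivity)
    have h1 : (m : ℝ) * a ≤ B := by
      rw [ha, hB, mul_div_assoc', div_le_iff₀ hD0]
      nlinarith [mul_le_mul_of_nonneg_right hm2 hA0.le]
    have h0 : 0 ≤ (m : ℝ) * a := by positivity
    nlinarith [mul_le_mul h1 h1 h0 hB0.le]
  have h2m := second_moment r n (range (r * n)) X hx1p hx2p hE1 hE2
  refine h2m.trans ?_
  have hmono : ∀ M M' : Finset (Finset ℕ), M ⊆ M' → (∀ i, (S i ∩ M).Nonempty) →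
      (∀ i, (S i ∩ M').Nonempty) := by
    intro M M' hMM h i
    exact (h i).mono (inter_subset_inter_left hMM)
  have hcoup := coup hr htn (card_range (r * n)) (b := t) (by
    have h1 : (range (r * n)).filter (fun x => x < t) ⊆ range t := by
      intro x hx
      rw [mem_filter] at hx
      exact mem_range.2 hx.2
    have h2 := card_le_card h1
    rwa [card_range] at h2) (fun M => ∀ i, (S i ∩ M).Nonempty) hmono
  refine le_trans ?_ hcoup
  apply pr_mono
  intro M _ hM i
  rw [hX] at hM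
  obtain ⟨f, hf, hf0⟩ := Finset.exists_ne_zero_of_sum_ne_zero hM
  rw [Fintype.mem_piFinset] at hf
  have hfM : univ.image f ⊆ M := by
    by_contra hc'
    exact hf0 (if_neg hc')
  refine ⟨f i, ?_⟩
  rw [mem_inter, mem_filter]
  exact ⟨hTS i (hf i), hfM (mem_image_of_mem _ (mem_univ _)), hSm i _ (hTS i (hf i))⟩

end Pool.Agent.Work.MP_7d1693_pr.FX
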