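import Pool.Agent.Work.MP_7d1693_pr.FX.Defs
import Pool.Agent.Work.MP_7d1693_pr.FX.HitAll
import Pool.Agent.Work.MP_7d1693_pr.FM.DefsK
import Pool.Agent.Work.MP_7d1693_pr.FM.FixLow

/-! # Module WinLow (M): cliques of fixed size with positive probability in the window

Read `FM/FixLow` (copy its private definitions and lemmas): for `K ∈ CK r P k` with `hh K e ≤ ρ = rho r P k` for all `e ∈ K`, `w = t/(r k) ≥ 1` (here `r k ≤ t` is assumed), `W = n/k`, it constructs for every `e ∈ K` a set `S_e` of `r`-subsets of `range (r n)` with minimum `< t`, `S_e.card = w^h W^(r-h)`, `h = hh K e`, such that the sets of different `S_e` are disjoint and any choice of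
`e' ∈ S_e` for all `e ∈ K` is a `P`-clique with `k` edges. `S_e.card ≥ c t^h n^(r-h) = c n^r (t/n)^h ≥ c n^r (t/n)^ρ ≥ c D n^(r-1)`. Enumerate `K` by `Fin k` (`Finset.equivFin`) and use `hit_all`: with probability at least `ε` all `S_e` are hit by `M`, and then `k ≤ z P M`. -/

namespace Pool.Agent.Work.MP_7d1693_pr.FX

open Finset FM

/-- left end of the interval of position `v` -/
private def lft (p w W v : ℕ) : ℕ := if v < p then v * w else p * w + (v - p) * W

/-- length of the interval of position `v` -/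
private def len (p w W v : ℕ) : ℕ := if v < p then w else W

private theorem lft_add {p w W v v' : ℕ} (h : v < v') :
    lft p w W v + len p w W v ≤ lft p w W v' := by
  unfold lft len
  by_cases h1 : v < p
  · rw [if_pos h1, if_pos h1]
    by_cases h2 : v' < p
    · rw [if_pos h2]
      calc v * w + w = (v + 1) * w := by ring
        _ ≤ v' * w := Nat.mul_le_mul_right _ h
    · rw [if_neg h2]
      calc v * w + w = (v + 1) * w := by ring
        _ ≤ p * w := Nat.mul_le_mul_right _ h1
        _ ≤ _ := Nat.le_add_right _ _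
  · have h2 : ¬ v' < p := by omega
    rw [if_neg h1, if_neg h1, if_neg h2, add_assoc]
    apply Nat.add_le_add_left
    calc (v - p) * W + W = (v - p + 1) * W := by ring
      _ ≤ (v' - p) * W := Nat.mul_le_mul_right _ (by omega)

private theorem lft_le {p w W v : ℕ} (hw : w ≤ W) :
    lft p w W v + len p w W v ≤ (v + 1) * W := by
  unfold lft len
  by_cases h1 : v < p
  · rw [if_pos h1, if_pos h1]
    calc v * w + w = (v + 1) * w := by ring
      _ ≤ _ := Nat.mul_le_mul_left _ hw
  · rw [if_neg h1, if_neg h1]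
    calc p * w + (v - p) * W + W ≤ p * W + (v - p) * W + W := by
          gcongr
      _ = (p + (v - p) + 1) * W := by ring
      _ = (v + 1) * W := by rw [Nat.add_sub_cancel' (not_lt.1 h1)]

/-- `φ v` is in the interval of `v` for all `v ∈ e` -/
private def Okf (p w W : ℕ) (e : Finset ℕ) (φ : ℕ → ℕ) : Prop :=
  ∀ v ∈ e, lft p w W v ≤ φ v ∧ φ v < lft p w W v + len p w W v

private theorem ok_lt {p w W v v' x x' : ℕ} (hx : x < lft p w W v + len p w W v)
    (hx' : lft p w W v' ≤ x') (h : v < v') : x < x' :=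
  lt_of_lt_of_le hx ((lft_add h).trans hx')

private theorem ok_eq {p w W v v' x : ℕ} (h1 : lft p w W v ≤ x)
    (h2 : x < lft p w W v + len p w W v) (h3 : lft p w W v' ≤ x)
    (h4 : x < lft p w W v' + len p w W v') : v = v' := by
  rcases lt_trichotomy v v' with h | h | h
  · exact absurd (ok_lt h2 h3 h) (lt_irrefl _)
  · exact h
  · exact absurd (ok_lt h4 h1 h) (lt_irrefl _)

open Classical in
/-- sets with one vertex in each interval -/
private noncomputable def Se (r n p w W : ℕ) (e : Finset ℕ) : Finset (Finset ℕ) :=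
  ((range (r * n)).powersetCard r).filter (fun s => ∃ φ : ℕ → ℕ, Okf p w W e φ ∧ s = e.image φ)

private theorem card_Se {r n k p w W : ℕ} {e : Finset ℕ} (he : e.card = r)
    (hs : e ⊆ range (r * k)) (hw : w ≤ W) (hW : k * W ≤ n) :
    ∏ v ∈ e, len p w W v ≤ (Se r n p w W e).card := by
  classical
  have h0 : ∏ v ∈ e, len p w W v = (e.pi fun v => range (len p w W v)).card := by
    rw [Finset.card_pi]
    exact Finset.prod_congr rfl fun v _ => (Finset.card_range _).symm
  rw [h0]
  let Φ : ((a : ℕ) → a ∈ e → ℕ) → ℕ → ℕ := fun g v =>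
    if h : v ∈ e then lft p w W v + g v h else 0
  have hΦ : ∀ g (v : ℕ) (h : v ∈ e), Φ g v = lft p w W v + g v h := by
    intro g v h
    simp only [Φ, dif_pos h]
  have hok : ∀ g ∈ e.pi fun v => range (len p w W v), Okf p w W e (Φ g) := by
    intro g hg v hv
    have := Finset.mem_range.1 ((Finset.mem_pi.1 hg) v hv)
    rw [hΦ g v hv]
    constructor
    · exact Nat.le_add_right _ _
    · omega
  refine Finset.card_le_card_of_injOn (fun g => e.image (Φ g)) ?_ ?_
  · intro g hg
    have hg' : g ∈ e.pi fun v => range (len p w W v) := by exact_mod_cast hg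
    have h1 := hok g hg'
    have hmem : e.image (Φ g) ∈ Se r n p w W e := by
      unfold Se
      rw [Finset.mem_filter, Finset.mem_powersetCard]
      refine ⟨⟨?_, ?_⟩, Φ g, h1, rfl⟩
      · intro x hx
        obtain ⟨v, hv, rfl⟩ := Finset.mem_image.1 hx
        rw [Finset.mem_range]
        have h2 := Finset.mem_range.1 (hs hv)
        calc Φ g v < lft p w W v + len p w W v := (h1 v hv).2
          _ ≤ (v + 1) * W := lft_le hw
          _ ≤ (r * k) * W := Nat.mul_le_mul_right _ h2
          _ = r * (k * W) := by ring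
          _ ≤ r * n := Nat.mul_le_mul_left _ hW
      · rw [Finset.card_image_of_injOn, he]
        intro v hv v' hv' hvv
        have hv1 := h1 v (by exact_mod_cast hv)
        have hv2 := h1 v' (by exact_mod_cast hv')
        have hvv' : Φ g v = Φ g v' := hvv
        rw [← hvv'] at hv2
        exact ok_eq hv1.1 hv1.2 hv2.1 hv2.2
    exact_mod_cast hmem
  · intro g hg g' hg' hgg
    have hg1 : g ∈ e.pi fun v => range (len p w W v) := by exact_mod_cast hg
    have hg2 : g' ∈ e.pi fun v => range (len p w W v) := by exact_mod_cast hg'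
    funext v hv
    have h1 : Φ g v ∈ e.image (Φ g') := by
      have hgg' : e.image (Φ g) = e.image (Φ g') := hgg
      rw [← hgg']
      exact Finset.mem_image_of_mem _ hv
    obtain ⟨v', hv', h2⟩ := Finset.mem_image.1 h1
    have h3 := hok g hg1 v hv
    have h4 := hok g' hg2 v' hv'
    rw [h2] at h4
    have h5 := ok_eq h3.1 h3.2 h4.1 h4.2
    subst h5
    rw [hΦ g v hv, hΦ g' v hv] at h2
    omega

private theorem prod_len {p w W : ℕ} (e : Finset ℕ) :
    ∏ v ∈ e, len p w W v = w ^ (e.filter (fun v => v < p)).card *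
      W ^ (e.card - (e.filter (fun v => v < p)).card) := by
  unfold len
  rw [Finset.prod_ite, Finset.prod_const, Finset.prod_const]
  congr 2
  have := Finset.card_filter_add_card_filter_not (s := e) (fun v => v < p)
  omega

private theorem se_disj {r n p w W : ℕ} {e f : Finset ℕ} (hef : Disjoint e f) {s s' : Finset ℕ}
    (hs : s ∈ Se r n p w W e) (hs' : s' ∈ Se r n p w W f) : Disjoint s s' := by
  classical
  unfold Se at hs hs'
  rw [Finset.mem_filter] at hs hs'
  obtain ⟨-, φ, hφ, rfl⟩ := hs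
  obtain ⟨-, φ', hφ', rfl⟩ := hs'
  rw [Finset.disjoint_left]
  intro x hx hx'
  obtain ⟨v, hv, hvx⟩ := Finset.mem_image.1 hx
  obtain ⟨v', hv', hvx'⟩ := Finset.mem_image.1 hx'
  have h1 := hφ v hv
  have h2 := hφ' v' hv'
  rw [hvx] at h1
  rw [hvx'] at h2
  have h3 := ok_eq h1.1 h1.2 h2.1 h2.2
  subst h3
  exact Finset.disjoint_left.1 hef hv hv'

/-- the numerical estimate -/
private theorem num {r k n t h ρ w W s : ℕ} (hr : 2 ≤ r) (hk : 1 ≤ k) (ht : 1 ≤ t) (htn : t ≤ n)
    (hw : t ≤ 2 * r * k * w) (hW : n ≤ 2 * r * k * W) (hhr : h ≤ r) (hhρ : h ≤ ρ)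
    (hs : w ^ h * W ^ (r - h) ≤ s) {D : ℝ} (hD : D ≤ (n : ℝ) * ((t : ℝ) / n) ^ ρ) :
    D / (2 * r * k : ℝ) ^ r * (n : ℝ) ^ (r - 1) ≤ s := by
  have hn0 : (0 : ℝ) < n := by
    have : 0 < n := by omega
    exact_mod_cast this
  have ht0 : (0 : ℝ) < t := by
    have : 0 < t := by omega
    exact_mod_cast this
  have hτ0 : (0 : ℝ) < (t : ℝ) / n := div_pos ht0 hn0
  have hτ1 : (t : ℝ) / n ≤ 1 := by
    rw [div_le_one hn0]
    exact_mod_cast htn
  have hrk : (0 : ℝ) < (2 * r * k : ℝ) ^ r := by
    have h1 : 0 < 2 * r * k := Nat.mul_pos (by omega) (by omega)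
    have h2 : (0 : ℝ) < (2 * r * k : ℝ) := by exact_mod_cast h1
    positivity
  rw [div_mul_eq_mul_div, div_le_iff₀ hrk, mul_comm (s : ℝ)]
  have e1 : (n : ℝ) ^ (r - 1) * ((n : ℝ) * ((t : ℝ) / n) ^ ρ) = (n : ℝ) ^ r * ((t : ℝ) / n) ^ ρ := by
    rw [← mul_assoc, ← pow_succ, Nat.sub_add_cancel (by omega)]
  have e2 : (n : ℝ) ^ r * ((t : ℝ) / n) ^ h = (t : ℝ) ^ h * (n : ℝ) ^ (r - h) := by
    rw [div_pow]
    have : (n : ℝ) ^ r = (n : ℝ) ^ h * (n : ℝ) ^ (r - h) := by
      rw [← pow_add]
      congr 1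
      omega
    rw [this]
    field_simp
  have e3 : (2 * r * k : ℝ) ^ r = (2 * r * k : ℝ) ^ h * (2 * r * k : ℝ) ^ (r - h) := by
    rw [← pow_add]
    congr 1
    omega
  have hw' : (t : ℝ) ≤ 2 * r * k * w := by exact_mod_cast hw
  have hW' : (n : ℝ) ≤ 2 * r * k * W := by exact_mod_cast hW
  have hs' : (w : ℝ) ^ h * (W : ℝ) ^ (r - h) ≤ s := by exact_mod_cast hs
  calc D * (n : ℝ) ^ (r - 1) ≤ (n : ℝ) ^ (r - 1) * ((n : ℝ) * ((t : ℝ) / n) ^ ρ) := by
        rw [mul_comm]
        exact mul_le_mul_of_nonneg_left hD (by positivity)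
    _ = (n : ℝ) ^ r * ((t : ℝ) / n) ^ ρ := e1
    _ ≤ (n : ℝ) ^ r * ((t : ℝ) / n) ^ h := by
        refine mul_le_mul_of_nonneg_left ?_ (by positivity)
        exact pow_le_pow_of_le_one hτ0.le hτ1 hhρ
    _ = (t : ℝ) ^ h * (n : ℝ) ^ (r - h) := e2
    _ ≤ (2 * r * k * w : ℝ) ^ h * (2 * r * k * W : ℝ) ^ (r - h) := by
        gcongr
    _ = (2 * r * k : ℝ) ^ r * ((w : ℝ) ^ h * (W : ℝ) ^ (r - h)) := by
        rw [e3, mul_pow _ (w : ℝ), mul_pow _ (W : ℝ)]
        ring
    _ ≤ (2 * r * k : ℝ) ^ r * s := by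
        refine mul_le_mul_of_nonneg_left hs' (by positivity)

theorem win_low {r : ℕ} (hr : 2 ≤ r) (P : Set (List Bool)) {k : ℕ} (hk : 1 ≤ k)
    (hK : (CK r P k).Nonempty) {D : ℝ} (hD : 0 < D) :
    ∃ ε : ℝ, 0 < ε ∧ ∃ n0 : ℕ, ∀ n t : ℕ, n0 ≤ n → r * k ≤ t → t ≤ n →
      D ≤ (n : ℝ) * ((t : ℝ) / n) ^ (rho r P k) →
      ε ≤ pr r t (range (r * n)) (fun M => k ≤ z P M) := by
  classical
  -- an optimal clique
  have hex : ∃ K ∈ CK r P k, ∀ e ∈ K, hh K e ≤ rho r P k := by
    have hne : {ρ : ℕ | ∃ K ∈ CK r P k, ∀ e ∈ K, hh K e ≤ ρ}.Nonempty := by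
      obtain ⟨K, hK⟩ := hK
      refine ⟨K.sup (hh K), K, hK, fun e he => Finset.le_sup (f := hh K) he⟩
    exact Nat.sInf_mem hne
  obtain ⟨K, hKC, hKρ⟩ := hex
  set ρ := rho r P k with hρ
  unfold CK PMs at hKC
  rw [Finset.mem_filter, Finset.mem_filter] at hKC
  obtain ⟨⟨-, ⟨hKr, hKd⟩, hKs⟩, hKP⟩ := hKC
  have hsub : ∀ e ∈ K, e ⊆ range (r * k) := by
    intro e he
    rw [← hKs]
    exact Finset.le_sup (f := id) he
  have hKcard : K.card = k := by
    have h1 : (K.biUnion id).card = ∑ e ∈ K, (id e).card :=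
      Finset.card_biUnion fun e he f hf hef => hKd e he f hf hef
    have h2 : ∑ e ∈ K, (id e).card = ∑ _e ∈ K, r := Finset.sum_congr rfl fun e he => hKr e he
    rw [← Finset.sup_eq_biUnion, hKs, Finset.card_range, h2, Finset.sum_const,
      smul_eq_mul] at h1
    have hr0 : 0 < r := by omega
    nlinarith [Nat.eq_of_mul_eq_mul_left hr0 (by linarith : r * k = r * K.card)]
  have hKne : K.Nonempty := Finset.card_pos.1 (by omega)
  obtain ⟨f0, hf0, hf0m⟩ := Finset.exists_mem_eq_sup K hKne mn
  set p : ℕ := K.sup mn + 1 with hp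
  have hpk : p ≤ r * k := by
    rw [hp, hf0m]
    have hne : f0.Nonempty := Finset.card_pos.1 (by rw [hKr f0 hf0]; omega)
    have := Finset.mem_range.1 (hsub f0 hf0 (mn_mem f0 hne))
    omega
  have hhp : ∀ e, hh K e = (e.filter (fun v => v < p)).card := by
    intro e
    unfold hh
    congr 1
    apply Finset.filter_congr
    intro v _
    constructor
    · rintro ⟨f, hf, hv⟩
      have := Finset.le_sup (f := mn) hf
      omega
    · intro hv
      exact ⟨f0, hf0, by omega⟩
  have hrk0 : 0 < r * k := Nat.mul_pos (by omega) (by omega)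
  have hrk : (0 : ℝ) < (2 * r * k : ℝ) ^ r := by
    have h1 : 0 < 2 * r * k := Nat.mul_pos (by omega) (by omega)
    have h2 : (0 : ℝ) < (2 * r * k : ℝ) := by exact_mod_cast h1
    positivity
  obtain ⟨ε, hε, n0, hhit⟩ := hit_all hr k (div_pos hD hrk)
  refine ⟨ε, hε, n0, fun n t hn htr' htn hDt => ?_⟩
  have ht : 1 ≤ t := Nat.succ_le_of_lt (lt_of_lt_of_le hrk0 htr')
  set w := t / (r * k) with hwdef
  set W := n / k with hWdef
  have hw1 : 1 ≤ w := (Nat.one_le_div_iff hrk0).2 htr'
  have hkW : k * W ≤ n := Nat.mul_div_le n k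
  have hrkw : r * k * w ≤ t := Nat.mul_div_le t (r * k)
  have hwW : w ≤ W := by
    rw [hwdef, hWdef]
    refine (Nat.div_le_div_left (Nat.le_mul_of_pos_left k (by omega)) (by omega)).trans ?_
    exact Nat.div_le_div_right htn
  have hW1 : 1 ≤ W := hw1.trans hwW
  have hw2 : t ≤ 2 * r * k * w := by
    have h1 := Nat.div_add_mod t (r * k)
    have h2 := Nat.mod_lt t hrk0
    rw [← hwdef] at h1
    have h3 : r * k ≤ r * k * w := Nat.le_mul_of_pos_right _ hw1
    have h4 : 2 * r * k * w = r * k * w + r * k * w := by ring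
    omega
  have hW2 : n ≤ 2 * r * k * W := by
    have h1 := Nat.div_add_mod n k
    have h2 := Nat.mod_lt n (show k > 0 by omega)
    rw [← hWdef] at h1
    have h3 : k ≤ k * W := Nat.le_mul_of_pos_right _ hW1
    have h4 : 2 * (k * W) ≤ 2 * r * k * W := by
      calc 2 * (k * W) ≤ (2 * (k * W)) * r := Nat.le_mul_of_pos_right _ (by omega)
        _ = 2 * r * k * W := by ring
    omega
  let q : K ≃ Fin k := K.equivFinOfCardEq hKcard
  refine (hhit n t hn ht htn (fun i => Se r n p w W (q.symm i).1) ?_ ?_ ?_ ?_).trans ?_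
  · intro i
    exact Finset.filter_subset _ _
  · intro i
    have he : (q.symm i).1 ∈ K := (q.symm i).2
    have hce : (q.symm i).1.card = r := hKr _ he
    have h1 := card_Se (p := p) hce (hsub _ he) hwW hkW
    rw [prod_len, hce] at h1
    have hle := hKρ _ he
    rw [hhp] at hle
    exact num hr hk ht htn hw2 hW2 (hce ▸ Finset.card_filter_le _ _) hle h1 hDt
  · intro i s hs
    have he : (q.symm i).1 ∈ K := (q.symm i).2
    have hce : (q.symm i).1.card = r := hKr _ he
    unfold Se at hs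
    rw [Finset.mem_filter] at hs
    obtain ⟨-, φ, hφ, rfl⟩ := hs
    have hene : (q.symm i).1.Nonempty := Finset.card_pos.1 (by rw [hce]; omega)
    have h2 : mn (q.symm i).1 < p := by
      have := Finset.le_sup (f := mn) he
      omega
    have h3 := (hφ (mn (q.symm i).1) (mn_mem _ hene)).2
    have h4 : mn ((q.symm i).1.image φ) ≤ φ (mn (q.symm i).1) :=
      mn_le _ _ (Finset.mem_image_of_mem _ (mn_mem _ hene))
    have h5 : lft p w W (mn (q.symm i).1) + len p w W (mn (q.symm i).1) ≤ r * k * w := by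
      unfold lft len
      rw [if_pos h2, if_pos h2]
      calc mn (q.symm i).1 * w + w = (mn (q.symm i).1 + 1) * w := by ring
        _ ≤ (r * k) * w := Nat.mul_le_mul_right _ (by omega)
    omega
  · intro i j hij e he f hf
    refine se_disj (hKd _ (q.symm i).2 _ (q.symm j).2 ?_) he hf
    intro h
    exact hij (q.symm.injective (Subtype.ext h))
  · apply pr_mono
    intro M _ hM
    have hcon : ∀ e ∈ K, (Se r n p w W e ∩ M).Nonempty := by
      intro e he
      have h := hM (q ⟨e, he⟩)
      rwa [Equiv.symm_apply_apply] at h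
    have hch : ∀ e, ∃ s : Finset ℕ, ∃ φ : ℕ → ℕ, e ∈ K → (s ∈ M ∧ s.card = r ∧
        Okf p w W e φ ∧ s = e.image φ) := by
      intro e
      by_cases he : e ∈ K
      · obtain ⟨s, hs⟩ := hcon e he
        rw [Finset.mem_inter] at hs
        obtain ⟨hs1, hs2⟩ := hs
        unfold Se at hs1
        rw [Finset.mem_filter, Finset.mem_powersetCard] at hs1
        obtain ⟨⟨-, hs3⟩, φ, hφ, hs4⟩ := hs1
        exact ⟨s, φ, fun _ => ⟨hs2, hs3, hφ, hs4⟩⟩
      · exact ⟨∅, id, fun h => absurd h he⟩
    choose σ φ hσ using hch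
    have hinj : Set.InjOn σ (K : Set (Finset ℕ)) := by
      intro e he f hf hef
      have he' : e ∈ K := by exact_mod_cast he
      have hf' : f ∈ K := by exact_mod_cast hf
      by_contra hne
      obtain ⟨-, h2, h3, h4⟩ := hσ e he'
      obtain ⟨-, h6, h7, h8⟩ := hσ f hf'
      have hne' : (σ e).Nonempty := Finset.card_pos.1 (by rw [h2]; omega)
      obtain ⟨x, hx⟩ := hne'
      have hx' := hx
      rw [h4] at hx
      rw [hef, h8] at hx'
      obtain ⟨v, hv, hvx⟩ := Finset.mem_image.1 hx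
      obtain ⟨v', hv', hvx'⟩ := Finset.mem_image.1 hx'
      have h9 := h3 v hv
      have h10 := h7 v' hv'
      rw [hvx] at h9
      rw [hvx'] at h10
      have h11 := ok_eq h9.1 h9.2 h10.1 h10.2
      subst h11
      exact Finset.disjoint_left.1 (hKd e he' f hf' hne) hv hv'
    have hcl : IsClique P (K.image σ) := by
      intro a ha b hb hab
      obtain ⟨e, he, rfl⟩ := Finset.mem_image.1 ha
      obtain ⟨f, hf, rfl⟩ := Finset.mem_image.1 hb
      have hne : e ≠ f := by
        rintro rfl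
        exact absurd hab (lt_irrefl _)
      have hdis := hKd e he f hf hne
      obtain ⟨-, h2, h3, h4⟩ := hσ e he
      obtain ⟨-, h6, h7, h8⟩ := hσ f hf
      let ψ : ℕ → ℕ := fun v => if v ∈ e then φ e v else φ f v
      have hψe : ∀ v ∈ e, ψ v = φ e v := fun v hv => if_pos hv
      have hψf : ∀ v ∈ f, ψ v = φ f v := fun v hv =>
        if_neg (fun hc => Finset.disjoint_left.1 hdis hc hv)
      have hψ : ∀ v ∈ e ∪ f, lft p w W v ≤ ψ v ∧ ψ v < lft p w W v + len p w W v := by
        intro v hv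
        rcases Finset.mem_union.1 hv with hv | hv
        · rw [hψe v hv]; exact h3 v hv
        · rw [hψf v hv]; exact h7 v hv
      have hsm : StrictMonoOn ψ ((e ∪ f : Finset ℕ) : Set ℕ) := by
        intro v hv v' hv' hvv
        exact ok_lt (hψ v (by exact_mod_cast hv)).2 (hψ v' (by exact_mod_cast hv')).1 hvv
      have hie : e.image ψ = σ e := by
        rw [h4]
        exact Finset.image_congr fun v hv => hψe v (by exact_mod_cast hv)
      have hif : f.image ψ = σ f := by
        rw [h8]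
        exact Finset.image_congr fun v hv => hψf v (by exact_mod_cast hv)
      rw [← hie, ← hif, pat_image ψ e f hsm]
      apply hKP e he f hf
      have hene : e.Nonempty := Finset.card_pos.1 (by rw [hKr e he]; omega)
      have hfne : f.Nonempty := Finset.card_pos.1 (by rw [hKr f hf]; omega)
      have hsene : (σ e).Nonempty := Finset.card_pos.1 (by rw [h2]; omega)
      have hsfne : (σ f).Nonempty := Finset.card_pos.1 (by rw [h6]; omega)
      rw [(mn_eq e hene).2, (mn_eq f hfne).2]
      rw [(mn_eq _ hsene).2, (mn_eq _ hsfne).2] at hab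
      replace hab : mn (σ e) < mn (σ f) := WithTop.coe_lt_coe.1 hab
      have hgoal : mn e < mn f := ?_
      · exact WithTop.coe_lt_coe.2 hgoal
      by_contra hc
      have h9 : mn f < mn e := by
        rcases (not_lt.1 hc).eq_or_lt with h | h
        · exact absurd (mn_mem f hfne) (fun hc' =>
            Finset.disjoint_left.1 hdis (mn_mem e hene) (h ▸ hc'))
        · exact h
      have h10 : mn (σ f) ≤ ψ (mn f) := by
        apply mn_le
        rw [← hif]
        exact Finset.mem_image_of_mem _ (mn_mem f hfne)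
      have h11 : mn (σ e) ∈ σ e := mn_mem _ hsene
      rw [← hie] at h11
      obtain ⟨v, hv, hvm⟩ := Finset.mem_image.1 h11
      have h12 : mn f < v := lt_of_lt_of_le h9 (mn_le e v hv)
      have h13 : ψ (mn f) < ψ v := hsm
        (by exact_mod_cast Finset.mem_union_right _ (mn_mem f hfne))
        (by exact_mod_cast Finset.mem_union_left _ hv) h12
      rw [hie] at hvm
      omega
    have hsubM : K.image σ ⊆ M := by
      intro a ha
      obtain ⟨e, he, rfl⟩ := Finset.mem_image.1 ha
      exact (hσ e he).1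
    have hz := z_ge P hsubM hcl
    rw [Finset.card_image_of_injOn hinj, hKcard] at hz
    exact hz

end Pool.Agent.Work.MP_7d1693_pr.FX
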