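import Pool.Agent.Work.MP_7d1693_pr.FX.Defs
import Pool.Agent.Work.MP_7d1693_pr.FM.PhiReg
import Pool.Agent.Work.MP_7d1693_pr.FM.Vert
import Pool.Agent.Work.MP_7d1693_pr.BAD
import Pool.Agent.Work.MP_7d1693_pr.OUT
import Pool.Agent.Work.MP_7d1693_pr.PROC
import Pool.Agent.Work.MP_7d1693_pr.FM.Alt

/-! # Module WinUp (M): bounded cliques with positive probability in the window

`R` from `few_bad` (BAD) for `a` (as in `FM/Small`, look there): on an outcome whose edges all have fewer than `a` vertices below `L = r t`, every clique has at most `R` edges, so `z P M ≤ R` (all minima are `< r t` by `out_struct`). So it is enough to bound below the probability of `∀ e ∈ M, (e.filter (· < L)).card < a`.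
General claim: let `L`, `a ≥ 2`, `0 ≤ q ≤ 1`, `N0`, such that for every set `W` with `W.card ≥ N0` the number of `(r-1)`-subsets `S` of `W` with at least `a - 1` elements below `L` is at most `q (W.card choose (r-1))`. Then for `V.card - r s ≥ N0` (`V.card ≥ N0 + r s`): `pr r s V (fun M => ∀ e ∈ M, (e.filter (· < L)).card < a) ≥ (1 - q)^s`: induction on `s` with `pr_succ`
(the choices `S` with at most `a - 2` elements below `L` give edges `insert (mn V) S` with fewer than `a` such vertices; drop the other choices, `pr_nonneg`). The number of the bad `S` is at most `(L choose (a-1)) (W.card choose (r-a))`, and for `W.card ≥ r n/2 - 1`, `t ≤ n/4`, the quotient by `(W.card choose (r-1))` is at most `q = C1 (t/n)^(a-1)` with `C1 = C1(r)`.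
(If `a > r` there is no such edge at all, `q = 0`; in fact `a ≤ r`.) Given `D`: as `n (t/n)^a ≤ D`, `(t/n)^a ≤ D/n`, so for `n ≥ n0(D)`: `t ≤ n/4` and `q ≤ 1/2`; then `(1-q)^t ≥ exp(-2 q t) = exp (-2 C1 n (t/n)^a) ≥ exp (-2 C1 D) = ε`. (`V = range (r n)`: `V.card - r t ≥ r n - r n/4`.) -/

namespace Pool.Agent.Work.MP_7d1693_pr.FX

open Finset FM

/-- all edges have fewer than `a` vertices below `L` -/
private def Eg (L a : ℕ) (M : Finset (Finset ℕ)) : Prop :=
  ∀ e ∈ M, (e.filter (fun x => x < L)).card < a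

private theorem general {r L a : ℕ} (hr : 1 ≤ r) (ha : 1 ≤ a) {q : ℝ} (hq1 : q ≤ 1)
    {N0 : ℕ} (hN : ∀ W : Finset ℕ, N0 ≤ W.card →
      (((W.powersetCard (r - 1)).filter
        (fun S => a - 1 ≤ (S.filter (fun x => x < L)).card)).card : ℝ) ≤
        q * ((W.powersetCard (r - 1)).card : ℝ)) :
    ∀ (s : ℕ) (V : Finset ℕ), N0 + r * s ≤ V.card → (1 - q) ^ s ≤ pr r s V (Eg L a) := by
  classical
  intro s
  induction s with
  | zero =>
    intro V _
    rw [pow_zero, pr_zero, if_pos]
    intro e he
    exact absurd he (Finset.notMem_empty _)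
  | succ s ih =>
    intro V hV
    have hrV : r ≤ V.card := by
      have : r * (s + 1) = r * s + r := by ring
      omega
    have hVne : V.Nonempty := Finset.card_pos.1 (by omega)
    have hne := powersetCard_nonempty' r (by omega) V hrV
    set A := (V.erase (mn V)).powersetCard (r - 1) with hA
    have hApos : (0 : ℝ) < (A.card : ℝ) := by exact_mod_cast hne.card_pos
    rw [pr_succ, le_div_iff₀ hApos]
    set B := A.filter (fun S => a - 1 ≤ (S.filter (fun x => x < L)).card) with hB
    set G := A.filter (fun S => ¬ (a - 1 ≤ (S.filter (fun x => x < L)).card)) with hG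
    have hBG : B.card + G.card = A.card := Finset.card_filter_add_card_filter_not _
    have hBc : (B.card : ℝ) ≤ q * (A.card : ℝ) := by
      apply hN
      rw [Finset.card_erase_of_mem (proc_mn_mem V hVne)]
      have : r * (s + 1) = r * s + r := by ring
      omega
    have hGc : (1 - q) * (A.card : ℝ) ≤ (G.card : ℝ) := by
      have h1 : (B.card : ℝ) + G.card = A.card := by exact_mod_cast hBG
      linarith
    have hpow : 0 ≤ (1 - q) ^ s := pow_nonneg (by linarith) _
    have hgood : ∀ S ∈ G, (1 - q) ^ s ≤ pr r s (V \ insert (mn V) S)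
        (fun M => Eg L a (insert (insert (mn V) S) M)) := by
      intro S hS
      rw [hG, Finset.mem_filter] at hS
      obtain ⟨hSA, hSb⟩ := hS
      obtain ⟨-, -, h3⟩ := card_sdiff_insert r (by omega) V hVne S hSA
      refine (ih (V \ insert (mn V) S) ?_).trans (pr_mono _ _ _ _ _ ?_)
      · have : r * (s + 1) = r * s + r := by ring
        omega
      · intro M _ hM e he
        rcases Finset.mem_insert.1 he with rfl | he
        · have h4 : ((insert (mn V) S).filter (fun x => x < L)).card ≤
              (S.filter (fun x => x < L)).card + 1 := by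
            calc ((insert (mn V) S).filter (fun x => x < L)).card
                ≤ (insert (mn V) (S.filter (fun x => x < L))).card := by
                  apply Finset.card_le_card
                  intro x hx
                  rw [Finset.mem_filter, Finset.mem_insert] at hx
                  rw [Finset.mem_insert, Finset.mem_filter]
                  rcases hx.1 with h | h
                  · exact Or.inl h
                  · exact Or.inr ⟨h, hx.2⟩
              _ ≤ _ := Finset.card_insert_le _ _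
          omega
        · exact hM e he
    calc (1 - q) ^ (s + 1) * (A.card : ℝ) = ((1 - q) * (A.card : ℝ)) * (1 - q) ^ s := by ring
      _ ≤ (G.card : ℝ) * (1 - q) ^ s := mul_le_mul_of_nonneg_right hGc hpow
      _ = ∑ S ∈ G, (1 - q) ^ s := by rw [Finset.sum_const, nsmul_eq_mul]
      _ ≤ ∑ S ∈ G, pr r s (V \ insert (mn V) S)
        (fun M => Eg L a (insert (insert (mn V) S) M)) := Finset.sum_le_sum hgood
      _ ≤ _ := Finset.sum_le_sum_of_subset_of_nonneg (Finset.filter_subset _ _)
          (fun S _ _ => pr_nonneg _ _ _ _)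

private theorem bad_count (W : Finset ℕ) (m b L : ℕ) :
    ((W.powersetCard m).filter (fun S => b ≤ (S.filter (fun x => x < L)).card)).card ≤
      L ^ b * W.card ^ (m - b) := by
  classical
  have h1 : (W.powersetCard m).filter (fun S => b ≤ (S.filter (fun x => x < L)).card) ⊆
      (((range L).powersetCard b) ×ˢ (W.powersetCard (m - b))).image (fun p => p.1 ∪ p.2) := by
    intro e he
    rw [mem_filter, mem_powersetCard] at he
    obtain ⟨⟨h1, h2⟩, h3⟩ := he
    obtain ⟨A, hA, hc⟩ := Finset.exists_subset_card_eq h3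
    have hAe : A ⊆ e := hA.trans (filter_subset _ _)
    rw [mem_image]
    refine ⟨(A, e \ A), ?_, ?_⟩
    · rw [mem_product, mem_powersetCard, mem_powersetCard]
      refine ⟨⟨?_, hc⟩, sdiff_subset.trans h1, ?_⟩
      · intro x hx
        exact mem_range.2 (mem_filter.1 (hA hx)).2
      · change (e \ A).card = m - b
        rw [card_sdiff_of_subset hAe, h2, hc]
    · exact union_sdiff_of_subset hAe
  refine (card_le_card h1).trans (card_image_le.trans ?_)
  rw [card_product, card_powersetCard, card_powersetCard, card_range]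
  exact Nat.mul_le_mul (Nat.choose_le_pow _ _) (Nat.choose_le_pow _ _)

private theorem bad_frac {r a n t : ℕ} (har : a ≤ r) (ha : 1 ≤ a) (hn : 1 ≤ n)
    (hnr : 2 * r ≤ n) (W : Finset ℕ) (hW : n ≤ W.card) :
    (((W.powersetCard (r - 1)).filter
        (fun S => a - 1 ≤ (S.filter (fun x => x < r * t)).card)).card : ℝ) ≤
      (2 ^ (r - 1) * (r - 1).factorial * (r : ℝ) ^ (a - 1)) * ((t : ℝ) / n) ^ (a - 1) *
        ((W.powersetCard (r - 1)).card : ℝ) := by
  have hn0 : (0 : ℝ) < n := by exact_mod_cast hn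
  have hw0 : (0 : ℝ) < (W.card : ℝ) := by exact_mod_cast (by omega : 0 < W.card)
  have h1 : (((W.powersetCard (r - 1)).filter
        (fun S => a - 1 ≤ (S.filter (fun x => x < r * t)).card)).card : ℝ) ≤
      ((r : ℝ) * t) ^ (a - 1) * (W.card : ℝ) ^ (r - 1 - (a - 1)) := by
    exact_mod_cast bad_count W (r - 1) (a - 1) (r * t)
  have h2 : (((W.card + 1 - (r - 1) : ℕ) : ℝ)) ^ (r - 1) ≤
      ((r - 1).factorial : ℝ) * (W.card.choose (r - 1) : ℝ) := by
    have h := Nat.pow_sub_le_descFactorial W.card (r - 1)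
    rw [Nat.descFactorial_eq_factorial_mul_choose] at h
    exact_mod_cast h
  have h3 : (W.card : ℝ) / 2 ≤ ((W.card + 1 - (r - 1) : ℕ) : ℝ) := by
    have : W.card ≤ 2 * (W.card + 1 - (r - 1)) := by omega
    have h : (W.card : ℝ) ≤ 2 * ((W.card + 1 - (r - 1) : ℕ) : ℝ) := by exact_mod_cast this
    linarith
  have h4 : ((W.card : ℝ) / 2) ^ (r - 1) ≤
      ((r - 1).factorial : ℝ) * (W.card.choose (r - 1) : ℝ) :=
    (pow_le_pow_left₀ (by positivity) h3 _).trans h2
  rw [div_pow, div_le_iff₀ (by positivity)] at h4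
  rw [card_powersetCard]
  refine h1.trans ?_
  have h5 : ((t : ℝ) / W.card) ^ (a - 1) ≤ ((t : ℝ) / n) ^ (a - 1) := by
    apply pow_le_pow_left₀ (by positivity)
    apply div_le_div_of_nonneg_left (by positivity) hn0
    exact_mod_cast hW
  have h6 : ((r : ℝ) * t) ^ (a - 1) * (W.card : ℝ) ^ (r - 1 - (a - 1)) =
      (r : ℝ) ^ (a - 1) * ((t : ℝ) / W.card) ^ (a - 1) * (W.card : ℝ) ^ (r - 1) := by
    have e1 : (W.card : ℝ) ^ (r - 1) = (W.card : ℝ) ^ (a - 1) * (W.card : ℝ) ^ (r - 1 - (a - 1)) := by
      rw [← pow_add]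
      congr 1
      omega
    rw [e1, mul_pow, div_pow]
    field_simp
  rw [h6]
  calc (r : ℝ) ^ (a - 1) * ((t : ℝ) / W.card) ^ (a - 1) * (W.card : ℝ) ^ (r - 1)
      ≤ (r : ℝ) ^ (a - 1) * ((t : ℝ) / n) ^ (a - 1) *
        (((r - 1).factorial : ℝ) * (W.card.choose (r - 1) : ℝ) * 2 ^ (r - 1)) := by
        apply mul_le_mul _ h4 (by positivity) (by positivity)
        exact mul_le_mul_of_nonneg_left h5 (by positivity)
    _ = _ := by ring

theorem win_up {r : ℕ} (hr : 2 ≤ r) {P : Set (List Bool)} {a : ℕ}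
    (ha : ∀ lam, Adm r P lam → a ≤ lam.headD 0) (hP : ∃ lam, Adm r P lam) (ha2 : 2 ≤ a) :
    ∃ R : ℕ, ∀ D : ℝ, 0 < D → ∃ ε : ℝ, 0 < ε ∧ ∃ n0 : ℕ, ∀ n t : ℕ, n0 ≤ n → 1 ≤ t → t ≤ n →
      (n : ℝ) * ((t : ℝ) / n) ^ a ≤ D →
      ε ≤ pr r t (range (r * n)) (fun M => z P M ≤ R) := by
  classical
  have har : a ≤ r := by
    obtain ⟨lam, hlam⟩ := hP
    have h1 := ha lam hlam
    have h2 := hlam.1
    cases lam with
    | nil =>
      have : a ≤ 0 := h1
      omega
    | cons x l =>
      have h3 : a ≤ x := h1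
      rw [List.sum_cons] at h2
      omega
  obtain ⟨R, hR⟩ := few_bad r hr P a (by
    intro w hw lam a' hsum htype
    exact ha (a' :: lam) ⟨hsum, w, hw, htype⟩)
  refine ⟨R, ?_⟩
  intro D hD
  set C1 : ℝ := 2 ^ (r - 1) * (r - 1).factorial * (r : ℝ) ^ (a - 1) with hC1
  have hr0 : (0 : ℝ) < r := by exact_mod_cast (by omega : 0 < r)
  have hC1p : 0 < C1 := by
    have : (0 : ℝ) < ((r - 1).factorial : ℝ) := by exact_mod_cast Nat.factorial_pos _
    positivity
  set δ : ℝ := min (1 / 4) (1 / (2 * C1)) with hδ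
  have hδp : 0 < δ := lt_min (by norm_num) (by positivity)
  obtain ⟨n1, hn1⟩ := exists_nat_gt (D / δ ^ a)
  refine ⟨Real.exp (-(2 * (C1 * D))), Real.exp_pos _, n1 + 2 * r + 1, ?_⟩
  intro n t hn ht htn hnD
  have hnpos : (0 : ℝ) < n := by exact_mod_cast (by omega : 0 < n)
  have htpos : (0 : ℝ) < t := by exact_mod_cast ht
  set x : ℝ := (t : ℝ) / n with hx
  have hx0 : 0 < x := div_pos htpos hnpos
  have hxδ : x ≤ δ := by
    by_contra hcon
    have hcon := not_le.1 hcon
    have h1 : δ ^ a < x ^ a := pow_lt_pow_left₀ hcon hδp.le (by omega)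
    have h2 : (n1 : ℝ) ≤ n := by exact_mod_cast (by omega : n1 ≤ n)
    have h3 : D / δ ^ a < n := lt_of_lt_of_le hn1 h2
    rw [div_lt_iff₀ (by positivity)] at h3
    have h4 := mul_lt_mul_of_pos_left h1 hnpos
    linarith
  have hx4 : x ≤ 1 / 4 := hxδ.trans (min_le_left _ _)
  have hxC : x ≤ 1 / (2 * C1) := hxδ.trans (min_le_right _ _)
  have h4t : 4 * t ≤ n := by
    rw [hx, div_le_iff₀ hnpos] at hx4
    have : (4 : ℝ) * t ≤ n := by linarith
    exact_mod_cast this
  set q : ℝ := C1 * x ^ (a - 1) with hq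
  have hq0 : 0 ≤ q := by positivity
  have hxa : x ^ (a - 1) ≤ x := by
    have h1 : x ^ (a - 1) ≤ x ^ 1 := pow_le_pow_of_le_one hx0.le (by linarith) (by omega)
    rwa [pow_one] at h1
  have hq2 : q ≤ 1 / 2 := by
    have h1 : C1 * x ^ (a - 1) ≤ C1 * (1 / (2 * C1)) :=
      mul_le_mul_of_nonneg_left (hxa.trans hxC) hC1p.le
    have h2 : C1 * (1 / (2 * C1)) = 1 / 2 := by field_simp
    rw [hq]
    linarith
  have hgen := general (r := r) (L := r * t) (a := a) (by omega) (by omega) (q := q) (by linarith)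
    (N0 := n) (fun W hW => bad_frac har (by omega) (by omega) (by omega) W hW) t (range (r * n)) (by
      rw [card_range]
      have h1 : 2 * n ≤ r * n := Nat.mul_le_mul_right n hr
      have h2 : r * (4 * t) ≤ r * n := Nat.mul_le_mul_left r h4t
      have h3 : r * (4 * t) = 4 * (r * t) := by ring
      omega)
  have hexp : Real.exp (-(2 * (C1 * D))) ≤ (1 - q) ^ t := by
    have h1 : Real.exp (-(2 * q)) ≤ 1 - q := by
      rw [Real.exp_neg]
      have h2 : 2 * q + 1 ≤ Real.exp (2 * q) := Real.add_one_le_exp _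
      rw [inv_le_comm₀ (Real.exp_pos _) (by linarith)]
      refine le_trans ?_ h2
      rw [inv_le_comm₀ (by linarith) (by linarith)]
      rw [← one_div, div_le_iff₀ (by linarith)]
      nlinarith
    have h3 : Real.exp (-(2 * q)) ^ t ≤ (1 - q) ^ t :=
      pow_le_pow_left₀ (Real.exp_pos _).le h1 _
    refine le_trans ?_ h3
    rw [← Real.exp_nat_mul]
    apply Real.exp_le_exp.2
    have h4 : (t : ℝ) * q = C1 * (n * x ^ a) := by
      have h5 : x ^ a = x ^ (a - 1) * x := by
        rw [← pow_succ]
        congr 1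
        omega
      have h6 : (n : ℝ) * x = t := by
        rw [hx]
        field_simp
      rw [hq, h5]
      calc (t : ℝ) * (C1 * x ^ (a - 1)) = C1 * x ^ (a - 1) * t := by ring
        _ = C1 * x ^ (a - 1) * (n * x) := by rw [h6]
        _ = _ := by ring
    have h7 : C1 * (n * x ^ a) ≤ C1 * D := mul_le_mul_of_nonneg_left hnD hC1p.le
    have h8 : (t : ℝ) * (-(2 * q)) = -(2 * ((t : ℝ) * q)) := by ring
    rw [h8, h4]
    linarith
  refine hexp.trans (hgen.trans (pr_mono r t _ _ _ ?_))
  intro M hM hE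
  have hcard : r * t ≤ (range (r * n)).card := by
    rw [card_range]
    exact Nat.mul_le_mul_left r htn
  obtain ⟨-, hfam, hsub⟩ := out_struct r t (by omega) (range (r * n)) hcard M hM
  obtain ⟨K, hKM, hKc, hKz⟩ := exists_clique P M
  have hFK : Fam r K := ⟨fun e he => hfam.1 e (hKM he),
    fun e he f hf hne => hfam.2 e (hKM he) f (hKM hf) hne⟩
  have hmin : ∀ e ∈ K, mn e < r * t := by
    intro e he
    obtain ⟨h1, h2⟩ := hsub e (hKM he)
    have hne : e.Nonempty := Finset.card_pos.1 (by rw [hFK.1 e he]; omega)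
    have h3 : mn e ∈ e := proc_mn_mem e hne
    have h4 : mn e < r * n := mem_range.1 (h1 h3)
    have h5 : (range (r * n)).filter (fun x => x < mn e) = range (mn e) := by
      ext x
      rw [mem_filter, mem_range, mem_range]
      constructor
      · exact fun h => h.2
      · exact fun h => ⟨by omega, h⟩
    rw [h5, card_range] at h2
    omega
  have h6 := hR K (r * t) hFK hKc hmin
  have h8 : K.filter (fun e => (e.filter (fun x => x < r * t)).card < a) = K :=
    Finset.filter_true_of_mem fun e he => hE e (hKM he)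
  rw [h8, hKz] at h6
  exact h6

end Pool.Agent.Work.MP_7d1693_pr.FX
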