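import Pool.Agent.Work.MP_7d1693_pr.FX.Cmp
import Pool.Agent.Work.MP_7d1693_pr.FX.Sand
import Pool.Agent.Work.MP_7d1693_pr.FX.WinUp
import Pool.Agent.Work.MP_7d1693_pr.FX.WinLow
import Pool.Agent.Work.MP_7d1693_pr.FX.RhoLe
import Pool.Agent.Work.MP_7d1693_pr.FX.R2
import Pool.Agent.Work.MP_7d1693_pr.FX.R3
import Pool.Agent.Work.MP_7d1693_pr.FX.OrdFull
import Pool.Agent.Work.MP_7d1693_pr.FX.OrdMis
import Pool.Agent.Work.MP_7d1693_pr.FX.UpMis
import Pool.Agent.Work.MP_7d1693_pr.FX.OrdCls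
import Pool.Agent.Work.MP_7d1693_pr.FM.Main
import Pool.Agent.Work.MP_7d1693_pr.FM.FixUp
import Pool.Agent.Work.MP_7d1693_pr.FM.FixLow
import Pool.Agent.Work.MP_7d1693_pr.FM.Small

/-! # Assembly of the hand-in -/

namespace Pool.Agent.Work.MP_7d1693_pr.FX

open Finset FM

/-- probability of an event for the random matching `M_t` on the vertices `0, ..., rn-1` -/
noncomputable def Prob (r n t : ℕ) (E : Set (Finset (Finset ℕ))) : ENNReal :=
  (process r t (range (r * n))).toOuterMeasure E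

/-- equal up to constants and bounded terms -/
def Cmp (g h : ℕ → ℕ → ℝ) : Prop :=
  ∃ K : ℝ, 0 < K ∧ ∀ n t : ℕ, 1 ≤ t → t ≤ n → g n t ≤ K * (h n t + 1) ∧ h n t ≤ K * (g n t + 1)

theorem cmp_of {r : ℕ} (hr : 2 ≤ r) {P : Set (List Bool)} {h : ℕ → ℕ → ℝ} (hh : ∀ n t, 0 ≤ h n t)
    (h2 : HasOrder r P h) : Cmp (fun n t => (gg r P n t : ℝ)) h := by
  obtain ⟨K1, hK1, h1⟩ := ord_cmp hh (order_gg hr P) h2
  obtain ⟨K2, hK2, h2⟩ := ord_cmp (h := fun n t => (gg r P n t : ℝ))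
    (fun n t => Nat.cast_nonneg _) h2 (order_gg hr P)
  refine ⟨max K1 K2, lt_max_of_lt_left hK1, fun n t ht htn => ⟨?_, ?_⟩⟩
  · refine (h1 n t ht htn).trans ?_
    exact mul_le_mul_of_nonneg_right (le_max_left _ _) (by linarith [hh n t])
  · refine (h2 n t ht htn).trans ?_
    apply mul_le_mul_of_nonneg_right (le_max_right _ _)
    positivity

end Pool.Agent.Work.MP_7d1693_pr.FX
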