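import Pool.Agent.Work.MP_7d1693_pr.FX.Defs
import Pool.Agent.Work.MP_7d1693_pr.FM.NoAdm
import Pool.Agent.Work.MP_7d1693_pr.FM.Main

/-! # Module Cmp: two orders of magnitude of the same variable are comparable -/

namespace Pool.Agent.Work.MP_7d1693_pr.FX

open Finset FM

theorem ord_cmp {r : ℕ} {P : Set (List Bool)} {g h : ℕ → ℕ → ℝ} (hh : ∀ n t, 0 ≤ h n t)
    (h1 : HasOrder r P g) (h2 : HasOrder r P h) :
    ∃ K : ℝ, 0 < K ∧ ∀ n t : ℕ, 1 ≤ t → t ≤ n → g n t ≤ K * (h n t + 1) := by
  obtain ⟨c1, C1, hc1, hC1, h1⟩ := h1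
  obtain ⟨c2, C2, hc2, hC2, h2⟩ := h2
  set m : ℝ := 4 * C2 + C2 + 1 with hm
  have hmC : C2 ≤ m := by rw [hm]; linarith
  have hm0 : 0 < m := by rw [hm]; positivity
  refine ⟨m / c1 + 4 * C1, by positivity, ?_⟩
  intro n t ht htn
  by_contra hcon
  push Not at hcon
  have hg1 : (1 : ℝ) ≤ h n t + 1 := by linarith [hh n t]
  have hg0 : 0 < h n t + 1 := by linarith
  have hA : m / c1 * (h n t + 1) < g n t := by
    refine lt_of_le_of_lt ?_ hcon
    apply mul_le_mul_of_nonneg_right _ hg0.le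
    linarith
  have hB : 4 * C1 < g n t := by
    refine lt_of_le_of_lt ?_ hcon
    have h3 : 0 ≤ m / c1 := by positivity
    nlinarith
  have hgp : 0 < g n t := by linarith
  obtain ⟨h1a, -⟩ := h1 n t ht htn
  obtain ⟨-, h2b⟩ := h2 n t ht htn
  have h2b := h2b m hmC
  set μ := (process r t (range (r * n))).toOuterMeasure with hμ
  have huniv : μ Set.univ = 1 := by
    rw [hμ, PMF.toOuterMeasure_apply]
    simp only [Set.indicator_univ]
    exact PMF.tsum_coe _
  have hcover : (Set.univ : Set (Finset (Finset ℕ))) ⊆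
      {M | (z P M : ℝ) < c1 * g n t} ∪ {M | m * (h n t + 1) ≤ (z P M : ℝ)} := by
    intro M _
    by_cases hz : (z P M : ℝ) < c1 * g n t
    · exact Or.inl hz
    · right
      rw [not_lt] at hz
      have h4 : m * (h n t + 1) ≤ c1 * g n t := by
        have h5 := mul_lt_mul_of_pos_left hA hc1
        have h6 : c1 * (m / c1 * (h n t + 1)) = m * (h n t + 1) := by field_simp
        linarith
      exact h4.trans hz
  have h3 : (1 : ENNReal) ≤ ENNReal.ofReal (C1 / g n t) +
      ENNReal.ofReal (C2 / (m * (h n t + 1))) := by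
    calc (1 : ENNReal) = μ Set.univ := huniv.symm
      _ ≤ μ ({M | (z P M : ℝ) < c1 * g n t} ∪ {M | m * (h n t + 1) ≤ (z P M : ℝ)}) :=
          MeasureTheory.measure_mono hcover
      _ ≤ μ {M | (z P M : ℝ) < c1 * g n t} + μ {M | m * (h n t + 1) ≤ (z P M : ℝ)} :=
          MeasureTheory.measure_union_le _ _
      _ ≤ _ := add_le_add h1a h2b
  rw [← ENNReal.ofReal_add (by positivity) (by positivity)] at h3
  have h4 : C1 / g n t ≤ 1 / 4 := by
    rw [div_le_iff₀ hgp]
    linarith
  have h5 : C2 / (m * (h n t + 1)) ≤ 1 / 4 := by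
    rw [div_le_iff₀ (by positivity)]
    have : m ≤ m * (h n t + 1) := by nlinarith
    rw [hm] at this ⊢
    linarith
  have h6 : ENNReal.ofReal (C1 / g n t + C2 / (m * (h n t + 1))) ≤ ENNReal.ofReal (1 / 2) :=
    ENNReal.ofReal_le_ofReal (by linarith)
  have h7 : (1 : ENNReal) ≤ ENNReal.ofReal (1 / 2) := h3.trans h6
  have h8 : ENNReal.ofReal (1 / 2) < 1 := by
    rw [← ENNReal.ofReal_one]
    exact ENNReal.ofReal_lt_ofReal_iff_of_nonneg (by norm_num) |>.2 (by norm_num)
  exact absurd h7 (not_le.2 h8)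

/-- the general order of magnitude -/
theorem order_gg {r : ℕ} (hr : 2 ≤ r) (P : Set (List Bool)) :
    HasOrder r P (fun n t => (gg r P n t : ℝ)) := by
  by_cases hP : ∃ lam, Adm r P lam
  · obtain ⟨c, C, hc, hC, h⟩ := (main r hr P).1 hP
    refine ⟨c, C, hc, hC, fun n t ht htn => ?_⟩
    obtain ⟨h1, h2, -⟩ := h n t ht htn
    exact ⟨h1, h2⟩
  · obtain ⟨R, hR⟩ := (main r hr P).2 hP
    refine ⟨1, R + 1, one_pos, by positivity, fun n t ht htn => ?_⟩
    have hg : gg r P n t = 0 := by
      unfold gg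
      have : {k : ℕ | ∃ lam, Adm r P lam ∧ (k : ℝ) ^ (r * k) ≤
          ((n : ℝ) * ((t : ℝ) / n) ^ (lam.headD 0)) ^ k * ac r P lam k} = ∅ := by
        ext k
        simp only [Set.mem_ofPred_eq, Set.mem_empty_iff_false, iff_false]
        rintro ⟨lam, h, -⟩
        exact hP ⟨lam, h⟩
      rw [this, csSup_empty]
      rfl
    constructor
    · have h0 : {M : Finset (Finset ℕ) | (z P M : ℝ) < 1 * (gg r P n t : ℝ)} = ∅ := by
        ext M
        simp only [Set.mem_ofPred_eq, Set.mem_empty_iff_false, iff_false, hg]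
        simp
      rw [h0]
      simp
    · intro m hm
      have h0 : {M : Finset (Finset ℕ) | m * ((gg r P n t : ℝ) + 1) ≤ (z P M : ℝ)} ⊆
          {M | R < z P M} := by
        intro M hM
        simp only [Set.mem_ofPred_eq, hg] at hM ⊢
        have : (R : ℝ) < z P M := by
          push_cast at hM
          linarith
        exact_mod_cast this
      have h1 := MeasureTheory.measure_mono (μ := (process r t (range (r * n))).toOuterMeasure) h0
      rw [hR n t ht htn] at h1
      exact h1.trans (by simp)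

end Pool.Agent.Work.MP_7d1693_pr.FX
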