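import Pool.Agent.Work.MP_7d1693_pr.FM.Defs
import Pool.Agent.Work.MP_7d1693_pr.FM.Fin1

/-! Definitions for the explicit evaluations. Everything here is proved. -/

namespace Pool.Agent.Work.MP_7d1693_pr.FX

open Finset FM

/-- the `r`-partite word with block signs `s 0, ..., s (r-1)` (`true` for the block `AB`) -/
def wd (r : ℕ) (s : ℕ → Bool) : List Bool := word ((List.range r).map fun j => (1, s j))

open Classical in
/-- the `P`-cliques whose edges are in the box -/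
noncomputable def ClA (r : ℕ) (P : Set (List Bool)) (B : Box) : Finset (Finset (Finset ℕ)) :=
  (Ebox r B).powerset.filter (fun K => Fam r K ∧ IsClique P K)

/-- generating function of the `P`-cliques in the box -/
noncomputable def ZB (r : ℕ) (P : Set (List Bool)) (B : Box) (X : ℝ) : ℝ :=
  ∑ K ∈ ClA r P B, X ^ K.card

/-- `phi` of the shape `lam` is at most `C k^(-p)` -/
def Ub (r : ℕ) (P : Set (List Bool)) (lam : List ℕ) (p : ℝ) : Prop :=
  ∃ C : ℝ, 0 < C ∧ ∀ k : ℕ, 1 ≤ k → phi r P lam k ≤ C * (k : ℝ) ^ (-p)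

/-- `phi` of the shape `lam` is at least `c k^(-p)` -/
def Lb (r : ℕ) (P : Set (List Bool)) (lam : List ℕ) (p : ℝ) : Prop :=
  ∃ c : ℝ, 0 < c ∧ ∀ k : ℕ, 1 ≤ k → c * (k : ℝ) ^ (-p) ≤ phi r P lam k

/-- the order of magnitude of `z P` after `t` steps is `g n t`, with quantitative error terms -/
def HasOrder (r : ℕ) (P : Set (List Bool)) (g : ℕ → ℕ → ℝ) : Prop :=
  ∃ c C : ℝ, 0 < c ∧ 0 < C ∧ ∀ n t : ℕ, 1 ≤ t → t ≤ n →
    (process r t (range (r * n))).toOuterMeasure {M | (z P M : ℝ) < c * g n t} ≤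
      ENNReal.ofReal (C / g n t) ∧
    ∀ m : ℝ, C ≤ m →
      (process r t (range (r * n))).toOuterMeasure {M | m * (g n t + 1) ≤ (z P M : ℝ)} ≤
        ENNReal.ofReal (C / (m * (g n t + 1)))

/-- `x ≤ j * N + ...`: the `r`-set with the element `j * N + x j` in the `j`-th interval of length
`N` -/
def enc (r N : ℕ) (x : Fin r → ℕ) : Finset ℕ := Finset.univ.image fun j : Fin r => (j : ℕ) * N + x j

/-- `F` is a set of arcs `(a, x, y)`, `x < y`, with labels `a` in `A` and end points in `V`; every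
label and every point is used exactly once -/
def IsArcs (A V : Finset ℕ) (F : Finset (ℕ × ℕ × ℕ)) : Prop :=
  (∀ p ∈ F, p.1 ∈ A ∧ p.2.1 ∈ V ∧ p.2.2 ∈ V ∧ p.2.1 < p.2.2) ∧
  (∀ a ∈ A, ∃ p ∈ F, p.1 = a) ∧ (∀ v ∈ V, ∃ p ∈ F, p.2.1 = v ∨ p.2.2 = v) ∧
  ∀ p ∈ F, ∀ q ∈ F, p ≠ q →
    p.1 ≠ q.1 ∧ p.2.1 ≠ q.2.1 ∧ p.2.1 ≠ q.2.2 ∧ p.2.2 ≠ q.2.1 ∧ p.2.2 ≠ q.2.2

open Classical in
/-- number of sets of arcs all whose pairs have the property `Q` -/
noncomputable def arcN (A V : Finset ℕ) (Q : ℕ × ℕ × ℕ → ℕ × ℕ × ℕ → Prop) : ℕ :=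
  ((A ×ˢ V ×ˢ V).powerset.filter (fun F => IsArcs A V F ∧ ∀ p ∈ F, ∀ q ∈ F, Q p q)).card

/-- no nesting -/
def Qa (p q : ℕ × ℕ × ℕ) : Prop := ¬ (p.2.1 < q.2.1 ∧ q.2.2 < p.2.2)

/-- no crossing -/
def Qb (p q : ℕ × ℕ × ℕ) : Prop := ¬ (p.2.1 < q.2.1 ∧ q.2.1 < p.2.2 ∧ p.2.2 < q.2.2)

/-- the labels of intersecting arcs are ordered as the left end points -/
def Qc (p q : ℕ × ℕ × ℕ) : Prop := ¬ (p.1 < q.1 ∧ q.2.1 < p.2.1 ∧ p.2.1 < q.2.2)

/-- the labels of intersecting arcs are ordered opposite to the left end points -/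
def Qd (p q : ℕ × ℕ × ℕ) : Prop := ¬ (p.1 < q.1 ∧ p.2.1 < q.2.1 ∧ q.2.1 < p.2.2)

/-- the labels of intersecting arcs are ordered as the right end points -/
def Qe (p q : ℕ × ℕ × ℕ) : Prop := ¬ (p.1 < q.1 ∧ q.2.2 < p.2.2 ∧ p.2.1 < q.2.2)

/-- the labels of intersecting arcs are ordered opposite to the right end points -/
def Qf (p q : ℕ × ℕ × ℕ) : Prop := ¬ (p.1 < q.1 ∧ p.2.2 < q.2.2 ∧ q.2.1 < p.2.2)

/-- the four 3-partite words ABABAB, ABABBA, ABBAAB, ABBABA -/
def W3 : Fin 4 → List Bool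
  | 0 => [true, false, true, false, true, false]
  | 1 => [true, false, true, false, false, true]
  | 2 => [true, false, false, true, true, false]
  | 3 => [true, false, false, true, false, true]

/-- the two words of type (1,2): ABAABB, ABBBAA -/
def W12 : Fin 2 → List Bool
  | 0 => [true, false, true, true, false, false]
  | 1 => [true, false, false, false, true, true]

/-- the two words of type (2,1): AABBAB, AABBBA -/
def W21 : Fin 2 → List Bool
  | 0 => [true, true, false, false, true, false]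
  | 1 => [true, true, false, false, false, true]

/-- the word AAABBB -/
def W30 : List Bool := [true, true, true, false, false, false]

open Classical in
/-- number of the words `w i` in `P` -/
noncomputable def cnt {m : ℕ} (P : Set (List Bool)) (w : Fin m → List Bool) : ℕ :=
  (Finset.univ.filter fun i => w i ∈ P).card

open Classical in
/-- the order of magnitude of `z P` after `t` steps for `r = 3` -/
noncomputable def g3 (P : Set (List Bool)) (n t : ℕ) : ℝ :=
  max (if cnt P W3 = 4 then (t : ℝ) else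
      if cnt P W3 = 3 then (t : ℝ) ^ (2 / 3 : ℝ) else
      if cnt P W3 = 2 ∨ cnt P W12 = 2 then (t : ℝ) ^ (1 / 2 : ℝ) else
      if cnt P W3 = 1 ∨ cnt P W12 = 1 then (t : ℝ) ^ (1 / 3 : ℝ) else 0)
    (max (if cnt P W21 = 2 then ((t : ℝ) ^ 2 / n) ^ (1 / 2 : ℝ) else
        if cnt P W21 = 1 then ((t : ℝ) ^ 2 / n) ^ (1 / 3 : ℝ) else 0)
      (if W30 ∈ P then ((t : ℝ) ^ 3 / (n : ℝ) ^ 2) ^ (1 / 3 : ℝ) else 0))

open Classical in
/-- the order of magnitude of `z P` after `t` steps for `r = 2`; the words are ABAB, ABBA, AABB -/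
noncomputable def g2 (P : Set (List Bool)) (n t : ℕ) : ℝ :=
  if [true, false, true, false] ∈ P ∧ [true, false, false, true] ∈ P then (t : ℝ) else
  if [true, false, true, false] ∈ P ∨ [true, false, false, true] ∈ P then
    (t : ℝ) ^ (1 / 2 : ℝ) else
  if [true, true, false, false] ∈ P then ((t : ℝ) ^ 2 / n) ^ (1 / 2 : ℝ) else 0

end Pool.Agent.Work.MP_7d1693_pr.FX
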