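import Pool.Agent.Work.MP_7d1693_pr.FX.Asm

/-! # Final pieces of the hand-in -/

namespace Pool.Agent.Work.MP_7d1693_pr.FX

open Finset FM

theorem Prob_eq {r n t : ℕ} (hr : 2 ≤ r) (htn : t ≤ n) (E : Finset (Finset ℕ) → Prop) :
    Prob r n t {M | E M} = ENNReal.ofReal (pr r t (range (r * n)) E) := by
  unfold Prob
  apply process_eq r t (by omega)
  rw [card_range]
  exact Nat.mul_le_mul_left r htn

theorem window {r : ℕ} (hr : 2 ≤ r) {P : Set (List Bool)} {a : ℕ}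
    (ha : IsLeast {a | ∃ lam, Adm r P lam ∧ lam.headD 0 = a} a) (ha2 : 2 ≤ a) :
    ∃ R : ℕ, ∀ D : ℝ, 0 < D → ∀ k : ℕ, ∃ ε : ℝ, 0 < ε ∧ ∃ n0 : ℕ, ∀ n t : ℕ,
        n0 ≤ n → 1 ≤ t → t ≤ n → 1 / D ≤ (n : ℝ) * ((t : ℝ) / n) ^ a →
        (n : ℝ) * ((t : ℝ) / n) ^ a ≤ D →
        ENNReal.ofReal ε ≤ Prob r n t {M | z P M ≤ R} ∧
        ENNReal.ofReal ε ≤ Prob r n t {M | k ≤ z P M} := by
  obtain ⟨⟨lam0, hlam0, hlam0a⟩, hmin⟩ := ha
  have hall : ∀ lam, Adm r P lam → a ≤ lam.headD 0 := fun lam h => hmin ⟨lam, h, rfl⟩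
  obtain ⟨R, hR⟩ := win_up hr hall ⟨lam0, hlam0⟩ ha2
  refine ⟨R, fun D hD k => ?_⟩
  obtain ⟨ε1, hε1, n1, h1⟩ := hR D hD
  obtain ⟨hne, hrho⟩ := rho_head (by omega) hlam0 (max k 1)
  rw [hlam0a] at hrho
  obtain ⟨ε2, hε2, n2, h2⟩ := win_low hr P (le_max_right k 1) hne (D := 1 / D) (by positivity)
  refine ⟨min ε1 ε2, lt_min hε1 hε2,
    max (max n1 n2) (⌈D * ((r * max k 1 : ℕ) : ℝ) ^ a⌉₊ + 1), ?_⟩
  intro n t hn ht htn hlo hup
  have hn1 : n1 ≤ n := le_trans (le_trans (le_max_left _ _) (le_max_left _ _)) hn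
  have hn2 : n2 ≤ n := le_trans (le_trans (le_max_right _ _) (le_max_left _ _)) hn
  have hn3 : ⌈D * ((r * max k 1 : ℕ) : ℝ) ^ a⌉₊ + 1 ≤ n := le_trans (le_max_right _ _) hn
  have hnpos : 0 < n := by omega
  have hnR : (0 : ℝ) < n := by exact_mod_cast hnpos
  have htR : (1 : ℝ) ≤ t := by exact_mod_cast ht
  have htnR : (t : ℝ) ≤ n := by exact_mod_cast htn
  constructor
  · rw [Prob_eq hr htn]
    exact ENNReal.ofReal_le_ofReal ((min_le_left _ _).trans (h1 n t hn1 ht htn hup))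
  · have hsub : {M : Finset (Finset ℕ) | max k 1 ≤ z P M} ⊆ {M | k ≤ z P M} := fun M hM =>
      le_trans (le_max_left k 1) hM
    refine le_trans ?_ (MeasureTheory.measure_mono (μ := (process r t (range (r * n))).toOuterMeasure)
      hsub)
    change _ ≤ Prob r n t {M | max k 1 ≤ z P M}
    rw [Prob_eq hr htn]
    refine ENNReal.ofReal_le_ofReal ((min_le_right _ _).trans (h2 n t hn2 ?_ htn ?_))
    · by_contra hlt
      push Not at hlt
      have hlt' : (t : ℝ) ≤ ((r * max k 1 : ℕ) : ℝ) := by exact_mod_cast hlt.le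
      have h3 : (n : ℝ) * ((t : ℝ) / n) ^ a = t ^ a / n ^ (a - 1) := by
        obtain ⟨a', rfl⟩ : ∃ a', a = a' + 1 := ⟨a - 1, by omega⟩
        simp only [Nat.add_sub_cancel]
        rw [div_pow]
        field_simp
        ring
      rw [h3, div_le_div_iff₀ hD (by positivity), one_mul] at hlo
      have h4 : (n : ℝ) ≤ (n : ℝ) ^ (a - 1) := by
        have : (n : ℝ) ^ 1 ≤ (n : ℝ) ^ (a - 1) :=
          pow_le_pow_right₀ (by linarith) (by omega)
        simpa using this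
      have h5 : (t : ℝ) ^ a ≤ ((r * max k 1 : ℕ) : ℝ) ^ a :=
        pow_le_pow_left₀ (by linarith) hlt' a
      have h6 : (n : ℝ) ≤ D * ((r * max k 1 : ℕ) : ℝ) ^ a := by
        nlinarith
      have h7 : (n : ℝ) ≤ (⌈D * ((r * max k 1 : ℕ) : ℝ) ^ a⌉₊ : ℝ) :=
        h6.trans (Nat.le_ceil _)
      have h8 : n ≤ ⌈D * ((r * max k 1 : ℕ) : ℝ) ^ a⌉₊ := by exact_mod_cast h7
      omega
    · refine hlo.trans ?_
      apply mul_le_mul_of_nonneg_left _ hnR.le
      apply pow_le_pow_of_le_one (by positivity) _ hrho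
      rw [div_le_one hnR]
      exact htnR

theorem up_mis' {r : ℕ} (hr : 2 ≤ r) {P : Set (List Bool)} (u : ℕ → Bool) (hu : u 0 = true)
    (h : wd r u ∉ P) :
    ∃ K : ℝ, 0 < K ∧ ∀ n t : ℕ, 1 ≤ t → t ≤ n →
        (gg r P n t : ℝ) ≤ K * (t : ℝ) ^ (1 - 1 / (r : ℝ)) := by
  obtain ⟨C, hC, hup⟩ := up_mis hr u hu h
  obtain ⟨c1, C1, hc1, hC1, hg⟩ := order_gg hr P
  set m : ℝ := 4 * C + C + 1 with hm
  have hm0 : 0 < m := by rw [hm]; positivity
  have hmC : C ≤ m := by rw [hm]; linarith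
  refine ⟨m / c1 + 4 * C1, by positivity, ?_⟩
  intro n t ht htn
  by_contra hcon
  push Not at hcon
  set q : ℝ := 1 - 1 / (r : ℝ) with hq
  have hrR : (2 : ℝ) ≤ r := by exact_mod_cast hr
  have hq0 : 0 ≤ q := by
    rw [hq]
    have : 1 / (r : ℝ) ≤ 1 / 2 := one_div_le_one_div_of_le (by norm_num) hrR
    linarith
  have htR : (1 : ℝ) ≤ t := by exact_mod_cast ht
  have hT : (1 : ℝ) ≤ (t : ℝ) ^ q := Real.one_le_rpow htR hq0
  set T : ℝ := (t : ℝ) ^ q with hTdef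
  have hgpos : 0 < (gg r P n t : ℝ) := lt_of_le_of_lt (by positivity) hcon
  obtain ⟨h1, -⟩ := hg n t ht htn
  have h2 := hup n t ht htn m hmC
  have hge : m * T < c1 * gg r P n t := by
    have h3 : (m / c1) * T ≤ (m / c1 + 4 * C1) * T := by
      have : 0 ≤ 4 * C1 * T := by positivity
      nlinarith
    have h4 : (m / c1) * T < gg r P n t := lt_of_le_of_lt h3 hcon
    have h5 : m * T = c1 * ((m / c1) * T) := by field_simp
    rw [h5]
    exact mul_lt_mul_of_pos_left h4 hc1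
  have huniv : (Set.univ : Set (Finset (Finset ℕ))) ⊆
      {M | (z P M : ℝ) < c1 * gg r P n t} ∪ {M | m * T ≤ (z P M : ℝ)} := by
    intro M _
    by_cases h : (z P M : ℝ) < c1 * gg r P n t
    · exact Or.inl h
    · right
      change m * T ≤ (z P M : ℝ)
      linarith [not_lt.1 h]
  have h3 : (1 : ENNReal) ≤ ENNReal.ofReal (C1 / gg r P n t) + ENNReal.ofReal (C / (m * T)) := by
    have h4 : (process r t (range (r * n))).toOuterMeasure Set.univ = 1 := by
      rw [PMF.toOuterMeasure_apply_eq_one_iff]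
      exact Set.subset_univ _
    calc (1 : ENNReal) = (process r t (range (r * n))).toOuterMeasure Set.univ := h4.symm
      _ ≤ (process r t (range (r * n))).toOuterMeasure
          ({M | (z P M : ℝ) < c1 * gg r P n t} ∪ {M | m * T ≤ (z P M : ℝ)}) :=
        MeasureTheory.measure_mono huniv
      _ ≤ _ := (MeasureTheory.measure_union_le _ _).trans (add_le_add h1 h2)
  have h5 : C1 / (gg r P n t : ℝ) ≤ 1 / 4 := by
    rw [div_le_div_iff₀ hgpos (by norm_num)]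
    have : 4 * C1 * 1 ≤ 4 * C1 * T := by gcongr
    have h6 : 4 * C1 * T ≤ (m / c1 + 4 * C1) * T := by
      have : 0 ≤ (m / c1) * T := by positivity
      nlinarith
    linarith
  have h6 : C / (m * T) ≤ 1 / 4 := by
    rw [div_le_div_iff₀ (by positivity) (by norm_num)]
    have : m * 1 ≤ m * T := by gcongr
    rw [hm] at this ⊢
    linarith
  rw [← ENNReal.ofReal_add (by positivity) (by positivity)] at h3
  have h7 : ENNReal.ofReal (C1 / gg r P n t + C / (m * T)) ≤ ENNReal.ofReal (1 / 2) :=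
    ENNReal.ofReal_le_ofReal (by linarith)
  have h8 : ENNReal.ofReal (1 / 2) < 1 := by
    rw [← ENNReal.ofReal_one]
    exact ENNReal.ofReal_lt_ofReal_iff_of_nonneg (by norm_num) |>.2 (by norm_num)
  exact absurd (h3.trans h7) (not_le.2 h8)

end Pool.Agent.Work.MP_7d1693_pr.FX
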