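import Pool.Agent.Work.MP_7d1693_pr.FX.Defs
import Pool.Agent.Work.MP_7d1693_pr.FX.Ev
import Pool.Agent.Work.MP_7d1693_pr.FX.ClsLb
import Pool.Agent.Work.MP_7d1693_pr.FX.ClsUb
import Pool.Agent.Work.MP_7d1693_pr.FX.WdType

/-! # Module OrdCls (S-M): class patterns

`P` consists of `r`-partite words, so the only admissible type is `List.replicate r 1` (`wd_type`), and it is admissible: take `s = u` if `u 0 = true`, else the negation of `u` (`wd_hasType`; the condition on `s` holds). `q` = number of classes, `1 ≤ q ≤ r`, `p = r + 1 - q ≥ 1`. `cls_ub` (hypothesis by `wd_inj`: if `wd r s ∈ P` then `wd r s = wd r s'` with `s'`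
satisfying the condition, so `s i = s' i` for `i < r`), `cls_lb`, `ev` with `n (t/n)^1 = t`. -/

namespace Pool.Agent.Work.MP_7d1693_pr.FX

open Finset FM

theorem order_cls {r : ℕ} (hr : 2 ≤ r) {P : Set (List Bool)} (κ : ℕ → ℕ) (u : ℕ → Bool)
    (h : ∀ w, w ∈ P ↔ ∃ s : ℕ → Bool, s 0 = true ∧
      (∀ i < r, ∀ j < r, κ i = κ j → (s i = s j ↔ u i = u j)) ∧ w = wd r s) :
    HasOrder r P (fun _ t => (t : ℝ) ^ (1 / ((r : ℝ) + 1 - ((range r).image κ).card))) := by
  classical
  set q : ℕ := ((range r).image κ).card with hq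
  have hq1 : 1 ≤ q := by
    rw [hq, Nat.one_le_iff_ne_zero, ← Nat.pos_iff_ne_zero, card_pos, image_nonempty]
    exact ⟨0, mem_range.2 (by omega)⟩
  have hqr : q ≤ r := by
    rw [hq]
    exact card_image_le.trans (card_range r).le
  have hqr' : (q : ℝ) ≤ r := by exact_mod_cast hqr
  have hp : (0 : ℝ) < (r : ℝ) + 1 - q := by linarith
  have hone : (List.replicate r 1).headD 0 = 1 := by
    obtain ⟨m, rfl⟩ : ∃ m, r = m + 1 := ⟨r - 1, by omega⟩
    rfl
  have hnt : ∀ n t : ℕ, 1 ≤ t → t ≤ n → (n : ℝ) * ((t : ℝ) / n) ^ 1 = t := by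
    intro n t ht htn
    have : (0 : ℝ) < n := by exact_mod_cast (by omega : 0 < n)
    rw [pow_one]
    field_simp
  have hadm : Adm r P (List.replicate r 1) := by
    refine ⟨by simp, ?_⟩
    refine ⟨wd r (fun i => if u 0 = true then u i else !(u i)), ?_, wd_hasType (by omega) ?_⟩
    · rw [h]
      refine ⟨_, ?_, ?_, rfl⟩
      · rcases hu : u 0 with _ | _ <;> simp
      · intro i _ j _ _
        rcases hu : u 0 with _ | _ <;> simp
    · rcases hu : u 0 with _ | _ <;> simp
  have honly : ∀ lam, Adm r P lam → lam = List.replicate r 1 := by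
    rintro lam ⟨_, w, hw, hty⟩
    obtain ⟨s, _, _, rfl⟩ := (h w).1 hw
    exact wd_type hty
  have hub : Ub r P (List.replicate r 1) ((r : ℝ) + 1 - q) := by
    apply cls_ub (by omega) κ u
    intro s _ hs i hi j hj hij
    obtain ⟨s', _, hs', he⟩ := (h _).1 hs
    rw [wd_inj he i hi, wd_inj he j hj]
    exact hs' i hi j hj hij
  have hlb : Lb r P (List.replicate r 1) ((r : ℝ) + 1 - q) := by
    apply cls_lb (by omega) κ u
    intro s hs0 hs
    exact (h _).2 ⟨s, hs0, hs, rfl⟩
  refine ev hr ⟨_, hadm⟩ _ (fun n t => Real.rpow_nonneg (Nat.cast_nonneg _) _) ?_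
    [(List.replicate r 1, (r : ℝ) + 1 - q)] ?_ ⟨1, one_pos, ?_⟩
  · intro lam hlam
    rw [honly lam hlam]
    refine ⟨(r : ℝ) + 1 - q, hp, hub, 1, one_pos, ?_⟩
    intro n t ht htn
    rw [hone, hnt n t ht htn]
    linarith
  · intro x hx
    rw [List.mem_singleton] at hx
    subst hx
    exact ⟨hadm, hp, hlb⟩
  · intro n t ht htn
    right
    refine ⟨_, List.mem_singleton.2 rfl, ?_⟩
    simp only []
    rw [hone, hnt n t ht htn, one_mul]

end Pool.Agent.Work.MP_7d1693_pr.FX
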